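import Pool.Agent.Lib.MP_f58a57_nt.L.A3_Gelf

/-! # L/A4_Factor: an irreducible factor with a small value -/

open Polynomial

noncomputable section

namespace Pool.Agent.MSL

open MSD MSP

theorem a4_len2_neg (p : BP) : len2 (-p) = len2 p := by
  unfold len2
  rw [support_neg]
  apply Finset.sum_congr rfl
  intro j _
  rw [coeff_neg, len_neg]

theorem a4_dX_neg (p : BP) : dX (-p) = dX p := by
  unfold dX
  rw [support_neg]
  apply Finset.sup_congr rfl
  intro j _
  rw [coeff_neg, natDegree_neg]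

theorem a4_unit (u : BP) (hu : IsUnit u) : u = 1 ∨ u = -1 := by
  rw [Polynomial.isUnit_iff] at hu
  obtain ⟨r, hr, rfl⟩ := hu
  rw [Polynomial.isUnit_iff] at hr
  obtain ⟨m, hm, rfl⟩ := hr
  rcases Int.isUnit_iff.1 hm with rfl | rfl
  · left; simp
  · right; simp

theorem a4_const (b : BP) (h : dX b + b.natDegree = 0) : ∃ m : ℤ, b = C (C m) := by
  have h1 : b.natDegree = 0 := by omega
  have h2 : dX b = 0 := by omega
  have h3 := natDegree_coeff_le b 0
  rw [h2] at h3
  refine ⟨(b.coeff 0).coeff 0, ?_⟩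
  rw [← eq_C_of_natDegree_le_zero h3]
  exact eq_C_of_natDegree_eq_zero h1

theorem a4_ev2_const (m : ℤ) (x y : ℂ) : ev2 (C (C m)) x y = m := by
  unfold ev2 sp
  rw [Polynomial.map_C, eval_C]
  simp

theorem a4_prod (f : Multiset BP) (h : ∀ b ∈ f, b ≠ 0) (x y : ℂ) : f.prod ≠ 0 ∧
    (f.map fun b => dX b + b.natDegree).sum = dX f.prod + f.prod.natDegree ∧
    (f.map fun b => ‖ev2 b x y‖).prod = ‖ev2 f.prod x y‖ ∧
    Real.log (f.map len2).prod = (f.map fun b => Real.log (len2 b)).sum ∧ 0 < (f.map len2).prod := by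
  induction f using Multiset.induction_on with
  | empty =>
    refine ⟨?_, ?_, ?_, ?_, ?_⟩
    · simp
    · simp only [Multiset.map_zero, Multiset.sum_zero, Multiset.prod_zero, natDegree_one, add_zero]
      have : dX (1 : BP) = 0 := by
        have h1 := dX_mul 1 1 one_ne_zero one_ne_zero
        rw [mul_one] at h1
        omega
      rw [this]
    · simp only [Multiset.map_zero, Multiset.prod_zero]
      rw [ev2_one, norm_one]
    · simp
    · simp
  | cons a s ih =>
    obtain ⟨i1, i2, i3, i4, i5⟩ := ih (fun b hb => h b (Multiset.mem_cons_of_mem hb))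
    have ha := h a (Multiset.mem_cons_self a s)
    have hl : 0 < len2 a := lt_of_lt_of_le one_pos (one_le_len2 a ha)
    refine ⟨?_, ?_, ?_, ?_, ?_⟩
    · rw [Multiset.prod_cons]; exact mul_ne_zero ha i1
    · rw [Multiset.map_cons, Multiset.sum_cons, i2, Multiset.prod_cons, dX_mul a _ ha i1,
        natDegree_mul ha i1]
      omega
    · rw [Multiset.map_cons, Multiset.prod_cons, i3, Multiset.prod_cons, ev2_mul, norm_mul]
    · rw [Multiset.map_cons, Multiset.prod_cons, Real.log_mul (ne_of_gt hl) (ne_of_gt i5), i4,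
        Multiset.map_cons, Multiset.sum_cons]
    · rw [Multiset.map_cons, Multiset.prod_cons]; exact mul_pos hl i5

theorem a4_exp (f : Multiset BP) (g v : BP → ℝ) (h : ∀ b ∈ f, Real.exp (-(g b)) ≤ v b) :
    Real.exp (-(f.map g).sum) ≤ (f.map v).prod := by
  induction f using Multiset.induction_on with
  | empty => simp
  | cons a s ih =>
    rw [Multiset.map_cons, Multiset.map_cons, Multiset.sum_cons, Multiset.prod_cons, neg_add,
      Real.exp_add]
    exact mul_le_mul (h a (Multiset.mem_cons_self a s))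
      (ih (fun b hb => h b (Multiset.mem_cons_of_mem hb))) (Real.exp_nonneg _)
      (le_trans (Real.exp_nonneg _) (h a (Multiset.mem_cons_self a s)))

theorem a4_sum (f : Multiset BP) (c : ℝ) : (f.map fun b => c * (((dX b + b.natDegree : ℕ) : ℝ)
    + Real.log (len2 b))).sum = c * ((((f.map fun b => dX b + b.natDegree).sum : ℕ) : ℝ)
    + (f.map fun b => Real.log (len2 b)).sum) := by
  induction f using Multiset.induction_on with
  | empty => simp
  | cons a s ih =>
    simp only [Multiset.map_cons, Multiset.sum_cons]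
    rw [ih]
    push_cast
    ring

/-- A4. PROOF. `WfDvdMonoid.exists_factors`: a multiset `f` of irreducible elements whose product is associated to `P`; a unit of `ℤ[X][Y]` is `± 1` (`Polynomial.isUnit_iff`), so `P = ± f.prod`, same value up to sign, same length, same degrees. With `s(b) = dX b + natDegree b + log (len2 b) ≥ 0`:
`∑_(b ∈ f) s(b) ≤ S + (S log 4 + S) ≤ 4 S` (`dX_mul`, `natDegree_mul`: induction over the multiset; `gelfond2`). If all `b ∈ f` had `‖ev2 b θ‖ > exp(-(κ/(5S)) s(b))` then `exp(-κ) ≥ ‖ev2 P θ‖ ≥ exp(-(κ/(5S)) 4S)`, a contradiction as `κ > 0` (also if `f` is empty).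
So there is `b ∈ f` with `‖ev2 b θ‖ ≤ exp(-(κ/(5S)) s(b))`. It is not constant: if `dX b = natDegree b = 0` then `b = C (C m)` with `|m| ≥ 2` (not a unit), `‖ev2 b θ‖ = |m| > 1` but the right hand side is `≤ 1`. -/
theorem exists_factor2 (P : BP) (x y : ℂ) (S κ : ℝ) (hS : 0 < S) (hκ : 0 < κ) (hP : ev2 P x y ≠ 0) (hd : ((dX P + P.natDegree : ℕ) : ℝ) ≤ S)
    (hl : Real.log (len2 P) ≤ S) (hs : ‖ev2 P x y‖ ≤ Real.exp (-κ)) :
    ∃ b : BP, Irreducible b ∧ b ∣ P ∧ 1 ≤ dX b + b.natDegree ∧
      ‖ev2 b x y‖ ≤ Real.exp (-(κ / (5 * S) * (((dX b + b.natDegree : ℕ) : ℝ) + Real.log (len2 b)))) := by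
  have hP0 : P ≠ 0 := by
    rintro rfl
    apply hP
    unfold ev2 sp
    simp
  obtain ⟨f, hf, u, hu⟩ := WfDvdMonoid.exists_factors P hP0
  have hfn : ∀ b ∈ f, b ≠ 0 := fun b hb => (hf b hb).ne_zero
  obtain ⟨q1, q2, q3, q4, q5⟩ := a4_prod f hfn x y
  have hgel := gelfond2 f hfn
  have key : dX f.prod = dX P ∧ f.prod.natDegree = P.natDegree ∧ len2 f.prod = len2 P ∧
      ‖ev2 f.prod x y‖ = ‖ev2 P x y‖ := by
    rcases a4_unit (u : BP) u.isUnit with h1 | h1
    · rw [h1, mul_one] at hu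
      rw [hu]
      exact ⟨rfl, rfl, rfl, rfl⟩
    · have hu2 : P = -f.prod := by
        rw [← hu, h1]; ring
      rw [hu2, a4_dX_neg, natDegree_neg, a4_len2_neg, ev2_neg, norm_neg]
      exact ⟨rfl, rfl, rfl, rfl⟩
  obtain ⟨k1, k2, k3, k4⟩ := key
  rw [q2, k1, k2, k3] at hgel
  have hlP : 0 < len2 P := lt_of_lt_of_le one_pos (one_le_len2 P hP0)
  have hlog : (f.map fun b => Real.log (len2 b)).sum ≤
      ((dX P + P.natDegree : ℕ) : ℝ) * Real.log 4 + Real.log (len2 P) := by
    rw [← q4]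
    calc Real.log (f.map len2).prod ≤ Real.log (4 ^ (dX P + P.natDegree) * len2 P) :=
          Real.log_le_log q5 hgel
      _ = ((dX P + P.natDegree : ℕ) : ℝ) * Real.log 4 + Real.log (len2 P) := by
          rw [Real.log_mul (by positivity) (ne_of_gt hlP), Real.log_pow]
  have hlog4 : Real.log 4 ≤ 2 := by
    have h1 : Real.log 4 = 2 * Real.log 2 := by
      rw [show (4 : ℝ) = 2 ^ 2 by norm_num, Real.log_pow]; norm_num
    have h2 := Real.log_two_lt_d9
    linarith
  have hlog40 : 0 ≤ Real.log 4 := Real.log_nonneg (by norm_num)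
  have hcon : ∃ b ∈ f, ‖ev2 b x y‖ ≤
      Real.exp (-(κ / (5 * S) * (((dX b + b.natDegree : ℕ) : ℝ) + Real.log (len2 b)))) := by
    by_contra hc
    push Not at hc
    have h1 := a4_exp f (fun b => κ / (5 * S) * (((dX b + b.natDegree : ℕ) : ℝ)
      + Real.log (len2 b))) (fun b => ‖ev2 b x y‖) (fun b hb => (hc b hb).le)
    rw [a4_sum, q3, k4, q2, k1, k2] at h1
    have h2 := le_trans h1 hs
    rw [Real.exp_le_exp, neg_le_neg_iff] at h2
    have hd0 : (0 : ℝ) ≤ ((dX P + P.natDegree : ℕ) : ℝ) := Nat.cast_nonneg _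
    have h3 : ((dX P + P.natDegree : ℕ) : ℝ) + (f.map fun b => Real.log (len2 b)).sum
        ≤ 4 * S := by
      have h4 : ((dX P + P.natDegree : ℕ) : ℝ) * Real.log 4 ≤ S * 2 :=
        mul_le_mul hd hlog4 hlog40 hS.le
      linarith
    have h5 : κ / (5 * S) * (((dX P + P.natDegree : ℕ) : ℝ) +
        (f.map fun b => Real.log (len2 b)).sum) ≤ κ / (5 * S) * (4 * S) :=
      mul_le_mul_of_nonneg_left h3 (by positivity)
    have h6 : κ / (5 * S) * (4 * S) = 4 / 5 * κ := by
      field_simp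
    linarith
  obtain ⟨b, hb, hbs⟩ := hcon
  have hbi := hf b hb
  refine ⟨b, hbi, ?_, ?_, hbs⟩
  · have h1 : b ∣ f.prod := Multiset.dvd_prod hb
    exact h1.trans ⟨u, hu.symm⟩
  · by_contra hc
    have h0 : dX b + b.natDegree = 0 := by omega
    obtain ⟨m, rfl⟩ := a4_const b h0
    rw [a4_ev2_const] at hbs
    have hm0 : m ≠ 0 := by
      rintro rfl
      exact hbi.ne_zero (by simp)
    have hm1 : ¬ IsUnit m := by
      intro hu1
      apply hbi.not_isUnit
      exact (hu1.map C).map C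
    have hm2 : 2 ≤ |m| := by
      rcases Int.lt_or_gt_of_ne hm0 with h | h
      · rw [abs_of_neg h]
        by_contra h2
        exact hm1 (Int.isUnit_iff.2 (Or.inr (by omega)))
      · rw [abs_of_pos h]
        by_contra h2
        exact hm1 (Int.isUnit_iff.2 (Or.inl (by omega)))
    have h1 : (2 : ℝ) ≤ ‖(m : ℂ)‖ := by
      rw [Complex.norm_intCast]
      exact_mod_cast hm2
    have h2 : Real.exp (-(κ / (5 * S) * (((dX (C (C m) : BP) + (C (C m) : BP).natDegree : ℕ) : ℝ)
        + Real.log (len2 (C (C m)))))) ≤ 1 := by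
      rw [Real.exp_le_one_iff, neg_nonpos]
      apply mul_nonneg (by positivity)
      apply add_nonneg (Nat.cast_nonneg _)
      exact Real.log_nonneg (one_le_len2 _ hbi.ne_zero)
    linarith

/-- A4b. PROOF. `P = b q` with `q ≠ 0`: `dX b ≤ dX P`, `natDegree b ≤ natDegree P`, and `len2 b ≤ len2 b len2 q ≤ 4^(dX P + natDegree P) len2 P` (`gelfond2` for `{b, q}`). -/
theorem factor_bd (P b : BP) (hP : P ≠ 0) (hb : b ∣ P) : dX b ≤ dX P ∧ b.natDegree ≤ P.natDegree ∧
    len2 b ≤ 4 ^ (dX P + P.natDegree) * len2 P := by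
  obtain ⟨q, rfl⟩ := hb
  have hb0 : b ≠ 0 := left_ne_zero_of_mul hP
  have hq0 : q ≠ 0 := right_ne_zero_of_mul hP
  refine ⟨?_, ?_, ?_⟩
  · rw [dX_mul b q hb0 hq0]; omega
  · rw [natDegree_mul hb0 hq0]; omega
  · have h := gelfond2 {b, q} (by
      intro p hp
      simp only [Multiset.insert_eq_cons, Multiset.mem_cons, Multiset.mem_singleton] at hp
      rcases hp with rfl | rfl
      · exact hb0
      · exact hq0)
    simp only [Multiset.insert_eq_cons, Multiset.map_cons, Multiset.map_singleton,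
      Multiset.prod_cons, Multiset.prod_singleton, Multiset.sum_cons,
      Multiset.sum_singleton] at h
    have e : dX b + b.natDegree + (dX q + q.natDegree) = dX (b * q) + (b * q).natDegree := by
      rw [dX_mul b q hb0 hq0, natDegree_mul hb0 hq0]; omega
    rw [e] at h
    refine le_trans ?_ h
    have h1 := one_le_len2 q hq0
    have h2 := len2_nonneg b
    nlinarith

end Pool.Agent.MSL
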