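import Pool.Agent.Lib.MP_f58a57_nt.L.Defs
import Pool.Agent.Lib.MP_f58a57_nt.P.A1_Len

/-! # L/A1b_Len: degrees and lengths -/

open Polynomial

noncomputable section

namespace Pool.Agent.MSL

open MSD MSP

/-- A1f. the degree in `X` bounds the degrees of the coefficients -/
theorem natDegree_coeff_le (p : BP) (j : ℕ) : (p.coeff j).natDegree ≤ dX p := by
  by_cases hj : j ∈ p.support
  · exact Finset.le_sup (f := fun j => (p.coeff j).natDegree) hj
  · rw [Polynomial.notMem_support_iff.1 hj, natDegree_zero]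
    exact Nat.zero_le _

theorem a1b_dX_le (p : BP) (a : ℕ) (h : ∀ j, (p.coeff j).natDegree ≤ a) : dX p ≤ a :=
  Finset.sup_le fun j _ => h j

theorem a1b_swap (p : BP) (i j : ℕ) : ((Polynomial.Bivariate.swap p).coeff i).coeff j = (p.coeff j).coeff i := by
  induction p using Polynomial.induction_on' with
  | add p q hp hq =>
    rw [map_add, coeff_add, coeff_add, coeff_add, coeff_add, hp, hq]
  | monomial n f =>
    induction f using Polynomial.induction_on' with
    | add f g hf hg =>
      rw [map_add, map_add, coeff_add, coeff_add, coeff_add, coeff_add, hf, hg]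
    | monomial m a =>
      rw [Polynomial.Bivariate.swap_monomial_monomial]
      simp only [coeff_monomial]
      by_cases h1 : m = i <;> by_cases h2 : n = j <;> simp [h1, h2, coeff_monomial]

theorem a1b_dX_eq (p : BP) : dX p = (Polynomial.Bivariate.swap p).natDegree := by
  refine le_antisymm ?_ ?_
  · refine a1b_dX_le p _ fun j => ?_
    rw [natDegree_le_iff_coeff_eq_zero]
    intro i hi
    rw [← a1b_swap, coeff_eq_zero_of_natDegree_lt hi, coeff_zero]
  · rw [natDegree_le_iff_coeff_eq_zero]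
    intro i hi
    ext j
    rw [a1b_swap, coeff_zero]
    exact coeff_eq_zero_of_natDegree_lt (lt_of_le_of_lt (natDegree_coeff_le p j) hi)

/-- A1g. PROOF. `dX p` is the degree of `Polynomial.Bivariate.swap p` (compare coefficients, or show it by `le_antisymm`), which is a ring isomorphism, and `natDegree_mul` in the domain `ℤ[X][Y]`. Any other proof: leading forms in `X`. -/
theorem dX_mul (p q : BP) (hp : p ≠ 0) (hq : q ≠ 0) : dX (p * q) = dX p + dX q := by
  have h : ∀ r : BP, r ≠ 0 → Polynomial.Bivariate.swap r ≠ 0 := fun r hr h0 =>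
    hr ((map_eq_zero_iff _ (Polynomial.Bivariate.swap (R := ℤ)).injective).1 h0)
  rw [a1b_dX_eq, a1b_dX_eq, a1b_dX_eq, map_mul, natDegree_mul (h p hp) (h q hq)]

theorem a1b_len2_eq (p : BP) (s : Finset ℕ) (h : p.support ⊆ s) : len2 p = ∑ j ∈ s, len (p.coeff j) := by
  unfold len2
  refine Finset.sum_subset h fun i _ hi => ?_
  rw [Polynomial.notMem_support_iff.1 hi, len_zero]

theorem len2_nonneg (p : BP) : 0 ≤ len2 p :=
  Finset.sum_nonneg fun _ _ => len_nonneg _

theorem len_coeff_le_len2 (p : BP) (j : ℕ) : len (p.coeff j) ≤ len2 p := by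
  by_cases hj : j ∈ p.support
  · exact Finset.single_le_sum (f := fun j => len (p.coeff j)) (fun _ _ => len_nonneg _) hj
  · rw [Polynomial.notMem_support_iff.1 hj, len_zero]
    exact len2_nonneg p

/-- A1h. PROOF. `one_le_len` for one nonzero coefficient. -/
theorem one_le_len2 (p : BP) (hp : p ≠ 0) : 1 ≤ len2 p := by
  refine le_trans ?_ (len_coeff_le_len2 p p.natDegree)
  refine one_le_len _ ?_
  rw [Polynomial.coeff_natDegree]
  exact Polynomial.leadingCoeff_ne_zero.2 hp

/-- A1i. PROOF. `len2 p` is a sum over at most `natDegree p + 1` indices. -/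
theorem len2_le (p : BP) (n : ℕ) (hn : p.natDegree < n) (B : ℝ) (h : ∀ j, len (p.coeff j) ≤ B) : len2 p ≤ n * B := by
  rw [a1b_len2_eq p (Finset.range n) (supp_subset_range hn)]
  refine (Finset.sum_le_card_nsmul _ _ B fun i _ => h i).trans ?_
  rw [Finset.card_range, nsmul_eq_mul]

theorem len2_add (p q : BP) : len2 (p + q) ≤ len2 p + len2 q := by
  rw [a1b_len2_eq (p + q) (p.support ∪ q.support) Polynomial.support_add,
    a1b_len2_eq p (p.support ∪ q.support) Finset.subset_union_left,
    a1b_len2_eq q (p.support ∪ q.support) Finset.subset_union_right, ← Finset.sum_add_distrib]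
  refine Finset.sum_le_sum fun i _ => ?_
  rw [Polynomial.coeff_add]
  exact len_add _ _

theorem a1b_len2_zero : len2 0 = 0 := by
  simp [len2]

theorem a1b_len2_sum {ι : Type*} (s : Finset ι) (p : ι → BP) : len2 (∑ i ∈ s, p i) ≤ ∑ i ∈ s, len2 (p i) := by
  classical
  induction s using Finset.induction_on with
  | empty => simp [a1b_len2_zero]
  | insert a s ha ih =>
    rw [Finset.sum_insert ha, Finset.sum_insert ha]
    exact (len2_add _ _).trans (by linarith)

theorem a1b_len2_monomial (n : ℕ) (a : Polynomial ℤ) : len2 (Polynomial.monomial n a) = len a := by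
  rw [a1b_len2_eq _ {n} (Polynomial.support_monomial_subset n a), Finset.sum_singleton, Polynomial.coeff_monomial_same]

theorem a1b_len2_C (a : Polynomial ℤ) : len2 (Polynomial.C a) = len a := by
  rw [← Polynomial.monomial_zero_left, a1b_len2_monomial]

theorem len2_mul (p q : BP) : len2 (p * q) ≤ len2 p * len2 q := by
  rw [Polynomial.mul_eq_sum_sum]
  refine (a1b_len2_sum _ _).trans ?_
  have h : len2 p * len2 q = ∑ i ∈ p.support, len (p.coeff i) * len2 q := by
    rw [← Finset.sum_mul]
    rfl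
  rw [h]
  refine Finset.sum_le_sum fun i _ => ?_
  rw [Polynomial.sum]
  refine (a1b_len2_sum _ _).trans ?_
  have h2 : len (p.coeff i) * len2 q = ∑ j ∈ q.support, len (p.coeff i) * len (q.coeff j) := by
    rw [← Finset.mul_sum]
    rfl
  rw [h2]
  refine Finset.sum_le_sum fun j _ => ?_
  rw [a1b_len2_monomial]
  exact len_mul _ _

theorem sp_natDegree (p : BP) (x : ℂ) : (sp x p).natDegree ≤ p.natDegree :=
  natDegree_map_le

/-- A1j. PROOF. `(sp x p).coeff j = aeval x (p.coeff j)`, `norm_aeval_le`, `natDegree_coeff_le`. -/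
theorem lenC_sp (p : BP) (x : ℂ) : lenC (sp x p) ≤ len2 p * (max 1 ‖x‖) ^ dX p := by
  have hs : (sp x p).support ⊆ p.support := by
    intro j hj
    rw [mem_support_iff] at hj ⊢
    intro h0
    apply hj
    unfold sp
    rw [coeff_map, h0, map_zero]
  unfold lenC
  refine (Finset.sum_le_sum_of_subset_of_nonneg hs fun _ _ _ => norm_nonneg _).trans ?_
  unfold len2
  rw [Finset.sum_mul]
  refine Finset.sum_le_sum fun j _ => ?_
  have h1 : (sp x p).coeff j = aeval x (p.coeff j) := by
    unfold sp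
    rw [coeff_map]
    rfl
  rw [h1]
  refine (norm_aeval_le x (p.coeff j)).trans ?_
  refine mul_le_mul_of_nonneg_left ?_ (len_nonneg _)
  exact pow_le_pow_right₀ (le_max_left _ _) (natDegree_coeff_le p j)

theorem a1b_dX_mul_le (p q : BP) : dX (p * q) ≤ dX p + dX q := by
  by_cases hp : p = 0
  · subst hp
    rw [zero_mul]
    exact le_add_right le_rfl
  by_cases hq : q = 0
  · subst hq
    rw [mul_zero]
    exact le_add_left le_rfl
  exact (dX_mul p q hp hq).le

theorem a1b_dX_add (p q : BP) (a : ℕ) (hp : dX p ≤ a) (hq : dX q ≤ a) : dX (p + q) ≤ a := by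
  refine a1b_dX_le _ _ fun j => ?_
  rw [coeff_add]
  exact (natDegree_add_le _ _).trans (max_le ((natDegree_coeff_le p j).trans hp) ((natDegree_coeff_le q j).trans hq))

theorem a1b_dX_zero : dX 0 = 0 := by
  simp [dX]

theorem a1b_dX_sum {ι : Type*} (s : Finset ι) (p : ι → BP) (a : ℕ) (h : ∀ i ∈ s, dX (p i) ≤ a) :
    dX (∑ i ∈ s, p i) ≤ a := by
  classical
  induction s using Finset.induction_on with
  | empty =>
    rw [Finset.sum_empty, a1b_dX_zero]
    exact Nat.zero_le _
  | insert b s hb ih =>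
    rw [Finset.sum_insert hb]
    exact a1b_dX_add _ _ _ (h b (Finset.mem_insert_self b s)) (ih fun i hi => h i (Finset.mem_insert_of_mem hi))

theorem a1b_dX_C (a : Polynomial ℤ) : dX (C a) = a.natDegree := by
  refine le_antisymm (a1b_dX_le _ _ fun j => ?_) ?_
  · rw [coeff_C]
    split_ifs with h
    · exact le_rfl
    · rw [natDegree_zero]
      exact Nat.zero_le _
  · have := natDegree_coeff_le (C a) 0
    rwa [coeff_C_zero] at this

theorem a1b_dX_Xpow (j : ℕ) : dX ((X : BP) ^ j) = 0 := by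
  refine Nat.le_zero.1 (a1b_dX_le _ _ fun k => ?_)
  rw [coeff_X_pow]
  split_ifs
  · rw [natDegree_one]
  · rw [natDegree_zero]

theorem a1b_len2_Xpow (j : ℕ) : len2 ((X : BP) ^ j) = 1 := by
  rw [← monomial_one_right_eq_X_pow, a1b_len2_monomial, ← C_1, len_C]
  simp

/-- the linear form -/
theorem a1b_lin (u : ℤ) : dX (C X - C (C u) * X : BP) ≤ 1 ∧ (C X - C (C u) * X : BP).natDegree ≤ 1 ∧
    len2 (C X - C (C u) * X : BP) ≤ 1 + |(u : ℝ)| := by
  have h1 : (C X - C (C u) * X : BP) = C X + C (C (-u)) * X ^ 1 := by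
    rw [pow_one, C_neg, C_neg]
    ring
  refine ⟨?_, ?_, ?_⟩
  · rw [h1]
    refine a1b_dX_add _ _ _ ?_ ?_
    · rw [a1b_dX_C, natDegree_X]
    · refine (a1b_dX_mul_le _ _).trans ?_
      rw [a1b_dX_C, natDegree_C, a1b_dX_Xpow]
      exact Nat.zero_le _
  · rw [h1]
    refine (natDegree_add_le _ _).trans (max_le ?_ ?_)
    · rw [natDegree_C]
      exact Nat.zero_le _
    · refine natDegree_mul_le.trans ?_
      rw [natDegree_C, natDegree_X_pow]
  · rw [h1]
    refine (len2_add _ _).trans (add_le_add ?_ ?_)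
    · rw [a1b_len2_C, ← pow_one (X : Polynomial ℤ), ← monomial_one_right_eq_X_pow, a1_len_monomial]
      simp
    · refine (len2_mul _ _).trans ?_
      rw [a1b_len2_C, len_C, a1b_len2_Xpow]
      push_cast
      rw [abs_neg, mul_one]

theorem a1b_pow (q : BP) (b : ℝ) (h1 : dX q ≤ 1) (h2 : q.natDegree ≤ 1) (h3 : len2 q ≤ b) (i : ℕ) :
    dX (q ^ i) ≤ i ∧ (q ^ i).natDegree ≤ i ∧ len2 (q ^ i) ≤ b ^ i := by
  induction i with
  | zero =>
    refine ⟨?_, ?_, ?_⟩
    · rw [pow_zero, ← pow_zero (X : BP), a1b_dX_Xpow]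
    · rw [pow_zero, natDegree_one]
    · rw [pow_zero, pow_zero, ← pow_zero (X : BP), a1b_len2_Xpow]
  | succ i ih =>
    obtain ⟨a1, a2, a3⟩ := ih
    refine ⟨?_, ?_, ?_⟩
    · rw [pow_succ]
      exact (a1b_dX_mul_le _ _).trans (by omega)
    · rw [pow_succ]
      exact natDegree_mul_le.trans (by omega)
    · rw [pow_succ, pow_succ]
      refine (len2_mul _ _).trans ?_
      exact mul_le_mul a3 h3 (len2_nonneg _) ((len2_nonneg _).trans a3)

/-- A1k. PROOF. `phu u p = ∑_j ∑_i p_ij (X - uY)^i Y^j`; `(X - uY)^i` has degree `≤ i` in `X` and in `Y` and `len2 ≤ (1 + |u|)^i` (`len2_mul`, induction); `len2_add`, `len2_mul`. -/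
theorem phu_bd (u : ℤ) (p : BP) : dX (phu u p) ≤ dX p ∧ (phu u p).natDegree ≤ dX p + p.natDegree ∧
    len2 (phu u p) ≤ len2 p * (1 + |(u : ℝ)|) ^ dX p := by
  set q : BP := C X - C (C u) * X with hq
  obtain ⟨l1, l2, l3⟩ := a1b_lin u
  rw [← hq] at l1 l2 l3
  have hexp : phu u p = ∑ j ∈ p.support, ∑ i ∈ (p.coeff j).support,
      C (C ((p.coeff j).coeff i)) * q ^ i * X ^ j := by
    unfold phu
    rw [coe_eval₂RingHom, eval₂_eq_sum, Polynomial.sum]
    refine Finset.sum_congr rfl fun j _ => ?_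
    rw [← Finset.sum_mul]
    congr 1
    rw [AlgHom.toRingHom_eq_coe, RingHom.coe_coe, aeval_def, eval₂_eq_sum, Polynomial.sum]
    refine Finset.sum_congr rfl fun i _ => ?_
    congr 1
  have hterm : ∀ j ∈ p.support, ∀ i ∈ (p.coeff j).support,
      dX (C (C ((p.coeff j).coeff i)) * q ^ i * X ^ j) ≤ dX p ∧
      (C (C ((p.coeff j).coeff i)) * q ^ i * X ^ j).natDegree ≤ dX p + p.natDegree ∧
      len2 (C (C ((p.coeff j).coeff i)) * q ^ i * X ^ j) ≤
        |(((p.coeff j).coeff i : ℤ) : ℝ)| * (1 + |(u : ℝ)|) ^ dX p := by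
    intro j hj i hi
    obtain ⟨b1, b2, b3⟩ := a1b_pow q _ l1 l2 l3 i
    have hi2 : i ≤ dX p := (le_natDegree_of_mem_supp i hi).trans (natDegree_coeff_le p j)
    have hj2 : j ≤ p.natDegree := le_natDegree_of_mem_supp j hj
    refine ⟨?_, ?_, ?_⟩
    · refine (a1b_dX_mul_le _ _).trans ?_
      rw [a1b_dX_Xpow, add_zero]
      refine (a1b_dX_mul_le _ _).trans ?_
      rw [a1b_dX_C, natDegree_C, zero_add]
      exact b1.trans hi2
    · refine natDegree_mul_le.trans ?_
      rw [natDegree_X_pow]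
      refine add_le_add ?_ hj2
      refine natDegree_mul_le.trans ?_
      rw [natDegree_C, zero_add]
      exact b2.trans hi2
    · refine (len2_mul _ _).trans ?_
      rw [a1b_len2_Xpow, mul_one]
      refine (len2_mul _ _).trans ?_
      rw [a1b_len2_C, len_C]
      refine mul_le_mul_of_nonneg_left (b3.trans ?_) (abs_nonneg _)
      exact pow_le_pow_right₀ (by linarith [abs_nonneg (u : ℝ)]) hi2
  rw [hexp]
  refine ⟨?_, ?_, ?_⟩
  · exact a1b_dX_sum _ _ _ fun j hj => a1b_dX_sum _ _ _ fun i hi => (hterm j hj i hi).1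
  · exact natDegree_sum_le_of_forall_le _ _ fun j hj => natDegree_sum_le_of_forall_le _ _ fun i hi => (hterm j hj i hi).2.1
  · refine (a1b_len2_sum _ _).trans ?_
    unfold len2
    rw [Finset.sum_mul]
    refine Finset.sum_le_sum fun j hj => ?_
    refine (a1b_len2_sum _ _).trans ?_
    unfold len
    rw [Finset.sum_mul]
    exact Finset.sum_le_sum fun i hi => (hterm j hj i hi).2.2

end Pool.Agent.MSL
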