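import Pool.Agent.Lib.MP_f58a57_nt.L.A1_Basic
import Pool.Agent.Lib.MP_f58a57_nt.L.A1b_Len
import Pool.Agent.Lib.MP_f58a57_nt.K.G1_Pig

/-! # L/A5_Pig: integer polynomials with a small value -/

open Polynomial

noncomputable section

namespace Pool.Agent.MSL

open MSD MSP MSK

/-- the polynomial with the coefficients `c i j`, `i < m`, `j < n` -/
def a5_P (m n : ℕ) (c : ℕ → ℕ → ℤ) : BP :=
  ∑ j ∈ Finset.range n, Polynomial.monomial j (∑ i ∈ Finset.range m, Polynomial.monomial i (c i j))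

theorem a5_coeff (m n : ℕ) (c : ℕ → ℕ → ℤ) (j : ℕ) :
    (a5_P m n c).coeff j = if j < n then ∑ i ∈ Finset.range m, Polynomial.monomial i (c i j) else 0 := by
  unfold a5_P
  rw [Polynomial.finsetSum_coeff]
  simp only [Polynomial.coeff_monomial]
  rw [Finset.sum_ite_eq']
  simp only [Finset.mem_range]

theorem a5_coeff2 (m n : ℕ) (c : ℕ → ℕ → ℤ) (i j : ℕ) :
    ((a5_P m n c).coeff j).coeff i = if i < m ∧ j < n then c i j else 0 := by
  rw [a5_coeff]
  by_cases hj : j < n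
  · rw [if_pos hj, Polynomial.finsetSum_coeff]
    simp only [Polynomial.coeff_monomial]
    rw [Finset.sum_ite_eq']
    simp only [Finset.mem_range, hj, and_true]
  · rw [if_neg hj, if_neg (fun h => hj h.2), Polynomial.coeff_zero]

theorem a5_natDegree (m n : ℕ) (c : ℕ → ℕ → ℤ) (h0 : a5_P m n c ≠ 0) :
    (a5_P m n c).natDegree < n := by
  by_contra hcon
  push Not at hcon
  have h1 : (a5_P m n c).coeff (a5_P m n c).natDegree = 0 := by
    rw [a5_coeff, if_neg (by omega)]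
  rw [Polynomial.coeff_natDegree] at h1
  exact h0 (Polynomial.leadingCoeff_eq_zero.1 h1)

theorem a5_natDegree2 (m n : ℕ) (hm : 1 ≤ m) (c : ℕ → ℕ → ℤ) (j : ℕ) :
    ((a5_P m n c).coeff j).natDegree < m := by
  by_contra hcon
  push Not at hcon
  have h1 : ((a5_P m n c).coeff j).coeff ((a5_P m n c).coeff j).natDegree = 0 := by
    rw [a5_coeff2, if_neg (fun h => by omega)]
  rw [Polynomial.coeff_natDegree] at h1
  have h2 := Polynomial.leadingCoeff_eq_zero.1 h1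
  rw [h2, Polynomial.natDegree_zero] at hcon
  omega

theorem a5_len (m n : ℕ) (c : ℕ → ℕ → ℤ) (B : ℝ) (hB : 0 ≤ B) (hc : ∀ i j, |((c i j : ℤ) : ℝ)| ≤ B) (j : ℕ) :
    len ((a5_P m n c).coeff j) ≤ m * B := by
  rw [a5_coeff]
  split_ifs with hj
  · refine (len_sum _ _).trans ?_
    calc ∑ i ∈ Finset.range m, len (Polynomial.monomial i (c i j))
        ≤ ∑ _i ∈ Finset.range m, B := Finset.sum_le_sum fun i _ => by
          rw [a1_len_monomial]; exact hc i j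
      _ = m * B := by rw [Finset.sum_const, Finset.card_range, nsmul_eq_mul]
  · rw [len_zero]
    positivity

theorem a5_ev2 (m n : ℕ) (c : ℕ → ℕ → ℤ) (x y : ℂ) (h0 : a5_P m n c ≠ 0) :
    ev2 (a5_P m n c) x y = ∑ j ∈ Finset.range n, ∑ i ∈ Finset.range m, x ^ i * y ^ j * (c i j : ℂ) := by
  rw [ev2_sum _ x y n (a5_natDegree m n c h0)]
  refine Finset.sum_congr rfl fun j hj => ?_
  rw [a5_coeff, if_pos (Finset.mem_range.1 hj), map_sum, Finset.sum_mul]
  refine Finset.sum_congr rfl fun i _ => ?_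
  rw [Polynomial.aeval_monomial]
  simp only [eq_intCast, algebraMap_int_eq]
  ring

theorem a5_num (M : ℝ) (hM : 1 ≤ M) : ∃ C : ℝ, 1 ≤ C ∧ ∀ (m n h : ℕ) (κ : ℝ), 1 ≤ m → 1 ≤ n → 0 ≤ κ →
    C * (κ + m + n + h + 1) ≤ (m : ℝ) * n * h →
    (4 * (((m * n : ℕ) : ℝ) * M ^ (m + n) * ((2 ^ h : ℕ) : ℝ)) / Real.exp (-κ) + 2) ^ 2 <
      (((2 ^ h : ℕ) : ℝ) + 1) ^ (m * n) := by
  have hl2 : 0 < Real.log 2 := Real.log_pos (by norm_num)
  have hM0 : 0 < M := by linarith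
  have hlM : 0 ≤ Real.log M := Real.log_nonneg hM
  refine ⟨2 * (2 + Real.log M) / Real.log 2 + 1, by
    have : 0 ≤ 2 * (2 + Real.log M) / Real.log 2 := by positivity
    linarith, ?_⟩
  intro m n h κ hm hn hκ hC
  have hm1 : (1 : ℝ) ≤ m := by exact_mod_cast hm
  have hn1 : (1 : ℝ) ≤ n := by exact_mod_cast hn
  have hh0 : (0 : ℝ) ≤ h := Nat.cast_nonneg h
  -- the upper bound
  have e1 : 4 * (((m * n : ℕ) : ℝ) * M ^ (m + n) * ((2 ^ h : ℕ) : ℝ)) / Real.exp (-κ) + 2 ≤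
      6 * (m * n * M ^ (m + n) * 2 ^ h * Real.exp κ) := by
    have h1 : 4 * (((m * n : ℕ) : ℝ) * M ^ (m + n) * ((2 ^ h : ℕ) : ℝ)) / Real.exp (-κ) =
        4 * (m * n * M ^ (m + n) * 2 ^ h * Real.exp κ) := by
      rw [Real.exp_neg, div_inv_eq_mul]
      push_cast
      ring
    rw [h1]
    have h2 : (1 : ℝ) ≤ m * n * M ^ (m + n) * 2 ^ h * Real.exp κ := by
      have a1 : (1 : ℝ) ≤ M ^ (m + n) := one_le_pow₀ hM
      have a2 : (1 : ℝ) ≤ 2 ^ h := one_le_pow₀ (by norm_num)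
      have a3 : 1 ≤ Real.exp κ := Real.one_le_exp hκ
      have b1 : (1 : ℝ) ≤ m * n := by nlinarith
      have b2 : (1 : ℝ) ≤ m * n * M ^ (m + n) := one_le_mul_of_one_le_of_one_le b1 a1
      have b3 : (1 : ℝ) ≤ m * n * M ^ (m + n) * 2 ^ h := one_le_mul_of_one_le_of_one_le b2 a2
      exact one_le_mul_of_one_le_of_one_le b3 a3
    linarith
  have e2 : 6 * (m * n * M ^ (m + n) * 2 ^ h * Real.exp κ) ≤
      Real.exp (2 + m + n + (m + n) * Real.log M + h + κ) := by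
    have h6 : (6 : ℝ) ≤ Real.exp 2 := by
      have h1 := Real.exp_one_gt_d9
      have h2 : Real.exp 2 = Real.exp 1 * Real.exp 1 := by rw [← Real.exp_add]; norm_num
      rw [h2]
      nlinarith
    have hme : (m : ℝ) ≤ Real.exp m := by
      have := Real.add_one_le_exp (m : ℝ)
      linarith
    have hne : (n : ℝ) ≤ Real.exp n := by
      have := Real.add_one_le_exp (n : ℝ)
      linarith
    have hMe : M ^ (m + n) = Real.exp ((m + n) * Real.log M) := by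
      rw [← Real.rpow_natCast, Real.rpow_def_of_pos hM0]
      push_cast
      ring_nf
    have h2e : (2 : ℝ) ^ h ≤ Real.exp h := by
      have h1 : Real.exp (h : ℝ) = Real.exp 1 ^ h := by
        rw [← Real.exp_nat_mul]; ring_nf
      rw [h1]
      refine pow_le_pow_left₀ (by norm_num) ?_ h
      have := Real.add_one_le_exp (1 : ℝ)
      linarith
    have e : Real.exp (2 + m + n + (m + n) * Real.log M + h + κ) =
        Real.exp 2 * (Real.exp m * Real.exp n * Real.exp ((m + n) * Real.log M) * Real.exp h * Real.exp κ) := by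
      simp only [Real.exp_add]
      ring
    rw [e, ← hMe]
    have hMp : 0 ≤ M ^ (m + n) := by positivity
    gcongr
  -- the exponents
  have e3 : 2 * (2 + m + n + (m + n) * Real.log M + h + κ) ≤ (m * n * h : ℝ) * Real.log 2 := by
    have h1 := mul_le_mul_of_nonneg_right hC hl2.le
    refine le_trans ?_ h1
    have h2 : (2 * (2 + Real.log M) / Real.log 2 + 1) * (κ + m + n + h + 1) * Real.log 2 =
        (2 * (2 + Real.log M) + Real.log 2) * (κ + m + n + h + 1) := by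
      field_simp
    rw [h2]
    nlinarith [mul_nonneg hlM hκ, mul_nonneg hlM hh0, mul_nonneg hl2.le hκ, mul_nonneg hl2.le hh0,
      mul_pos hl2 (by linarith : (0 : ℝ) < m), mul_pos hl2 (by linarith : (0 : ℝ) < n)]
  have e4 : (2 : ℝ) ^ (h * (m * n)) = Real.exp ((m * n * h : ℝ) * Real.log 2) := by
    rw [← Real.rpow_natCast, Real.rpow_def_of_pos (by norm_num)]
    push_cast
    ring_nf
  have e5 : (2 : ℝ) ^ (h * (m * n)) < (((2 ^ h : ℕ) : ℝ) + 1) ^ (m * n) := by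
    rw [pow_mul]
    refine pow_lt_pow_left₀ ?_ (by positivity) (Nat.mul_pos hm hn).ne'
    push_cast
    linarith
  have e0 : 0 ≤ 4 * (((m * n : ℕ) : ℝ) * M ^ (m + n) * ((2 ^ h : ℕ) : ℝ)) / Real.exp (-κ) + 2 := by
    positivity
  calc (4 * (((m * n : ℕ) : ℝ) * M ^ (m + n) * ((2 ^ h : ℕ) : ℝ)) / Real.exp (-κ) + 2) ^ 2
      ≤ (Real.exp (2 + m + n + (m + n) * Real.log M + h + κ)) ^ 2 :=
        pow_le_pow_left₀ e0 (e1.trans e2) 2
    _ = Real.exp (2 * (2 + m + n + (m + n) * Real.log M + h + κ)) := by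
        rw [← Real.exp_nat_mul]
        norm_num
    _ ≤ Real.exp ((m * n * h : ℝ) * Real.log 2) := Real.exp_le_exp.2 e3
    _ = (2 : ℝ) ^ (h * (m * n)) := e4.symm
    _ < _ := e5

/-- A5. PROOF. `pigeon` with `ι = Fin m × Fin n`, `κ = Unit`, `A (i, j) = x^i y^j`, `α = M^(m+n)`, `M = max 1 (max ‖x‖ ‖y‖)`, `B = 2^h`, `ε = exp (-κ)`: `4 m n α B / ε + 2 ≤ 6 m n M^(m+n) 2^h e^κ ≤ exp (2 + m + n + (m+n) log M + h + κ)`, so the square is
`< exp (C log 2 (κ + m + n + h + 1)) ≤ 2^(h m n) ≤ (B+1)^(m n)` if `C log 2 > 2 (2 + log M)`. `P = ∑ x_ij X^i Y^j` (`∑_j C (∑_i C x_ij X^i) Y^j`). -/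
theorem pig2 (x y : ℂ) : ∃ C : ℝ, 1 ≤ C ∧ ∀ (m n h : ℕ) (κ : ℝ), 1 ≤ m → 1 ≤ n → 0 ≤ κ → C * (κ + m + n + h + 1) ≤ (m : ℝ) * n * h →
    ∃ P : BP, P ≠ 0 ∧ P.natDegree < n ∧ dX P < m ∧ len2 P ≤ m * n * 2 ^ h ∧ ‖ev2 P x y‖ ≤ Real.exp (-κ) := by
  classical
  set M : ℝ := max 1 (max ‖x‖ ‖y‖) with hM
  have hM1 : 1 ≤ M := le_max_left _ _
  have hMx : ‖x‖ ≤ M := (le_max_left _ _).trans (le_max_right _ _)
  have hMy : ‖y‖ ≤ M := (le_max_right _ _).trans (le_max_right _ _)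
  obtain ⟨C, hC1, hC⟩ := a5_num M hM1
  refine ⟨C, hC1, fun m n h κ hm hn hκ hk => ?_⟩
  have hnum := hC m n h κ hm hn hκ hk
  haveI : Nonempty (Fin m × Fin n) := ⟨(⟨0, hm⟩, ⟨0, hn⟩)⟩
  have hcard : Fintype.card (Fin m × Fin n) = m * n := by simp
  obtain ⟨z, hz0, hzB, hz⟩ := pigeon (κ := Unit)
    (fun _ (p : Fin m × Fin n) => x ^ (p.1 : ℕ) * y ^ (p.2 : ℕ)) (M ^ (m + n)) (Real.exp (-κ)) (2 ^ h)
    (by positivity) (Real.exp_pos _)
    (fun _ p => by
      rw [norm_mul, norm_pow, norm_pow, pow_add]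
      have h1 : ‖x‖ ^ (p.1 : ℕ) ≤ M ^ m :=
        (pow_le_pow_left₀ (norm_nonneg _) hMx _).trans (pow_le_pow_right₀ hM1 p.1.2.le)
      have h2 : ‖y‖ ^ (p.2 : ℕ) ≤ M ^ n :=
        (pow_le_pow_left₀ (norm_nonneg _) hMy _).trans (pow_le_pow_right₀ hM1 p.2.2.le)
      exact mul_le_mul h1 h2 (by positivity) (by positivity))
    (by
      rw [hcard]
      simpa using hnum)
  set c : ℕ → ℕ → ℤ := fun i j => if h : i < m ∧ j < n then z (⟨i, h.1⟩, ⟨j, h.2⟩) else 0 with hc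
  have hcz : ∀ (i : Fin m) (j : Fin n), c i j = z (i, j) := by
    intro i j
    simp only [hc]
    rw [dif_pos ⟨i.2, j.2⟩]
  have hP0 : a5_P m n c ≠ 0 := by
    intro h0
    apply hz0
    funext p
    obtain ⟨i, j⟩ := p
    have h1 := a5_coeff2 m n c i j
    rw [h0, Polynomial.coeff_zero, Polynomial.coeff_zero, if_pos ⟨i.2, j.2⟩, hcz] at h1
    exact h1.symm
  have hcB : ∀ i j, |((c i j : ℤ) : ℝ)| ≤ 2 ^ h := by
    intro i j
    simp only [hc]
    split_ifs with hij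
    · have h1 := hzB (⟨i, hij.1⟩, ⟨j, hij.2⟩)
      exact_mod_cast h1
    · simp
  refine ⟨a5_P m n c, hP0, a5_natDegree m n c hP0, ?_, ?_, ?_⟩
  · unfold dX
    rw [Finset.sup_lt_iff (show (⊥ : ℕ) < m from hm)]
    intro j _
    exact a5_natDegree2 m n hm c j
  · refine (len2_le _ n (a5_natDegree m n c hP0) (m * 2 ^ h) (a5_len m n c _ (by positivity) hcB)).trans ?_
    rw [← mul_assoc, mul_comm (n : ℝ)]
  · rw [a5_ev2 m n c x y hP0]
    have h1 := hz ()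
    have h2 : ∑ j ∈ Finset.range n, ∑ i ∈ Finset.range m, x ^ i * y ^ j * (c i j : ℂ) =
        ∑ p : Fin m × Fin n, x ^ (p.1 : ℕ) * y ^ (p.2 : ℕ) * (z p : ℂ) := by
      rw [Fintype.sum_prod_type_right, Finset.sum_range]
      refine Finset.sum_congr rfl fun j _ => ?_
      rw [Finset.sum_range]
      refine Finset.sum_congr rfl fun i _ => ?_
      rw [hcz]
    rw [h2]
    exact h1

end Pool.Agent.MSL
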