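import Pool.Agent.Lib.MP_f58a57_nt.L.A1c_Swap
import Pool.Agent.Lib.MP_f58a57_nt.L.A4_Factor
import Pool.Agent.Lib.MP_f58a57_nt.L.A5_Pig

/-! # L/A10_Curve: the first polynomial -/

open Polynomial Filter

noncomputable section

namespace Pool.Agent.MSL

open MSD MSP

/-- the size of an integer polynomial in two variables -/
def sz (b : BP) : ℝ := ((dX b + b.natDegree : ℕ) : ℝ) + Real.log (len2 b)

lemma a10_log_le (T : ℕ) (hT : 1 ≤ T) : 2 * Real.log T ≤ T := by
  have hT0 : (0 : ℝ) < T := by exact_mod_cast hT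
  have h1 := Real.log_le_sub_one_of_pos (show (0 : ℝ) < T / 2 by positivity)
  rw [Real.log_div hT0.ne' (by norm_num)] at h1
  have h2 := Real.log_two_lt_d9
  linarith

lemma a10_len_pos (p : BP) (hp : p ≠ 0) : 0 < len2 p := lt_of_lt_of_le one_pos (one_le_len2 p hp)

lemma a10_sz_ge (b : BP) (hb : b ≠ 0) : (b.natDegree : ℝ) ≤ sz b := by
  unfold sz
  have h1 : 0 ≤ Real.log (len2 b) := Real.log_nonneg (one_le_len2 b hb)
  have h2 : (b.natDegree : ℝ) ≤ ((dX b + b.natDegree : ℕ) : ℝ) := by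
    exact_mod_cast Nat.le_add_left _ _
  linarith

/-- A10. PROOF. `pig2` with `m = n = h = T`, `κ = T³/(2 C₀)` (`C₀ (κ + 3T + 1) ≤ T³` for large `T`): `P` of degrees `< T`, `len2 P ≤ T² 2^T`, so `dX P + natDegree P ≤ 2T`, `log len2 P ≤ 2T` for large `T`. `ev2 P θ ≠ 0` (`ev2_ne`). `exists_factor2` with `S = 2T`: `‖ev2 b θ‖ ≤ exp (-(κ/(10 T)) sz b)`,
`κ/(10T) = T²/(20 C₀)`. `factor_bd`: `sz b ≤ 2T + 2T log 4 + 2T ≤ 7T`. -/
theorem curve (θ : Fin 2 → ℂ) (hθ : AlgebraicIndependent ℚ θ) : ∃ c : ℝ, 0 < c ∧ c ≤ 1 ∧ ∀ᶠ T : ℕ in atTop, ∃ b : BP, Irreducible b ∧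
    1 ≤ dX b + b.natDegree ∧ sz b ≤ 7 * T ∧ ‖ev2 b (θ 0) (θ 1)‖ ≤ Real.exp (-(c * T ^ 2 * sz b)) := by
  obtain ⟨C₀, hC1, hpig⟩ := pig2 (θ 0) (θ 1)
  have hC0 : 0 < C₀ := lt_of_lt_of_le one_pos hC1
  refine ⟨1 / (20 * C₀), by positivity, ?_, ?_⟩
  · rw [div_le_one (by positivity)]
    linarith
  · have hev : ∀ᶠ T : ℕ in atTop, 8 * C₀ ≤ (T : ℝ) :=
      tendsto_natCast_atTop_atTop.eventually_ge_atTop _
    filter_upwards [hev] with T hT
    have hT8 : (8 : ℝ) ≤ T := by linarith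
    have hT1 : 1 ≤ T := by
      have : (1 : ℝ) ≤ T := by linarith
      exact_mod_cast this
    have hT0 : (0 : ℝ) < T := by linarith
    have hcond : C₀ * ((T : ℝ) ^ 3 / (2 * C₀) + T + T + T + 1) ≤ (T : ℝ) * T * T := by
      have e1 : C₀ * ((T : ℝ) ^ 3 / (2 * C₀) + T + T + T + 1) = (T : ℝ) ^ 3 / 2 + C₀ * (3 * T + 1) := by
        field_simp
        ring
      rw [e1]
      have e2 : C₀ * (3 * T + 1) ≤ (T : ℝ) / 8 * (4 * T) := by
        have h3 : C₀ ≤ (T : ℝ) / 8 := by linarith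
        have h4 : (3 * T + 1 : ℝ) ≤ 4 * T := by linarith
        exact mul_le_mul h3 h4 (by positivity) (by positivity)
      have e3 : (T : ℝ) / 8 * (4 * T) ≤ (T : ℝ) ^ 3 / 2 := by
        have : (T : ℝ) ^ 2 ≤ (T : ℝ) ^ 3 := by
          have h5 : (1 : ℝ) ≤ T := by linarith
          nlinarith [sq_nonneg (T : ℝ)]
        nlinarith
      nlinarith
    obtain ⟨P, hP0, hPn, hPd, hPl, hPv⟩ := hpig T T T ((T : ℝ) ^ 3 / (2 * C₀)) hT1 hT1 (by positivity) hcond
    have hne := ev2_ne θ hθ P hP0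
    have hlP : Real.log (len2 P) ≤ 2 * T := by
      have h1 : Real.log (len2 P) ≤ Real.log ((T : ℝ) * T * 2 ^ T) :=
        Real.log_le_log (a10_len_pos P hP0) hPl
      have h2 : Real.log ((T : ℝ) * T * 2 ^ T) = 2 * Real.log T + T * Real.log 2 := by
        rw [Real.log_mul (by positivity) (by positivity), Real.log_mul hT0.ne' hT0.ne',
          Real.log_pow]
        ring
      have h3 := a10_log_le T hT1
      have h4 := Real.log_two_lt_d9
      have h5 : (T : ℝ) * Real.log 2 ≤ T * 1 := mul_le_mul_of_nonneg_left (by linarith) hT0.le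
      linarith
    have hdP : ((dX P + P.natDegree : ℕ) : ℝ) ≤ 2 * T := by
      have : dX P + P.natDegree ≤ 2 * T := by omega
      exact_mod_cast this
    obtain ⟨b, hbi, hbP, hbd, hbv⟩ := exists_factor2 P (θ 0) (θ 1) (2 * T) ((T : ℝ) ^ 3 / (2 * C₀))
      (by positivity) (by positivity) hne hdP hlP hPv
    obtain ⟨hf1, hf2, hf3⟩ := factor_bd P b hP0 hbP
    refine ⟨b, hbi, hbd, ?_, ?_⟩
    · have h1 : Real.log (len2 b) ≤ Real.log (4 ^ (dX P + P.natDegree) * len2 P) :=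
        Real.log_le_log (a10_len_pos b hbi.ne_zero) hf3
      have h2 : Real.log ((4 : ℝ) ^ (dX P + P.natDegree) * len2 P) =
          ((dX P + P.natDegree : ℕ) : ℝ) * Real.log 4 + Real.log (len2 P) := by
        rw [Real.log_mul (by positivity) (a10_len_pos P hP0).ne', Real.log_pow]
      have h3 : Real.log 4 = 2 * Real.log 2 := by
        rw [show (4 : ℝ) = 2 ^ 2 by norm_num, Real.log_pow]
        norm_num
      have h4 := Real.log_two_lt_d9
      have h4' : 0 < Real.log 2 := Real.log_pos (by norm_num)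
      have h5 : ((dX P + P.natDegree : ℕ) : ℝ) * Real.log 4 ≤ 2 * T * Real.log 4 :=
        mul_le_mul_of_nonneg_right hdP (by linarith)
      have h6 : ((dX b + b.natDegree : ℕ) : ℝ) ≤ 2 * T := by
        have : dX b + b.natDegree ≤ 2 * T := by omega
        exact_mod_cast this
      have h7 : 2 * (T : ℝ) * Real.log 4 ≤ 2 * T * 1.4 := by
        apply mul_le_mul_of_nonneg_left _ (by positivity)
        rw [h3]
        linarith
      unfold sz
      linarith
    · refine hbv.trans (le_of_eq ?_)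
      unfold sz
      congr 2
      have : (T : ℝ) ^ 3 / (2 * C₀) / (5 * (2 * T)) = 1 / (20 * C₀) * T ^ 2 := by
        field_simp
        ring
      rw [this]

/-- A10b. PROOF. `n = natDegree b ≥ 1`, `t = sz b`, `n ≤ t ≤ 7T` (`log (len2 b) ≥ 0`). `pig2` (constant `C₀`) with `m = T`, `n`, `h = ⌈2 C₀ c T t/n⌉₊ + 1`, `κ = c T² t`: `T n h ≥ 2 C₀ c T² t`, and `h ≤ 2 C₀ c T t/n + 2 ≤ (2 C₀ + 2) T t`, so
`C₀ (κ + T + n + h + 1) ≤ C₀ c T² t + C₀ (2 C₀ + 6) T t ≤ 2 C₀ c T² t` for `T ≥ (2 C₀ + 6)/c`. `n log len2 Q ≤ n (2 log (7 T) + log T + h log 2) ≤ C T t log T`. `b` does not divide `Q` as `natDegree Q < natDegree b`. -/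
theorem second (θ : Fin 2 → ℂ) (c : ℝ) (hc : 0 < c) (hc1 : c ≤ 1) : ∃ C : ℝ, 1 ≤ C ∧ ∀ᶠ T : ℕ in atTop, ∀ b : BP, b ≠ 0 → 1 ≤ b.natDegree → sz b ≤ 7 * T →
    ∃ Q : BP, Q ≠ 0 ∧ ¬ b ∣ Q ∧ Q.natDegree < b.natDegree ∧ dX Q < T ∧ b.natDegree * Real.log (len2 Q) ≤ C * T * sz b * Real.log T ∧
      ‖ev2 Q (θ 0) (θ 1)‖ ≤ Real.exp (-(c * T ^ 2 * sz b)) := by
  obtain ⟨C₀, hC1, hpig⟩ := pig2 (θ 0) (θ 1)
  have hC0 : 0 < C₀ := lt_of_lt_of_le one_pos hC1
  refine ⟨2 * C₀ + 6, by linarith, ?_⟩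
  have hev : ∀ᶠ T : ℕ in atTop, (2 * C₀ + 5) / c ≤ (T : ℝ) :=
    tendsto_natCast_atTop_atTop.eventually_ge_atTop _
  filter_upwards [hev] with T hT
  intro b hb hbn hbs
  have hcT : 2 * C₀ + 5 ≤ c * T := by
    rw [div_le_iff₀ hc] at hT
    linarith
  have hT7 : (7 : ℝ) ≤ T := by
    have hTn : (0 : ℝ) ≤ T := Nat.cast_nonneg T
    have : c * T ≤ 1 * T := mul_le_mul_of_nonneg_right hc1 hTn
    linarith
  have hT0 : (0 : ℝ) < T := by linarith
  have hT1 : 1 ≤ T := by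
    have : (1 : ℝ) ≤ T := by linarith
    exact_mod_cast this
  have hn1 : (1 : ℝ) ≤ b.natDegree := by exact_mod_cast hbn
  have hn0 : (0 : ℝ) < b.natDegree := by linarith
  have hnt := a10_sz_ge b hb
  set t := sz b with ht
  set n := b.natDegree with hn
  have ht1 : 1 ≤ t := by linarith
  have ht0 : 0 < t := by linarith
  set h := ⌈2 * C₀ * c * T * t / n⌉₊ + 1 with hh
  have hq0 : 0 ≤ 2 * C₀ * c * T * t / n := by positivity
  have hle1 : 2 * C₀ * c * T * t / n + 1 ≤ (h : ℝ) := by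
    rw [hh]
    push_cast
    have := Nat.le_ceil (2 * C₀ * c * T * t / n)
    linarith
  have hle2 : (h : ℝ) ≤ 2 * C₀ * c * T * t / n + 2 := by
    rw [hh]
    push_cast
    have := (Nat.ceil_lt_add_one hq0).le
    linarith
  have hnh1 : 2 * C₀ * c * T * t + n ≤ n * h := by
    have := mul_le_mul_of_nonneg_left hle1 hn0.le
    have e : (n : ℝ) * (2 * C₀ * c * T * t / n + 1) = 2 * C₀ * c * T * t + n := by
      field_simp
    linarith
  have hnh2 : (n : ℝ) * h ≤ 2 * C₀ * c * T * t + 2 * n := by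
    have := mul_le_mul_of_nonneg_left hle2 hn0.le
    have e : (n : ℝ) * (2 * C₀ * c * T * t / n + 2) = 2 * C₀ * c * T * t + 2 * n := by
      field_simp
    linarith
  have hTt : 1 ≤ (T : ℝ) * t := by nlinarith
  have hTt0 : 0 < (T : ℝ) * t := by positivity
  have hcTt : 2 * C₀ * c * T * t ≤ 2 * C₀ * (T * t) := by
    have : 2 * C₀ * c * T * t = c * (2 * C₀ * (T * t)) := by ring
    rw [this]
    have h0 : 0 ≤ 2 * C₀ * ((T : ℝ) * t) := by positivity
    nlinarith
  have hh3 : (h : ℝ) ≤ 2 * C₀ * (T * t) + 2 := by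
    have h1 : 2 * C₀ * c * T * t / n ≤ 2 * C₀ * c * T * t :=
      div_le_self (by positivity) hn1
    linarith
  have hcond : C₀ * (c * T ^ 2 * t + T + n + h + 1) ≤ (T : ℝ) * n * h := by
    have h1 : (T : ℝ) * n * h ≥ T * (2 * C₀ * c * T * t + n) := by
      have := mul_le_mul_of_nonneg_left hnh1 hT0.le
      linarith
    have h2 : (T : ℝ) + n + h + 1 ≤ (2 * C₀ + 5) * (T * t) := by
      have h3 : (T : ℝ) ≤ T * t := by nlinarith
      have h4 : (n : ℝ) ≤ T * t := by nlinarith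
      nlinarith
    have h5 : (2 * C₀ + 5) * ((T : ℝ) * t) ≤ c * T * (T * t) :=
      mul_le_mul_of_nonneg_right hcT hTt0.le
    have h6 : C₀ * (c * T ^ 2 * t + T + n + h + 1) ≤ C₀ * (c * T ^ 2 * t + c * T * (T * t)) := by
      apply mul_le_mul_of_nonneg_left _ hC0.le
      linarith
    have h7 : C₀ * (c * T ^ 2 * t + c * T * (T * t)) = T * (2 * C₀ * c * T * t) := by ring
    have h8 : 0 ≤ (T : ℝ) * n := by positivity
    nlinarith
  obtain ⟨Q, hQ0, hQn, hQd, hQl, hQv⟩ := hpig T n h (c * T ^ 2 * t) hT1 hbn (by positivity) hcond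
  refine ⟨Q, hQ0, ?_, hQn, hQd, ?_, hQv⟩
  · exact Polynomial.not_dvd_of_natDegree_lt hQ0 hQn
  · have h1 : Real.log (len2 Q) ≤ Real.log ((T : ℝ) * n * 2 ^ h) :=
      Real.log_le_log (a10_len_pos Q hQ0) hQl
    have h2 : Real.log ((T : ℝ) * n * 2 ^ h) = Real.log T + Real.log n + h * Real.log 2 := by
      rw [Real.log_mul (by positivity) (by positivity), Real.log_mul hT0.ne' hn0.ne',
        Real.log_pow]
    have hlT : 1 ≤ Real.log T := by
      rw [Real.le_log_iff_exp_le hT0]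
      have := Real.exp_one_lt_d9
      linarith
    have hl7 : Real.log 7 ≤ 2 := by
      rw [Real.log_le_iff_le_exp (by norm_num)]
      have h3 : (2.7 : ℝ) ≤ Real.exp 1 := by
        have := Real.exp_one_gt_d9
        linarith
      have h4 : Real.exp 2 = Real.exp 1 * Real.exp 1 := by
        rw [← Real.exp_add]
        norm_num
      rw [h4]
      nlinarith
    have hln : Real.log n ≤ Real.log 7 + Real.log T := by
      rw [← Real.log_mul (by norm_num) hT0.ne']
      exact Real.log_le_log hn0 (by linarith)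
    have hln0 : 0 ≤ Real.log (n : ℝ) := Real.log_nonneg hn1
    have h4 := Real.log_two_lt_d9
    have h4' : 0 < Real.log 2 := Real.log_pos (by norm_num)
    have h5 : (n : ℝ) * Real.log (len2 Q) ≤ n * (Real.log T + Real.log n + h * Real.log 2) :=
      mul_le_mul_of_nonneg_left (by linarith) hn0.le
    have hTT : (n : ℝ) ≤ T * t := by nlinarith
    have h6 : (n : ℝ) * Real.log T ≤ T * t * Real.log T :=
      mul_le_mul_of_nonneg_right hTT (by linarith)
    have h7 : (n : ℝ) * Real.log n ≤ T * t * (3 * Real.log T) := by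
      apply mul_le_mul hTT _ hln0 hTt0.le
      linarith
    have h8 : (n : ℝ) * (h * Real.log 2) ≤ (2 * C₀ + 2) * (T * t) * Real.log T := by
      have h9 : (n : ℝ) * h ≤ (2 * C₀ + 2) * (T * t) := by linarith
      have h10 : (n : ℝ) * (h * Real.log 2) ≤ n * h * 1 := by
        rw [← mul_assoc]
        apply mul_le_mul_of_nonneg_left (by linarith) (by positivity)
      have h11 : 0 ≤ (2 * C₀ + 2) * ((T : ℝ) * t) := by positivity
      nlinarith
    calc (n : ℝ) * Real.log (len2 Q) ≤ n * (Real.log T + Real.log n + h * Real.log 2) := h5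
      _ = n * Real.log T + n * Real.log n + n * (h * Real.log 2) := by ring
      _ ≤ T * t * Real.log T + T * t * (3 * Real.log T) + (2 * C₀ + 2) * (T * t) * Real.log T := by
          linarith
      _ = (2 * C₀ + 6) * T * t * Real.log T := by ring

end Pool.Agent.MSL
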