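import Pool.Agent.Lib.MP_f58a57_nt.L.A10_Curve

/-! # L/A11_Bounds: the sizes of the resultant -/

open Polynomial Filter

noncomputable section

namespace Pool.Agent.MSL

open MSD MSP

theorem a11_pow (x y : ℝ) (n : ℕ) (hx : 0 ≤ x) (h : x ≤ Real.exp y) : x ^ n ≤ Real.exp (n * y) := by
  rw [Real.exp_nat_mul]
  exact pow_le_pow_left₀ hx h n

/-- A11. PROOF. Let `t = sz b`, `n₂ = natDegree b`, `d₁ = dX b ≤ n₂ ≤ t ≤ 7T`, `Q` with `natDegree Q < n₂ ≤ 7T`, `dX Q < T`, so `dX Q + natDegree Q ≤ 8T`, `dX b + natDegree b ≤ 2 n₂ ≤ 2t`. Degree: `2 · 2t · 8T ≤ 32 T t`. `log MM R ≤ 8T (log len2 b + d₁ log (1+u)) + 2 n₂ (log len2 Q + T log (1+u))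
≤ 8T t (1 + log (1 + T^5)) + 2 C T t log T + 2 t T log (1 + T^5) ≤ C' T t log T` (`log (1 + T^5) ≤ 6 log T`, `log T ≥ 1` for `T ≥ 3`). Value: `log ((2t + 8T)) + (2t + 8T) log max 1 ‖θ 1‖ + (the same as before with log (1+u) + log max 1 ‖θ 0 + u θ 1‖ ≤ C log T instead of log (1+u)) + log (max ..)`,
all `≤ C T t log T` (`t ≥ 1`). -/
theorem R_bounds (θ : Fin 2 → ℂ) (C : ℝ) (hC : 1 ≤ C) : ∃ C' : ℝ, 1 ≤ C' ∧ ∀ T : ℕ, 3 ≤ T → ∀ (b Q : BP) (u : ℕ) (κ : ℝ) (R : Polynomial ℤ), b ≠ 0 → Q ≠ 0 → R ≠ 0 →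
    1 ≤ b.natDegree → dX b ≤ b.natDegree → sz b ≤ 7 * T → Q.natDegree < b.natDegree → dX Q < T → b.natDegree * Real.log (len2 Q) ≤ C * T * sz b * Real.log T →
    u ≤ T ^ 5 → ‖ev2 b (θ 0) (θ 1)‖ ≤ Real.exp (-κ) → ‖ev2 Q (θ 0) (θ 1)‖ ≤ Real.exp (-κ) →
    (R.natDegree ≤ 2 * (dX b + b.natDegree) * (dX Q + Q.natDegree)) →
    (MM R ≤ (len2 b * (1 + u) ^ dX b) ^ (dX Q + Q.natDegree) * (len2 Q * (1 + u) ^ dX Q) ^ (dX b + b.natDegree)) →
    (‖aeval (θ 0 + u * θ 1) R‖ ≤ ((dX b + b.natDegree : ℕ) + (dX Q + Q.natDegree : ℕ) : ℝ) *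
        (max 1 ‖θ 1‖) ^ ((dX b + b.natDegree) + (dX Q + Q.natDegree)) *
        ((len2 b * (1 + u) ^ dX b * (max 1 ‖θ 0 + u * θ 1‖) ^ dX b) ^ (dX Q + Q.natDegree) *
          (len2 Q * (1 + u) ^ dX Q * (max 1 ‖θ 0 + u * θ 1‖) ^ dX Q) ^ (dX b + b.natDegree)) * max ‖ev2 b (θ 0) (θ 1)‖ ‖ev2 Q (θ 0) (θ 1)‖) →
    (R.natDegree : ℝ) ≤ C' * T * sz b * Real.log T ∧ Real.log (MM R) ≤ C' * T * sz b * Real.log T ∧
      ‖aeval (θ 0 + u * θ 1) R‖ ≤ Real.exp (C' * T * sz b * Real.log T - κ) := by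
  set L1 : ℝ := Real.log (max 1 ‖θ 1‖) with hL1
  set L2 : ℝ := Real.log (1 + ‖θ 0‖ + ‖θ 1‖) with hL2
  have hL1n : 0 ≤ L1 := Real.log_nonneg (le_max_left _ _)
  have hL2n : 0 ≤ L2 := Real.log_nonneg (by linarith [norm_nonneg (θ 0), norm_nonneg (θ 1)])
  refine ⟨200 + 2 * C + 9 * L1 + 9 * L2, by linarith, ?_⟩
  intro T hT b Q u κ R hb hQ hR hn hdX hsz hQn hQX hlQ hu hvb hvQ hdeg hMM hval
  set t : ℝ := sz b with ht
  set lb : ℝ := Real.log (len2 b) with hlb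
  set lQ : ℝ := Real.log (len2 Q) with hlQd
  set L : ℝ := Real.log (T : ℝ) with hL
  have hTR : (3 : ℝ) ≤ T := by exact_mod_cast hT
  have hT0 : (0 : ℝ) < T := by linarith
  have hL1' : 1 ≤ L := by
    rw [hL, Real.le_log_iff_exp_le hT0]
    have := Real.exp_one_lt_d9
    linarith
  have hlb0 : 0 ≤ lb := Real.log_nonneg (one_le_len2 b hb)
  have hlQ0 : 0 ≤ lQ := Real.log_nonneg (one_le_len2 Q hQ)
  have hlbpos : 0 < len2 b := lt_of_lt_of_le zero_lt_one (one_le_len2 b hb)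
  have hlQpos : 0 < len2 Q := lt_of_lt_of_le zero_lt_one (one_le_len2 Q hQ)
  set N2 : ℝ := (b.natDegree : ℝ) with hN2
  set DX : ℝ := (dX b : ℝ) with hDX
  set QN : ℝ := (Q.natDegree : ℝ) with hQNd
  set QX : ℝ := (dX Q : ℝ) with hQXd
  have tdef : t = DX + N2 + lb := by
    rw [ht, sz]
    push_cast
    rfl
  have hN21 : 1 ≤ N2 := by
    rw [hN2]
    exact_mod_cast hn
  have hDX0 : 0 ≤ DX := Nat.cast_nonneg _
  have hDXN : DX ≤ N2 := by
    rw [hDX, hN2]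
    exact_mod_cast hdX
  have hQN0 : 0 ≤ QN := Nat.cast_nonneg _
  have hQX0 : 0 ≤ QX := Nat.cast_nonneg _
  have hQNN : QN ≤ N2 := by
    rw [hQNd, hN2]
    exact_mod_cast hQn.le
  have hQXT : QX ≤ T := by
    rw [hQXd]
    exact_mod_cast hQX.le
  have ht1 : 1 ≤ t := by linarith
  have hq8 : QX + QN ≤ 8 * T := by linarith
  have hq0 : 0 ≤ QX + QN := by linarith
  have hp0 : 0 ≤ DX + N2 := by linarith
  have hpt : DX + N2 ≤ t := by linarith
  have hDXt : DX ≤ t := by linarith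
  have hlbt : lb ≤ t := by linarith
  have hTt0 : 0 ≤ (T : ℝ) * t := by positivity
  have hTtL : (T : ℝ) * t ≤ T * t * L := by
    have := mul_le_mul_of_nonneg_left hL1' hTt0
    linarith
  have hTT : (T : ℝ) ≤ T * t := by
    have := mul_le_mul_of_nonneg_left ht1 hT0.le
    linarith
  have htT : t ≤ T * t := by
    have := mul_le_mul_of_nonneg_right (show (1 : ℝ) ≤ T by linarith) (show (0 : ℝ) ≤ t by linarith)
    linarith
  -- (1 + u) ≤ exp (6 L)
  have hw : (1 + (u : ℝ)) ≤ Real.exp (6 * L) := by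
    have e6 : Real.exp (6 * L) = (T : ℝ) ^ 6 := by
      have : (6 : ℝ) * L = ((6 : ℕ) : ℝ) * L := by norm_num
      rw [this, Real.exp_nat_mul, hL, Real.exp_log hT0]
    rw [e6]
    have huR : (u : ℝ) ≤ (T : ℝ) ^ 5 := by exact_mod_cast hu
    have h5 : (1 : ℝ) ≤ (T : ℝ) ^ 5 := one_le_pow₀ (by linarith)
    have h6 : (T : ℝ) ^ 6 = T ^ 5 * T := by ring
    rw [h6]
    have h7 := mul_le_mul_of_nonneg_left hTR (show (0 : ℝ) ≤ (T : ℝ) ^ 5 by linarith)
    linarith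
  have hu0 : (0 : ℝ) ≤ u := Nat.cast_nonneg u
  have hM : max 1 ‖θ 0 + u * θ 1‖ ≤ Real.exp (L2 + 6 * L) := by
    have h1 : max 1 ‖θ 0 + u * θ 1‖ ≤ (1 + ‖θ 0‖ + ‖θ 1‖) * (1 + u) := by
      have h2 : ‖θ 0 + u * θ 1‖ ≤ ‖θ 0‖ + u * ‖θ 1‖ := by
        refine (norm_add_le _ _).trans ?_
        rw [norm_mul, Complex.norm_natCast]
      have h3 := norm_nonneg (θ 0)
      have h4 := norm_nonneg (θ 1)
      apply max_le
      · have h5 := mul_nonneg h3 hu0
        have h6 := mul_nonneg h4 hu0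
        linarith
      · have h5 := mul_nonneg h3 hu0
        have h6 := mul_nonneg h4 hu0
        linarith
    refine h1.trans ?_
    rw [Real.exp_add, hL2, Real.exp_log (by linarith [norm_nonneg (θ 0), norm_nonneg (θ 1)])]
    exact mul_le_mul_of_nonneg_left hw (by linarith [norm_nonneg (θ 0), norm_nonneg (θ 1)])
  have hM0 : (0 : ℝ) ≤ max 1 ‖θ 0 + u * θ 1‖ := le_trans zero_le_one (le_max_left _ _)
  have hlbe : len2 b = Real.exp lb := (Real.exp_log hlbpos).symm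
  have hlQe : len2 Q = Real.exp lQ := (Real.exp_log hlQpos).symm
  -- elementary products
  have k1 : (QX + QN) * lb ≤ 8 * T * t := mul_le_mul hq8 hlbt hlb0 (by positivity)
  have k2 : (QX + QN) * DX ≤ 8 * T * t := mul_le_mul hq8 hDXt hDX0 (by positivity)
  have k3 : (DX + N2) * lQ ≤ 2 * (C * T * t * L) := by
    calc (DX + N2) * lQ ≤ (2 * N2) * lQ := mul_le_mul_of_nonneg_right (by linarith) hlQ0
      _ = 2 * (N2 * lQ) := by ring
      _ ≤ 2 * (C * T * t * L) := mul_le_mul_of_nonneg_left hlQ (by norm_num)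
  have k4 : (DX + N2) * QX ≤ T * t := by
    calc (DX + N2) * QX ≤ t * T := mul_le_mul hpt hQXT hQX0 (by linarith)
      _ = T * t := by ring
  have k5 : (DX + N2) * (QX + QN) ≤ 8 * T * t := by
    calc (DX + N2) * (QX + QN) ≤ t * (8 * T) := mul_le_mul hpt hq8 hq0 (by linarith)
      _ = 8 * T * t := by ring
  have k6 : (DX + N2) + (QX + QN) ≤ 9 * T * t := by linarith
  have hTtLn : 0 ≤ (T : ℝ) * t * L := by linarith
  have hB1 : 0 ≤ L1 * ((T : ℝ) * t * L) := mul_nonneg hL1n hTtLn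
  have hB2 : 0 ≤ L2 * ((T : ℝ) * t * L) := mul_nonneg hL2n hTtLn
  have hBC : 0 ≤ C * ((T : ℝ) * t * L) := mul_nonneg (by linarith) hTtLn
  have k2L : (QX + QN) * DX * L ≤ 8 * T * t * L := mul_le_mul_of_nonneg_right k2 (by linarith)
  have k4L : (DX + N2) * QX * L ≤ T * t * L := mul_le_mul_of_nonneg_right k4 (by linarith)
  refine ⟨?_, ?_, ?_⟩
  · have hd : (R.natDegree : ℝ) ≤ 2 * (DX + N2) * (QX + QN) := by
      have := hdeg
      have h2 : (R.natDegree : ℝ) ≤ ((2 * (dX b + b.natDegree) * (dX Q + Q.natDegree) : ℕ) : ℝ) := by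
        exact_mod_cast this
      refine h2.trans (le_of_eq ?_)
      push_cast
      rfl
    linarith
  · have hMR : 0 < MM R := lt_of_lt_of_le zero_lt_one (one_le_MM R hR)
    rw [Real.log_le_iff_le_exp hMR]
    refine hMM.trans ?_
    have b1 : (len2 b * (1 + u) ^ dX b) ^ (dX Q + Q.natDegree) ≤
        Real.exp (((dX Q + Q.natDegree : ℕ) : ℝ) * (lb + DX * (6 * L))) := by
      apply a11_pow _ _ _ (by positivity)
      rw [hlbe, Real.exp_add]
      exact mul_le_mul_of_nonneg_left (a11_pow _ _ _ (by positivity) hw) (Real.exp_nonneg _)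
    have b2 : (len2 Q * (1 + u) ^ dX Q) ^ (dX b + b.natDegree) ≤
        Real.exp (((dX b + b.natDegree : ℕ) : ℝ) * (lQ + QX * (6 * L))) := by
      apply a11_pow _ _ _ (by positivity)
      rw [hlQe, Real.exp_add]
      exact mul_le_mul_of_nonneg_left (a11_pow _ _ _ (by positivity) hw) (Real.exp_nonneg _)
    refine (mul_le_mul b1 b2 (by positivity) (Real.exp_nonneg _)).trans ?_
    rw [← Real.exp_add]
    apply Real.exp_le_exp.mpr
    have c1 : ((dX Q + Q.natDegree : ℕ) : ℝ) = QX + QN := by push_cast; rfl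
    have c2 : ((dX b + b.natDegree : ℕ) : ℝ) = DX + N2 := by push_cast; rfl
    rw [c1, c2]
    linarith
  · refine hval.trans ?_
    have c1 : ((dX Q + Q.natDegree : ℕ) : ℝ) = QX + QN := by push_cast; rfl
    have c2 : ((dX b + b.natDegree : ℕ) : ℝ) = DX + N2 := by push_cast; rfl
    have a1 : ((dX b + b.natDegree : ℕ) + (dX Q + Q.natDegree : ℕ) : ℝ) ≤ Real.exp (9 * T * t) := by
      rw [c1, c2]
      refine le_trans ?_ (Real.exp_le_exp.mpr k6)
      have := Real.add_one_le_exp ((DX + N2) + (QX + QN))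
      linarith
    have a2 : (max 1 ‖θ 1‖) ^ ((dX b + b.natDegree) + (dX Q + Q.natDegree)) ≤
        Real.exp (9 * T * t * L1) := by
      have h1 : max 1 ‖θ 1‖ ≤ Real.exp L1 := by
        rw [hL1, Real.exp_log (lt_of_lt_of_le zero_lt_one (le_max_left _ _))]
      refine (a11_pow _ _ _ (le_trans zero_le_one (le_max_left _ _)) h1).trans ?_
      apply Real.exp_le_exp.mpr
      refine mul_le_mul_of_nonneg_right ?_ hL1n
      rw [Nat.cast_add, c1, c2]
      exact k6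
    have b1 : (len2 b * (1 + u) ^ dX b * (max 1 ‖θ 0 + u * θ 1‖) ^ dX b) ^ (dX Q + Q.natDegree) ≤
        Real.exp (((dX Q + Q.natDegree : ℕ) : ℝ) * (lb + DX * (6 * L) + DX * (L2 + 6 * L))) := by
      apply a11_pow _ _ _ (by positivity)
      rw [hlbe, Real.exp_add, Real.exp_add]
      exact mul_le_mul (mul_le_mul_of_nonneg_left (a11_pow _ _ _ (by positivity) hw)
        (Real.exp_nonneg _)) (a11_pow _ _ _ hM0 hM) (by positivity) (by positivity)
    have b2 : (len2 Q * (1 + u) ^ dX Q * (max 1 ‖θ 0 + u * θ 1‖) ^ dX Q) ^ (dX b + b.natDegree) ≤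
        Real.exp (((dX b + b.natDegree : ℕ) : ℝ) * (lQ + QX * (6 * L) + QX * (L2 + 6 * L))) := by
      apply a11_pow _ _ _ (by positivity)
      rw [hlQe, Real.exp_add, Real.exp_add]
      exact mul_le_mul (mul_le_mul_of_nonneg_left (a11_pow _ _ _ (by positivity) hw)
        (Real.exp_nonneg _)) (a11_pow _ _ _ hM0 hM) (by positivity) (by positivity)
    have a3 : max ‖ev2 b (θ 0) (θ 1)‖ ‖ev2 Q (θ 0) (θ 1)‖ ≤ Real.exp (-κ) := max_le hvb hvQ
    have hall := mul_le_mul (mul_le_mul (mul_le_mul a1 a2 (by positivity) (Real.exp_nonneg _))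
      (mul_le_mul b1 b2 (by positivity) (Real.exp_nonneg _)) (by positivity) (by positivity)) a3
      (le_max_of_le_left (norm_nonneg _)) (by positivity)
    refine hall.trans ?_
    rw [← Real.exp_add, ← Real.exp_add, ← Real.exp_add, ← Real.exp_add]
    apply Real.exp_le_exp.mpr
    rw [c1, c2]
    have m1 : (QX + QN) * DX * L2 ≤ 8 * T * t * L2 := mul_le_mul_of_nonneg_right k2 hL2n
    have m2 : (DX + N2) * QX * L2 ≤ T * t * L2 := mul_le_mul_of_nonneg_right k4 hL2n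
    have m3 : (T : ℝ) * t * L2 ≤ T * t * L * L2 := mul_le_mul_of_nonneg_right hTtL hL2n
    have m4 : (T : ℝ) * t * L1 ≤ T * t * L * L1 := mul_le_mul_of_nonneg_right hTtL hL1n
    linarith

end Pool.Agent.MSL
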