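import Pool.Agent.Lib.MP_f58a57_nt.L.Defs

/-! # L/A9_Sel: selection of the projection -/

open Polynomial

noncomputable section

namespace Pool.Agent.MSL

open MSD MSP

lemma a9_bad (a b : ℂ) (N u u' : ℕ) (hN : 1 ≤ N) (hu : u ≤ N) (huu : u ≠ u')
    (h : (2 * (N : ℝ) + 1) * ‖a + u * b‖ < max ‖a‖ ‖b‖) (h' : (2 * (N : ℝ) + 1) * ‖a + u' * b‖ < max ‖a‖ ‖b‖) : False := by
  set m : ℝ := max ‖a‖ ‖b‖ with hm
  have hN1 : (1 : ℝ) ≤ N := by exact_mod_cast hN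
  have h1 : ‖b‖ ≤ ‖a + u * b‖ + ‖a + u' * b‖ := by
    have h2 : ((u : ℂ) - u') * b = (a + u * b) - (a + u' * b) := by ring
    have h3 : (1 : ℝ) ≤ ‖(u : ℂ) - u'‖ := by
      have h4 : ((u : ℂ) - u') = (((u : ℤ) - (u' : ℤ) : ℤ) : ℂ) := by push_cast; ring
      rw [h4, Complex.norm_intCast]
      have h5 : ((u : ℤ) - (u' : ℤ)) ≠ 0 := by omega
      have h6 := Int.one_le_abs h5
      exact_mod_cast h6
    calc ‖b‖ ≤ ‖(u : ℂ) - u'‖ * ‖b‖ := le_mul_of_one_le_left (norm_nonneg _) h3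
      _ = ‖((u : ℂ) - u') * b‖ := (norm_mul _ _).symm
      _ ≤ _ := by rw [h2]; exact norm_sub_le _ _
  have h2 : ‖a‖ ≤ ‖a + u * b‖ + N * ‖b‖ := by
    have h3 : a = (a + u * b) - u * b := by ring
    calc ‖a‖ = ‖(a + u * b) - u * b‖ := by rw [← h3]
      _ ≤ ‖a + u * b‖ + ‖(u : ℂ) * b‖ := norm_sub_le _ _
      _ ≤ ‖a + u * b‖ + N * ‖b‖ := by
        rw [norm_mul, Complex.norm_natCast]
        have : (u : ℝ) ≤ N := by exact_mod_cast hu
        have := mul_le_mul_of_nonneg_right this (norm_nonneg b)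
        linarith
  have hb : (2 * (N : ℝ) + 1) * ‖b‖ < 2 * m := by nlinarith
  have hbm : ‖b‖ < m := by nlinarith [norm_nonneg b]
  have ham : ‖a‖ < m := by nlinarith [norm_nonneg b, norm_nonneg a]
  have : m < m := by
    conv_lhs => rw [hm]
    exact max_lt ham hbm
  exact lt_irrefl _ this

/-- A9. PROOF. Let `U` be the set of `u ≤ N`, `u ∉ B`; it has at least `N + 1 - card B > 2 card Z + 1` elements. (1) For `ξ ∈ Z` at most one `u ∈ U` is bad, i.e. `max ‖v₁‖ ‖v₂‖ > (2N + 1) ‖v₁ + u v₂‖` for `v = ξ - θ`: if `u ≠ u'` are bad, `m = max ‖v₁‖ ‖v₂‖ > 0`, then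
`‖v₂‖ ≤ ‖(u - u') v₂‖ < 2m/(2N+1) ≤ m`, `‖v₁‖ < m/(2N+1) + N · 2m/(2N+1) = m`: contradiction. (2) For `ξ ∈ Z` let `u_ξ ∈ U` minimise `hgt (ξ.1 + u ξ.2)` over `U` (`Finset.exists_min_image`). Choose `u ∈ U` which is not bad for any `ξ` and different from all `u_ξ`; `v = u_ξ`. -/
theorem sel (Z : Finset (ℂ × ℂ)) (θ₀ θ₁ : ℂ) (N : ℕ) (B : Finset ℕ) (h : B.card + 2 * Z.card + 2 ≤ N) :
    ∃ u : ℕ, u ≤ N ∧ u ∉ B ∧ (∀ ξ ∈ Z, ‖ξ.1 - θ₀‖ ≤ (2 * N + 1) * ‖ξ.1 + u * ξ.2 - (θ₀ + u * θ₁)‖ ∧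
      ‖ξ.2 - θ₁‖ ≤ (2 * N + 1) * ‖ξ.1 + u * ξ.2 - (θ₀ + u * θ₁)‖) ∧
      ∀ ξ ∈ Z, ∃ v : ℕ, v ≤ N ∧ v ∉ B ∧ v ≠ u ∧ hgt (ξ.1 + v * ξ.2) ≤ hgt (ξ.1 + u * ξ.2) := by
  classical
  set U : Finset ℕ := Finset.range (N + 1) \ B with hU
  have hUcard : N + 1 - B.card ≤ U.card := by
    have h1 := Finset.le_card_sdiff B (Finset.range (N + 1))
    rw [Finset.card_range] at h1
    exact h1
  have hUmem : ∀ u ∈ U, u ≤ N ∧ u ∉ B := by
    intro u hu
    rw [hU, Finset.mem_sdiff, Finset.mem_range] at hu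
    exact ⟨by omega, hu.2⟩
  have hUne : U.Nonempty := by
    rw [← Finset.card_pos]
    omega
  have hmin : ∀ ξ : ℂ × ℂ, ∃ v ∈ U, ∀ u ∈ U, hgt (ξ.1 + v * ξ.2) ≤ hgt (ξ.1 + u * ξ.2) := fun ξ =>
    Finset.exists_min_image U (fun u => hgt (ξ.1 + u * ξ.2)) hUne
  choose vm hvm1 hvm2 using hmin
  set bad : ℂ × ℂ → Finset ℕ := fun ξ => U.filter fun u =>
    ¬ (‖ξ.1 - θ₀‖ ≤ (2 * N + 1) * ‖ξ.1 + u * ξ.2 - (θ₀ + u * θ₁)‖ ∧
      ‖ξ.2 - θ₁‖ ≤ (2 * N + 1) * ‖ξ.1 + u * ξ.2 - (θ₀ + u * θ₁)‖) with hbad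
  have hbad1 : ∀ ξ u, u ∈ bad ξ → (2 * (N : ℝ) + 1) * ‖(ξ.1 - θ₀) + u * (ξ.2 - θ₁)‖ < max ‖ξ.1 - θ₀‖ ‖ξ.2 - θ₁‖ := by
    intro ξ u hu
    have h1 := (Finset.mem_filter.mp hu).2
    have h2 : (ξ.1 - θ₀) + u * (ξ.2 - θ₁) = ξ.1 + u * ξ.2 - (θ₀ + u * θ₁) := by ring
    rw [h2]
    rw [not_and_or, not_le, not_le] at h1
    rcases h1 with h1 | h1
    · exact lt_max_of_lt_left h1
    · exact lt_max_of_lt_right h1
  have hbadcard : ∀ ξ, (bad ξ).card ≤ 1 := by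
    intro ξ
    rw [Finset.card_le_one]
    intro u hu u' hu'
    by_contra hne
    exact a9_bad (ξ.1 - θ₀) (ξ.2 - θ₁) N u u' (by omega) (hUmem u (Finset.mem_filter.mp hu).1).1 hne
      (hbad1 ξ u hu) (hbad1 ξ u' hu')
  have hcard : (Z.biUnion bad ∪ Z.image vm).card < U.card := by
    have h1 : (Z.biUnion bad).card ≤ Z.card := by
      refine Finset.card_biUnion_le.trans ?_
      calc ∑ ξ ∈ Z, (bad ξ).card ≤ ∑ _ξ ∈ Z, 1 := Finset.sum_le_sum fun ξ _ => hbadcard ξ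
        _ = Z.card := by simp
    have h2 : (Z.image vm).card ≤ Z.card := Finset.card_image_le
    have h3 := Finset.card_union_le (Z.biUnion bad) (Z.image vm)
    omega
  obtain ⟨u, huU, hu⟩ := Finset.exists_mem_notMem_of_card_lt_card hcard
  rw [Finset.mem_union, not_or, Finset.mem_biUnion, Finset.mem_image] at hu
  refine ⟨u, (hUmem u huU).1, (hUmem u huU).2, ?_, ?_⟩
  · intro ξ hξ
    by_contra hcon
    exact hu.1 ⟨ξ, hξ, Finset.mem_filter.mpr ⟨huU, hcon⟩⟩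
  · intro ξ hξ
    exact ⟨vm ξ, (hUmem _ (hvm1 ξ)).1, (hUmem _ (hvm1 ξ)).2, fun he => hu.2 ⟨ξ, hξ, he⟩, hvm2 ξ u huU⟩

/-- A9b. PROOF. By definition of `mz`: an algebraic number is a root of a nonzero polynomial over `ℤ` (`IsAlgebraic` over `ℤ` and `ℚ` is the same: `IsFractionRing.isAlgebraic_iff`), so of one of its irreducible factors (`UniqueFactorizationMonoid`/`WfDvdMonoid.exists_factors`), which is not constant. -/
theorem mz_spec (α : ℂ) (hα : IsAlgebraic ℚ α) : Irreducible (mz α) ∧ 1 ≤ (mz α).natDegree ∧ aeval α (mz α) = 0 := by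
  have hex : ∃ f : Polynomial ℤ, Irreducible f ∧ 1 ≤ f.natDegree ∧ Polynomial.aeval α f = 0 := by
    obtain ⟨p, hp, hpα⟩ := (IsFractionRing.isAlgebraic_iff ℤ ℚ ℂ).mpr hα
    obtain ⟨F, hF, hass⟩ := WfDvdMonoid.exists_factors p hp
    have h1 : aeval α F.prod = 0 := by
      obtain ⟨c, hc⟩ := hass.symm
      rw [← hc, map_mul, hpα, zero_mul]
    rw [map_multiset_prod, Multiset.prod_eq_zero_iff, Multiset.mem_map] at h1
    obtain ⟨f, hf, hfα⟩ := h1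
    refine ⟨f, hF f hf, ?_, hfα⟩
    by_contra hdeg
    have h2 : f = C (f.coeff 0) := eq_C_of_natDegree_eq_zero (by omega)
    rw [h2, aeval_C] at hfα
    have h3 : f.coeff 0 = 0 := by
      have : ((f.coeff 0 : ℤ) : ℂ) = 0 := by simpa using hfα
      exact_mod_cast this
    rw [h3, C_0] at h2
    exact (hF f hf).ne_zero h2
  unfold mz
  rw [dif_pos hex]
  exact hex.choose_spec

/-- A9c. PROOF. Both are irreducible over `ℚ` (Gauss: `IsPrimitive.Int.irreducible_iff_irreducible_map_cast`) with a common root, so associated over `ℚ`; both primitive, so associated over `ℤ` (`IsPrimitive.Int.dvd_iff_map_cast_dvd_map_cast`). Units of `ℤ[X]` are `± 1`: same degree, same `MM`,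
same absolute values. (If `f` is given, `α` is algebraic, `mz_spec`.) -/
theorem mz_assoc (α : ℂ) (f : Polynomial ℤ) (hf : Irreducible f) (hd : 1 ≤ f.natDegree) (h : aeval α f = 0) :
    f.natDegree = (mz α).natDegree ∧ MM f = MM (mz α) ∧ ∀ y : ℂ, ‖aeval y f‖ = ‖aeval y (mz α)‖ := by
  have hαZ : IsAlgebraic ℤ α := ⟨f, hf.ne_zero, h⟩
  have hα : IsAlgebraic ℚ α := (IsFractionRing.isAlgebraic_iff ℤ ℚ ℂ).mp hαZ
  obtain ⟨hg, hgd, hgα⟩ := mz_spec α hα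
  set g : Polynomial ℤ := mz α with hgdef
  have hfp : f.IsPrimitive := hf.isPrimitive (by omega)
  have hgp : g.IsPrimitive := hg.isPrimitive (by omega)
  have hfQ := (IsPrimitive.Int.irreducible_iff_irreducible_map_cast hfp).mp hf
  have hα' : IsIntegral ℚ α := hα.isIntegral
  have hmap : ∀ p : Polynomial ℤ, aeval α (p.map (Int.castRingHom ℚ)) = aeval α p := by
    intro p
    exact aeval_map_algebraMap ℚ α p
  have h1 : minpoly ℚ α ∣ f.map (Int.castRingHom ℚ) := minpoly.dvd ℚ α (by rw [hmap]; exact h)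
  have h2 : minpoly ℚ α ∣ g.map (Int.castRingHom ℚ) := minpoly.dvd ℚ α (by rw [hmap]; exact hgα)
  have h3 : f.map (Int.castRingHom ℚ) ∣ g.map (Int.castRingHom ℚ) :=
    ((minpoly.irreducible hα').dvd_symm hfQ h1).trans h2
  have h4 : f ∣ g := (IsPrimitive.Int.dvd_iff_map_cast_dvd_map_cast f g hfp).mpr h3
  obtain ⟨c, hc⟩ := hf.associated_of_dvd hg h4
  obtain ⟨r, hr, hrc⟩ := Polynomial.isUnit_iff.mp c.isUnit
  have hg' : g = f * C r := by rw [← hc, ← hrc]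
  rcases Int.isUnit_iff.mp hr with h5 | h5
  · rw [hg', h5]
    simp
  · have h6 : g = -f := by
      rw [hg', h5]
      simp
    rw [h6]
    refine ⟨(natDegree_neg f).symm, ?_, fun y => ?_⟩
    · unfold MM
      rw [Polynomial.map_neg]
      have h7 : -(f.map (Int.castRingHom ℂ)) = C (-1) * f.map (Int.castRingHom ℂ) := by simp
      rw [h7, mahlerMeasure_mul, mahlerMeasure_const]
      simp
    · rw [map_neg, norm_neg]

end Pool.Agent.MSL
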