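import Pool.Agent.Lib.MP_f58a57_nt.L.A8b_Fin
import Pool.Agent.Lib.MP_f58a57_nt.L.A9_Sel
import Pool.Agent.Lib.MP_f58a57_nt.L.A11_Bounds
import Pool.Agent.Lib.MP_f58a57_nt.P.K3_Gelfond

/-! # L/A12_Main: an algebraic point which is extremely close to `θ` -/

open Polynomial Filter

noncomputable section

namespace Pool.Agent.MSL

open MSD MSP

theorem a12_asym (A : ℝ) : ∀ᶠ l : ℕ in atTop, A * Real.log l ^ 2 ≤ l ∧ 1 ≤ Real.log l ∧ 10 ≤ l := by
  have h1 : ∀ᶠ x : ℝ in atTop, ‖Real.log x ^ 2‖ ≤ (1 / (|A| + 1)) * ‖id x‖ :=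
    (Real.isLittleO_pow_log_id_atTop (n := 2)).def (by positivity)
  have h2 : ∀ᶠ x : ℝ in atTop, 1 ≤ Real.log x := Real.tendsto_log_atTop.eventually_ge_atTop 1
  filter_upwards [tendsto_natCast_atTop_atTop.eventually h1, tendsto_natCast_atTop_atTop.eventually h2,
    eventually_ge_atTop 10] with l e1 e2 e3
  refine ⟨?_, e2, e3⟩
  rw [Real.norm_of_nonneg (by positivity), id, Real.norm_of_nonneg (Nat.cast_nonneg l), one_div,
    inv_mul_eq_div, le_div_iff₀ (by positivity)] at e1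
  have h3 : A * Real.log l ^ 2 ≤ (|A| + 1) * Real.log l ^ 2 :=
    mul_le_mul_of_nonneg_right (by linarith [le_abs_self A]) (by positivity)
  linarith

/-- the arithmetic of the parameters -/
theorem a12_arith (c C' K l Lg t : ℝ) (hc : 0 < c) (hC' : 1 ≤ C') (hl : 10 ≤ l) (hLg : 1 ≤ Lg)
    (ht : 1 ≤ t) (htT : t ≤ 7 * l ^ 5) (h1 : 20 * C' * (|K| + 1) * Lg ^ 2 ≤ c * l) (h2 : 70 * C' * Lg ≤ l) :
    0 < C' * l ^ 5 * t * (5 * Lg) ∧
    C' * l ^ 5 * t * (5 * Lg) - c * (l ^ 5) ^ 2 * t ≤ -(c * (l ^ 5) ^ 2 * t / 2) ∧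
    K * l ^ 4 * Lg ≤ (c * (l ^ 5) ^ 2 * t) / (2 * (C' * l ^ 5 * t * (5 * Lg)) ^ 2) / 2 * (C' * l ^ 5 * t * (5 * Lg)) ∧
    2 * (C' * l ^ 5 * t * (5 * Lg)) ≤ l ^ 11 := by
  have hl0 : 0 < l := by linarith
  have hLg0 : 0 < Lg := by linarith
  have hC0 : 0 < C' := by linarith
  have ht0 : 0 < t := by linarith
  have hl5 : 0 < l ^ 5 := by positivity
  have hK : 0 ≤ |K| := abs_nonneg K
  have hLL : Lg ≤ Lg ^ 2 := by nlinarith
  have h3 : 20 * C' * Lg ≤ c * l := by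
    have a1 : 20 * C' * Lg ≤ 20 * C' * Lg ^ 2 := mul_le_mul_of_nonneg_left hLL (by positivity)
    have a2 : 20 * C' * Lg ^ 2 ≤ 20 * C' * (|K| + 1) * Lg ^ 2 := by
      have : 0 ≤ 20 * C' * |K| * Lg ^ 2 := by positivity
      nlinarith
    linarith
  have h4 : c * l ≤ c * l ^ 5 := by
    refine mul_le_mul_of_nonneg_left ?_ hc.le
    calc l = l ^ 1 := (pow_one l).symm
      _ ≤ l ^ 5 := pow_le_pow_right₀ (by linarith) (by norm_num)
  have hS : 0 < C' * l ^ 5 * t * (5 * Lg) := by positivity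
  refine ⟨hS, ?_, ?_, ?_⟩
  · have hCL : 0 < C' * Lg := by positivity
    have a3 : 10 * C' * Lg * (l ^ 5 * t) ≤ c * l ^ 5 * (l ^ 5 * t) :=
      mul_le_mul_of_nonneg_right (by linarith) (by positivity)
    nlinarith
  · have e : (c * (l ^ 5) ^ 2 * t) / (2 * (C' * l ^ 5 * t * (5 * Lg)) ^ 2) / 2 * (C' * l ^ 5 * t * (5 * Lg)) =
        c * l ^ 5 / (20 * C' * Lg) := by
      field_simp
      ring
    rw [e, le_div_iff₀ (by positivity)]
    have a4 : K * l ^ 4 * Lg * (20 * C' * Lg) = (20 * C' * K * Lg ^ 2) * l ^ 4 := by ring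
    have a5 : c * l ^ 5 = (c * l) * l ^ 4 := by ring
    rw [a4, a5]
    refine mul_le_mul_of_nonneg_right (le_trans ?_ h1) (by positivity)
    refine mul_le_mul_of_nonneg_right ?_ (by positivity)
    exact mul_le_mul_of_nonneg_left (by linarith [le_abs_self K]) (by positivity)
  · calc 2 * (C' * l ^ 5 * t * (5 * Lg)) = 10 * C' * Lg * l ^ 5 * t := by ring
      _ ≤ 10 * C' * Lg * l ^ 5 * (7 * l ^ 5) := mul_le_mul_of_nonneg_left htT (by positivity)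
      _ = (70 * C' * Lg) * l ^ 10 := by ring
      _ ≤ l * l ^ 10 := mul_le_mul_of_nonneg_right h2 (by positivity)
      _ = l ^ 11 := by ring

/-- A12a. One variable of the curve dominates. PROOF. With `T = l^5`, `b` as given, `Q` from `second`, `Z` from `zeros_fin` (`card Z ≤ 2 · 14T · 8T ≤ 300 T²`), `B` from `res_u` (`card B ≤ 14 T`), `N = T^5 ≥ card B + 2 card Z + 2`: `sel` gives `u ≤ N`. `R` from `res_u`,
`R(θ 0 + u θ 1) ≠ 0` (`lin_ne`), `R_bounds` with `κ = c T² t`, `t = sz b ≥ 1`: degree and `log MM` at most `S = C' T t log T`, `‖R(..)‖ ≤ exp (S - κ) ≤ exp (-κ/2)`. `exists_factor` (P/K1_Factor) with `δ = σ = S`, `Λ = κ/(2S²)` (`exp (-(Λ δ σ)) = exp (-κ/2)`): irreducible `f` of positive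
degree with `log ‖f(..)‖ ≤ -(κ/(4S)) (natDegree f + log MM f)`, `κ/(4S) = c T/(4 C' log T) ≥ K l^4 log l` for large `l`; `natDegree f ≤ natDegree R ≤ S`, `MM f ≤ MM R` (`k3_factor` in P/K3_Gelfond), so `natDegree f + log MM f ≤ 2S ≤ 14 C' T² log T ≤ l^11`. A root `α` of `f` (`ℂ` is algebraically
closed) is a root of `R`, so `α = x + u y` for a common zero; `f` and `mz α` have the same degree, `MM` and absolute values (`mz_assoc`). `v` from `sel`. `2N + 1 ≤ l^28`, `N ≤ l^28`. -/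
theorem appr_of (θ : Fin 2 → ℂ) (hθ : AlgebraicIndependent ℚ θ) (c : ℝ) (hc : 0 < c) (hc1 : c ≤ 1) (K : ℝ) : ∀ᶠ l : ℕ in atTop, ∀ b : BP, Irreducible b →
    1 ≤ b.natDegree → dX b ≤ b.natDegree → sz b ≤ 7 * (l ^ 5 : ℕ) → ‖ev2 b (θ 0) (θ 1)‖ ≤ Real.exp (-(c * (l ^ 5 : ℕ) ^ 2 * sz b)) → Appr θ l K := by
  obtain ⟨C, hC, hsec⟩ := second θ c hc hc1
  obtain ⟨C', hC', hRb⟩ := R_bounds θ C hC
  have hsec5 := (tendsto_pow_atTop (by norm_num : (5 : ℕ) ≠ 0) : Tendsto (fun l : ℕ => l ^ 5) atTop atTop).eventually hsec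
  filter_upwards [hsec5, a12_asym (20 * C' * (|K| + 1) / c), a12_asym (70 * C')] with l hs2 ⟨q1, q2, q3⟩ ⟨q4, _, _⟩
  intro b hb hd hdX hsz hsm
  have hb0 : b ≠ 0 := hb.ne_zero
  have hlR : (10 : ℝ) ≤ l := by exact_mod_cast q3
  have hC0 : 0 < C' := by linarith
  have r1 : 20 * C' * (|K| + 1) * Real.log l ^ 2 ≤ c * l := by
    rw [div_mul_eq_mul_div, div_le_iff₀ hc] at q1
    linarith
  have r2 : 70 * C' * Real.log l ≤ l := by
    refine le_trans ?_ q4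
    refine mul_le_mul_of_nonneg_left ?_ (by positivity)
    nlinarith
  have hcast : (((l ^ 5 : ℕ)) : ℝ) = (l : ℝ) ^ 5 := by push_cast; ring
  have hlen : 0 ≤ Real.log (len2 b) := Real.log_nonneg (one_le_len2 b hb0)
  have ht : 1 ≤ sz b := by
    unfold sz
    have : (1 : ℝ) ≤ ((dX b + b.natDegree : ℕ) : ℝ) := by exact_mod_cast le_trans hd (Nat.le_add_left _ _)
    linarith
  have htT : sz b ≤ 7 * (l : ℝ) ^ 5 := by rw [← hcast]; exact hsz
  have hdeg7 : dX b + b.natDegree ≤ 7 * l ^ 5 := by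
    have h1 : ((dX b + b.natDegree : ℕ) : ℝ) ≤ 7 * ((l ^ 5 : ℕ) : ℝ) := by
      have := hsz
      unfold sz at this
      linarith
    exact_mod_cast h1
  obtain ⟨S0, S1, S2, S3⟩ := a12_arith c C' K l (Real.log l) (sz b) hc hC' hlR q2 ht htT r1 r2
  obtain ⟨Q, hQ0, hbQ, hQd, hQX, hQl, hQs⟩ := hs2 b hb0 hd hsz
  obtain ⟨Z, hZ, hZc, hZa⟩ := zeros_fin b Q hb hd hQ0 hbQ
  obtain ⟨B, hBc, hBR⟩ := res_u b Q hb hd hQ0 hbQ
  have hl10 : 10 ≤ l := q3
  have hT10 : 100000 ≤ l ^ 5 := by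
    calc 100000 = 10 ^ 5 := by norm_num
      _ ≤ l ^ 5 := Nat.pow_le_pow_left hl10 5
  have hQdeg : dX Q + Q.natDegree ≤ 8 * l ^ 5 := by omega
  have hcard : B.card + 2 * Z.card + 2 ≤ (l ^ 5) ^ 5 := by
    generalize l ^ 5 = T at *
    have h1 : Z.card ≤ 2 * (7 * T) * (8 * T) :=
      hZc.trans (Nat.mul_le_mul (Nat.mul_le_mul_left 2 hdeg7) hQdeg)
    have h2 : B.card ≤ 7 * T := hBc.trans hdeg7
    have h3 : 1000 * T ^ 2 ≤ T ^ 5 := by
      calc 1000 * T ^ 2 ≤ T ^ 3 * T ^ 2 := by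
            refine Nat.mul_le_mul_right _ ?_
            calc 1000 ≤ T := by omega
              _ = T ^ 1 := (pow_one T).symm
              _ ≤ T ^ 3 := Nat.pow_le_pow_right (by omega) (by norm_num)
        _ = T ^ 5 := by ring
    nlinarith
  obtain ⟨u, huN, huB, hu1, hu2⟩ := sel Z (θ 0) (θ 1) ((l ^ 5) ^ 5) B hcard
  obtain ⟨R, hR0, hRz, hRr, hRd, hRM, hRv⟩ := hBR u huB
  have hlogT : Real.log (((l ^ 5 : ℕ)) : ℝ) = 5 * Real.log l := by
    rw [hcast, Real.log_pow]; norm_num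
  obtain ⟨w1, w2, w3⟩ := hRb (l ^ 5) (by omega) b Q u (c * ((l ^ 5 : ℕ) : ℝ) ^ 2 * sz b) R hb0 hQ0 hR0 hd hdX hsz hQd hQX
    hQl huN hsm hQs hRd hRM (hRv (θ 0) (θ 1))
  rw [hlogT, hcast] at w1 w2 w3
  have hne := lin_ne θ hθ u R hR0
  set S : ℝ := C' * (l : ℝ) ^ 5 * sz b * (5 * Real.log l) with hSdef
  have hkap : 0 < c * ((l : ℝ) ^ 5) ^ 2 * sz b := by positivity
  obtain ⟨f, hf, hfR, hf1, hfl⟩ := exists_factor (θ 0 + u * θ 1) R hne S S
    ((c * ((l : ℝ) ^ 5) ^ 2 * sz b) / (2 * S ^ 2)) S0 S0 (by positivity) w1 w2 (by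
      refine w3.trans (Real.exp_le_exp.2 (S1.trans (le_of_eq ?_)))
      have : S ≠ 0 := S0.ne'
      field_simp)
  obtain ⟨g1, g2⟩ := k3_factor hR0 hfR
  have hf0 : f ≠ 0 := hf.ne_zero
  have hMf : 0 ≤ Real.log (MM f) := Real.log_nonneg (one_le_MM f hf0)
  obtain ⟨α, hα⟩ : ∃ α : ℂ, aeval α f = 0 := by
    refine IsAlgClosed.exists_aeval_eq_zero_of_injective ℂ ?_ f ?_
    · exact (algebraMap ℤ ℂ).injective_int
    · intro h0
      have := natDegree_eq_zero_iff_degree_le_zero.2 h0.le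
      omega
  obtain ⟨m1, m2, m3⟩ := mz_assoc α f hf hf1 hα
  have hαR : aeval α R = 0 := by
    obtain ⟨k, rfl⟩ := hfR
    rw [map_mul, hα, zero_mul]
  obtain ⟨x, y, hx, hy, hxy⟩ := hRr α hαR
  have hmem : ((x, y) : ℂ × ℂ) ∈ Z := (hZ (x, y)).2 ⟨hx, hy⟩
  obtain ⟨v, hvN, -, hvu, hvh⟩ := hu2 (x, y) hmem
  have hpow : (l ^ 5) ^ 5 ≤ l ^ 28 := by
    rw [← pow_mul]
    exact Nat.pow_le_pow_right (by omega) (by norm_num)
  have hN28 : (2 * (((l ^ 5) ^ 5 : ℕ) : ℝ) + 1) ≤ (l : ℝ) ^ 28 := by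
    have h1 : 2 * (l ^ 5) ^ 5 + 1 ≤ l ^ 28 := by
      have e : l ^ 28 = (l ^ 5) ^ 5 * l ^ 3 := by ring
      have h2 : 0 < (l ^ 5) ^ 5 := by positivity
      have h3 : 3 ≤ l ^ 3 := by
        calc 3 ≤ l := by omega
          _ = l ^ 1 := (pow_one l).symm
          _ ≤ l ^ 3 := Nat.pow_le_pow_right (by omega) (by norm_num)
      rw [e]
      nlinarith
    exact_mod_cast h1
  refine ⟨b, Q, u, v, x, y, fun h => hvu h.symm, huN.trans hpow, hvN.trans hpow, hx, hy, ?_, ?_, ?_, hvh⟩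
  · intro x' y' hx' hy'
    have hmem' : ((x', y') : ℂ × ℂ) ∈ Z := (hZ (x', y')).2 ⟨hx', hy'⟩
    refine ⟨(hZa _ hmem').1, (hZa _ hmem').2, ?_, ?_⟩
    · exact (hu1 _ hmem').1.trans (mul_le_mul_of_nonneg_right hN28 (norm_nonneg _))
    · exact (hu1 _ hmem').2.trans (mul_le_mul_of_nonneg_right hN28 (norm_nonneg _))
  · rw [hxy, ← m1, ← m2]
    have g1' : (f.natDegree : ℝ) ≤ R.natDegree := by exact_mod_cast g1
    linarith
  · rw [hxy, ← m1, ← m2, ← m3]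
    have hfne := lin_ne θ hθ u f hf0
    rw [← Real.exp_log (norm_pos_iff.2 hfne)]
    refine Real.exp_le_exp.2 (hfl.trans (neg_le_neg ?_))
    have hX : 0 ≤ (f.natDegree : ℝ) + Real.log (MM f) := by positivity
    calc K * (l : ℝ) ^ 4 * Real.log l * ((f.natDegree : ℝ) + Real.log (MM f))
        ≤ ((c * ((l : ℝ) ^ 5) ^ 2 * sz b) / (2 * S ^ 2) / 2 * S) * ((f.natDegree : ℝ) + Real.log (MM f)) :=
          mul_le_mul_of_nonneg_right S2 hX
      _ = (c * ((l : ℝ) ^ 5) ^ 2 * sz b) / (2 * S ^ 2) / 2 * (f.natDegree * S + Real.log (MM f) * S) := by ring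

/-- A12b. PROOF. `curve` with `T = l^5` (`tendsto_pow_atTop`), then `appr_of` for `θ` if `dX b ≤ natDegree b`, otherwise `exists_swap` and `appr_of` for `![θ 1, θ 0]` (algebraically independent: `AlgebraicIndependent.comp` with the injective map that swaps the indices). -/
theorem appr_main (θ : Fin 2 → ℂ) (hθ : AlgebraicIndependent ℚ θ) (K : ℝ) : ∀ᶠ l : ℕ in atTop, Appr θ l K ∨ Appr ![θ 1, θ 0] l K := by
  have hθ' : AlgebraicIndependent ℚ ![θ 1, θ 0] := by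
    have h1 := hθ.comp (Equiv.swap (0 : Fin 2) 1) (Equiv.injective _)
    have e : θ ∘ (Equiv.swap (0 : Fin 2) 1) = ![θ 1, θ 0] := by
      funext i
      fin_cases i <;> simp
    rwa [e] at h1
  obtain ⟨c, hc, hc1, hcur⟩ := curve θ hθ
  have hcur5 := (tendsto_pow_atTop (by norm_num : (5 : ℕ) ≠ 0) : Tendsto (fun l : ℕ => l ^ 5) atTop atTop).eventually hcur
  filter_upwards [hcur5, appr_of θ hθ c hc hc1 K, appr_of ![θ 1, θ 0] hθ' c hc hc1 K] with l ⟨b, hb, hb1, hbs, hbv⟩ k1 k2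
  rcases le_or_gt (dX b) b.natDegree with hle | hlt
  · exact Or.inl (k1 b hb (by omega) hle hbs hbv)
  · obtain ⟨q, hq1, hq0, hqX, hqY, hql, hqe⟩ := exists_swap b hb.ne_zero
    have hsz : sz q = sz b := by
      unfold sz
      rw [hqX, hqY, hql, add_comm b.natDegree]
    refine Or.inr (k2 q (hq1 hb) (by omega) (by omega) (by rw [hsz]; exact hbs) ?_)
    rw [hqe, hsz]
    exact hbv

end Pool.Agent.MSL
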