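import Pool.Agent.Lib.MP_f58a57_nt.L.A2_Lead

/-! # L/A1_Basic: integer polynomials in two variables -/

open Polynomial

noncomputable section

namespace Pool.Agent.MSL

open MSD MSP

/-- A1a. PROOF. `sp x` is `Polynomial.map` of a ring homomorphism, so multiplicative and additive; `ev2` likewise. -/
theorem ev2_mul (p q : BP) (x y : ℂ) : ev2 (p * q) x y = ev2 p x y * ev2 q x y := by
  rw [ev2, ev2, ev2, sp, sp, sp, Polynomial.map_mul, Polynomial.eval_mul]

theorem ev2_one (x y : ℂ) : ev2 1 x y = 1 := by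
  rw [ev2, sp, Polynomial.map_one, Polynomial.eval_one]

theorem ev2_neg (p : BP) (x y : ℂ) : ev2 (-p) x y = -ev2 p x y := by
  rw [ev2, ev2, sp, sp, Polynomial.map_neg, Polynomial.eval_neg]

theorem sp_mul (x : ℂ) (p q : BP) : sp x (p * q) = sp x p * sp x q := by
  rw [sp, sp, sp, Polynomial.map_mul]

/-- A1b. PROOF. `Polynomial.eval_eq_sum_range` or `Polynomial.eval_map`, `Polynomial.eval₂_eq_sum`. -/
theorem ev2_sum (p : BP) (x y : ℂ) (n : ℕ) (hn : p.natDegree < n) :
    ev2 p x y = ∑ j ∈ Finset.range n, aeval x (p.coeff j) * y ^ j := by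
  have h1 : (sp x p).natDegree < n := lt_of_le_of_lt Polynomial.natDegree_map_le hn
  rw [ev2, Polynomial.eval_eq_sum_range' h1]
  apply Finset.sum_congr rfl
  intro j _
  rw [sp, Polynomial.coeff_map]
  rfl

/-- the value as a ring homomorphism -/
def a1_ev (x y : ℂ) : BP →+* ℂ :=
  (Polynomial.evalRingHom y).comp
    (Polynomial.mapRingHom (Polynomial.aeval x : Polynomial ℤ →ₐ[ℤ] ℂ).toRingHom)

theorem a1_ev_eq (p : BP) (x y : ℂ) : a1_ev x y p = ev2 p x y := rfl

theorem a1_ev_CX (x y : ℂ) : a1_ev x y (C X) = x := by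
  rw [a1_ev_eq, ev2, sp, Polynomial.map_C, Polynomial.eval_C]
  exact Polynomial.aeval_X x

theorem a1_ev_X (x y : ℂ) : a1_ev x y X = y := by
  rw [a1_ev_eq, ev2, sp, Polynomial.map_X, Polynomial.eval_X]

theorem a1_phu_X (u : ℤ) : phu u X = X := by
  rw [phu]
  exact Polynomial.eval₂_X _ _

theorem a1_phu_CX (u : ℤ) : phu u (C X) = C X - C (C u) * X := by
  rw [phu]
  refine (Polynomial.eval₂_C _ _).trans ?_
  exact Polynomial.aeval_X _

theorem a1_ext {R : Type} [CommRing R] (f g : BP →+* R) (h1 : f (C X) = g (C X))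
    (h2 : f X = g X) (p : BP) : f p = g p := by
  have h : f = g := by
    apply Polynomial.ringHom_ext' _ h2
    apply Polynomial.ringHom_ext' (RingHom.ext_int _ _)
    exact h1
  rw [h]

theorem a1_CC (u : ℤ) : (C (C u) : BP) = (u : BP) := by
  rw [← Polynomial.C_eq_intCast, ← Polynomial.C_eq_intCast]
  simp

/-- A1c. PROOF. Both sides are ring homomorphisms `BP → ℂ` in `p` (`ev2 · x y` is `Polynomial.eval₂RingHom`); compare them on `C (C a)`, `C X`, `X` (`Polynomial.ringHom_ext`). -/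
theorem ev2_phu (u : ℤ) (p : BP) (x y : ℂ) : ev2 (phu u p) x y = ev2 p (x - u * y) y := by
  have h := a1_ext ((a1_ev x y).comp (phu u)) (a1_ev (x - u * y) y) ?_ ?_ p
  · exact h
  · rw [RingHom.comp_apply, a1_phu_CX, a1_CC, map_sub, map_mul, a1_ev_CX, a1_ev_X, a1_ev_CX,
      map_intCast]
  · rw [RingHom.comp_apply, a1_phu_X, a1_ev_X, a1_ev_X]

/-- A1d. PROOF. `phu u` composed with `phu (-u)` is the identity (`Polynomial.ringHom_ext`), so `phu u` is bijective. -/
theorem phu_inv (u : ℤ) (p : BP) : phu (-u) (phu u p) = p := by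
  have h := a1_ext ((phu (-u)).comp (phu u)) (RingHom.id BP) ?_ ?_ p
  · exact h
  · rw [RingHom.comp_apply, a1_phu_CX, a1_CC, map_sub, map_mul, a1_phu_CX, a1_phu_X, map_intCast,
      a1_CC, RingHom.id_apply]
    push_cast
    ring
  · rw [RingHom.comp_apply, a1_phu_X, a1_phu_X, RingHom.id_apply]

theorem a1_phu_inv' (u : ℤ) (p : BP) : phu u (phu (-u) p) = p := by
  have h := phu_inv (-u) p
  rwa [neg_neg] at h

/-- the substitution as a ring automorphism -/
def a1_equiv (u : ℤ) : BP ≃+* BP :=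
  RingEquiv.ofRingHom (phu u) (phu (-u)) (RingHom.ext (a1_phu_inv' u)) (RingHom.ext (phu_inv u))

theorem a1_equiv_apply (u : ℤ) (p : BP) : a1_equiv u p = phu u p := rfl

/-- A1e. PROOF. `phu u` is a ring automorphism by A1d (build a `RingEquiv`, `MulEquiv.irreducible_iff`, `map_dvd_iff`). -/
theorem phu_irred (u : ℤ) (p : BP) (hp : Irreducible p) : Irreducible (phu u p) := by
  rw [← a1_equiv_apply]
  exact (MulEquiv.irreducible_iff (a1_equiv u)).2 hp

theorem phu_dvd (u : ℤ) (p q : BP) : phu u p ∣ phu u q ↔ p ∣ q := by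
  rw [← a1_equiv_apply, ← a1_equiv_apply]
  exact map_dvd_iff (a1_equiv u)

theorem phu_ne (u : ℤ) (p : BP) (hp : p ≠ 0) : phu u p ≠ 0 := by
  intro h
  apply hp
  have h1 := phu_inv u p
  rw [h, map_zero] at h1
  exact h1.symm

end Pool.Agent.MSL
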