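import Pool.Agent.Lib.MP_f58a57_nt.L.Defs
import Pool.Agent.Lib.MP_f58a57_nt.P.A1_Len

/-! # L/A1c_Swap: exchanging the variables; values at algebraically independent numbers -/

open Polynomial

noncomputable section

namespace Pool.Agent.MSL

open MSD MSP

theorem a1c_coeff (p : BP) (i j : ℕ) :
    ((Polynomial.Bivariate.swap p : BP).coeff i).coeff j = (p.coeff j).coeff i := by
  induction p using Polynomial.induction_on' with
  | add p q hp hq => rw [map_add, coeff_add, coeff_add, hp, hq, coeff_add, coeff_add]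
  | monomial n f =>
    induction f using Polynomial.induction_on' with
    | add f g hf hg =>
      rw [map_add (monomial n), map_add, coeff_add, coeff_add, hf, hg, coeff_add, coeff_add]
    | monomial m r =>
      rw [Polynomial.Bivariate.swap_monomial_monomial]
      by_cases h1 : m = i
      · by_cases h2 : n = j
        · simp [coeff_monomial, h1, h2]
        · simp [coeff_monomial, h1, h2]
      · by_cases h2 : n = j
        · simp [coeff_monomial, h1, h2]
        · simp [coeff_monomial, h1, h2]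

theorem a1c_natDegree_le (p : BP) (N : ℕ) :
    p.natDegree ≤ N ↔ ∀ i j, N < i → (p.coeff i).coeff j = 0 := by
  rw [natDegree_le_iff_coeff_eq_zero]
  constructor
  · intro h i j hi
    rw [h i hi, coeff_zero]
  · intro h i hi
    ext j
    rw [h i j hi, coeff_zero]

theorem a1c_dX_le (p : BP) (N : ℕ) :
    dX p ≤ N ↔ ∀ i j, N < i → (p.coeff j).coeff i = 0 := by
  rw [dX, Finset.sup_le_iff]
  constructor
  · intro h i j hi
    by_cases hj : j ∈ p.support
    · exact (natDegree_le_iff_coeff_eq_zero.1 (h j hj)) i hi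
    · rw [notMem_support_iff.1 hj, coeff_zero]
  · intro h j _
    rw [natDegree_le_iff_coeff_eq_zero]
    exact fun i hi => h i j hi

theorem a1c_len2 (p : BP) (A B : ℕ) (hA : p.natDegree < A) (hB : dX p < B) :
    len2 p = ∑ j ∈ Finset.range A, ∑ i ∈ Finset.range B, |(((p.coeff j).coeff i : ℤ) : ℝ)| := by
  have h1 : len2 p = ∑ j ∈ Finset.range A, len (p.coeff j) := by
    rw [len2]
    refine Finset.sum_subset (fun j hj => ?_) (fun j _ hj => ?_)
    · rw [Finset.mem_range]
      exact (le_natDegree_of_mem_supp j hj).trans_lt hA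
    · rw [notMem_support_iff.1 hj, len_zero]
  rw [h1]
  refine Finset.sum_congr rfl (fun j _ => ?_)
  refine a1_len_eq _ _ (fun i hi => ?_)
  rw [Finset.mem_range]
  by_contra h2
  exact (mem_support_iff.1 hi) ((a1c_dX_le p (dX p)).1 le_rfl i j (by omega))

/-- evaluation as a ring homomorphism -/
def a1c_ev (x y : ℂ) : BP →+* ℂ :=
  (evalRingHom y).comp (mapRingHom (aeval x : Polynomial ℤ →ₐ[ℤ] ℂ).toRingHom)

theorem a1c_ev_eq (p : BP) (x y : ℂ) : ev2 p x y = a1c_ev x y p := rfl

theorem a1c_ev_C (x y : ℂ) (f : Polynomial ℤ) : a1c_ev x y (C f) = aeval x f := by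
  simp [a1c_ev]

theorem a1c_ev_X (x y : ℂ) : a1c_ev x y X = y := by
  simp [a1c_ev]

theorem a1c_ext (f g : BP →+* ℂ) (h1 : f (C X) = g (C X)) (h2 : f X = g X) : f = g := by
  refine Polynomial.ringHom_ext' ?_ h2
  refine Polynomial.ringHom_ext' (Subsingleton.elim _ _) ?_
  exact h1

/-- A1l. PROOF. `q = Polynomial.Bivariate.swap p`, a ring isomorphism of `ℤ[X][Y]`: `(q.coeff i).coeff j = (p.coeff j).coeff i` (`swap_monomial_monomial`, linearity), so `dX q = natDegree p`, `natDegree q = dX p` (`p ≠ 0`), `len2 q = len2 p` (the sum of the absolute values of all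
coefficients), `ev2 q x y = ev2 p y x` (ring homomorphisms, `Polynomial.ringHom_ext`, or `aevalAeval_swap`). -/
theorem exists_swap (p : BP) (hp : p ≠ 0) : ∃ q : BP, (Irreducible p → Irreducible q) ∧ q ≠ 0 ∧ dX q = p.natDegree ∧ q.natDegree = dX p ∧
    len2 q = len2 p ∧ ∀ x y : ℂ, ev2 q x y = ev2 p y x := by
  have hd1 : dX (Polynomial.Bivariate.swap p : BP) = p.natDegree := by
    refine eq_of_forall_ge_iff (fun N => ?_)
    rw [a1c_dX_le, a1c_natDegree_le]
    constructor
    · intro h i j hi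
      rw [← a1c_coeff]
      exact h i j hi
    · intro h i j hi
      rw [a1c_coeff]
      exact h i j hi
  have hd2 : (Polynomial.Bivariate.swap p : BP).natDegree = dX p := by
    refine eq_of_forall_ge_iff (fun N => ?_)
    rw [a1c_dX_le, a1c_natDegree_le]
    constructor
    · intro h i j hi
      rw [← a1c_coeff]
      exact h i j hi
    · intro h i j hi
      rw [a1c_coeff]
      exact h i j hi
  refine ⟨Polynomial.Bivariate.swap p, fun h => ?_, ?_, hd1, hd2, ?_, fun x y => ?_⟩
  · exact (MulEquiv.irreducible_iff (Polynomial.Bivariate.swap (R := ℤ))).2 h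
  · exact (EmbeddingLike.map_ne_zero_iff (f := Polynomial.Bivariate.swap (R := ℤ))).2 hp
  · rw [a1c_len2 _ (dX p + 1) (p.natDegree + 1) (by omega) (by omega),
      a1c_len2 p (p.natDegree + 1) (dX p + 1) (by omega) (by omega), Finset.sum_comm]
    refine Finset.sum_congr rfl (fun j _ => Finset.sum_congr rfl (fun i _ => ?_))
    rw [a1c_coeff]
  · have h1 : (a1c_ev x y).comp (Polynomial.Bivariate.swap (R := ℤ) : BP →+* BP) =
        a1c_ev y x := by
      refine a1c_ext _ _ ?_ ?_
      · rw [RingHom.comp_apply]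
        have e1 : (Polynomial.Bivariate.swap (R := ℤ) : BP →+* BP) (C X) = X :=
          Polynomial.Bivariate.swap_X
        rw [e1, a1c_ev_X, a1c_ev_C, aeval_X]
      · rw [RingHom.comp_apply]
        have e1 : (Polynomial.Bivariate.swap (R := ℤ) : BP →+* BP) X = C X :=
          Polynomial.Bivariate.swap_Y
        rw [e1, a1c_ev_X, a1c_ev_C, aeval_X]
    rw [a1c_ev_eq, a1c_ev_eq, ← h1]
    rfl

/-- A1m. PROOF. `ev2 · (θ 0) (θ 1)` is `MvPolynomial.aeval θ` after the isomorphism `ℤ[X][Y] ≃ MvPolynomial (Fin 2) ℤ` (`Polynomial.Bivariate.equivMvPolynomial`), and `MvPolynomial.map (Int.castRingHom ℚ)` is injective. -/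
theorem ev2_ne (θ : Fin 2 → ℂ) (hθ : AlgebraicIndependent ℚ θ) (p : BP) (hp : p ≠ 0) : ev2 p (θ 0) (θ 1) ≠ 0 := by
  have hθ' : AlgebraicIndependent ℤ θ := hθ.restrictScalars (algebraMap ℤ ℚ).injective_int
  intro h
  have h1 : a1c_ev (θ 0) (θ 1) = ((MvPolynomial.aeval θ : MvPolynomial (Fin 2) ℤ →ₐ[ℤ] ℂ) :
      MvPolynomial (Fin 2) ℤ →+* ℂ).comp (Polynomial.Bivariate.equivMvPolynomial ℤ :
        BP →+* MvPolynomial (Fin 2) ℤ) := by
    refine a1c_ext _ _ ?_ ?_
    · rw [RingHom.comp_apply]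
      have e1 : (Polynomial.Bivariate.equivMvPolynomial ℤ : BP →+* MvPolynomial (Fin 2) ℤ) (C X) =
          MvPolynomial.X 0 := Polynomial.Bivariate.equivMvPolynomial_C_X
      rw [e1, a1c_ev_C, aeval_X]
      simp
    · rw [RingHom.comp_apply]
      have e1 : (Polynomial.Bivariate.equivMvPolynomial ℤ : BP →+* MvPolynomial (Fin 2) ℤ) X =
          MvPolynomial.X 1 := Polynomial.Bivariate.equivMvPolynomial_X
      rw [e1, a1c_ev_X]
      simp
  rw [a1c_ev_eq, h1, RingHom.comp_apply] at h
  have h2 := hθ'.eq_zero_of_aeval_eq_zero _ h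
  exact hp ((EmbeddingLike.map_eq_zero_iff (f := Polynomial.Bivariate.equivMvPolynomial ℤ)).1 h2)

/-- A1n. PROOF. If `R(θ 0 + u θ 1) = 0` then `p = R.eval₂ (C ∘ C) (C X + C (C u) * X)`, i.e. `R(X + uY)`, vanishes at `θ`; it is nonzero (put `Y = 0`). Or: `θ 0 + u θ 1` is transcendental because `θ 0` would be algebraic over `ℚ(θ 1)` otherwise. -/
theorem lin_ne (θ : Fin 2 → ℂ) (hθ : AlgebraicIndependent ℚ θ) (u : ℕ) (R : Polynomial ℤ) (hR : R ≠ 0) : aeval (θ 0 + u * θ 1) R ≠ 0 := by
  have hev : ∀ x y : ℂ, ev2 (aeval (C X + C (C (u : ℤ)) * X : BP) R) x y =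
      aeval (x + u * y) R := by
    intro x y
    rw [a1c_ev_eq, aeval_def, hom_eval₂, aeval_def]
    have e1 : (a1c_ev x y).comp (algebraMap ℤ BP) = algebraMap ℤ ℂ := Subsingleton.elim _ _
    have e2 : a1c_ev x y (C X + C (C (u : ℤ)) * X) = x + u * y := by
      rw [map_add, map_mul, a1c_ev_C, a1c_ev_C, a1c_ev_X, aeval_X, aeval_C]
      simp
    rw [e1, e2]
  have hne : (aeval (C X + C (C (u : ℤ)) * X : BP) R) ≠ 0 := by
    intro h
    apply hR
    have h1 : R.map (algebraMap ℤ ℂ) = 0 := by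
      refine Polynomial.funext (fun x => ?_)
      have h2 := hev x 0
      rw [h, a1c_ev_eq, map_zero, mul_zero, add_zero] at h2
      rw [eval_map_algebraMap, ← h2, eval_zero]
    exact (Polynomial.map_eq_zero_iff (algebraMap ℤ ℂ).injective_int).1 h1
  rw [← hev]
  exact ev2_ne θ hθ _ hne

end Pool.Agent.MSL
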