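import Pool.Agent.Lib.MP_f58a57_nt.L.A1c_Swap

/-! # L/A2_Lead: the leading coefficient after a generic linear substitution -/

open Polynomial

noncomputable section

namespace Pool.Agent.MSL

open MSD MSP

/-- the linear form -/
def a2_W (u : ℤ) : BP := C X - C (C u) * X

theorem a2_W_natDegree (u : ℤ) : (a2_W u).natDegree ≤ 1 := by
  rw [a2_W]
  refine (natDegree_sub_le _ _).trans (max_le ?_ ?_)
  · rw [natDegree_C]
    exact Nat.zero_le 1
  · exact (natDegree_C_mul_le _ _).trans natDegree_X_le

theorem a2_W_coeff (u : ℤ) : (a2_W u).coeff 1 = C (-u) := by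
  rw [a2_W, coeff_sub, coeff_C_mul_X, coeff_C_of_ne_zero one_ne_zero, if_pos rfl, zero_sub, map_neg]

theorem a2_W_pow_natDegree (u : ℤ) (i : ℕ) : ((a2_W u) ^ i).natDegree ≤ i := by
  refine (natDegree_pow_le_of_le i (a2_W_natDegree u)).trans ?_
  rw [mul_one]

theorem a2_W_pow_coeff (u : ℤ) (i : ℕ) : ((a2_W u) ^ i).coeff i = C ((-u) ^ i) := by
  have h := coeff_pow_of_natDegree_le (m := i) (a2_W_natDegree u)
  rw [mul_one, a2_W_coeff] at h
  rw [h, map_pow]

theorem a2_aeval (u : ℤ) (f : Polynomial ℤ) (N : ℕ) (hN : f.natDegree ≤ N) :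
    (aeval (a2_W u) f).coeff N = C (f.coeff N * (-u) ^ N) := by
  rw [aeval_eq_sum_range' (Nat.lt_succ_of_le hN), finsetSum_coeff,
    Finset.sum_eq_single_of_mem N (Finset.self_mem_range_succ N)]
  · rw [coeff_smul, a2_W_pow_coeff, zsmul_eq_mul, map_mul, eq_intCast C (f.coeff N)]
  · intro i hi hiN
    rw [Finset.mem_range] at hi
    rw [coeff_smul, coeff_eq_zero_of_natDegree_lt ((a2_W_pow_natDegree u i).trans_lt (by omega)),
      smul_zero]

theorem a2_phu_coeff (u : ℤ) (P : BP) (N : ℕ) :
    (phu u P).coeff N = ∑ j ∈ Finset.range (P.natDegree + 1),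
      if j ≤ N then (aeval (a2_W u) (P.coeff j)).coeff (N - j) else 0 := by
  rw [phu, coe_eval₂RingHom, eval₂_eq_sum_range, finsetSum_coeff]
  refine Finset.sum_congr rfl (fun j _ => ?_)
  rw [coeff_mul_X_pow']
  rfl

/-- A2. PROOF. Let `D` be the total degree of `P = ∑ p_ij X^i Y^j`, i.e. the maximum of `i + j` over `p_ij ≠ 0`. `phu u P = ∑ p_ij (X - uY)^i Y^j`; the term `(i, j)` has degree `≤ i + j` in `Y` and the coefficient of `Y^(i+j)` is the constant
`p_ij (-u)^i`. So `phu u P` has degree `≤ D` in `Y` and `coeff D = C (t(u))`, `t(u) = ∑_(i + j = D) p_ij (-u)^i`, a nonzero polynomial in `u` of degree `≤ D`: at most `D` natural numbers `u` are roots (`Polynomial.card_roots'`). -/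
theorem lead_phu (P : BP) (hP : P ≠ 0) : ∃ D : ℕ, P.natDegree ≤ D ∧ D ≤ dX P + P.natDegree ∧ ∃ B : Finset ℕ, B.card ≤ D ∧
    ∀ u : ℕ, u ∉ B → (phu u P).natDegree = D ∧ ∃ a : ℤ, a ≠ 0 ∧ (phu u P).leadingCoeff = C a := by
  classical
  obtain ⟨D, hD⟩ : ∃ D, D = P.support.sup (fun j => (P.coeff j).natDegree + j) := ⟨_, rfl⟩
  have hle : ∀ j, P.coeff j ≠ 0 → (P.coeff j).natDegree + j ≤ D := by
    intro j hj
    rw [hD]
    exact Finset.le_sup (f := fun j => (P.coeff j).natDegree + j) (mem_support_iff.2 hj)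
  obtain ⟨j0, hj0, hj0D⟩ : ∃ j0 ∈ P.support, D = (P.coeff j0).natDegree + j0 := by
    have hne : P.support.Nonempty := support_nonempty.2 hP
    obtain ⟨j0, h1, h2⟩ := Finset.exists_mem_eq_sup P.support hne
      (fun j => (P.coeff j).natDegree + j)
    exact ⟨j0, h1, hD.trans h2⟩
  have hnD : P.natDegree ≤ D := by
    have h1 := hle P.natDegree (by
      rw [coeff_natDegree]
      exact leadingCoeff_ne_zero.2 hP)
    omega
  have hDd : D ≤ dX P + P.natDegree := by
    have h1 : (P.coeff j0).natDegree ≤ dX P := by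
      rw [dX]
      exact Finset.le_sup (f := fun j => (P.coeff j).natDegree) hj0
    have h2 := le_natDegree_of_mem_supp j0 hj0
    omega
  have hj0' : P.coeff j0 ≠ 0 := mem_support_iff.1 hj0
  obtain ⟨s, hs⟩ : ∃ s : Polynomial ℤ, s = ∑ j ∈ Finset.range (P.natDegree + 1),
      monomial (D - j) ((P.coeff j).coeff (D - j)) := ⟨_, rfl⟩
  have hs0 : s ≠ 0 := by
    intro h0
    have h1 : s.coeff (D - j0) = (P.coeff j0).leadingCoeff := by
      have h2 := le_natDegree_of_mem_supp j0 hj0
      rw [hs, finsetSum_coeff, Finset.sum_eq_single_of_mem j0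
        (Finset.mem_range.2 (by omega))]
      · rw [coeff_monomial_same, leadingCoeff]
        congr 1
        omega
      · intro j hj hne
        rw [Finset.mem_range] at hj
        rw [coeff_monomial, if_neg (by omega)]
    rw [h0, coeff_zero] at h1
    exact hj0' (leadingCoeff_eq_zero.1 h1.symm)
  have hsD : s.natDegree ≤ D := by
    rw [hs]
    refine natDegree_sum_le_of_forall_le _ _ (fun j _ => ?_)
    exact (natDegree_monomial_le _).trans (Nat.sub_le D j)
  refine ⟨D, hnD, hDd, s.roots.toFinset.image Int.natAbs, ?_, fun u hu => ?_⟩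
  · exact Finset.card_image_le.trans ((Multiset.toFinset_card_le _).trans
      ((card_roots' s).trans hsD))
  · have hroot : s.eval (-(u : ℤ)) ≠ 0 := by
      intro h1
      apply hu
      rw [Finset.mem_image]
      refine ⟨-(u : ℤ), ?_, ?_⟩
      · rw [Multiset.mem_toFinset, mem_roots hs0]
        exact h1
      · rw [Int.natAbs_neg, Int.natAbs_natCast]
    have hc : (phu u P).coeff D = C (s.eval (-(u : ℤ))) := by
      rw [a2_phu_coeff, hs, eval_finsetSum, map_sum]
      refine Finset.sum_congr rfl (fun j hj => ?_)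
      rw [Finset.mem_range] at hj
      rw [if_pos (by omega), eval_monomial]
      by_cases hj1 : P.coeff j = 0
      · rw [hj1]
        simp
      · have h2 := hle j hj1
        exact a2_aeval u (P.coeff j) (D - j) (by omega)
    have hnat : (phu u P).natDegree ≤ D := by
      rw [natDegree_le_iff_coeff_eq_zero]
      intro N hN
      rw [a2_phu_coeff]
      refine Finset.sum_eq_zero (fun j _ => ?_)
      by_cases hjN : j ≤ N
      · rw [if_pos hjN]
        by_cases hj1 : P.coeff j = 0
        · rw [hj1]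
          simp
        · have h2 := hle j hj1
          rw [a2_aeval u (P.coeff j) (N - j) (by omega),
            coeff_eq_zero_of_natDegree_lt (by omega), zero_mul, map_zero]
      · rw [if_neg hjN]
    have hcne : (phu u P).coeff D ≠ 0 := by
      rw [hc]
      exact C_ne_zero.2 hroot
    have hnd : (phu u P).natDegree = D := le_antisymm hnat (le_natDegree_of_ne_zero hcne)
    refine ⟨hnd, s.eval (-(u : ℤ)), hroot, ?_⟩
    rw [leadingCoeff, hnd, hc]

end Pool.Agent.MSL
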