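import Pool.Agent.Lib.MP_f58a57_nt.L.A1_Basic
import Pool.Agent.Lib.MP_f58a57_nt.L.A1b_Len

/-! # L/A3_Gelf: Gelfond's inequality for the length of a product in two variables -/

open Polynomial

noncomputable section

namespace Pool.Agent.MSL

open MSD MSP

theorem a3g_le_one (p : Polynomial ℂ) (h : ∀ ζ : ℂ, ‖ζ‖ = 1 → ‖p.eval ζ‖ ≤ 1) : p.mahlerMeasure ≤ 1 := by
  by_cases hp : p = 0
  · subst hp
    rw [mahlerMeasure_zero]
    exact zero_le_one
  have h1 : p.logMahlerMeasure ≤ 0 := by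
    rw [logMahlerMeasure_def]
    refine Real.circleAverage_mono_on_of_le_circle ?_ ?_
    · exact (analyticOnNhd_id.aeval_polynomial p).meromorphicOn.circleIntegrable_log_norm
    · intro x hx
      refine Real.log_nonpos (norm_nonneg _) (h x ?_)
      simpa using hx
  unfold mahlerMeasure
  rw [if_pos hp]
  calc Real.exp p.logMahlerMeasure ≤ Real.exp 0 := Real.exp_le_exp.2 h1
    _ = 1 := Real.exp_zero

/-- A3a. PROOF. `log M(p)` is the circle average of `log ‖p‖` (`Polynomial.logMahlerMeasure`, `Real.circleAverage`), so `‖p ζ‖ ≥ M(p)` for some `ζ` on the circle (otherwise `log ‖p‖ < log M(p)` everywhere and, `‖p‖` being continuous on a compact set, `‖p‖ ≤ m < M(p)`;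
apply a monotonicity lemma of circle averages, or `Polynomial.mahlerMeasure` bounds for the average of a function bounded by the constant `log m`; if `m = 0` then `p` vanishes on the circle, so `p = 0`). -/
theorem exists_circle (p : Polynomial ℂ) (hp : p ≠ 0) : ∃ ζ : ℂ, ‖ζ‖ = 1 ∧ p.mahlerMeasure ≤ ‖p.eval ζ‖ := by
  obtain ⟨ζ, hζ, hmax⟩ := (isCompact_sphere (0 : ℂ) 1).exists_isMaxOn
    ⟨1, by simp⟩ (f := fun z => ‖p.eval z‖) (p.continuous.norm.continuousOn)
  have hζ1 : ‖ζ‖ = 1 := by simpa using hζ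
  have hmax' : ∀ z : ℂ, ‖z‖ = 1 → ‖p.eval z‖ ≤ ‖p.eval ζ‖ := fun z hz => hmax (by simpa using hz)
  refine ⟨ζ, hζ1, ?_⟩
  have hpos : 0 < ‖p.eval ζ‖ := by
    by_contra hneg
    have h0 : ∀ z : ℂ, ‖z‖ = 1 → p.eval z = 0 := by
      intro z hz
      have := hmax' z hz
      have h2 : ‖p.eval z‖ ≤ 0 := this.trans (not_lt.1 hneg)
      exact norm_le_zero_iff.1 h2
    have hinf : (Metric.sphere (0 : ℂ) 1).Infinite := by
      have hc : IsPreconnected (Metric.sphere (0 : ℂ) 1) := by
        refine isPreconnected_sphere ?_ 0 1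
        rw [Complex.rank_real_complex]
        norm_num
      refine hc.infinite_of_nontrivial ⟨1, by simp, -1, by simp, ?_⟩
      norm_num
    apply hp
    refine Polynomial.eq_zero_of_infinite_isRoot p (hinf.mono ?_)
    intro z hz
    exact h0 z (by simpa using hz)
  set m : ℝ := ‖p.eval ζ‖ with hm
  have hm0 : (m : ℂ) ≠ 0 := by exact_mod_cast hpos.ne'
  have h1 : (C ((m : ℂ)⁻¹) * p).mahlerMeasure ≤ 1 := by
    refine a3g_le_one _ fun z hz => ?_
    rw [eval_mul, eval_C, norm_mul, norm_inv, Complex.norm_real, Real.norm_of_nonneg hpos.le]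
    rw [inv_mul_le_iff₀ hpos, mul_one]
    exact hmax' z hz
  rw [mahlerMeasure_mul, mahlerMeasure_const, norm_inv, Complex.norm_real, Real.norm_of_nonneg hpos.le,
    inv_mul_le_iff₀ hpos, mul_one] at h1
  exact h1

/-- A3b. PROOF. Mathlib `norm_coeff_le_choose_mul_mahlerMeasure`. -/
theorem coeff_le_M (p : Polynomial ℂ) (n : ℕ) (hn : p.natDegree ≤ n) (j : ℕ) : ‖p.coeff j‖ ≤ 2 ^ n * p.mahlerMeasure := by
  refine (norm_coeff_le_choose_mul_mahlerMeasure j p).trans ?_
  refine mul_le_mul_of_nonneg_right ?_ (mahlerMeasure_nonneg p)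
  have h1 : p.natDegree.choose j ≤ 2 ^ p.natDegree := Nat.choose_le_two_pow _ _
  have h2 : 2 ^ p.natDegree ≤ 2 ^ n := Nat.pow_le_pow_right (by norm_num) hn
  exact_mod_cast h1.trans h2

theorem a3g_k (p : BP) (hp : p ≠ 0) : ∃ k : ℕ, p.coeff k ≠ 0 ∧ len2 p ≤ 2 ^ p.natDegree * len (p.coeff k) := by
  obtain ⟨k, hk, hmax⟩ := Finset.exists_max_image p.support (fun j => len (p.coeff j)) (by
    rw [Polynomial.support_nonempty]
    exact hp)
  refine ⟨k, mem_support_iff.1 hk, ?_⟩
  have h1 : len2 p ≤ ((p.natDegree + 1 : ℕ) : ℝ) * len (p.coeff k) := by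
    refine len2_le p _ (Nat.lt_succ_self _) _ fun j => ?_
    by_cases hj : j ∈ p.support
    · exact hmax j hj
    · rw [Polynomial.notMem_support_iff.1 hj, len_zero]
      exact len_nonneg _
  refine h1.trans (mul_le_mul_of_nonneg_right ?_ (len_nonneg _))
  have h2 : p.natDegree + 1 ≤ 2 ^ p.natDegree := Nat.lt_two_pow_self
  exact_mod_cast h2

theorem a3g_step1 (k : BP → ℕ) (hk : ∀ p : BP, p ≠ 0 → p.coeff (k p) ≠ 0 ∧ len2 p ≤ 2 ^ p.natDegree * len (p.coeff (k p)))
    (s : Multiset BP) (h : ∀ p ∈ s, p ≠ 0) :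
    (s.map fun p => p.coeff (k p)).prod ≠ 0 ∧
    (s.map len2).prod ≤ 2 ^ (s.map fun p => dX p + p.natDegree).sum * MM (s.map fun p => p.coeff (k p)).prod := by
  induction s using Multiset.induction_on with
  | empty =>
    refine ⟨by simp, ?_⟩
    simp only [Multiset.map_zero, Multiset.prod_zero, Multiset.sum_zero, pow_zero, one_mul]
    exact one_le_MM 1 one_ne_zero
  | cons p s ih =>
    obtain ⟨i1, i2⟩ := ih fun q hq => h q (Multiset.mem_cons_of_mem hq)
    obtain ⟨k1, k2⟩ := hk p (h p (Multiset.mem_cons_self p s))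
    simp only [Multiset.map_cons, Multiset.prod_cons, Multiset.sum_cons]
    refine ⟨mul_ne_zero k1 i1, ?_⟩
    rw [MM_mul]
    have h3 : len2 p ≤ 2 ^ (dX p + p.natDegree) * MM (p.coeff (k p)) := by
      refine k2.trans ?_
      rw [pow_add, mul_comm ((2 : ℝ) ^ dX p), mul_assoc]
      refine mul_le_mul_of_nonneg_left ((len_le_MM _).trans ?_) (by positivity)
      refine mul_le_mul_of_nonneg_right ?_ (mahlerMeasure_nonneg _)
      exact pow_le_pow_right₀ one_le_two (natDegree_coeff_le p (k p))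
    calc len2 p * (s.map len2).prod
        ≤ (2 ^ (dX p + p.natDegree) * MM (p.coeff (k p))) *
          (2 ^ (s.map fun p => dX p + p.natDegree).sum * MM (s.map fun p => p.coeff (k p)).prod) := by
          refine mul_le_mul h3 i2 ?_ ((len2_nonneg p).trans h3)
          refine Multiset.prod_nonneg fun x hx => ?_
          obtain ⟨q, -, rfl⟩ := Multiset.mem_map.1 hx
          exact len2_nonneg q
      _ = _ := by
          rw [pow_add _ (dX p + p.natDegree)]
          ring

theorem a3g_step2 (k : BP → ℕ) (ζ : ℂ) (s : Multiset BP) :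
    ‖aeval ζ (s.map fun p => p.coeff (k p)).prod‖ ≤ 2 ^ (s.map fun p => p.natDegree).sum * (sp ζ s.prod).mahlerMeasure := by
  induction s using Multiset.induction_on with
  | empty =>
    simp only [Multiset.map_zero, Multiset.prod_zero, Multiset.sum_zero, pow_zero, one_mul, map_one, norm_one]
    have : sp ζ 1 = 1 := by
      unfold sp
      rw [Polynomial.map_one]
    rw [this, mahlerMeasure_one]
  | cons p s ih =>
    simp only [Multiset.map_cons, Multiset.prod_cons, Multiset.sum_cons]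
    rw [map_mul, norm_mul, sp_mul, mahlerMeasure_mul]
    have h1 : ‖aeval ζ (p.coeff (k p))‖ ≤ 2 ^ p.natDegree * (sp ζ p).mahlerMeasure := by
      have h2 : aeval ζ (p.coeff (k p)) = (sp ζ p).coeff (k p) := by
        unfold sp
        rw [coeff_map]
        rfl
      rw [h2]
      exact coeff_le_M _ _ (sp_natDegree p ζ) _
    calc ‖aeval ζ (p.coeff (k p))‖ * ‖aeval ζ (s.map fun p => p.coeff (k p)).prod‖
        ≤ (2 ^ p.natDegree * (sp ζ p).mahlerMeasure) *
          (2 ^ (s.map fun p => p.natDegree).sum * (sp ζ s.prod).mahlerMeasure) :=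
          mul_le_mul h1 ih (norm_nonneg _) ((norm_nonneg _).trans h1)
      _ = _ := by
          rw [pow_add]
          ring

/-- A3c. PROOF. For every `p` in `s` choose `k = k(p)` such that `len (p.coeff k)` is maximal, so `len2 p ≤ (natDegree p + 1) len (p.coeff k) ≤ 2^(natDegree p) len (p.coeff k)`. The product `π` of the polynomials `p.coeff k` (in `ℤ[X]`) satisfies
`M(π) = ∏ M(p.coeff k) ≥ ∏ 2^(-dX p) len (p.coeff k)` (`MM_mul`, `len_le_MM`, `MM 1 = 1`). `exists_circle` gives `ζ`, `‖ζ‖ = 1`, `∏ ‖(p.coeff k)(ζ)‖ ≥ M(π)`. Now `(p.coeff k)(ζ)` is a coefficient of `sp ζ p`, so `‖(p.coeff k)(ζ)‖ ≤ 2^(natDegree p) M(sp ζ p)`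
(A3b, `sp_natDegree`), and `∏ M(sp ζ p) = M(sp ζ (∏ p)) ≤ lenC (sp ζ (∏ p)) ≤ len2 (∏ p)` (`mahlerMeasure_mul`, `mahlerMeasure_le_sum_norm_coeff`, `lenC_sp`). Altogether `∏ len2 p ≤ ∏ 2^(2 natDegree p + dX p) · len2 (∏ p)`. -/
theorem gelfond2 (s : Multiset BP) (h : ∀ p ∈ s, p ≠ 0) :
    (s.map len2).prod ≤ 4 ^ (s.map fun p => dX p + p.natDegree).sum * len2 s.prod := by
  classical
  have hk0 : ∀ p : BP, ∃ k : ℕ, p ≠ 0 → p.coeff k ≠ 0 ∧ len2 p ≤ 2 ^ p.natDegree * len (p.coeff k) := by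
    intro p
    by_cases hp : p = 0
    · exact ⟨0, fun h0 => absurd hp h0⟩
    · obtain ⟨k, hk⟩ := a3g_k p hp
      exact ⟨k, fun _ => hk⟩
  choose k hk using hk0
  obtain ⟨hne, h1⟩ := a3g_step1 k hk s h
  set π : Polynomial ℤ := (s.map fun p => p.coeff (k p)).prod with hπ
  have hne2 : π.map (Int.castRingHom ℂ) ≠ 0 := by
    rw [Ne, Polynomial.map_eq_zero_iff k1_inj]
    exact hne
  obtain ⟨ζ, hζ, hM⟩ := exists_circle _ hne2
  have hev : (π.map (Int.castRingHom ℂ)).eval ζ = aeval ζ π := by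
    rw [eval_map, aeval_def]
    rfl
  rw [hev] at hM
  have h2 := a3g_step2 k ζ s
  rw [← hπ] at h2
  have h3 : (sp ζ s.prod).mahlerMeasure ≤ len2 s.prod := by
    refine (mahlerMeasure_le_sum_norm_coeff _).trans ?_
    refine le_trans (le_of_eq rfl) ((lenC_sp s.prod ζ).trans ?_)
    rw [hζ, max_self, one_pow, mul_one]
  set N : ℕ := (s.map fun p => dX p + p.natDegree).sum with hN
  have hsum : (s.map fun p => p.natDegree).sum ≤ N := by
    rw [hN]
    exact Multiset.sum_map_le_sum_map _ _ fun p _ => Nat.le_add_left _ _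
  have hl := len2_nonneg s.prod
  calc (s.map len2).prod ≤ 2 ^ N * MM π := h1
    _ ≤ 2 ^ N * ‖aeval ζ π‖ := mul_le_mul_of_nonneg_left hM (by positivity)
    _ ≤ 2 ^ N * (2 ^ (s.map fun p => p.natDegree).sum * (sp ζ s.prod).mahlerMeasure) :=
        mul_le_mul_of_nonneg_left h2 (by positivity)
    _ ≤ 2 ^ N * (2 ^ N * len2 s.prod) := by
        refine mul_le_mul_of_nonneg_left ?_ (by positivity)
        refine mul_le_mul ?_ h3 (mahlerMeasure_nonneg _) (by positivity)
        exact pow_le_pow_right₀ one_le_two hsum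
    _ = 4 ^ N * len2 s.prod := by
        rw [← mul_assoc, ← mul_pow]
        norm_num

end Pool.Agent.MSL
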