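import Pool.Agent.Lib.MP_f58a57_nt.L.Defs

/-! # L/A6_Res: resultants -/

open Polynomial

noncomputable section

namespace Pool.Agent.MSL

open MSD MSP

/-- A6a. PROOF. `P` is irreducible of positive degree, so primitive, and irreducible over the field of fractions `K` of `ℤ[X]` (`Polynomial.IsPrimitive.irreducible_iff_irreducible_map_fraction_map`, compare `k2_res_ne_zero` in P/K2_Res), it does not divide `Q` over `K`
(`IsPrimitive.dvd_of_fraction_map_dvd_fraction_map` needs `Q` primitive: write `Q = content · primPart`), so it is coprime to `Q` over `K`. `resultant P Q P.natDegree Q.natDegree ≠ 0` (`resultant_eq_zero_iff`, `resultant_map_map`), and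
`resultant P Q P.natDegree n = ± leadingCoeff^(n - natDegree Q) * ..` (`resultant_add_right_deg`). -/
theorem res_ne (P Q : BP) (hP : Irreducible P) (hd : 1 ≤ P.natDegree) (hQ : Q ≠ 0) (h : ¬ P ∣ Q) (n : ℕ) (hn : Q.natDegree ≤ n) :
    resultant P Q P.natDegree n ≠ 0 := by
  classical
  let _ : NormalizedGCDMonoid (Polynomial ℤ) := Classical.choice inferInstance
  intro h0
  have pP : P.IsPrimitive := hP.isPrimitive (by omega)
  have hinj : Function.Injective (algebraMap (Polynomial ℤ) (FractionRing (Polynomial ℤ))) := IsFractionRing.injective _ _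
  have hP' : Irreducible (P.map (algebraMap (Polynomial ℤ) (FractionRing (Polynomial ℤ)))) :=
    (Polynomial.IsPrimitive.irreducible_iff_irreducible_map_fraction_map pP).1 hP
  have hcop : IsCoprime (P.map (algebraMap (Polynomial ℤ) (FractionRing (Polynomial ℤ))))
      (Q.map (algebraMap (Polynomial ℤ) (FractionRing (Polynomial ℤ)))) := by
    rw [hP'.coprime_iff_not_dvd]
    intro hdv
    exact h (pP.dvd_of_fraction_map_dvd_fraction_map hdv)
  have hr := Polynomial.resultant_ne_zero _ _ hcop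
  rw [Polynomial.natDegree_map_eq_of_injective hinj, Polynomial.natDegree_map_eq_of_injective hinj,
    Polynomial.resultant_map_map] at hr
  have hr1 : resultant P Q P.natDegree Q.natDegree ≠ 0 := by
    intro h1
    exact hr (by rw [h1, map_zero])
  obtain ⟨k, rfl⟩ := Nat.exists_eq_add_of_le hn
  rw [Polynomial.resultant_add_right_deg _ _ _ _ _ (le_refl _), Polynomial.coeff_natDegree] at h0
  rcases mul_eq_zero.1 h0 with h1 | h1
  · exact pow_ne_zero k (Polynomial.leadingCoeff_ne_zero.2 hP.ne_zero) h1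
  · exact hr1 h1

/-- A6b. PROOF. `aeval x (resultant P Q m n) = resultant (sp x P) (sp x Q) m n` (`resultant_map_map`). -/
theorem res_sp (P Q : BP) (m n : ℕ) (x : ℂ) : aeval x (resultant P Q m n) = resultant (sp x P) (sp x Q) m n := by
  unfold sp
  rw [Polynomial.resultant_map_map]
  rfl

theorem a6_lead (P : BP) (a : ℤ) (ha : a ≠ 0) (hl : P.leadingCoeff = C a) (x : ℂ) :
    (sp x P).natDegree = P.natDegree ∧ (sp x P).leadingCoeff = (a : ℂ) := by
  have h1 : ((Polynomial.aeval x : Polynomial ℤ →ₐ[ℤ] ℂ).toRingHom) P.leadingCoeff = (a : ℂ) := by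
    rw [hl]
    show Polynomial.aeval x (C a) = (a : ℂ)
    rw [Polynomial.aeval_C]
    simp
  have h2 : ((Polynomial.aeval x : Polynomial ℤ →ₐ[ℤ] ℂ).toRingHom) P.leadingCoeff ≠ 0 := by
    rw [h1]
    exact_mod_cast ha
  refine ⟨Polynomial.natDegree_map_of_leadingCoeff_ne_zero _ h2, ?_⟩
  unfold sp
  rw [Polynomial.leadingCoeff_map_of_leadingCoeff_ne_zero _ h2, h1]

theorem a6_prod (P Q : BP) (a : ℤ) (ha : a ≠ 0) (hl : P.leadingCoeff = C a) (n : ℕ) (hn : Q.natDegree ≤ n) (x : ℂ) :
    aeval x (resultant P Q P.natDegree n) = (a : ℂ) ^ n * ((sp x P).roots.map (sp x Q).eval).prod := by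
  obtain ⟨h1, h2⟩ := a6_lead P a ha hl x
  rw [res_sp, ← h1, ← h2]
  exact Polynomial.resultant_eq_prod_eval (sp x P) (sp x Q) n (le_trans Polynomial.natDegree_map_le hn)
    (IsAlgClosed.splits _)

/-- A6c. PROOF. `sp x P` has the same degree and the leading coefficient `a ≠ 0`; it splits over `ℂ`: `resultant_eq_prod_eval` gives `a^n ∏ (sp x Q).eval b = 0` over the roots `b` of `sp x P`. -/
theorem res_root (P Q : BP) (a : ℤ) (ha : a ≠ 0) (hl : P.leadingCoeff = C a) (n : ℕ) (hn : Q.natDegree ≤ n) (x : ℂ)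
    (h : aeval x (resultant P Q P.natDegree n) = 0) : ∃ y : ℂ, ev2 P x y = 0 ∧ ev2 Q x y = 0 := by
  rw [a6_prod P Q a ha hl n hn x] at h
  have ha' : (a : ℂ) ^ n ≠ 0 := pow_ne_zero _ (by exact_mod_cast ha)
  rcases mul_eq_zero.1 h with h1 | h1
  · exact absurd h1 ha'
  · rw [Multiset.prod_eq_zero_iff, Multiset.mem_map] at h1
    obtain ⟨y, hy, hy0⟩ := h1
    exact ⟨y, (Polynomial.mem_roots'.1 hy).2, hy0⟩

/-- A6d. PROOF. If both vanish at `y` then `y` is a root of `sp x P`; the same formula. (Here the degree of `sp x P` is exactly `P.natDegree`.) -/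
theorem root_res (P Q : BP) (a : ℤ) (ha : a ≠ 0) (hl : P.leadingCoeff = C a) (n : ℕ) (hn : Q.natDegree ≤ n) (x y : ℂ)
    (h1 : ev2 P x y = 0) (h2 : ev2 Q x y = 0) : aeval x (resultant P Q P.natDegree n) = 0 := by
  rw [a6_prod P Q a ha hl n hn x]
  have hne : sp x P ≠ 0 := by
    intro h0
    have h3 := (a6_lead P a ha hl x).2
    rw [h0, Polynomial.leadingCoeff_zero] at h3
    exact ha (by exact_mod_cast h3.symm)
  have hy : y ∈ (sp x P).roots := Polynomial.mem_roots'.2 ⟨hne, h1⟩
  have h4 : ((sp x P).roots.map (sp x Q).eval).prod = 0 := by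
    rw [Multiset.prod_eq_zero_iff, Multiset.mem_map]
    exact ⟨y, hy, h2⟩
  rw [h4, mul_zero]

end Pool.Agent.MSL
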