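import Pool.Agent.Lib.MP_f58a57_nt.L.Defs
import Pool.Agent.Lib.MP_f58a57_nt.P.K2_Res

/-! # L/A6b_ResBd: bounds for resultants -/

open Polynomial

noncomputable section

namespace Pool.Agent.MSL

open MSD MSP

theorem a6b_len_eq (p : Polynomial ℂ) (n : ℕ) (hp : p.natDegree ≤ n) :
    ∑ t ∈ Finset.range (n + 1), ‖p.coeff t‖ = lenC p := by
  unfold lenC
  symm
  refine Finset.sum_subset (fun i hi => ?_) fun i _ hi => ?_
  · rw [Finset.mem_range]
    have := Polynomial.le_natDegree_of_mem_supp i hi
    omega
  · rw [Polynomial.notMem_support_iff.1 hi]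
    simp

theorem a6b_lenC_nonneg (p : Polynomial ℂ) : 0 ≤ lenC p :=
  Finset.sum_nonneg fun _ _ => norm_nonneg _

/-- the `ℓ¹` norms of the rows of the transposed Sylvester matrix -/
def a6b_r (f g : Polynomial ℂ) (m n : ℕ) : Fin (m + n) → ℝ :=
  fun i => Fin.addCases (fun _ => lenC g) (fun _ => lenC f) i

theorem a6b_row (f g : Polynomial ℂ) (m n : ℕ) (hf : f.natDegree ≤ m) (hg : g.natDegree ≤ n)
    (i : Fin (m + n)) : ∑ j, ‖((sylvester f g m n).transpose) i j‖ = a6b_r f g m n i := by
  refine Fin.addCases (fun i => ?_) (fun i => ?_) i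
  · simp only [a6b_r, Fin.addCases_left]
    rw [← a6b_len_eq g n hg, ← k2_sum (m + n) i n (by have := i.2; omega)
      (fun t => ‖g.coeff t‖)]
    refine Finset.sum_congr rfl fun j _ => ?_
    simp only [Matrix.transpose_apply, sylvester, Matrix.of_apply, Fin.addCases_left]
    split_ifs <;> simp
  · simp only [a6b_r, Fin.addCases_right]
    rw [← a6b_len_eq f m hf, ← k2_sum (m + n) i m (by have := i.2; omega)
      (fun t => ‖f.coeff t‖)]
    refine Finset.sum_congr rfl fun j _ => ?_
    simp only [Matrix.transpose_apply, sylvester, Matrix.of_apply, Fin.addCases_right]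
    split_ifs <;> simp

/-- A6e. PROOF. `resultant = det (sylvester f g m n)`; the column `j` of the Sylvester matrix contains the coefficients of `f` (`n` columns) or of `g` (`m` columns), shifted; so the `ℓ¹` norm of a column is `≤ lenC f` or `≤ lenC g`, and `norm_det_le` (P/K2_Res) for the transposed matrix. See
the proof of `res_bound` in P/K2_Res, where the same is done for integer polynomials (`k2_sum`). -/
theorem resC_le (f g : Polynomial ℂ) (m n : ℕ) (hf : f.natDegree ≤ m) (hg : g.natDegree ≤ n) :
    ‖resultant f g m n‖ ≤ lenC f ^ n * lenC g ^ m := by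
  have h0 : resultant f g m n = ((sylvester f g m n).transpose).det := by
    rw [Matrix.det_transpose]
    rfl
  rw [h0]
  refine (norm_det_le _).trans (le_of_eq ?_)
  rw [Finset.prod_congr rfl fun i _ => a6b_row f g m n hf hg i, Fin.prod_univ_add]
  simp only [a6b_r, Fin.addCases_left, Fin.addCases_right, Finset.prod_const, Finset.card_univ,
    Fintype.card_fin]
  ring

/-- A6f. PROOF. As in the proof of `res_bound` (P/K2_Res): `S` the transposed Sylvester matrix, `v = (y^k)_k`, `S v` has the entries `y^i f(y)` (`i < n`) and `y^j g(y)` (`j < m`), `det S = det S · v_0 = ∑_j adj(S)_0j (S v)_j`, and `|adj(S)_0j|` is at most the product of the `ℓ¹` norms of the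
other rows, `≤ (max 1 (lenC f))^n (max 1 (lenC g))^m`. -/
theorem resC_small (f g : Polynomial ℂ) (m n : ℕ) (hf : f.natDegree ≤ m) (hg : g.natDegree ≤ n) (hmn : 1 ≤ m + n) (y : ℂ) :
    ‖resultant f g m n‖ ≤ ((m : ℝ) + n) * (max 1 ‖y‖) ^ (m + n) * (max 1 (lenC f) ^ n * max 1 (lenC g) ^ m) *
      max ‖f.eval y‖ ‖g.eval y‖ := by
  classical
  set A : Matrix (Fin (m + n)) (Fin (m + n)) ℂ := (sylvester f g m n).transpose with hA
  have hAdet : resultant f g m n = A.det := by
    rw [hA, Matrix.det_transpose]
    rfl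
  let r : Fin (m + n) → ℝ := fun i => Fin.addCases (fun _ => max 1 (lenC g)) (fun _ => max 1 (lenC f)) i
  have hr1 : ∀ i, 1 ≤ r i := by
    intro i
    refine Fin.addCases (fun i => ?_) (fun i => ?_) i
    · simp only [r, Fin.addCases_left]; exact le_max_left _ _
    · simp only [r, Fin.addCases_right]; exact le_max_left _ _
  have hrow : ∀ i, ∑ j, ‖A i j‖ ≤ r i := by
    intro i
    rw [hA, a6b_row f g m n hf hg i]
    refine Fin.addCases (fun i => ?_) (fun i => ?_) i
    · simp only [r, a6b_r, Fin.addCases_left]; exact le_max_right _ _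
    · simp only [r, a6b_r, Fin.addCases_right]; exact le_max_right _ _
  have hprod : ∏ i, r i = max 1 (lenC g) ^ m * max 1 (lenC f) ^ n := by
    rw [Fin.prod_univ_add]
    simp only [r, Fin.addCases_left, Fin.addCases_right, Finset.prod_const, Finset.card_univ,
      Fintype.card_fin]
  let v : Fin (m + n) → ℂ := fun i => y ^ (i : ℕ)
  set Θ : ℝ := max 1 ‖y‖ with hΘ
  have hΘ1 : 1 ≤ Θ := le_max_left _ _
  have hpow : ∀ i : ℕ, i ≤ m + n → ‖y‖ ^ i ≤ Θ ^ (m + n) := by
    intro i hi
    calc ‖y‖ ^ i ≤ Θ ^ i := pow_le_pow_left₀ (norm_nonneg _) (le_max_right _ _) _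
      _ ≤ Θ ^ (m + n) := pow_le_pow_right₀ hΘ1 hi
  have hev : ∀ (q : Polynomial ℂ) (d j : ℕ), q.natDegree ≤ d →
      ∑ t ∈ Finset.range (d + 1), q.coeff t * y ^ (t + j) = y ^ j * q.eval y := by
    intro q d j hd
    rw [Polynomial.eval_eq_sum_range' (Nat.lt_succ_of_le hd), Finset.mul_sum]
    refine Finset.sum_congr rfl fun t _ => ?_
    ring
  have hAv : ∀ i, ‖(A.mulVec v) i‖ ≤ Θ ^ (m + n) * max ‖f.eval y‖ ‖g.eval y‖ := by
    intro i
    refine Fin.addCases (fun i => ?_) (fun i => ?_) i
    · have h1 : (A.mulVec v) (Fin.castAdd n i) = y ^ (i : ℕ) * g.eval y := by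
        rw [← hev g n i hg, ← k2_sum (m + n) i n (by have := i.2; omega)
          (fun t => g.coeff t * y ^ (t + (i : ℕ)))]
        simp only [Matrix.mulVec, dotProduct]
        refine Finset.sum_congr rfl fun j _ => ?_
        simp only [hA, Matrix.transpose_apply,
          sylvester, Matrix.of_apply, Fin.addCases_left, v]
        split_ifs with hij
        · rw [Set.mem_Icc] at hij
          rw [Nat.sub_add_cancel hij.1]
        · simp
      rw [h1, norm_mul, norm_pow]
      exact mul_le_mul (hpow _ (by have := i.2; omega)) (le_max_right _ _) (norm_nonneg _)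
        (by positivity)
    · have h1 : (A.mulVec v) (Fin.natAdd m i) = y ^ (i : ℕ) * f.eval y := by
        rw [← hev f m i hf, ← k2_sum (m + n) i m (by have := i.2; omega)
          (fun t => f.coeff t * y ^ (t + (i : ℕ)))]
        simp only [Matrix.mulVec, dotProduct]
        refine Finset.sum_congr rfl fun j _ => ?_
        simp only [hA, Matrix.transpose_apply,
          sylvester, Matrix.of_apply, Fin.addCases_right, v]
        split_ifs with hij
        · rw [Set.mem_Icc] at hij
          rw [Nat.sub_add_cancel hij.1]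
        · simp
      rw [h1, norm_mul, norm_pow]
      exact mul_le_mul (hpow _ (by have := i.2; omega)) (le_max_left _ _) (norm_nonneg _)
        (by positivity)
  let z : Fin (m + n) := ⟨0, hmn⟩
  have hadj : ∀ j, ‖A.adjugate z j‖ ≤ max 1 (lenC f) ^ n * max 1 (lenC g) ^ m := by
    intro j
    rw [Matrix.adjugate_apply]
    refine (norm_det_le _).trans ?_
    calc ∏ i, ∑ c, ‖(A.updateRow j (Pi.single z 1)) i c‖ ≤ ∏ i, r i := by
          refine Finset.prod_le_prod (fun i _ => Finset.sum_nonneg fun c _ => norm_nonneg _)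
            fun i _ => ?_
          by_cases hij : i = j
          · subst hij
            rw [Matrix.updateRow_self]
            refine le_trans (le_of_eq ?_) (hr1 i)
            rw [Finset.sum_eq_single z]
            · simp
            · intro c _ hc
              rw [Pi.single_eq_of_ne hc, norm_zero]
            · intro h; exact absurd (Finset.mem_univ _) h
          · rw [Matrix.updateRow_ne hij]
            exact hrow i
      _ = max 1 (lenC f) ^ n * max 1 (lenC g) ^ m := by rw [hprod, mul_comm]
  have hfinal : A.det = ∑ j, A.adjugate z j * (A.mulVec v) j := by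
    have h1 : A.adjugate.mulVec (A.mulVec v) = A.det • v := by
      rw [Matrix.mulVec_mulVec, Matrix.adjugate_mul, Matrix.smul_mulVec, Matrix.one_mulVec]
    have h2 := congrFun h1 z
    simp only [Pi.smul_apply, smul_eq_mul, v, z, pow_zero, mul_one] at h2
    rw [← h2]
    rfl
  rw [hAdet]
  calc ‖A.det‖ = ‖∑ j, A.adjugate z j * (A.mulVec v) j‖ := by rw [← hfinal]
    _ ≤ ∑ j, ‖A.adjugate z j * (A.mulVec v) j‖ := norm_sum_le _ _
    _ ≤ ∑ _j : Fin (m + n), (max 1 (lenC f) ^ n * max 1 (lenC g) ^ m) *
        (Θ ^ (m + n) * max ‖f.eval y‖ ‖g.eval y‖) := by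
      refine Finset.sum_le_sum fun j _ => ?_
      rw [norm_mul]
      exact mul_le_mul (hadj j) (hAv j) (norm_nonneg _) (by positivity)
    _ = ((m : ℝ) + n) * Θ ^ (m + n) * (max 1 (lenC f) ^ n * max 1 (lenC g) ^ m) *
        max ‖f.eval y‖ ‖g.eval y‖ := by
      rw [Finset.sum_const, Finset.card_univ, Fintype.card_fin, nsmul_eq_mul]
      push_cast
      ring

end Pool.Agent.MSL
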