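import Pool.Agent.Lib.MP_f58a57_nt.L.A6_Res
import Pool.Agent.Lib.MP_f58a57_nt.L.A6b_ResBd
import Pool.Agent.Lib.MP_f58a57_nt.L.A3_Gelf

/-! # L/A7_ResInt: degree and Mahler measure of the resultant -/

open Polynomial

noncomputable section

namespace Pool.Agent.MSL

open MSD MSP

theorem a7_lenC_nonneg (f : Polynomial ℂ) : 0 ≤ lenC f :=
  Finset.sum_nonneg fun _ _ => norm_nonneg _

theorem a7_max_le (P : BP) (hP : P ≠ 0) (x : ℂ) :
    max 1 (lenC (sp x P)) ≤ len2 P * (max 1 ‖x‖) ^ dX P := by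
  have h1 : 1 ≤ (max 1 ‖x‖) ^ dX P := one_le_pow₀ (le_max_left _ _)
  have h2 := one_le_len2 P hP
  refine max_le ?_ (lenC_sp P x)
  calc (1 : ℝ) = 1 * 1 := (mul_one 1).symm
    _ ≤ len2 P * (max 1 ‖x‖) ^ dX P := mul_le_mul h2 h1 zero_le_one (by linarith)

/-- A7a. PROOF. `natDegree` of the determinant of the Sylvester matrix: `n` columns with entries of degree `≤ dX P`, `m` columns with entries of degree `≤ dX Q` (Leibniz formula, `Polynomial.natDegree_sum_le_of_forall_le`, `natDegree_prod_le`; every permutation uses each column once).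
Any weaker bound of the shape `n dX P + m dX Q` times a constant `≤ 2` is NOT enough for the statement, but the statement is exactly the Leibniz bound. -/
theorem res_natDegree (P Q : BP) (m n : ℕ) : (resultant P Q m n).natDegree ≤ n * dX P + m * dX Q := by
  classical
  unfold resultant
  rw [Matrix.det_apply']
  let d : Fin (m + n) → ℕ := fun i => Fin.addCases (fun _ => dX Q) (fun _ => dX P) i
  have hent : ∀ i j, ((sylvester P Q m n) i j).natDegree ≤ d j := by
    intro i j
    refine Fin.addCases (fun j => ?_) (fun j => ?_) j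
    · simp only [d, Fin.addCases_left, sylvester, Matrix.of_apply]
      split_ifs
      · exact natDegree_coeff_le Q _
      · simp
    · simp only [d, Fin.addCases_right, sylvester, Matrix.of_apply]
      split_ifs
      · exact natDegree_coeff_le P _
      · simp
  have hsum : ∑ i, d i = n * dX P + m * dX Q := by
    rw [Fin.sum_univ_add]
    simp only [d, Fin.addCases_left, Fin.addCases_right, Finset.sum_const, Finset.card_univ,
      Fintype.card_fin, smul_eq_mul]
    ring
  rw [← hsum]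
  apply Polynomial.natDegree_sum_le_of_forall_le
  intro σ _
  refine (Polynomial.natDegree_mul_le).trans ?_
  rw [Polynomial.natDegree_intCast, zero_add]
  refine (Polynomial.natDegree_prod_le _ _).trans ?_
  exact Finset.sum_le_sum fun i _ => hent (σ i) i

/-- A7b. PROOF. `MM R ≤ ‖R(ζ)‖` for some `‖ζ‖ = 1` (`exists_circle` for the complex polynomial) and `R(ζ) = resultant (sp ζ P) (sp ζ Q)` (`res_sp`), so by `resC_le` and `lenC_sp` `MM R ≤ len2 P ^ n * len2 Q ^ m`. -/
theorem res_MM (P Q : BP) (m n : ℕ) (hm : P.natDegree ≤ m) (hn : Q.natDegree ≤ n) (h : resultant P Q m n ≠ 0) :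
    MM (resultant P Q m n) ≤ len2 P ^ n * len2 Q ^ m := by
  have hinj : Function.Injective (Int.castRingHom ℂ) := Int.cast_injective
  have h0 : (resultant P Q m n).map (Int.castRingHom ℂ) ≠ 0 := by
    rw [Ne, Polynomial.map_eq_zero_iff hinj]
    exact h
  obtain ⟨ζ, hζ, hle⟩ := exists_circle _ h0
  have he : ((resultant P Q m n).map (Int.castRingHom ℂ)).eval ζ =
      aeval ζ (resultant P Q m n) := by
    rw [Polynomial.eval_map, Polynomial.aeval_def]
    rfl
  unfold MM
  refine hle.trans ?_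
  rw [he, res_sp]
  refine (resC_le _ _ m n ((sp_natDegree P ζ).trans hm) ((sp_natDegree Q ζ).trans hn)).trans ?_
  have h1 : lenC (sp ζ P) ≤ len2 P := by
    have := lenC_sp P ζ
    rwa [hζ, max_self, one_pow, mul_one] at this
  have h2 : lenC (sp ζ Q) ≤ len2 Q := by
    have := lenC_sp Q ζ
    rwa [hζ, max_self, one_pow, mul_one] at this
  exact mul_le_mul (pow_le_pow_left₀ (a7_lenC_nonneg _) h1 n)
    (pow_le_pow_left₀ (a7_lenC_nonneg _) h2 m) (pow_nonneg (a7_lenC_nonneg _) m)
    (pow_nonneg (len2_nonneg P) n)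

/-- A7c. PROOF. `res_sp`, `resC_small`, `lenC_sp`. -/
theorem res_small (P Q : BP) (m n : ℕ) (hm : P.natDegree ≤ m) (hn : Q.natDegree ≤ n) (hmn : 1 ≤ m + n) (hP : P ≠ 0) (hQ : Q ≠ 0) (x y : ℂ) :
    ‖aeval x (resultant P Q m n)‖ ≤ ((m : ℝ) + n) * (max 1 ‖y‖) ^ (m + n) *
      ((len2 P * (max 1 ‖x‖) ^ dX P) ^ n * (len2 Q * (max 1 ‖x‖) ^ dX Q) ^ m) * max ‖ev2 P x y‖ ‖ev2 Q x y‖ := by
  rw [res_sp]
  refine (resC_small _ _ m n ((sp_natDegree P x).trans hm) ((sp_natDegree Q x).trans hn) hmn y).trans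
    ?_
  have hP1 := a7_max_le P hP x
  have hQ1 := a7_max_le Q hQ x
  have h01 : (0 : ℝ) ≤ max 1 (lenC (sp x P)) := zero_le_one.trans (le_max_left _ _)
  have h02 : (0 : ℝ) ≤ max 1 (lenC (sp x Q)) := zero_le_one.trans (le_max_left _ _)
  have h03 : (0 : ℝ) ≤ len2 P * (max 1 ‖x‖) ^ dX P := h01.trans hP1
  have h1 := mul_le_mul (pow_le_pow_left₀ h01 hP1 n) (pow_le_pow_left₀ h02 hQ1 m)
    (pow_nonneg h02 m) (pow_nonneg h03 n)
  have h4 : (0 : ℝ) ≤ ((m : ℝ) + n) * (max 1 ‖y‖) ^ (m + n) := by positivity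
  have h5 : (0 : ℝ) ≤ max ‖ev2 P x y‖ ‖ev2 Q x y‖ := (norm_nonneg _).trans (le_max_left _ _)
  exact mul_le_mul_of_nonneg_right (mul_le_mul_of_nonneg_left h1 h4) h5

end Pool.Agent.MSL
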