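import Pool.Agent.Lib.MP_f58a57_nt.L.A7_ResInt

/-! # L/A8_Zeros: the common zeros of two coprime polynomials -/

open Polynomial

noncomputable section

namespace Pool.Agent.MSL

open MSD MSP

/-- the factors of the bounds are at least one -/
private theorem a8_one_le (Q : BP) (hQ : Q ≠ 0) (u : ℕ) : 1 ≤ len2 Q * (1 + (u : ℝ)) ^ dX Q := by
  have h1 : (1 : ℝ) ≤ 1 + u := by
    have : (0 : ℝ) ≤ u := Nat.cast_nonneg u
    linarith
  exact one_le_mul_of_one_le_of_one_le (one_le_len2 Q hQ) (one_le_pow₀ h1)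

/-- the length of the substituted polynomial -/
private theorem a8_len (Q : BP) (u : ℕ) : len2 (phu u Q) ≤ len2 Q * (1 + (u : ℝ)) ^ dX Q := by
  have h := (phu_bd (u : ℤ) Q).2.2
  have h2 : |(((u : ℤ) : ℝ))| = (u : ℝ) := by
    rw [Int.cast_natCast]
    exact abs_of_nonneg (Nat.cast_nonneg u)
  rwa [h2] at h

/-- the length with a power of `max 1 ‖x‖` -/
private theorem a8_lenx (Q : BP) (u : ℕ) (t : ℝ) (ht : 1 ≤ t) :
    len2 (phu u Q) * t ^ dX (phu u Q) ≤ len2 Q * (1 + (u : ℝ)) ^ dX Q * t ^ dX Q := by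
  refine mul_le_mul (a8_len Q u) (pow_le_pow_right₀ ht (phu_bd (u : ℤ) Q).1) (by positivity) ?_
  exact (len2_nonneg _).trans (a8_len Q u)

/-- A8a. The resultant after the substitution `X ↦ X - u Y`. PROOF. `lead_phu b` gives `D` and `B`. For `u ∉ B` put `R = resultant (phu u b) (phu u Q) D n`, `n = dX Q + Q.natDegree`. `R ≠ 0`: `res_ne` for `phu u b`, `phu u Q` (`phu_irred`, `phu_dvd`, `phu_ne`, `D ≥ natDegree b ≥ 1`).
(1) `R(x + u y) = 0` for common zeros `(x, y)`: `root_res`, `ev2_phu`. (2) Every root is of this form: `res_root`, `ev2_phu` (`x = α - u y`). (3)-(5): `res_natDegree`, `res_MM`, `res_small` with `phu_bd` (`D ≤ dX b + natDegree b`); the value `x₀ + u y₀`. -/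
theorem res_u (b Q : BP) (hb : Irreducible b) (hd : 1 ≤ b.natDegree) (hQ : Q ≠ 0) (h : ¬ b ∣ Q) :
    ∃ B : Finset ℕ, B.card ≤ dX b + b.natDegree ∧ ∀ u : ℕ, u ∉ B → ∃ R : Polynomial ℤ, R ≠ 0 ∧
      (∀ x y : ℂ, ev2 b x y = 0 → ev2 Q x y = 0 → aeval (x + u * y) R = 0) ∧
      (∀ α : ℂ, aeval α R = 0 → ∃ x y : ℂ, ev2 b x y = 0 ∧ ev2 Q x y = 0 ∧ x + u * y = α) ∧
      (R.natDegree ≤ 2 * (dX b + b.natDegree) * (dX Q + Q.natDegree)) ∧
      (MM R ≤ (len2 b * (1 + u) ^ dX b) ^ (dX Q + Q.natDegree) * (len2 Q * (1 + u) ^ dX Q) ^ (dX b + b.natDegree)) ∧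
      ∀ x₀ y₀ : ℂ, ‖aeval (x₀ + u * y₀) R‖ ≤ ((dX b + b.natDegree : ℕ) + (dX Q + Q.natDegree : ℕ) : ℝ) *
        (max 1 ‖y₀‖) ^ ((dX b + b.natDegree) + (dX Q + Q.natDegree)) *
        ((len2 b * (1 + u) ^ dX b * (max 1 ‖x₀ + u * y₀‖) ^ dX b) ^ (dX Q + Q.natDegree) *
          (len2 Q * (1 + u) ^ dX Q * (max 1 ‖x₀ + u * y₀‖) ^ dX Q) ^ (dX b + b.natDegree)) * max ‖ev2 b x₀ y₀‖ ‖ev2 Q x₀ y₀‖ := by
  obtain ⟨D, hD1, hD2, B, hB, hlead⟩ := lead_phu b hb.ne_zero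
  refine ⟨B, hB.trans hD2, fun u hu => ?_⟩
  obtain ⟨hnat, a, ha, hl⟩ := hlead u hu
  have hb0 : b ≠ 0 := hb.ne_zero
  have hn : (phu u Q).natDegree ≤ dX Q + Q.natDegree := (phu_bd (u : ℤ) Q).2.1
  have hcast : (((u : ℤ) : ℂ)) = (u : ℂ) := Int.cast_natCast u
  have hev : ∀ (p : BP) (x y : ℂ), ev2 (phu u p) (x + u * y) y = ev2 p x y := by
    intro p x y
    rw [ev2_phu, hcast, add_sub_cancel_right]
  have hR0 : resultant (phu u b) (phu u Q) D (dX Q + Q.natDegree) ≠ 0 := by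
    have h1 := res_ne (phu u b) (phu u Q) (phu_irred u b hb) (by rw [hnat]; omega)
      (phu_ne u Q hQ) (fun h2 => h ((phu_dvd u b Q).1 h2)) (dX Q + Q.natDegree) hn
    rwa [hnat] at h1
  refine ⟨resultant (phu u b) (phu u Q) D (dX Q + Q.natDegree), hR0, ?_, ?_, ?_, ?_, ?_⟩
  · intro x y h1 h2
    have h3 := root_res (phu u b) (phu u Q) a ha hl (dX Q + Q.natDegree) hn (x + u * y) y
      (by rw [hev]; exact h1) (by rw [hev]; exact h2)
    rwa [hnat] at h3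
  · intro α hα
    have h1 : aeval α (resultant (phu u b) (phu u Q) (phu u b).natDegree
        (dX Q + Q.natDegree)) = 0 := by
      rw [hnat]
      exact hα
    obtain ⟨y, h2, h3⟩ := res_root (phu u b) (phu u Q) a ha hl (dX Q + Q.natDegree) hn α h1
    rw [ev2_phu, hcast] at h2 h3
    exact ⟨α - u * y, y, h2, h3, sub_add_cancel _ _⟩
  · refine (res_natDegree _ _ _ _).trans ?_
    have h1 : dX (phu u b) ≤ dX b + b.natDegree := (phu_bd (u : ℤ) b).1.trans (Nat.le_add_right _ _)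
    have h2 : dX (phu u Q) ≤ dX Q + Q.natDegree := (phu_bd (u : ℤ) Q).1.trans (Nat.le_add_right _ _)
    calc (dX Q + Q.natDegree) * dX (phu u b) + D * dX (phu u Q)
        ≤ (dX Q + Q.natDegree) * (dX b + b.natDegree) +
          (dX b + b.natDegree) * (dX Q + Q.natDegree) :=
          Nat.add_le_add (Nat.mul_le_mul_left _ h1) (Nat.mul_le_mul hD2 h2)
      _ = 2 * (dX b + b.natDegree) * (dX Q + Q.natDegree) := by ring
  · refine (res_MM _ _ _ _ hnat.le hn hR0).trans ?_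
    have h1 : len2 (phu u b) ^ (dX Q + Q.natDegree) ≤
        (len2 b * (1 + (u : ℝ)) ^ dX b) ^ (dX Q + Q.natDegree) :=
      pow_le_pow_left₀ (len2_nonneg _) (a8_len b u) _
    have h2 : len2 (phu u Q) ^ D ≤ (len2 Q * (1 + (u : ℝ)) ^ dX Q) ^ (dX b + b.natDegree) :=
      (pow_le_pow_left₀ (len2_nonneg _) (a8_len Q u) _).trans
        (pow_le_pow_right₀ (a8_one_le Q hQ u) hD2)
    exact mul_le_mul h1 h2 (pow_nonneg (len2_nonneg _) _)
      (pow_nonneg (zero_le_one.trans (a8_one_le b hb0 u)) _)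
  · intro x₀ y₀
    have h1 := res_small (phu u b) (phu u Q) D (dX Q + Q.natDegree) hnat.le hn (by omega)
      (phu_ne u b hb0) (phu_ne u Q hQ) (x₀ + u * y₀) y₀
    rw [hev, hev] at h1
    refine h1.trans ?_
    have ht : (1 : ℝ) ≤ max 1 ‖x₀ + u * y₀‖ := le_max_left _ _
    have hs : (1 : ℝ) ≤ max 1 ‖y₀‖ := le_max_left _ _
    have e1 : (D : ℝ) + ((dX Q + Q.natDegree : ℕ) : ℝ) ≤
        ((dX b + b.natDegree : ℕ) : ℝ) + ((dX Q + Q.natDegree : ℕ) : ℝ) := by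
      have : (D : ℝ) ≤ ((dX b + b.natDegree : ℕ) : ℝ) := by exact_mod_cast hD2
      linarith
    have e2 : (max 1 ‖y₀‖) ^ (D + (dX Q + Q.natDegree)) ≤
        (max 1 ‖y₀‖) ^ ((dX b + b.natDegree) + (dX Q + Q.natDegree)) :=
      pow_le_pow_right₀ hs (by omega)
    have e3 : (len2 (phu u b) * (max 1 ‖x₀ + u * y₀‖) ^ dX (phu u b)) ^ (dX Q + Q.natDegree) ≤
        (len2 b * (1 + (u : ℝ)) ^ dX b * (max 1 ‖x₀ + u * y₀‖) ^ dX b) ^ (dX Q + Q.natDegree) :=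
      pow_le_pow_left₀ (mul_nonneg (len2_nonneg _) (by positivity)) (a8_lenx b u _ ht) _
    have e4 : (len2 (phu u Q) * (max 1 ‖x₀ + u * y₀‖) ^ dX (phu u Q)) ^ D ≤
        (len2 Q * (1 + (u : ℝ)) ^ dX Q * (max 1 ‖x₀ + u * y₀‖) ^ dX Q) ^ (dX b + b.natDegree) := by
      refine (pow_le_pow_left₀ (mul_nonneg (len2_nonneg _) (by positivity)) (a8_lenx Q u _ ht)
        _).trans (pow_le_pow_right₀ ?_ hD2)
      exact one_le_mul_of_one_le_of_one_le (a8_one_le Q hQ u) (one_le_pow₀ ht)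
    have n3 : 0 ≤ (len2 (phu u b) * (max 1 ‖x₀ + u * y₀‖) ^ dX (phu u b)) ^
        (dX Q + Q.natDegree) := pow_nonneg (mul_nonneg (len2_nonneg _) (by positivity)) _
    have n4 : 0 ≤ (len2 (phu u Q) * (max 1 ‖x₀ + u * y₀‖) ^ dX (phu u Q)) ^ D :=
      pow_nonneg (mul_nonneg (len2_nonneg _) (by positivity)) _
    refine mul_le_mul_of_nonneg_right ?_ (le_max_of_le_left (norm_nonneg _))
    refine mul_le_mul ?_ (mul_le_mul e3 e4 n4 (n3.trans e3)) (mul_nonneg n3 n4) (by positivity)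
    exact mul_le_mul e1 e2 (by positivity) (by positivity)

end Pool.Agent.MSL
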