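import Pool.Agent.Lib.MP_f58a57_nt.L.A8_Zeros

/-! # L/A8b_Fin: the common zeros are algebraic and their number is bounded -/

open Polynomial

noncomputable section

namespace Pool.Agent.MSL

open MSD MSP

/-- algebraicity of a root -/
theorem a8_alg (R : Polynomial ℤ) (hR : R ≠ 0) (α : ℂ) (h : aeval α R = 0) : IsAlgebraic ℚ α := by
  refine ⟨R.map (Int.castRingHom ℚ), ?_, ?_⟩
  · rw [Ne, Polynomial.map_eq_zero_iff (Int.castRingHom ℚ).injective_int]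
    exact hR
  · rw [← h, ← algebraMap_int_eq, aeval_map_algebraMap]

/-- the roots -/
theorem a8_roots (R : Polynomial ℤ) (hR : R ≠ 0) : ∃ S : Finset ℂ, S.card ≤ R.natDegree ∧
    ∀ α : ℂ, aeval α R = 0 → α ∈ S := by
  classical
  have h0 : R.map (algebraMap ℤ ℂ) ≠ 0 := by
    rw [Ne, Polynomial.map_eq_zero_iff (RingHom.injective_int _)]
    exact hR
  refine ⟨(R.map (algebraMap ℤ ℂ)).roots.toFinset, ?_, ?_⟩
  · refine (Multiset.toFinset_card_le _).trans ((card_roots' _).trans ?_)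
    exact natDegree_map_le
  · intro α hα
    rw [Multiset.mem_toFinset, mem_roots h0, IsRoot.def, eval_map_algebraMap]
    exact hα

/-- two different slopes determine the point -/
theorem a8_two (u v : ℕ) (huv : u ≠ v) (x y x' y' : ℂ) (h1 : x + u * y = x' + u * y')
    (h2 : x + v * y = x' + v * y') : x = x' ∧ y = y' := by
  have h3 : ((u : ℂ) - v) * (y - y') = 0 := by linear_combination h1 - h2
  have h4 : (u : ℂ) - v ≠ 0 := by
    rw [sub_ne_zero]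
    exact_mod_cast huv
  have h5 : y = y' := by
    rcases mul_eq_zero.1 h3 with h | h
    · exact absurd h h4
    · exact sub_eq_zero.1 h
  subst h5
  exact ⟨by linear_combination h1, rfl⟩

/-- A8b. PROOF. `res_u`. For `u ∉ B` the numbers `x + u y` of the common zeros are roots of a nonzero polynomial of degree `≤ Δ = 2 (dX b + natDegree b) (dX Q + natDegree Q)`. Two different `u, u' ∉ B` show that `x` and `y` are algebraic, and that the set of common zeros is finite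
(injective map `(x, y) ↦ (x + u y, x + u' y)` into a finite set). If it is finite, choose `u ∉ B` such that `(x, y) ↦ x + u y` is injective on it (finitely many bad `u`): at most `Δ` elements. -/
theorem zeros_fin (b Q : BP) (hb : Irreducible b) (hd : 1 ≤ b.natDegree) (hQ : Q ≠ 0) (h : ¬ b ∣ Q) :
    ∃ Z : Finset (ℂ × ℂ), (∀ ξ : ℂ × ℂ, ξ ∈ Z ↔ ev2 b ξ.1 ξ.2 = 0 ∧ ev2 Q ξ.1 ξ.2 = 0) ∧ Z.card ≤ 2 * (dX b + b.natDegree) * (dX Q + Q.natDegree) ∧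
      ∀ ξ ∈ Z, IsAlgebraic ℚ ξ.1 ∧ IsAlgebraic ℚ ξ.2 := by
  classical
  obtain ⟨B, -, hB⟩ := res_u b Q hb hd hQ h
  obtain ⟨u, hu⟩ := Infinite.exists_notMem_finset B
  obtain ⟨v, hv⟩ := Infinite.exists_notMem_finset (insert u B)
  rw [Finset.mem_insert, not_or] at hv
  have huv : u ≠ v := fun h => hv.1 h.symm
  obtain ⟨R, hR0, hR, -⟩ := hB u hu
  obtain ⟨R', hR0', hR', -⟩ := hB v hv.2
  obtain ⟨S, -, hS⟩ := a8_roots R hR0
  obtain ⟨S', -, hS'⟩ := a8_roots R' hR0'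
  have hfin : {ξ : ℂ × ℂ | ev2 b ξ.1 ξ.2 = 0 ∧ ev2 Q ξ.1 ξ.2 = 0}.Finite := by
    refine Set.Finite.of_injOn (f := fun ξ : ℂ × ℂ => (ξ.1 + u * ξ.2, ξ.1 + v * ξ.2))
      (t := ((S ×ˢ S' : Finset (ℂ × ℂ)) : Set (ℂ × ℂ))) ?_ ?_ (Finset.finite_toSet _)
    · rintro ⟨x, y⟩ ⟨h1, h2⟩
      rw [Finset.mem_coe, Finset.mem_product]
      exact ⟨hS _ (hR x y h1 h2), hS' _ (hR' x y h1 h2)⟩
    · rintro ⟨x, y⟩ - ⟨x', y'⟩ - h3
      simp only [Prod.mk.injEq] at h3 ⊢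
      exact a8_two u v huv x y x' y' h3.1 h3.2
  have hmem : ∀ ξ : ℂ × ℂ, ξ ∈ hfin.toFinset ↔ ev2 b ξ.1 ξ.2 = 0 ∧ ev2 Q ξ.1 ξ.2 = 0 := by
    intro ξ
    rw [Set.Finite.mem_toFinset]
    rfl
  refine ⟨hfin.toFinset, hmem, ?_, ?_⟩
  · let bad : Finset ℕ := (hfin.toFinset ×ˢ hfin.toFinset).image
      (fun p : (ℂ × ℂ) × (ℂ × ℂ) =>
        Classical.epsilon (fun w : ℕ => p.1.1 + (w : ℂ) * p.1.2 = p.2.1 + (w : ℂ) * p.2.2))
    obtain ⟨w, hw⟩ := Infinite.exists_notMem_finset (B ∪ bad)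
    rw [Finset.mem_union, not_or] at hw
    obtain ⟨T, hT0, hT, -, hTd, -⟩ := hB w hw.1
    obtain ⟨U, hU1, hU⟩ := a8_roots T hT0
    refine le_trans (Finset.card_le_card_of_injOn (fun ξ : ℂ × ℂ => ξ.1 + w * ξ.2) ?_ ?_)
      (hU1.trans hTd)
    · intro ξ hξ
      rw [Finset.mem_coe, hmem] at hξ
      exact hU _ (hT _ _ hξ.1 hξ.2)
    · intro ξ hξ ξ' hξ' h3
      by_contra hne
      have h3' : ξ.1 + w * ξ.2 = ξ'.1 + w * ξ'.2 := h3
      have h4 : ξ.1 + (Classical.epsilon fun w : ℕ => ξ.1 + (w : ℂ) * ξ.2 = ξ'.1 + (w : ℂ) * ξ'.2 : ℕ) * ξ.2 =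
          ξ'.1 + (Classical.epsilon fun w : ℕ => ξ.1 + (w : ℂ) * ξ.2 = ξ'.1 + (w : ℂ) * ξ'.2 : ℕ) * ξ'.2 :=
        Classical.epsilon_spec (p := fun w : ℕ => ξ.1 + w * ξ.2 = ξ'.1 + w * ξ'.2) ⟨w, h3'⟩
      have h5 : (Classical.epsilon fun w : ℕ => ξ.1 + (w : ℂ) * ξ.2 = ξ'.1 + (w : ℂ) * ξ'.2) ∈ bad :=
        Finset.mem_image.2 ⟨(ξ, ξ'), Finset.mem_product.2 ⟨hξ, hξ'⟩, rfl⟩
      have h6 : w ≠ (Classical.epsilon fun w : ℕ => ξ.1 + (w : ℂ) * ξ.2 = ξ'.1 + (w : ℂ) * ξ'.2) := by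
        intro h7
        rw [← h7] at h5
        exact hw.2 h5
      obtain ⟨h8, h9⟩ := a8_two _ _ h6 ξ.1 ξ.2 ξ'.1 ξ'.2 h3' h4
      exact hne (Prod.ext h8 h9)
  · intro ξ hξ
    rw [hmem] at hξ
    have h1 : IsAlgebraic ℚ (ξ.1 + u * ξ.2) := a8_alg R hR0 _ (hR _ _ hξ.1 hξ.2)
    have h2 : IsAlgebraic ℚ (ξ.1 + v * ξ.2) := a8_alg R' hR0' _ (hR' _ _ hξ.1 hξ.2)
    have h4 : (u : ℂ) - v ≠ 0 := by
      rw [sub_ne_zero]
      exact_mod_cast huv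
    have hy : IsAlgebraic ℚ ξ.2 := by
      have h5 : ξ.2 = ((ξ.1 + u * ξ.2) - (ξ.1 + v * ξ.2)) * ((u : ℂ) - v)⁻¹ := by
        field_simp
        ring
      rw [h5]
      exact (h1.sub h2).mul ((isAlgebraic_natCast u).sub (isAlgebraic_natCast v)).inv
    refine ⟨?_, hy⟩
    have h6 : ξ.1 = (ξ.1 + u * ξ.2) - u * ξ.2 := by ring
    rw [h6]
    exact h1.sub ((isAlgebraic_natCast u).mul hy)

end Pool.Agent.MSL
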