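import Pool.Agent.Lib.MP_f58a57_nt.R.Defs
import Pool.Agent.Lib.MP_f58a57_nt.P.K1_Factor

/-!
# MP_f58a57_nt, cubic points: approximation by algebraic points and Liouville's inequality, definitions
-/

open Complex

noncomputable section

namespace Pool.Agent.MSL

open MSD MSP MSK MSR

/-! ### Integer polynomials in two variables -/

/-- integer polynomials in two variables `X` (inner variable) and `Y` (outer variable) -/
abbrev BP : Type := Polynomial (Polynomial ℤ)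

/-- the polynomial in `Y` obtained by putting `X = x` -/
def sp (x : ℂ) (p : BP) : Polynomial ℂ := p.map (Polynomial.aeval x : Polynomial ℤ →ₐ[ℤ] ℂ).toRingHom

/-- the value at `X = x`, `Y = y` -/
def ev2 (p : BP) (x y : ℂ) : ℂ := (sp x p).eval y

/-- the length -/
def len2 (p : BP) : ℝ := ∑ j ∈ p.support, len (p.coeff j)

/-- the degree in `X` -/
def dX (p : BP) : ℕ := p.support.sup fun j => (p.coeff j).natDegree

/-- the substitution `X ↦ X - u Y` -/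
def phu (u : ℤ) : BP →+* BP :=
  Polynomial.eval₂RingHom (Polynomial.aeval (Polynomial.C Polynomial.X - Polynomial.C (Polynomial.C u) * Polynomial.X : BP) :
    Polynomial ℤ →ₐ[ℤ] BP).toRingHom Polynomial.X

/-- the length of a complex polynomial -/
def lenC (p : Polynomial ℂ) : ℝ := ∑ j ∈ p.support, ‖p.coeff j‖

/-! ### Heights -/

/-- an irreducible integer polynomial of positive degree with the root `α` (if `α` is algebraic) -/
def mz (α : ℂ) : Polynomial ℤ :=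
  open Classical in if h : ∃ f : Polynomial ℤ, Irreducible f ∧ 1 ≤ f.natDegree ∧ Polynomial.aeval α f = 0 then h.choose else Polynomial.X

/-- the logarithmic height of an algebraic number -/
def hgt (α : ℂ) : ℝ := Real.log (MM (mz α)) / (mz α).natDegree

/-- `log⁺ (1/r)` -/
def lp (r : ℝ) : ℝ := max 0 (-Real.log r)

/-! ### The result of the elimination -/

/-- a common zero `(x, y)` of two integer polynomials which is extremely close to `θ` relative to its height -/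
def Appr (θ : Fin 2 → ℂ) (l : ℕ) (K : ℝ) : Prop :=
  ∃ (P Q : BP) (u v : ℕ) (x y : ℂ), u ≠ v ∧ u ≤ l ^ 28 ∧ v ≤ l ^ 28 ∧ ev2 P x y = 0 ∧ ev2 Q x y = 0 ∧
    (∀ x' y' : ℂ, ev2 P x' y' = 0 → ev2 Q x' y' = 0 → IsAlgebraic ℚ x' ∧ IsAlgebraic ℚ y' ∧
      ‖x' - θ 0‖ ≤ l ^ 28 * ‖x' + u * y' - (θ 0 + u * θ 1)‖ ∧ ‖y' - θ 1‖ ≤ l ^ 28 * ‖x' + u * y' - (θ 0 + u * θ 1)‖) ∧
    ((mz (x + u * y)).natDegree + Real.log (MM (mz (x + u * y))) ≤ l ^ 11) ∧
    ‖Polynomial.aeval (θ 0 + u * θ 1) (mz (x + u * y))‖ ≤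
      Real.exp (-(K * l ^ 4 * Real.log l * ((mz (x + u * y)).natDegree + Real.log (MM (mz (x + u * y)))))) ∧
    hgt (x + v * y) ≤ hgt (x + u * y)

/-! ### Algebraic points over `θ` -/

/-- polynomials in one variable whose coefficients are integer polynomials in two variables -/
abbrev FP : Type := Polynomial (MvPolynomial (Fin 2) ℤ)

/-- specialisation of the coefficients -/
def spv {R : Type} [CommRing R] (x : Fin 2 → R) (F : FP) : Polynomial R :=
  F.map (MvPolynomial.aeval x : MvPolynomial (Fin 2) ℤ →ₐ[ℤ] R).toRingHom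

/-- the parameters `g, k, g₃` of a curve -/
def par3 (τ om kap : ℂ) : Fin 3 → ℂ :=
  ![2 / 3 * Real.pi ^ 4 * e4 τ / om ^ 4, kap, 8 / 27 * Real.pi ^ 6 * e6 τ / om ^ 6]

/-- the value group of the valuations -/
abbrev VG : Type := WithZero (Multiplicative ℤ)

/-- a point of a number field `L` over the point `x`: the parameters `w = (g, k, g₃)`, conjugates `z, r` of the constants, integers `X l` and square roots `Y l` -/
structure LP (P : Par 2) (L : IntermediateField ℚ ℂ) where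
  x : Fin 2 → L
  w : Fin 3 → L
  z : L
  r : L
  X : Fin 3 → ℕ
  Y : Fin 3 → L
  hY : ∀ l, Y l ^ 2 = 4 * (X l : L) ^ 3 - 2 * w 0 * X l - w 2

/-- the vector of the values -/
def LP.v {P : Par 2} {L : IntermediateField ℚ ℂ} (p : LP P L) : Vr 2 → L
  | .X l => (p.X l : L)
  | .Y l => p.Y l
  | .Q _ => 0
  | .b l => (P.b l : L)
  | .g => p.w 0
  | .k => p.w 1
  | .z => p.z
  | .r => p.r

/-- the matrix of the derivatives over an arbitrary ring -/
def DL {R : Type} [CommRing R] {E : ℕ} (x : Vr 2 → R) (a : Ir 2 E → Fin 2 → ℕ) (k : Ir 2 E → ℕ) : Matrix (Ir 2 E) (Ir 2 E) R :=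
  Matrix.of fun i κ => MvPolynomial.aeval x ((der (fun j => (a i j : ℤ)))^[k i] (Rp (fun j => (κ j).val)))

/-! ### The two inputs -/

/-- the interpolation determinant is small (helper10, file U/D9_Main) -/
def DetSmall (P : Par 2) : Prop :=
  ∀ H : ℝ, ∃ C : ℕ, 1 ≤ C ∧ ∀ D : Dt 2, D.τ = P.z → D.om ^ 2 = Real.pi → D.kap = sE P.z / Real.pi → (∀ l, ‖D.h l‖ ≤ H) →
    ∀ B : ℝ, 2 ≤ B → (∀ v, ‖vals P D v‖ ≤ B) → ∀ E T : ℕ, 1 ≤ E → E ≤ T → ∀ (x : Vr 2 → ℂ) (δ : ℝ), 0 ≤ δ → δ ≤ 1 → (∀ v, ‖x v - vals P D v‖ ≤ δ) →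
      ∀ (a : Ir 2 E → Fin 2 → ℕ) (k : Ir 2 E → ℕ), (∀ i j, a i j ≤ T) → (∀ i, k i ≤ T) →
        ‖(DL x a k).det‖ ≤ (B * T) ^ (C * T * E ^ 2) * ∏ m ∈ Finset.range (E ^ 2), (Real.exp (-((m : ℝ) ^ 2 / C)) + δ)

/-- the zero estimate (helper44) -/
def ZeroEst (P : Par 2) : Prop :=
  ∃ C : ℕ, ∀ τ om kap : ℂ, 0 < τ.im → om ≠ 0 → ∀ X₀ E : ℕ, 1 ≤ E → ∃ x : Fin 3 → ℕ, (∀ l, X₀ ≤ x l ∧ x l ≤ X₀ + C * E ^ 3) ∧
    ∀ D : Dt 2, D.τ = τ → D.om = om → D.kap = kap → (∀ l, D.X l 0 = x l) → ∀ c : Ir 2 E → ℂ, c ≠ 0 →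
      ∃ (a : Fin 2 → ℕ) (k : ℕ), (∀ j, a j ≤ 8 * E) ∧ k ≤ 8 * E ∧
        ∑ κ, c κ * MvPolynomial.aeval (vals P D) ((der (fun j => (a j : ℤ)))^[k] (Rp (fun j => (κ j).val))) ≠ 0

end Pool.Agent.MSL
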