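import Pool.Agent.Lib.MP_f58a57_nt.L.Defs

/-!
# MP_f58a57_nt, cubic points: lifted points, definitions

The five parameters are `(g, k, g₃, z, r)`.
-/

open Complex

noncomputable section

namespace Pool.Agent.MSL

open MSD MSP MSK MSR

/-- the five values `(g, k, g₃, z, r)` of a curve with period ratio `τ`, scaling `om` -/
def par5 (z τ om kap : ℂ) : Fin 5 → ℂ :=
  ![2 / 3 * Real.pi ^ 4 * e4 τ / om ^ 4, kap, 8 / 27 * Real.pi ^ 6 * e6 τ / om ^ 6, z, rh]

/-- a point of a field `L`: `x`, the five parameters `w`, integers `X l` and square roots `Y l` -/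
structure LQ (L : Type) [Field L] where
  x : Fin 2 → L
  w : Fin 5 → L
  X : Fin 3 → ℕ
  Y : Fin 3 → L
  hY : ∀ l, Y l ^ 2 = 4 * (X l : L) ^ 3 - 2 * w 0 * X l - w 2

/-- the vector of the values -/
def LQ.v {L : Type} [Field L] [CharZero L] (P : Par 2) (p : LQ L) : Vr 2 → L
  | .X l => (p.X l : L)
  | .Y l => p.Y l
  | .Q _ => 0
  | .b l => ((P.b l : ℚ) : L)
  | .g => p.w 0
  | .k => p.w 1
  | .z => p.w 3
  | .r => p.w 4

/-- the polynomials `F i` have the simple roots `ω i` over `θ`; the last two have constant roots -/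
structure FD (θ : Fin 2 → ℂ) (ω : Fin 5 → ℂ) (F : Fin 5 → FP) : Prop where
  lc : ∀ i, MvPolynomial.aeval θ (F i).leadingCoeff ≠ 0
  root : ∀ i, (spv θ (F i)).eval (ω i) = 0
  simple : ∀ i, (Polynomial.derivative (spv θ (F i))).eval (ω i) ≠ 0
  cz : ∀ x : Fin 2 → ℂ, (spv x (F 3)).eval (ω 3) = 0
  cr : ∀ x : Fin 2 → ℂ, (spv x (F 4)).eval (ω 4) = 0

/-- the common denominator: `q` times the product of the leading coefficients -/
def Den {L : Type} [Field L] (F : Fin 5 → FP) (q : ℕ) (x : Fin 2 → L) : L :=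
  (q : L) * ∏ i, MvPolynomial.aeval x (F i).leadingCoeff

end Pool.Agent.MSL
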