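import Pool.Agent.Lib.MP_f58a57_nt.L.Defs2

/-!
# MP_f58a57_nt, cubic points: the field which contains all the lifts
-/

open Complex

noncomputable section

namespace Pool.Agent.MSL

open MSD MSP MSK MSR

/-- the field `L` contains all the roots over the conjugates of `x`, and the square roots `Y` -/
structure Big (L : IntermediateField ℚ ℂ) (F : Fin 5 → FP) (x : Fin 2 → L) (X₁ : ℕ) : Prop where
  root : ∀ (g : L ≃ₐ[ℚ] L) (i : Fin 5) (lam : ℂ), (spv (fun j => ((g (x j) : L) : ℂ)) (F i)).eval lam = 0 → lam ∈ L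
  sq : ∀ w₀ w₂ : L, (spv x (F 0)).eval w₀ = 0 → (spv x (F 2)).eval w₂ = 0 → ∀ X ≤ X₁, ∃ Y : L, Y ^ 2 = 4 * (X : L) ^ 3 - 2 * w₀ * X - w₂

/-- the conclusion of `near_lift` -/
def NearL (θ : Fin 2 → ℂ) (ω : Fin 5 → ℂ) (F : Fin 5 → FP) (r₀ C : ℝ) : Prop :=
  ∀ x : Fin 2 → ℂ, ‖x - θ‖ ≤ r₀ → (∀ i, MvPolynomial.aeval x (F i).leadingCoeff ≠ 0) ∧
    ∃ ω' : Fin 5 → ℂ, (∀ i, (spv x (F i)).eval (ω' i) = 0) ∧ (∀ i, ‖ω' i - ω i‖ ≤ C * ‖x - θ‖) ∧ ω' 3 = ω 3 ∧ ω' 4 = ω 4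

/-- the conjugate point -/
def cj {L : IntermediateField ℚ ℂ} (g : L ≃ₐ[ℚ] L) (x : Fin 2 → L) (j : Fin 2) : ℂ := ((g (x j) : L) : ℂ)

end Pool.Agent.MSL
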