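import Mathlib

/-! # L/L1_Gauss: Gauss' lemma for a valuation -/

open Polynomial

noncomputable section

namespace Pool.Agent.MSL

/-- L1a. The maximum of the coefficients of `(X - r) p` is `max 1 |r|` times the maximum of the coefficients of `p`. PROOF (`p ≠ 0`). Let `m = max v(p_i) > 0`. If `v r ≤ 1` take the largest `k` with `v (p_k) = m`; the coefficient of `X^(k+1)` in `(X - r) p` is `p_k - r p_(k+1)` and `v (r p_(k+1)) < m`, so
its value is `m = max 1 (v r) m`. If `v r > 1` take the smallest `k` with `v (p_k) = m`; the coefficient of `X^k` is `p_(k-1) - r p_k`, `v p_(k-1) < m < v (r p_k)` so its value is `v r m`. (`Valuation.map_sub_eq_of_lt_left` or similar.) -/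
theorem gauss_step {K : Type*} [Field K] {Γ : Type*} [LinearOrderedCommGroupWithZero Γ] (v : Valuation K Γ) (p : Polynomial K) (m : Γ)
    (hm : ∀ i, v (p.coeff i) ≤ m) (k : ℕ) (hk : v (p.coeff k) = m) (r : K) : ∃ j, v (((X - C r) * p).coeff j) = max 1 (v r) * m ∧
      ∀ i, v (((X - C r) * p).coeff i) ≤ max 1 (v r) * m := by
  classical
  have hM1 : m ≤ max 1 (v r) * m := by
    calc m = 1 * m := (one_mul m).symm
      _ ≤ max 1 (v r) * m := mul_le_mul_left (le_max_left _ _) m
  have hM2 : v r * m ≤ max 1 (v r) * m := mul_le_mul_left (le_max_right _ _) m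
  have hr : ∀ i, v (r * p.coeff i) ≤ v r * m := by
    intro i
    rw [map_mul]
    exact mul_le_mul_right (hm i) (v r)
  have hc0 : ((X - C r) * p).coeff 0 = -(r * p.coeff 0) := by
    rw [sub_mul, coeff_sub, coeff_X_mul_zero, coeff_C_mul, zero_sub]
  have hcs : ∀ i, ((X - C r) * p).coeff (i + 1) = p.coeff i - r * p.coeff (i + 1) := by
    intro i
    rw [sub_mul, coeff_sub, coeff_X_mul, coeff_C_mul]
  have hall : ∀ i, v (((X - C r) * p).coeff i) ≤ max 1 (v r) * m := by
    intro i
    cases i with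
    | zero =>
      rw [hc0, Valuation.map_neg]
      exact (hr 0).trans hM2
    | succ i =>
      rw [hcs]
      refine (Valuation.map_sub v _ _).trans (max_le ?_ ?_)
      · exact (hm i).trans hM1
      · exact (hr (i + 1)).trans hM2
  suffices hex0 : ∃ j, v (((X - C r) * p).coeff j) = max 1 (v r) * m by
    obtain ⟨j, hj⟩ := hex0
    exact ⟨j, hj, hall⟩
  rcases eq_or_ne m 0 with hm0 | hm0
  · refine ⟨0, ?_⟩
    have h1 := hall 0
    rw [hm0, mul_zero] at h1 ⊢
    exact le_antisymm h1 zero_le
  have hmpos : 0 < m := zero_lt_iff.mpr hm0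
  rcases le_or_gt (v r) 1 with hr1 | hr1
  · -- the largest index
    rw [max_eq_left hr1, one_mul]
    have hne : (p.support.filter (fun i => v (p.coeff i) = m)).Nonempty := by
      refine ⟨k, ?_⟩
      rw [Finset.mem_filter, mem_support_iff]
      refine ⟨fun h0 => ?_, hk⟩
      rw [h0, map_zero] at hk
      exact hm0 hk.symm
    set k0 := (p.support.filter (fun i => v (p.coeff i) = m)).max' hne with hk0
    have hk0m := Finset.max'_mem _ hne
    rw [← hk0, Finset.mem_filter] at hk0m
    have hlt : v (p.coeff (k0 + 1)) < m := by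
      refine lt_of_le_of_ne (hm _) (fun heq => ?_)
      have h2 : k0 + 1 ∈ p.support.filter (fun i => v (p.coeff i) = m) := by
        rw [Finset.mem_filter, mem_support_iff]
        refine ⟨fun h0 => ?_, heq⟩
        rw [h0, map_zero] at heq
        exact hm0 heq.symm
      have h3 := Finset.le_max' _ _ h2
      rw [← hk0] at h3
      omega
    refine ⟨k0 + 1, ?_⟩
    rw [hcs]
    have h4 : v (r * p.coeff (k0 + 1)) < v (p.coeff k0) := by
      rw [hk0m.2, map_mul]
      calc v r * v (p.coeff (k0 + 1)) ≤ 1 * v (p.coeff (k0 + 1)) := mul_le_mul_left hr1 _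
        _ = v (p.coeff (k0 + 1)) := one_mul _
        _ < m := hlt
    rw [Valuation.map_sub_eq_of_lt_left v h4, hk0m.2]
  · -- the smallest index
    rw [max_eq_right hr1.le]
    have hex : ∃ i, v (p.coeff i) = m := ⟨k, hk⟩
    have hs := Nat.find_spec hex
    refine ⟨Nat.find hex, ?_⟩
    rcases Nat.eq_zero_or_pos (Nat.find hex) with h0 | h0
    · rw [h0] at hs ⊢
      rw [hc0, Valuation.map_neg, map_mul, hs]
    · obtain ⟨i, hi⟩ : ∃ i, Nat.find hex = i + 1 := ⟨Nat.find hex - 1, by omega⟩
      rw [hi] at hs ⊢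
      have hlt : v (p.coeff i) < m := by
        refine lt_of_le_of_ne (hm _) (fun heq => ?_)
        have := Nat.find_min' hex heq
        omega
      have hvr : v (r * p.coeff (i + 1)) = v r * m := by rw [map_mul, hs]
      have h4 : v (p.coeff i) < v (r * p.coeff (i + 1)) := by
        rw [hvr]
        calc v (p.coeff i) < m := hlt
          _ = 1 * m := (one_mul m).symm
          _ ≤ v r * m := mul_le_mul_left hr1.le m
      rw [hcs, Valuation.map_sub_eq_of_lt_right v h4, hvr]

/-- L1b. PROOF. Induction over the finite set: `C a * ∏ (X - C r)` has the maximal coefficient value `v a * ∏ max 1 (v r)` (L1a; `p = 0` if `a = 0`, trivial). -/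
theorem gauss_val {K : Type*} [Field K] {Γ : Type*} [LinearOrderedCommGroupWithZero Γ] (v : Valuation K Γ) (a : K) (R : Finset K)
    (h : ∀ i, v ((C a * ∏ r ∈ R, (X - C r)).coeff i) ≤ 1) : v a * ∏ r ∈ R, max 1 (v r) ≤ 1 := by
  classical
  have key : ∀ R : Finset K, (∃ k, v ((C a * ∏ r ∈ R, (X - C r)).coeff k) =
      v a * ∏ r ∈ R, max 1 (v r)) ∧
      ∀ i, v ((C a * ∏ r ∈ R, (X - C r)).coeff i) ≤ v a * ∏ r ∈ R, max 1 (v r) := by
    intro R
    induction R using Finset.induction_on with
    | empty =>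
      rw [Finset.prod_empty, Finset.prod_empty, mul_one, mul_one]
      refine ⟨⟨0, by rw [coeff_C_zero]⟩, fun i => ?_⟩
      rw [coeff_C]
      split_ifs
      · exact le_rfl
      · rw [map_zero]
        exact zero_le
    | insert r R hr ih =>
      obtain ⟨⟨k, hk⟩, hall⟩ := ih
      have h1 := gauss_step v (C a * ∏ r ∈ R, (X - C r)) (v a * ∏ r ∈ R, max 1 (v r)) hall k hk r
      have e1 : C a * ∏ r ∈ insert r R, (X - C r) = (X - C r) * (C a * ∏ r ∈ R, (X - C r)) := by
        rw [Finset.prod_insert hr]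
        ring
      have e2 : v a * ∏ r ∈ insert r R, max 1 (v r) =
          max 1 (v r) * (v a * ∏ r ∈ R, max 1 (v r)) := by
        rw [Finset.prod_insert hr, mul_left_comm]
      rw [e1, e2]
      obtain ⟨j, hj, hj2⟩ := h1
      exact ⟨⟨j, hj⟩, hj2⟩
  obtain ⟨⟨k, hk⟩, -⟩ := key R
  rw [← hk]
  exact h k

end Pool.Agent.MSL
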