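import Pool.Agent.Lib.MP_f58a57_nt.L.A9_Sel

/-! # L/L2_Gal: finite Galois extensions of `ℚ` in `ℂ` -/

open Polynomial

noncomputable section

namespace Pool.Agent.MSL

open MSD MSP

/-- L2a. PROOF. `ℚ(S)` (`IntermediateField.adjoin ℚ S`) is finite over `ℚ` (`IntermediateField.finiteDimensional_adjoin`, integral elements); take its normal closure in `ℂ` (`normalClosure ℚ (adjoin ℚ S) ℂ`, finite dimensional and normal as `ℂ` is algebraically closed; separable since the
characteristic is `0`; transport to an intermediate field of `ℂ/ℚ` by `restrictScalars`, if necessary), or `adjoin ℚ` of the root set in `ℂ` of the product of the minimal polynomials (`IntermediateField.isSplittingField_iff`, `IsGalois.of_separable_splitting_field`). -/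
theorem exists_L (S : Finset ℂ) (hS : ∀ x ∈ S, IsAlgebraic ℚ x) :
    ∃ L : IntermediateField ℚ ℂ, FiniteDimensional ℚ L ∧ IsGalois ℚ L ∧ ∀ x ∈ S, x ∈ L := by
  classical
  obtain ⟨p, hp⟩ : ∃ p : Polynomial ℚ, p = ∏ x ∈ S, minpoly ℚ x := ⟨_, rfl⟩
  have hp0 : p ≠ 0 := by
    rw [hp]
    exact Finset.prod_ne_zero_iff.2 fun x hx => minpoly.ne_zero (hS x hx).isIntegral
  have hsp : (p.map (algebraMap ℚ ℂ)).Splits := IsAlgClosed.splits _
  have hI : p.IsSplittingField ℚ (IntermediateField.adjoin ℚ (p.rootSet ℂ)) :=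
    IntermediateField.adjoin_rootSet_isSplittingField hsp
  refine ⟨IntermediateField.adjoin ℚ (p.rootSet ℂ), ?_, ?_, ?_⟩
  · exact Polynomial.IsSplittingField.finiteDimensional _ p
  · have h1 : FiniteDimensional ℚ (IntermediateField.adjoin ℚ (p.rootSet ℂ)) :=
      Polynomial.IsSplittingField.finiteDimensional _ p
    have h2 : Normal ℚ (IntermediateField.adjoin ℚ (p.rootSet ℂ)) := Normal.of_isSplittingField p
    exact { }
  · intro x hx
    refine IntermediateField.subset_adjoin _ _ ?_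
    rw [Polynomial.mem_rootSet]
    refine ⟨hp0, ?_⟩
    rw [hp, map_prod]
    exact Finset.prod_eq_zero hx (minpoly.aeval ℚ x)

variable (L : IntermediateField ℚ ℂ) [FiniteDimensional ℚ L] [IsGalois ℚ L]

/-- L2b. PROOF. `f = mz α` (`mz_spec`; every element of `L` is algebraic) is irreducible over `ℚ` with the root `α ∈ L`, `L` is normal: `f` splits over `L` with different roots (separable): `R` = set of the roots in `L`, `card R = natDegree f`. `G` acts transitively on `R`
(`minpoly`, `IsGalois`/`Normal`: `exists_algHom_of_root..`, `IsConjRoot`, e.g. `isConjRoot_iff_exists_algEquiv`), so all fibres of `g ↦ g α` have the same number `s` of elements (translation by a group element), `card G = s card R`, and `∏ g, F (g α) = ∏ r ∈ R, F r ^ s` (`Finset.prod_fiberwise..`,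
`Finset.prod_comp`). -/
theorem prod_gal (α : L) : ∃ (R : Finset L) (s : ℕ), 1 ≤ s ∧ R.card = (mz (α : ℂ)).natDegree ∧ s * R.card = Fintype.card (L ≃ₐ[ℚ] L) ∧
    (mz (α : ℂ)).map (algebraMap ℤ L) = C ((mz (α : ℂ)).leadingCoeff : L) * ∏ r ∈ R, (X - C r) ∧
    (∀ g : L ≃ₐ[ℚ] L, g α ∈ R) ∧
    ∀ (M : Type) [CommMonoid M] (F : L → M), ∏ g : L ≃ₐ[ℚ] L, F (g α) = (∏ r ∈ R, F r) ^ s := by
  classical
  have hαi : IsIntegral ℚ α := IsIntegral.of_finite ℚ α
  have hαa : IsAlgebraic ℚ (α : ℂ) := by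
    have : IsAlgebraic ℚ α := hαi.isAlgebraic
    exact this.algebraMap
  obtain ⟨hirr, hdeg, hroot⟩ := mz_spec (α : ℂ) hαa
  have hprim : (mz (α : ℂ)).IsPrimitive := hirr.isPrimitive (by omega)
  have hirrQ : Irreducible ((mz (α : ℂ)).map (algebraMap ℤ ℚ)) :=
    (IsPrimitive.Int.irreducible_iff_irreducible_map_cast hprim).1 hirr
  have hrootQ : aeval α ((mz (α : ℂ)).map (algebraMap ℤ ℚ)) = 0 := by
    have h1 : (algebraMap L ℂ) (aeval α ((mz (α : ℂ)).map (algebraMap ℤ ℚ))) = 0 := by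
      rw [Polynomial.aeval_map_algebraMap, ← Polynomial.aeval_algebraMap_apply]
      exact hroot
    exact (map_eq_zero (algebraMap L ℂ)).1 h1
  have hmin : (mz (α : ℂ)).map (algebraMap ℤ ℚ) =
      minpoly ℚ α * C ((mz (α : ℂ)).map (algebraMap ℤ ℚ)).leadingCoeff := by
    have h1 := minpoly.eq_of_irreducible hirrQ hrootQ
    have h0 : ((mz (α : ℂ)).map (algebraMap ℤ ℚ)).leadingCoeff ≠ 0 :=
      leadingCoeff_ne_zero.2 hirrQ.ne_zero
    rw [← h1, mul_assoc, ← C_mul, inv_mul_cancel₀ h0, C_1, mul_one]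
  have hlc : ((mz (α : ℂ)).map (algebraMap ℤ ℚ)).leadingCoeff = algebraMap ℤ ℚ (mz (α : ℂ)).leadingCoeff :=
    leadingCoeff_map_of_injective (RingHom.injective_int (algebraMap ℤ ℚ)) _
  have hnd : (minpoly ℚ α).natDegree = (mz (α : ℂ)).natDegree := by
    have h1 : ((mz (α : ℂ)).map (algebraMap ℤ ℚ)).natDegree = (mz (α : ℂ)).natDegree :=
      natDegree_map_eq_of_injective (RingHom.injective_int (algebraMap ℤ ℚ)) _
    rw [← h1]
    conv_rhs => rw [hmin]
    rw [natDegree_mul_C]
    exact leadingCoeff_ne_zero.2 hirrQ.ne_zero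
  have hsplit : ((minpoly ℚ α).map (algebraMap ℚ L)).Splits := IsGalois.splits ℚ α
  have hsep : (minpoly ℚ α).Separable := IsGalois.separable ℚ α
  have hnodup : ((minpoly ℚ α).map (algebraMap ℚ L)).roots.Nodup :=
    nodup_roots (hsep.map)
  have hmon : ((minpoly ℚ α).map (algebraMap ℚ L)).Monic := (minpoly.monic hαi).map _
  have hprod : (minpoly ℚ α).map (algebraMap ℚ L) =
      ∏ r ∈ ((minpoly ℚ α).map (algebraMap ℚ L)).roots.toFinset, (X - C r) := by
    conv_lhs => rw [hsplit.eq_prod_roots_of_monic hmon]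
    rw [Finset.prod_multiset_map_count]
    refine Finset.prod_congr rfl fun r hr => ?_
    rw [Multiset.count_eq_one_of_mem hnodup (Multiset.mem_toFinset.1 hr), pow_one]
  have hmem : ∀ r : L, r ∈ ((minpoly ℚ α).map (algebraMap ℚ L)).roots.toFinset ↔ ∃ g : L ≃ₐ[ℚ] L, g α = r := by
    intro r
    rw [Multiset.mem_toFinset, mem_roots hmon.ne_zero, IsRoot.def, eval_map_algebraMap]
    have h1 : (∃ g : L ≃ₐ[ℚ] L, g α = r) ↔ IsConjRoot ℚ r α :=
      isConjRoot_iff_exists_algEquiv.symm
    rw [h1]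
    constructor
    · intro h
      have h2 : minpoly ℚ α = minpoly ℚ r := minpoly.eq_of_irreducible_of_monic (minpoly.irreducible hαi) h (minpoly.monic hαi)
      exact h2.symm
    · intro h
      have h2 : minpoly ℚ r = minpoly ℚ α := h
      rw [← h2]
      exact minpoly.aeval ℚ r
  have himg : (Finset.univ : Finset (L ≃ₐ[ℚ] L)).image (fun g => g α) =
      ((minpoly ℚ α).map (algebraMap ℚ L)).roots.toFinset := by
    ext r
    rw [hmem r, Finset.mem_image]
    simp
  have hfib : ∀ r ∈ ((minpoly ℚ α).map (algebraMap ℚ L)).roots.toFinset,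
      (Finset.univ.filter fun g : L ≃ₐ[ℚ] L => g α = r).card = (Finset.univ.filter fun g : L ≃ₐ[ℚ] L => g α = α).card := by
    intro r hr
    obtain ⟨h, hh⟩ := (hmem r).1 hr
    symm
    refine Finset.card_bij (fun g _ => h * g) ?_ ?_ ?_
    · intro g hg
      rw [Finset.mem_filter] at hg ⊢
      refine ⟨Finset.mem_univ _, ?_⟩
      rw [AlgEquiv.mul_apply, hg.2, hh]
    · intro g _ g' _ hgg
      exact mul_left_cancel hgg
    · intro g hg
      rw [Finset.mem_filter] at hg
      refine ⟨h⁻¹ * g, ?_, by group⟩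
      rw [Finset.mem_filter]
      refine ⟨Finset.mem_univ _, ?_⟩
      rw [AlgEquiv.mul_apply, hg.2, ← hh]
      exact AlgEquiv.symm_apply_apply h α
  have hpc : ∀ (M : Type) [CommMonoid M] (F : L → M), ∏ g : L ≃ₐ[ℚ] L, F (g α) =
      (∏ r ∈ ((minpoly ℚ α).map (algebraMap ℚ L)).roots.toFinset, F r) ^
        (Finset.univ.filter fun g : L ≃ₐ[ℚ] L => g α = α).card := by
    intro M _ F
    rw [Finset.prod_comp F (fun g : L ≃ₐ[ℚ] L => g α), himg, ← Finset.prod_pow]
    exact Finset.prod_congr rfl fun r hr => by rw [hfib r hr]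
  refine ⟨((minpoly ℚ α).map (algebraMap ℚ L)).roots.toFinset,
    (Finset.univ.filter fun g : L ≃ₐ[ℚ] L => g α = α).card, ?_, ?_, ?_, ?_, ?_, hpc⟩
  · exact Finset.card_pos.2 ⟨1, by simp⟩
  · rw [Multiset.toFinset_card_of_nodup hnodup, ← hsplit.natDegree_eq_card_roots, natDegree_map, hnd]
  · have h1 := Finset.card_eq_sum_card_image (fun g : L ≃ₐ[ℚ] L => g α) Finset.univ
    rw [himg] at h1
    rw [← Finset.card_univ, h1, Finset.sum_congr rfl hfib, Finset.sum_const, smul_eq_mul, mul_comm]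
  · rw [← hprod]
    have h1 : (mz (α : ℂ)).map (algebraMap ℤ L) = ((mz (α : ℂ)).map (algebraMap ℤ ℚ)).map (algebraMap ℚ L) := by
      rw [Polynomial.map_map]
      congr 1
    rw [h1, hmin, Polynomial.map_mul, Polynomial.map_C, mul_comm, hlc]
    congr 2
  · intro g
    exact (hmem _).2 ⟨g, rfl⟩

/-- L2c. PROOF. `x` is in the fixed field, so `x = algebraMap ℚ L y` (`IsGalois.mem_bot_iff_fixed`). For every height one prime of `𝓞 L` the valuation of `x` is `≤ 1` (its valuation `HeightOneSpectrum.valuation L` has values in `WithZero (Multiplicative ℤ)`), so `x ∈ 𝓞 L`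
(`IsDedekindDomain.HeightOneSpectrum.mem_integers_of_valuation_le_one`; instance `NumberField L` from `CharZero` and `FiniteDimensional`), so `y` is integral over `ℤ`, so an integer (`IsIntegrallyClosed` of `ℤ`, `IsInteger`). -/
theorem gal_int (x : L) (hx : ∀ g : L ≃ₐ[ℚ] L, g x = x) (hv : ∀ v : Valuation L VG, v x ≤ 1) : ∃ m : ℤ, x = m := by
  have hN : NumberField L := { }
  have hbot : x ∈ (⊥ : IntermediateField ℚ L) := (IsGalois.mem_bot_iff_fixed x).2 hx
  obtain ⟨y, hy⟩ := IntermediateField.mem_bot.1 hbot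
  have hint : x ∈ (algebraMap (NumberField.RingOfIntegers L) L).range :=
    IsDedekindDomain.HeightOneSpectrum.mem_integers_of_valuation_le_one L x fun v => hv (v.valuation L)
  obtain ⟨z, hz⟩ := hint
  have hxi : IsIntegral ℤ x := by
    rw [← hz]
    exact z.2
  have hyi : IsIntegral ℤ y := by
    rw [← hy] at hxi
    exact (isIntegral_algebraMap_iff (algebraMap ℚ L).injective).1 hxi
  obtain ⟨m, hm⟩ := IsIntegrallyClosed.isIntegral_iff.1 hyi
  refine ⟨m, ?_⟩
  rw [← hy, ← hm]
  simp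

end Pool.Agent.MSL
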