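import Pool.Agent.Lib.MP_f58a57_nt.L.L1_Gauss
import Pool.Agent.Lib.MP_f58a57_nt.L.L2_Gal

/-! # L/L3_Liou: Liouville's inequality -/

open Polynomial

noncomputable section

namespace Pool.Agent.MSL

open MSD MSP

variable (L : IntermediateField ℚ ℂ) [FiniteDimensional ℚ L] [IsGalois ℚ L]

/-- L3a. PROOF. `v 1 = 1`, `v (a + b) ≤ max`, induction on natural numbers, `v (-a) = v a`. -/
theorem val_int (v : Valuation L VG) (n : ℤ) : v (n : L) ≤ 1 := by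
  have hnat : ∀ m : ℕ, v (m : L) ≤ 1 := by
    intro m
    induction m with
    | zero => rw [Nat.cast_zero, map_zero]; exact zero_le_one
    | succ m ih =>
      rw [Nat.cast_succ]
      refine (v.map_add _ _).trans (max_le ih ?_)
      rw [map_one]
  obtain ⟨m, rfl | rfl⟩ := n.eq_nat_or_neg
  · rw [Int.cast_natCast]; exact hnat m
  · rw [Int.cast_neg, Valuation.map_neg, Int.cast_natCast]; exact hnat m

theorem l3_MM (α : L) (R : Finset L)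
    (h : (mz (α : ℂ)).map (algebraMap ℤ L) = C ((mz (α : ℂ)).leadingCoeff : L) * ∏ r ∈ R, (X - C r)) :
    MM (mz (α : ℂ)) = |((mz (α : ℂ)).leadingCoeff : ℝ)| * ∏ r ∈ R, max 1 ‖(r : ℂ)‖ := by
  have h1 : (mz (α : ℂ)).map (Int.castRingHom ℂ) =
      C ((mz (α : ℂ)).leadingCoeff : ℂ) * ∏ r ∈ R, (X - C (r : ℂ)) := by
    have e1 : (mz (α : ℂ)).map (Int.castRingHom ℂ) = ((mz (α : ℂ)).map (algebraMap ℤ L)).map (algebraMap L ℂ) := by
      rw [Polynomial.map_map]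
      congr 1
    rw [e1, h, Polynomial.map_mul, Polynomial.map_C, Polynomial.map_prod, map_intCast]
    congr 1
    refine Finset.prod_congr rfl fun r _ => ?_
    rw [Polynomial.map_sub, Polynomial.map_X, Polynomial.map_C]
    rfl
  unfold MM
  rw [h1, Polynomial.mahlerMeasure_mul, Polynomial.mahlerMeasure_const, Complex.norm_intCast]
  congr 1
  clear h h1
  classical
  induction R using Finset.induction_on with
  | empty => simp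
  | insert a s ha ih =>
    rw [Finset.prod_insert ha, Finset.prod_insert ha, Polynomial.mahlerMeasure_mul, ih, Polynomial.mahlerMeasure_X_sub_C]

theorem l3_alg (α : L) : IsAlgebraic ℚ (α : ℂ) := by
  have h1 : IsAlgebraic ℚ α := Algebra.IsAlgebraic.isAlgebraic α
  exact h1.algebraMap

theorem l3_lc (α : L) : (mz (α : ℂ)).leadingCoeff ≠ 0 := by
  have := (mz_spec (α : ℂ) (l3_alg L α)).1.ne_zero
  exact Polynomial.leadingCoeff_ne_zero.2 this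

theorem l3_eq (α : L) (R : Finset L) (s : ℕ) (hR : R.card = (mz (α : ℂ)).natDegree)
    (hs : s * R.card = Fintype.card (L ≃ₐ[ℚ] L))
    (h : (mz (α : ℂ)).map (algebraMap ℤ L) = C ((mz (α : ℂ)).leadingCoeff : L) * ∏ r ∈ R, (X - C r))
    (hF : ∀ (M : Type) [CommMonoid M] (F : L → M), ∏ g : L ≃ₐ[ℚ] L, F (g α) = (∏ r ∈ R, F r) ^ s) :
    ∑ g : L ≃ₐ[ℚ] L, Real.log (max 1 ‖((g α : L) : ℂ)‖) + s * Real.log |((mz (α : ℂ)).leadingCoeff : ℝ)| =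
      Fintype.card (L ≃ₐ[ℚ] L) * hgt (α : ℂ) := by
  have hpos : ∀ r : L, (0 : ℝ) < max 1 ‖(r : ℂ)‖ := fun r => lt_of_lt_of_le one_pos (le_max_left _ _)
  have hlc : (0 : ℝ) < |((mz (α : ℂ)).leadingCoeff : ℝ)| := by
    have := l3_lc L α
    positivity
  have h1 : ∑ g : L ≃ₐ[ℚ] L, Real.log (max 1 ‖((g α : L) : ℂ)‖) =
      s * Real.log (∏ r ∈ R, max 1 ‖(r : ℂ)‖) := by
    rw [← Real.log_prod (fun g _ => (hpos _).ne'), ← Real.log_pow]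
    congr 1
    exact hF ℝ (fun r : L => max 1 ‖(r : ℂ)‖)
  have h2 : Real.log (MM (mz (α : ℂ))) = Real.log |((mz (α : ℂ)).leadingCoeff : ℝ)| +
      Real.log (∏ r ∈ R, max 1 ‖(r : ℂ)‖) := by
    rw [l3_MM L α R h, Real.log_mul hlc.ne' (Finset.prod_pos fun r _ => hpos r).ne']
  have h3 : ((mz (α : ℂ)).natDegree : ℝ) ≠ 0 := by
    have := (mz_spec (α : ℂ) (l3_alg L α)).2.1
    positivity
  have h4 : (Fintype.card (L ≃ₐ[ℚ] L) : ℝ) = s * (mz (α : ℂ)).natDegree := by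
    rw [← hs, hR]; push_cast; ring
  unfold hgt
  rw [h1, h4, h2]
  field_simp
  ring

/-- L3b. PROOF. `prod_gal` for `α` and `F x = max 1 ‖x‖` (into `ℝ`): `∏_g max 1 ‖g α‖ = (∏_R max 1 ‖r‖)^s`, and `MM (mz α) = |lc| ∏_R max 1 ‖r‖ ≥ ∏_R max 1 ‖r‖` (`mahlerMeasure_eq_leadingCoeff_mul_prod_roots`; the complex roots of `mz α` are the images of `R`). So
`∑_g log max 1 ‖g α‖ ≤ s log MM = card G · hgt α` (`s natDegree = card G`). -/
theorem sum_log_max (α : L) : ∑ g : L ≃ₐ[ℚ] L, Real.log (max 1 ‖((g α : L) : ℂ)‖) ≤ Fintype.card (L ≃ₐ[ℚ] L) * hgt (α : ℂ) := by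
  obtain ⟨R, s, _, hR, hsR, hm, _, hF⟩ := prod_gal L α
  rw [← l3_eq L α R s hR hsR hm hF]
  have h1 : 0 ≤ Real.log |((mz (α : ℂ)).leadingCoeff : ℝ)| := by
    refine Real.log_nonneg ?_
    have : 1 ≤ |(mz (α : ℂ)).leadingCoeff| := Int.one_le_abs (l3_lc L α)
    exact_mod_cast this
  have : 0 ≤ (s : ℝ) * Real.log |((mz (α : ℂ)).leadingCoeff : ℝ)| := by positivity
  linarith

theorem l3_val (v : Valuation L VG) (α : L) (R : Finset L) (s : ℕ)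
    (h : (mz (α : ℂ)).map (algebraMap ℤ L) = C ((mz (α : ℂ)).leadingCoeff : L) * ∏ r ∈ R, (X - C r))
    (hF : ∀ (M : Type) [CommMonoid M] (F : L → M), ∏ g : L ≃ₐ[ℚ] L, F (g α) = (∏ r ∈ R, F r) ^ s) :
    v ((mz (α : ℂ)).leadingCoeff : L) ^ s * ∏ g : L ≃ₐ[ℚ] L, max 1 (v (g α)) ≤ 1 := by
  have h1 : ∏ g : L ≃ₐ[ℚ] L, max 1 (v (g α)) = (∏ r ∈ R, max 1 (v r)) ^ s :=
    hF VG (fun r : L => max 1 (v r))
  rw [h1, ← mul_pow]
  refine pow_le_one' ?_ s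
  refine gauss_val v _ R fun i => ?_
  rw [← h, Polynomial.coeff_map]
  have : algebraMap ℤ L ((mz (α : ℂ)).coeff i) = (((mz (α : ℂ)).coeff i : ℤ) : L) := by simp
  rw [this]
  exact val_int L v _

/-- L3c. PROOF. `f₀ = mz α`, `f₁ = mz β` with leading coefficients `a₀, a₁`, `R₀, s₀`, `R₁, s₁` from `prod_gal`, `G = card`. `x = (q^D)^G (a₀^s₀ a₁^s₁)^D ∏_g g γ ∈ L` is fixed by the Galois group. For a valuation `v` and an automorphism `g` the hypothesis for the valuation `v ∘ g` (`Valuation.comap`)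
says `v (q^D g γ) ≤ (max 1 (v (g α)) max 1 (v (g β)))^D`; so `v x ≤ (v a₀^s₀ ∏_g max 1 (v (g α)))^D (..)^D ≤ 1` as `∏_g max 1 (v (g α)) = (∏_(R₀) max 1 (v r))^s₀` (`prod_gal`, `M = VG`) and `v a₀ ∏_(R₀) max 1 (v r) ≤ 1` (`gauss_val`, the coefficients are integers: `val_int`). By `gal_int` `x` is an integer,
not `0`, so `0 ≤ log ‖x‖ = ∑_g log ‖g γ‖ + D (G log |q| + s₀ log |a₀| + s₁ log |a₁|)`. For `g ∉ N`: `log ‖g γ‖ ≤ log H + D (log max 1 ‖g α‖ + log max 1 ‖g β‖)` (`g γ ≠ 0`). Sum; the bound is increased if we sum over all `g`; `∑_g log max 1 ‖g α‖ + s₀ log |a₀| = s₀ log MM f₀ = G hgt α`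
(as in L3b: equality `MM f₀ = |a₀| ∏_(R₀) max 1 ‖r‖`). -/
theorem liou (α β γ : L) (q : ℤ) (hq : q ≠ 0) (D : ℕ) (H : ℝ) (hH : 1 ≤ H) (hγ : γ ≠ 0)
    (hv : ∀ v : Valuation L VG, v ((q : L) ^ D * γ) ≤ (max 1 (v α) * max 1 (v β)) ^ D)
    (ha : ∀ g : L ≃ₐ[ℚ] L, ‖((g γ : L) : ℂ)‖ ≤ H * (max 1 ‖((g α : L) : ℂ)‖ * max 1 ‖((g β : L) : ℂ)‖) ^ D) (N : Finset (L ≃ₐ[ℚ] L)) :
    -((Fintype.card (L ≃ₐ[ℚ] L) : ℝ) * (Real.log H + D * (Real.log |(q : ℝ)| + hgt (α : ℂ) + hgt (β : ℂ)))) ≤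
      ∑ g ∈ N, Real.log ‖((g γ : L) : ℂ)‖ := by
  classical
  obtain ⟨R₀, s₀, _, hR0, hsR0, hm0, _, hF0⟩ := prod_gal L α
  obtain ⟨R₁, s₁, _, hR1, hsR1, hm1, _, hF1⟩ := prod_gal L β
  set a₀ : ℤ := (mz (α : ℂ)).leadingCoeff with ha0
  set a₁ : ℤ := (mz (β : ℂ)).leadingCoeff with ha1
  have ha0n : a₀ ≠ 0 := l3_lc L α
  have ha1n : a₁ ≠ 0 := l3_lc L β
  set G : ℕ := Fintype.card (L ≃ₐ[ℚ] L) with hG
  set x : L := ((q : L) ^ D) ^ G * ((a₀ : L) ^ s₀ * (a₁ : L) ^ s₁) ^ D * ∏ g : L ≃ₐ[ℚ] L, g γ with hx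
  have hqL : (q : L) ≠ 0 := Int.cast_ne_zero.2 hq
  have hγg : ∀ g : L ≃ₐ[ℚ] L, g γ ≠ 0 := fun g => by simpa using hγ
  have hfix : ∀ g : L ≃ₐ[ℚ] L, g x = x := by
    intro g
    rw [hx, map_mul, map_mul, map_pow, map_pow, map_pow, map_mul, map_pow, map_pow, map_intCast, map_intCast, map_intCast,
      map_prod]
    congr 1
    exact Fintype.prod_equiv (Equiv.mulLeft g) _ _ fun k => rfl
  have hval : ∀ v : Valuation L VG, v x ≤ 1 := by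
    intro v
    have h1 : ∀ g : L ≃ₐ[ℚ] L, v ((q : L) ^ D * g γ) ≤ (max 1 (v (g α)) * max 1 (v (g β))) ^ D := by
      intro g
      have := hv (v.comap (g : L →+* L))
      simpa only [Valuation.comap_apply, map_mul, map_pow, RingHom.coe_coe, map_intCast] using this
    have h2 : ∏ g : L ≃ₐ[ℚ] L, v ((q : L) ^ D * g γ) ≤
        ((∏ g : L ≃ₐ[ℚ] L, max 1 (v (g α))) * (∏ g : L ≃ₐ[ℚ] L, max 1 (v (g β)))) ^ D := by
      refine (Finset.prod_le_prod' fun g _ => h1 g).trans ?_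
      rw [Finset.prod_pow, Finset.prod_mul_distrib]
    have h3 : v x = (v (a₀ : L) ^ s₀ * v (a₁ : L) ^ s₁) ^ D * ∏ g : L ≃ₐ[ℚ] L, v ((q : L) ^ D * g γ) := by
      rw [hx]
      simp only [map_mul, map_pow, map_prod]
      rw [Finset.prod_mul_distrib, Finset.prod_const, Finset.card_univ, ← hG, mul_assoc, mul_left_comm]
    rw [h3]
    have h4 := l3_val L v α R₀ s₀ hm0 hF0
    have h5 := l3_val L v β R₁ s₁ hm1 hF1
    calc (v (a₀ : L) ^ s₀ * v (a₁ : L) ^ s₁) ^ D * ∏ g : L ≃ₐ[ℚ] L, v ((q : L) ^ D * g γ)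
        ≤ (v (a₀ : L) ^ s₀ * v (a₁ : L) ^ s₁) ^ D *
          ((∏ g : L ≃ₐ[ℚ] L, max 1 (v (g α))) * (∏ g : L ≃ₐ[ℚ] L, max 1 (v (g β)))) ^ D :=
          mul_le_mul_right h2 _
      _ = ((v (a₀ : L) ^ s₀ * ∏ g : L ≃ₐ[ℚ] L, max 1 (v (g α))) *
          (v (a₁ : L) ^ s₁ * ∏ g : L ≃ₐ[ℚ] L, max 1 (v (g β)))) ^ D := by
          rw [← mul_pow]
          congr 1
          exact mul_mul_mul_comm _ _ _ _
      _ ≤ 1 := pow_le_one' (mul_le_one' h4 h5) D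
  obtain ⟨m, hm⟩ := gal_int L x hfix hval
  have hx0 : x ≠ 0 := by
    rw [hx]
    have e1 : (a₀ : L) ≠ 0 := Int.cast_ne_zero.2 ha0n
    have e2 : (a₁ : L) ≠ 0 := Int.cast_ne_zero.2 ha1n
    have e3 : ∏ g : L ≃ₐ[ℚ] L, g γ ≠ 0 := Finset.prod_ne_zero_iff.2 fun g _ => hγg g
    exact mul_ne_zero (mul_ne_zero (pow_ne_zero _ (pow_ne_zero _ hqL))
      (pow_ne_zero _ (mul_ne_zero (pow_ne_zero _ e1) (pow_ne_zero _ e2)))) e3
  have hm0' : m ≠ 0 := by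
    rintro rfl
    exact hx0 (by rw [hm, Int.cast_zero])
  have hpos : ∀ r : L, (0 : ℝ) < max 1 ‖(r : ℂ)‖ := fun r => lt_of_lt_of_le one_pos (le_max_left _ _)
  have hlog : 0 ≤ Real.log ‖(x : ℂ)‖ := by
    refine Real.log_nonneg ?_
    have e1 : (x : ℂ) = (m : ℂ) := by rw [hm]; simp
    rw [e1, Complex.norm_intCast]
    have : 1 ≤ |m| := Int.one_le_abs hm0'
    exact_mod_cast this
  have hsplit : Real.log ‖(x : ℂ)‖ = ∑ g : L ≃ₐ[ℚ] L, Real.log ‖((g γ : L) : ℂ)‖ +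
      D * (G * Real.log |(q : ℝ)| + s₀ * Real.log |(a₀ : ℝ)| + s₁ * Real.log |(a₁ : ℝ)|) := by
    have e1 : ‖(x : ℂ)‖ = (|(q : ℝ)| ^ D) ^ G * (|(a₀ : ℝ)| ^ s₀ * |(a₁ : ℝ)| ^ s₁) ^ D *
        ∏ g : L ≃ₐ[ℚ] L, ‖((g γ : L) : ℂ)‖ := by
      have e2 : (x : ℂ) = ((q : ℂ) ^ D) ^ G * ((a₀ : ℂ) ^ s₀ * (a₁ : ℂ) ^ s₁) ^ D *
          ∏ g : L ≃ₐ[ℚ] L, ((g γ : L) : ℂ) := by
        rw [hx]
        push_cast
        rfl
      rw [e2]
      simp only [norm_mul, norm_pow, Complex.norm_intCast, norm_prod]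
    have p1 : (0 : ℝ) < |(q : ℝ)| := abs_pos.2 (Int.cast_ne_zero.2 hq)
    have p2 : (0 : ℝ) < |(a₀ : ℝ)| := abs_pos.2 (Int.cast_ne_zero.2 ha0n)
    have p3 : (0 : ℝ) < |(a₁ : ℝ)| := abs_pos.2 (Int.cast_ne_zero.2 ha1n)
    have p4 : ∀ g : L ≃ₐ[ℚ] L, ‖((g γ : L) : ℂ)‖ ≠ 0 := by
      intro g
      rw [norm_ne_zero_iff]
      intro h
      exact hγg g (Subtype.ext h)
    rw [e1, Real.log_mul (by positivity) (Finset.prod_ne_zero_iff.2 fun g _ => p4 g), Real.log_mul (by positivity) (by positivity),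
      Real.log_pow, Real.log_pow, Real.log_pow, Real.log_mul (by positivity) (by positivity), Real.log_pow, Real.log_pow,
      Real.log_prod (fun g _ => p4 g)]
    ring
  have hup : ∀ g : L ≃ₐ[ℚ] L, Real.log ‖((g γ : L) : ℂ)‖ ≤
      Real.log H + D * (Real.log (max 1 ‖((g α : L) : ℂ)‖) + Real.log (max 1 ‖((g β : L) : ℂ)‖)) := by
    intro g
    have p4 : 0 < ‖((g γ : L) : ℂ)‖ := by
      rw [norm_pos_iff]
      intro h
      exact hγg g (Subtype.ext h)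
    have p5 : (0 : ℝ) < H := by linarith
    refine (Real.log_le_log p4 (ha g)).trans (le_of_eq ?_)
    have p6 := hpos (g α)
    have p7 := hpos (g β)
    rw [Real.log_mul p5.ne' (pow_pos (mul_pos p6 p7) D).ne', Real.log_pow, Real.log_mul p6.ne' p7.ne']
  have hup0 : ∀ g : L ≃ₐ[ℚ] L, 0 ≤
      Real.log H + D * (Real.log (max 1 ‖((g α : L) : ℂ)‖) + Real.log (max 1 ‖((g β : L) : ℂ)‖)) := by
    intro g
    have e1 := Real.log_nonneg hH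
    have e2 : 0 ≤ Real.log (max 1 ‖((g α : L) : ℂ)‖) := Real.log_nonneg (le_max_left _ _)
    have e3 : 0 ≤ Real.log (max 1 ‖((g β : L) : ℂ)‖) := Real.log_nonneg (le_max_left _ _)
    positivity
  have hcompl : ∑ g ∈ Nᶜ, Real.log ‖((g γ : L) : ℂ)‖ ≤
      ∑ g : L ≃ₐ[ℚ] L, (Real.log H + D * (Real.log (max 1 ‖((g α : L) : ℂ)‖) + Real.log (max 1 ‖((g β : L) : ℂ)‖))) :=
    (Finset.sum_le_sum fun g _ => hup g).trans
      (Finset.sum_le_sum_of_subset_of_nonneg (Finset.subset_univ _) fun g _ _ => hup0 g)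
  have hsum := Finset.sum_add_sum_compl N (fun g => Real.log ‖((g γ : L) : ℂ)‖)
  have hα := l3_eq L α R₀ s₀ hR0 hsR0 hm0 hF0
  have hβ := l3_eq L β R₁ s₁ hR1 hsR1 hm1 hF1
  rw [← ha0, ← hG] at hα
  rw [← ha1, ← hG] at hβ
  have htot : ∑ g : L ≃ₐ[ℚ] L, (Real.log H + D * (Real.log (max 1 ‖((g α : L) : ℂ)‖) + Real.log (max 1 ‖((g β : L) : ℂ)‖))) =
      G * Real.log H + D * (∑ g : L ≃ₐ[ℚ] L, Real.log (max 1 ‖((g α : L) : ℂ)‖) +
        ∑ g : L ≃ₐ[ℚ] L, Real.log (max 1 ‖((g β : L) : ℂ)‖)) := by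
    rw [Finset.sum_add_distrib, Finset.sum_const, Finset.card_univ, ← hG, nsmul_eq_mul, ← Finset.mul_sum, Finset.sum_add_distrib]
  rw [htot] at hcompl
  have hD : (D : ℝ) * (G * hgt (α : ℂ)) = D * (∑ g : L ≃ₐ[ℚ] L, Real.log (max 1 ‖((g α : L) : ℂ)‖) + s₀ * Real.log |(a₀ : ℝ)|) := by
    rw [hα]
  have hD' : (D : ℝ) * (G * hgt (β : ℂ)) = D * (∑ g : L ≃ₐ[ℚ] L, Real.log (max 1 ‖((g β : L) : ℂ)‖) + s₁ * Real.log |(a₁ : ℝ)|) := by
    rw [hβ]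
  nlinarith [hlog, hsplit, hcompl, hsum, hD, hD']

end Pool.Agent.MSL
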