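import Pool.Agent.Lib.MP_f58a57_nt.L.L3_Liou

/-! # L/L4_Val: valuations of polynomial values, roots and determinants -/

open Polynomial

noncomputable section

namespace Pool.Agent.MSL

open MSD MSP

variable (L : IntermediateField ℚ ℂ) [FiniteDimensional ℚ L] [IsGalois ℚ L]

/-- L4a. PROOF. Every monomial `a ∏ x_i^(e_i)`, `|e| = d ≤ m`, times `A^m` is `a A^(m-d) ∏ (A x_i)^(e_i)`, of value `≤ c^(m-d) c^d` (`val_int`); `Valuation.map_sum_le`. -/
theorem val_mv {σ : Type*} (v : Valuation L VG) (p : MvPolynomial σ ℤ) (m : ℕ) (hm : p.totalDegree ≤ m) (x : σ → L) (A : L) (c : VG)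
    (hA : v A ≤ c) (hx : ∀ i, v (A * x i) ≤ c) : v (A ^ m * MvPolynomial.aeval x p) ≤ c ^ m := by
  rw [MvPolynomial.aeval_def, MvPolynomial.eval₂_eq, Finset.mul_sum]
  apply Valuation.map_sum_le
  intro d hd
  have hdm : ∑ i ∈ d.support, d i ≤ m := le_trans (MvPolynomial.le_totalDegree hd) hm
  have e1 : A ^ m * ((algebraMap ℤ L) (MvPolynomial.coeff d p) * ∏ i ∈ d.support, x i ^ d i) =
      ((MvPolynomial.coeff d p : ℤ) : L) * (A ^ (m - ∑ i ∈ d.support, d i) * ∏ i ∈ d.support, (A * x i) ^ d i) := by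
    have e2 : ∏ i ∈ d.support, (A * x i) ^ d i = A ^ (∑ i ∈ d.support, d i) * ∏ i ∈ d.support, x i ^ d i := by
      rw [← Finset.prod_pow_eq_pow_sum, ← Finset.prod_mul_distrib]
      exact Finset.prod_congr rfl fun i _ => mul_pow _ _ _
    have e3 : A ^ m = A ^ (m - ∑ i ∈ d.support, d i) * A ^ (∑ i ∈ d.support, d i) := by
      rw [← pow_add, Nat.sub_add_cancel hdm]
    rw [e2, e3]
    simp only [eq_intCast]
    ring
  rw [e1, map_mul, map_mul, map_pow, map_prod]
  have h1 := val_int L v (MvPolynomial.coeff d p)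
  have h2 : (v A) ^ (m - ∑ i ∈ d.support, d i) ≤ c ^ (m - ∑ i ∈ d.support, d i) := pow_le_pow_left' hA _
  have h3 : ∏ i ∈ d.support, v ((A * x i) ^ d i) ≤ c ^ (∑ i ∈ d.support, d i) := by
    rw [← Finset.prod_pow_eq_pow_sum]
    apply Finset.prod_le_prod'
    intro i _
    rw [map_pow]
    exact pow_le_pow_left' (hx i) _
  calc v ((MvPolynomial.coeff d p : ℤ) : L) * ((v A) ^ (m - ∑ i ∈ d.support, d i) * ∏ i ∈ d.support, v ((A * x i) ^ d i))
      ≤ 1 * (c ^ (m - ∑ i ∈ d.support, d i) * c ^ (∑ i ∈ d.support, d i)) := mul_le_mul' h1 (mul_le_mul' h2 h3)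
    _ = c ^ m := by rw [one_mul, ← pow_add, Nat.sub_add_cancel hdm]

/-- L4b. PROOF. Let `a = aeval x F.leadingCoeff`, `n = natDegree F`, `F_k = aeval x (F.coeff k)`, all of value `≤ c^δ` (`val_mv` with `A = 1`, `1 ≤ c`, `c^(totalDegree) ≤ c^δ`). If `v lam ≤ 1`: `v (a lam) ≤ v a ≤ c^δ`. If `v lam > 1` (so `n ≥ 1` or `a = 0`): `a lam^n = -∑_(k<n) F_k lam^k`,
so `v a (v lam)^n ≤ c^δ (v lam)^(n-1)`, divide by `(v lam)^(n-1) ≠ 0`. -/
theorem val_root (v : Valuation L VG) (F : FP) (δ : ℕ) (hδ : ∀ k, (F.coeff k).totalDegree ≤ δ) (x : Fin 2 → L) (c : VG) (hc : 1 ≤ c)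
    (hx : ∀ i, v (x i) ≤ c) (lam : L) (h : (spv x F).eval lam = 0) :
    v (MvPolynomial.aeval x F.leadingCoeff) ≤ c ^ δ ∧ v (MvPolynomial.aeval x F.leadingCoeff * lam) ≤ c ^ δ := by
  have hk : ∀ k, v (MvPolynomial.aeval x (F.coeff k)) ≤ c ^ δ := by
    intro k
    have h1 := val_mv L v (F.coeff k) δ (hδ k) x 1 c (by rw [map_one]; exact hc) (fun i => by rw [one_mul]; exact hx i)
    rwa [one_pow, one_mul] at h1
  refine ⟨hk _, ?_⟩
  have hev : ∑ k ∈ Finset.range (F.natDegree + 1), MvPolynomial.aeval x (F.coeff k) * lam ^ k = 0 := by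
    rw [spv, Polynomial.eval_map, Polynomial.eval₂_eq_sum_range] at h
    exact h
  rw [Finset.sum_range_succ] at hev
  rcases le_or_gt (v lam) 1 with hl | hl
  · rw [map_mul]
    calc v (MvPolynomial.aeval x F.leadingCoeff) * v lam ≤ c ^ δ * 1 := mul_le_mul' (hk _) hl
      _ = c ^ δ := mul_one _
  · rcases Nat.eq_zero_or_pos F.natDegree with h0 | h0
    · rw [h0] at hev
      rw [Polynomial.leadingCoeff, h0]
      simp only [Finset.range_zero, Finset.sum_empty, pow_zero, mul_one, zero_add] at hev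
      rw [hev, zero_mul, map_zero]
      exact zero_le
    · obtain ⟨n, hn⟩ : ∃ n, F.natDegree = n + 1 := ⟨F.natDegree - 1, by omega⟩
      have e1 : MvPolynomial.aeval x F.leadingCoeff * lam * lam ^ n =
          -∑ k ∈ Finset.range (n + 1), MvPolynomial.aeval x (F.coeff k) * lam ^ k := by
        rw [hn] at hev
        rw [Polynomial.leadingCoeff, hn, mul_assoc, ← pow_succ']
        exact eq_neg_of_add_eq_zero_right hev
      have e2 : v (MvPolynomial.aeval x F.leadingCoeff * lam) * (v lam) ^ n ≤ c ^ δ * (v lam) ^ n := by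
        rw [← map_pow, ← map_mul, e1, Valuation.map_neg]
        apply Valuation.map_sum_le
        intro k hkr
        rw [map_mul, map_pow, map_pow]
        have : k ≤ n := by
          have := Finset.mem_range.1 hkr
          omega
        exact mul_le_mul' (hk k) (pow_le_pow_right' hl.le this)
      have hpos : 0 < (v lam) ^ n := pow_pos (lt_trans zero_lt_one hl) n
      exact le_of_mul_le_mul_right e2 hpos

/-- L4c. PROOF. Leibniz formula (`Matrix.det_apply`), `Valuation.map_sum_le`; `A^card * ∏ M = ∏ (A * M)`, signs have value `1`. -/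
theorem val_det {ι : Type} [Fintype ι] [DecidableEq ι] (v : Valuation L VG) (M : Matrix ι ι L) (A : L) (c : VG) (h : ∀ i j, v (A * M i j) ≤ c) :
    v (A ^ Fintype.card ι * M.det) ≤ c ^ Fintype.card ι := by
  rw [Matrix.det_apply', Finset.mul_sum]
  apply Valuation.map_sum_le
  intro σ _
  have e1 : A ^ Fintype.card ι * (((Equiv.Perm.sign σ : ℤ) : L) * ∏ i, M (σ i) i) =
      ((Equiv.Perm.sign σ : ℤ) : L) * ∏ i, (A * M (σ i) i) := by
    rw [Finset.prod_mul_distrib, Finset.prod_const, Finset.card_univ]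
    ring
  rw [e1, map_mul, map_prod]
  calc v ((Equiv.Perm.sign σ : ℤ) : L) * ∏ i, v (A * M (σ i) i) ≤ 1 * ∏ _i : ι, c :=
        mul_le_mul' (val_int L v _) (Finset.prod_le_prod' fun i _ => h _ _)
    _ = c ^ Fintype.card ι := by rw [one_mul, Finset.prod_const, Finset.card_univ]

/-- L4d. PROOF. With `α = x₀ + u x₁`, `β = x₀ + w x₁`, `q = u - w`: `q x₁ = α - β`, `q x₀ = u β - w α`, so `v (q x_i) ≤ max (v α) (v β) ≤ max 1 (v α) * max 1 (v β) = C`, `v q ≤ 1 ≤ C`. Let `c = max 1 (max (v x₀) (v x₁))`: `v q * c ≤ C`. So `v (q^D γ) ≤ (v q)^D c^D ≤ C^D`. -/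
theorem val_proj (x : Fin 2 → L) (u w : ℕ) (D : ℕ) (γ : L)
    (h : ∀ (v : Valuation L VG) (c : VG), 1 ≤ c → (∀ i, v (x i) ≤ c) → v γ ≤ c ^ D) (v : Valuation L VG) :
    v ((((u : ℤ) - w : ℤ) : L) ^ D * γ) ≤ (max 1 (v (x 0 + u * x 1)) * max 1 (v (x 0 + w * x 1))) ^ D := by
  set α : L := x 0 + u * x 1 with hα
  set β : L := x 0 + w * x 1 with hβ
  set q : L := (((u : ℤ) - w : ℤ) : L) with hq
  have hq' : q = (u : L) - w := by rw [hq]; push_cast; ring
  have hvq : v q ≤ 1 := val_int L v _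
  have hvu : v (u : L) ≤ 1 := by
    have := val_int L v (u : ℤ)
    simpa using this
  have hvw : v (w : L) ≤ 1 := by
    have := val_int L v (w : ℤ)
    simpa using this
  have hC1 : (1 : VG) ≤ max 1 (v α) * max 1 (v β) := by
    calc (1 : VG) = 1 * 1 := (one_mul _).symm
      _ ≤ max 1 (v α) * max 1 (v β) := mul_le_mul' (le_max_left _ _) (le_max_left _ _)
  have hCα : v α ≤ max 1 (v α) * max 1 (v β) := by
    calc v α = v α * 1 := (mul_one _).symm
      _ ≤ max 1 (v α) * max 1 (v β) := mul_le_mul' (le_max_right _ _) (le_max_left _ _)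
  have hCβ : v β ≤ max 1 (v α) * max 1 (v β) := by
    calc v β = 1 * v β := (one_mul _).symm
      _ ≤ max 1 (v α) * max 1 (v β) := mul_le_mul' (le_max_left _ _) (le_max_right _ _)
  have h1 : v q * v (x 1) ≤ max 1 (v α) * max 1 (v β) := by
    rw [← map_mul]
    have : q * x 1 = α - β := by rw [hq', hα, hβ]; ring
    rw [this]
    exact le_trans (Valuation.map_sub v α β) (max_le hCα hCβ)
  have h0 : v q * v (x 0) ≤ max 1 (v α) * max 1 (v β) := by
    rw [← map_mul]
    have : q * x 0 = u * β - w * α := by rw [hq', hα, hβ]; ring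
    rw [this]
    refine le_trans (Valuation.map_sub v _ _) (max_le ?_ ?_)
    · rw [map_mul]
      calc v (u : L) * v β ≤ 1 * (max 1 (v α) * max 1 (v β)) := mul_le_mul' hvu hCβ
        _ = _ := one_mul _
    · rw [map_mul]
      calc v (w : L) * v α ≤ 1 * (max 1 (v α) * max 1 (v β)) := mul_le_mul' hvw hCα
        _ = _ := one_mul _
  set c : VG := max 1 (max (v (x 0)) (v (x 1))) with hc
  have hγ : v γ ≤ c ^ D := by
    apply h v c (le_max_left _ _)
    intro i
    fin_cases i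
    · exact le_trans (le_max_left _ _) (le_max_right _ _)
    · exact le_trans (le_max_right _ _) (le_max_right _ _)
  have hqc : v q * c ≤ max 1 (v α) * max 1 (v β) := by
    rw [hc]
    rcases le_total (max (v (x 0)) (v (x 1))) 1 with h2 | h2
    · rw [max_eq_left h2, mul_one]
      exact le_trans hvq hC1
    · rw [max_eq_right h2]
      rcases le_total (v (x 0)) (v (x 1)) with h3 | h3
      · rw [max_eq_right h3]; exact h1
      · rw [max_eq_left h3]; exact h0
  rw [map_mul, map_pow]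
  calc (v q) ^ D * v γ ≤ (v q) ^ D * c ^ D := mul_le_mul' le_rfl hγ
    _ = (v q * c) ^ D := (mul_pow _ _ _).symm
    _ ≤ _ := pow_le_pow_left' hqc D

end Pool.Agent.MSL
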