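import Pool.Agent.Lib.MP_f58a57_nt.L.Defs
import Pool.Agent.Lib.MP_f58a57_nt.P.A1_Len

/-! # L/L5_Arch: absolute values of polynomial values, roots and determinants -/

open Polynomial

noncomputable section

namespace Pool.Agent.MSL

open MSD MSP

/-- L5a. PROOF. As `val_mv`: every monomial times `A^m` is at most `|coeff| c^m`. -/
theorem arch_mv {σ : Type*} (p : MvPolynomial σ ℤ) (m : ℕ) (hm : p.totalDegree ≤ m) (x : σ → ℂ) (A c : ℝ) (hA0 : 0 ≤ A)
    (hA : A ≤ c) (hx : ∀ i, A * ‖x i‖ ≤ c) : A ^ m * ‖MvPolynomial.aeval x p‖ ≤ mlen p * c ^ m := by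
  have hc0 : 0 ≤ c := hA0.trans hA
  rw [MvPolynomial.aeval_def, MvPolynomial.eval₂_eq]
  unfold mlen
  rw [Finset.sum_mul]
  refine (mul_le_mul_of_nonneg_left (norm_sum_le _ _) (pow_nonneg hA0 m)).trans ?_
  rw [Finset.mul_sum]
  refine Finset.sum_le_sum fun d hd => ?_
  have hdm : ∑ i ∈ d.support, d i ≤ m := by
    refine le_trans ?_ hm
    exact MvPolynomial.le_totalDegree hd
  have h1 : ‖(algebraMap ℤ ℂ) (p.coeff d)‖ = |((p.coeff d : ℤ) : ℝ)| := by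
    simp
  rw [norm_mul, h1, norm_prod]
  have h2 : A ^ m * ∏ i ∈ d.support, ‖x i ^ d i‖ ≤ c ^ m := by
    have h3 : A ^ m = A ^ (m - ∑ i ∈ d.support, d i) * ∏ i ∈ d.support, A ^ d i := by
      rw [Finset.prod_pow_eq_pow_sum, ← pow_add, Nat.sub_add_cancel hdm]
    have h4 : c ^ m = c ^ (m - ∑ i ∈ d.support, d i) * ∏ i ∈ d.support, c ^ d i := by
      rw [Finset.prod_pow_eq_pow_sum, ← pow_add, Nat.sub_add_cancel hdm]
    rw [h3, h4, mul_assoc, ← Finset.prod_mul_distrib]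
    refine mul_le_mul (pow_le_pow_left₀ hA0 hA _) ?_ (Finset.prod_nonneg fun i _ => by positivity) (by positivity)
    refine Finset.prod_le_prod (fun i _ => by positivity) fun i _ => ?_
    rw [norm_pow, ← mul_pow]
    exact pow_le_pow_left₀ (by positivity) (hx i) _
  calc A ^ m * (|((p.coeff d : ℤ) : ℝ)| * ∏ i ∈ d.support, ‖x i ^ d i‖)
      = |((p.coeff d : ℤ) : ℝ)| * (A ^ m * ∏ i ∈ d.support, ‖x i ^ d i‖) := by ring
    _ ≤ |((p.coeff d : ℤ) : ℝ)| * c ^ m := mul_le_mul_of_nonneg_left h2 (abs_nonneg _)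

/-- the sum of the lengths of the coefficients -/
def lenF (F : FP) : ℝ := ∑ k ∈ F.support, mlen (F.coeff k)

/-- L5b. PROOF. As `val_root`: `‖F_k‖ ≤ mlen (F.coeff k) c^δ` (`arch_mv` with `A = 1`). If `‖lam‖ ≤ 1`: `‖a lam‖ ≤ ‖a‖`. Otherwise `‖a‖ ‖lam‖^n ≤ ∑_(k<n) ‖F_k‖ ‖lam‖^(n-1)`. -/
theorem arch_root (F : FP) (δ : ℕ) (hδ : ∀ k, (F.coeff k).totalDegree ≤ δ) (x : Fin 2 → ℂ) (c : ℝ) (hc : 1 ≤ c)
    (hx : ∀ i, ‖x i‖ ≤ c) (lam : ℂ) (h : (spv x F).eval lam = 0) :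
    ‖MvPolynomial.aeval x F.leadingCoeff‖ ≤ lenF F * c ^ δ ∧ ‖MvPolynomial.aeval x F.leadingCoeff‖ * ‖lam‖ ≤ lenF F * c ^ δ := by
  have hk : ∀ k, ‖MvPolynomial.aeval x (F.coeff k)‖ ≤ mlen (F.coeff k) * c ^ δ := by
    intro k
    have := arch_mv (F.coeff k) δ (hδ k) x 1 c zero_le_one hc (fun i => by rw [one_mul]; exact hx i)
    rwa [one_pow, one_mul] at this
  have hc0 : (0 : ℝ) ≤ c ^ δ := by positivity
  have hsub : ∀ s : Finset ℕ, ∑ k ∈ s, ‖MvPolynomial.aeval x (F.coeff k)‖ ≤ lenF F * c ^ δ := by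
    intro s
    have e1 : ∑ k ∈ s, ‖MvPolynomial.aeval x (F.coeff k)‖ =
        ∑ k ∈ s ∩ F.support, ‖MvPolynomial.aeval x (F.coeff k)‖ := by
      symm
      refine Finset.sum_subset Finset.inter_subset_left fun k hk1 hk2 => ?_
      have : k ∉ F.support := fun h3 => hk2 (Finset.mem_inter.2 ⟨hk1, h3⟩)
      rw [Polynomial.notMem_support_iff.1 this, map_zero, norm_zero]
    rw [e1]
    unfold lenF
    rw [Finset.sum_mul]
    refine (Finset.sum_le_sum fun k _ => hk k).trans ?_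
    refine Finset.sum_le_sum_of_subset_of_nonneg Finset.inter_subset_right fun k _ _ => ?_
    exact mul_nonneg (mlen_nonneg _) hc0
  have ha : ‖MvPolynomial.aeval x F.leadingCoeff‖ ≤ lenF F * c ^ δ := by
    have := hsub {F.natDegree}
    rwa [Finset.sum_singleton] at this
  refine ⟨ha, ?_⟩
  rcases le_or_gt ‖lam‖ 1 with h1 | h1
  · exact (mul_le_of_le_one_right (norm_nonneg _) h1).trans ha
  · have hev : (spv x F).eval lam = ∑ k ∈ Finset.range (F.natDegree + 1), MvPolynomial.aeval x (F.coeff k) * lam ^ k := by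
      unfold spv
      rw [Polynomial.eval_map, Polynomial.eval₂_eq_sum_range]
      rfl
    rw [hev, Finset.sum_range_succ] at h
    rcases Nat.eq_zero_or_pos F.natDegree with h0 | h0
    · rw [h0] at h
      simp only [Finset.range_zero, Finset.sum_empty, pow_zero, mul_one, zero_add] at h
      have : MvPolynomial.aeval x F.leadingCoeff = 0 := by
        rw [Polynomial.leadingCoeff, h0, h]
      rw [this, norm_zero, zero_mul]
      exact le_trans (norm_nonneg _) ha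
    · have hl0 : (0 : ℝ) < ‖lam‖ := by linarith
      have h2 : MvPolynomial.aeval x F.leadingCoeff * lam ^ F.natDegree =
          - ∑ k ∈ Finset.range F.natDegree, MvPolynomial.aeval x (F.coeff k) * lam ^ k :=
        eq_neg_of_add_eq_zero_right h
      have h3 : ‖MvPolynomial.aeval x F.leadingCoeff‖ * ‖lam‖ ^ F.natDegree ≤
          (lenF F * c ^ δ) * ‖lam‖ ^ (F.natDegree - 1) := by
        rw [← norm_pow, ← norm_mul, h2, norm_neg]
        refine (norm_sum_le _ _).trans ?_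
        refine le_trans ?_ (mul_le_mul_of_nonneg_right (hsub (Finset.range F.natDegree)) (by positivity))
        rw [Finset.sum_mul]
        refine Finset.sum_le_sum fun k hk1 => ?_
        rw [norm_mul, norm_pow]
        refine mul_le_mul_of_nonneg_left ?_ (norm_nonneg _)
        exact pow_le_pow_right₀ h1.le (by have := Finset.mem_range.1 hk1; omega)
      have h4 : ‖lam‖ ^ F.natDegree = ‖lam‖ * ‖lam‖ ^ (F.natDegree - 1) := by
        rw [← pow_succ', Nat.sub_add_cancel h0]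
      rw [h4, ← mul_assoc] at h3
      exact le_of_mul_le_mul_right h3 (by positivity)

/-- L5c. PROOF. Leibniz formula; `(card ι)! ≤ (card ι)^(card ι)`. -/
theorem arch_det {ι : Type} [Fintype ι] [DecidableEq ι] (M : Matrix ι ι ℂ) (B : ℝ) (h : ∀ i j, ‖M i j‖ ≤ B) :
    ‖M.det‖ ≤ (Fintype.card ι : ℝ) ^ Fintype.card ι * B ^ Fintype.card ι := by
  have h1 := Matrix.det_le (A := M) (abv := NormedField.toAbsoluteValue ℂ) (x := B) (fun i j => h i j)
  have h2 : ‖M.det‖ ≤ (Fintype.card ι).factorial • B ^ Fintype.card ι := h1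
  rw [nsmul_eq_mul] at h2
  refine h2.trans ?_
  have hB : 0 ≤ B ^ Fintype.card ι := by
    rcases isEmpty_or_nonempty ι with h3 | ⟨⟨i⟩⟩
    · rw [Fintype.card_eq_zero, pow_zero]; exact zero_le_one
    · exact pow_nonneg ((norm_nonneg _).trans (h i i)) _
  refine mul_le_mul_of_nonneg_right ?_ hB
  exact_mod_cast Nat.factorial_le_pow _

/-- L5d. PROOF. `α - β = (u - w) x₁`, `|u - w| ≥ 1`: `‖x₁‖ ≤ ‖α‖ + ‖β‖ ≤ 2 C`, `‖x₀‖ ≤ ‖α‖ + u ‖x₁‖ ≤ (1 + 2u) C`, `C = max 1 ‖α‖ * max 1 ‖β‖`. -/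
theorem arch_proj (x : Fin 2 → ℂ) (u w : ℕ) (h : u ≠ w) (i : Fin 2) :
    ‖x i‖ ≤ (2 * u + 2) * (max 1 ‖x 0 + u * x 1‖ * max 1 ‖x 0 + w * x 1‖) := by
  set C : ℝ := max 1 ‖x 0 + u * x 1‖ * max 1 ‖x 0 + w * x 1‖ with hC
  have a1 : (1 : ℝ) ≤ max 1 ‖x 0 + u * x 1‖ := le_max_left _ _
  have a2 : (1 : ℝ) ≤ max 1 ‖x 0 + w * x 1‖ := le_max_left _ _
  have hC1 : 1 ≤ C := by rw [hC]; nlinarith
  have h1 : ‖x 0 + u * x 1‖ ≤ C := by
    rw [hC]
    refine (le_max_right 1 _).trans ?_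
    exact le_mul_of_one_le_right (by linarith) a2
  have h2 : ‖x 0 + w * x 1‖ ≤ C := by
    rw [hC]
    refine (le_max_right 1 _).trans ?_
    exact le_mul_of_one_le_left (by linarith) a1
  have h3 : ‖x 1‖ ≤ 2 * C := by
    have e1 : (((u : ℤ) - (w : ℤ) : ℤ) : ℂ) * x 1 = (x 0 + u * x 1) - (x 0 + w * x 1) := by
      push_cast; ring
    have e2 : (1 : ℝ) ≤ ‖(((u : ℤ) - (w : ℤ) : ℤ) : ℂ)‖ := by
      rw [Complex.norm_intCast]
      have : 1 ≤ |(u : ℤ) - (w : ℤ)| := Int.one_le_abs (by omega)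
      exact_mod_cast this
    calc ‖x 1‖ ≤ ‖(((u : ℤ) - (w : ℤ) : ℤ) : ℂ)‖ * ‖x 1‖ := le_mul_of_one_le_left (norm_nonneg _) e2
      _ = ‖(x 0 + u * x 1) - (x 0 + w * x 1)‖ := by rw [← norm_mul, e1]
      _ ≤ ‖x 0 + u * x 1‖ + ‖x 0 + w * x 1‖ := norm_sub_le _ _
      _ ≤ 2 * C := by linarith
  have hu0 : (0 : ℝ) ≤ u := Nat.cast_nonneg u
  fin_cases i
  · show ‖x 0‖ ≤ _
    have e3 : x 0 = (x 0 + u * x 1) - u * x 1 := by ring
    calc ‖x 0‖ = ‖(x 0 + u * x 1) - u * x 1‖ := by rw [← e3]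
      _ ≤ ‖x 0 + u * x 1‖ + ‖(u : ℂ) * x 1‖ := norm_sub_le _ _
      _ ≤ C + u * (2 * C) := by
          rw [norm_mul, Complex.norm_natCast]
          exact add_le_add h1 (mul_le_mul_of_nonneg_left h3 hu0)
      _ ≤ (2 * u + 2) * C := by nlinarith
  · show ‖x 1‖ ≤ _
    refine h3.trans ?_
    exact mul_le_mul_of_nonneg_right (by linarith) (by linarith)

end Pool.Agent.MSL
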