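import Pool.Agent.Lib.MP_f58a57_nt.L.Defs2
import Pool.Agent.Lib.MP_f58a57_nt.L.L4_Val
import Pool.Agent.Lib.MP_f58a57_nt.L.L5_Arch

/-! # L/L6_Point: sizes of the values at a lifted point -/

open Polynomial

noncomputable section

namespace Pool.Agent.MSL

open MSD MSP MSK MSR

/-- a common bound for the total degrees of the coefficients -/
theorem l6_exists_deg (F : Fin 5 → FP) : ∃ δ : ℕ, 1 ≤ δ ∧ ∀ i k, ((F i).coeff k).totalDegree ≤ δ := by
  classical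
  have h1 : ∀ i, ∃ δ : ℕ, ∀ k, ((F i).coeff k).totalDegree ≤ δ := by
    intro i
    refine ⟨(F i).support.sup fun k => ((F i).coeff k).totalDegree, fun k => ?_⟩
    by_cases hk : k ∈ (F i).support
    · exact Finset.le_sup (f := fun k => ((F i).coeff k).totalDegree) hk
    · rw [Polynomial.notMem_support_iff] at hk
      rw [hk, MvPolynomial.totalDegree_zero]
      exact Nat.zero_le _
  choose δ hδ using h1
  refine ⟨1 + ∑ i, δ i, by omega, fun i k => (hδ i k).trans ?_⟩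
  have h2 : δ i ≤ ∑ i, δ i := Finset.single_le_sum (fun _ _ => Nat.zero_le _) (Finset.mem_univ i)
  omega

theorem l6_fin5 {β : Type*} [CommMonoid β] (f : Fin 5 → β) (i : Fin 5) : ∏ j, f j = (∏ j ∈ Finset.univ.erase i, f j) * f i := by
  rw [Finset.prod_erase_mul _ _ (Finset.mem_univ i)]

theorem l6_sq_le {x c : VG} (h : x ^ 2 ≤ c ^ 2) : x ≤ c :=
  le_of_not_gt fun h1 => absurd h (not_le_of_gt (pow_lt_pow_left₀ h1 zero_le (by norm_num)))

/-- L6a. PROOF. Let `δ i` bound the total degrees of the coefficients of `F i`, `δ = 2 ∑ δ i + 1`-ish (any bound works). `A = q ∏ a_i`, `v a_i ≤ c^(δ i)` (`val_root`), `v q ≤ 1`. For `w i`: `A w i = q (∏_(j ≠ i) a_j) (a_i w i)`. For the integers `X l` and `Q`: clear. For `b l`: `q b_l` is an integer.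
`Y`: `(A Y)² = 4 A² X³ - 2 A (A w 0) X - A (A w 2)` has value `≤ c^(2δ')` where `v A, v (A w i) ≤ c^δ'`, so `v (A Y) ≤ c^δ'` (`pow_le_pow_left_iff`/`lt_of_pow_lt_pow_left` in the linearly ordered group with zero). -/
theorem pt_val (P : Par 2) (F : Fin 5 → FP) (q : ℕ) (hq : ∀ l, ∃ m : ℤ, (q : ℚ) * P.b l = m) : ∃ δ : ℕ, 1 ≤ δ ∧
    ∀ (L : IntermediateField ℚ ℂ) [FiniteDimensional ℚ L] [IsGalois ℚ L] (p : LQ L), (∀ i, (spv p.x (F i)).eval (p.w i) = 0) →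
      ∀ (v : Valuation L VG) (c : VG), 1 ≤ c → (∀ i, v (p.x i) ≤ c) →
        v (Den F q p.x) ≤ c ^ δ ∧ ∀ s : Vr 2, v (Den F q p.x * p.v P s) ≤ c ^ δ := by
  classical
  obtain ⟨d, hd1, hd⟩ := l6_exists_deg F
  refine ⟨d * 5, by omega, ?_⟩
  intro L _ _ p hp v c hc hx
  have hr : ∀ i, v (MvPolynomial.aeval p.x (F i).leadingCoeff) ≤ c ^ d ∧
      v (MvPolynomial.aeval p.x (F i).leadingCoeff * p.w i) ≤ c ^ d :=
    fun i => val_root L v (F i) d (hd i) p.x c hc hx (p.w i) (hp i)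
  have hn : ∀ n : ℕ, v (n : L) ≤ 1 := by
    intro n
    have h1 := val_int L v (n : ℤ)
    rwa [Int.cast_natCast] at h1
  have hprod : ∀ s : Finset (Fin 5), ∏ j ∈ s, v (MvPolynomial.aeval p.x (F j).leadingCoeff) ≤ (c ^ d) ^ s.card := by
    intro s
    refine (Finset.prod_le_prod' (fun j _ => (hr j).1)).trans ?_
    rw [Finset.prod_const]
  have hA : v (Den F q p.x) ≤ c ^ (d * 5) := by
    rw [Den, map_mul, map_prod]
    calc v (q : L) * ∏ j, v (MvPolynomial.aeval p.x (F j).leadingCoeff) ≤ 1 * (c ^ d) ^ (Finset.univ : Finset (Fin 5)).card :=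
          mul_le_mul' (hn q) (hprod _)
      _ = c ^ (d * 5) := by rw [one_mul, Finset.card_univ, Fintype.card_fin, pow_mul]
  have hW : ∀ i, v (Den F q p.x * p.w i) ≤ c ^ (d * 5) := by
    intro i
    have h1 : Den F q p.x * p.w i = (q : L) * (∏ j ∈ Finset.univ.erase i, MvPolynomial.aeval p.x (F j).leadingCoeff) *
        (MvPolynomial.aeval p.x (F i).leadingCoeff * p.w i) := by
      rw [Den, l6_fin5 _ i]
      ring
    rw [h1, map_mul, map_mul, map_prod]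
    calc v (q : L) * (∏ j ∈ Finset.univ.erase i, v (MvPolynomial.aeval p.x (F j).leadingCoeff)) *
          v (MvPolynomial.aeval p.x (F i).leadingCoeff * p.w i)
        ≤ 1 * (c ^ d) ^ (Finset.univ.erase i).card * c ^ d :=
          mul_le_mul' (mul_le_mul' (hn q) (hprod _)) (hr i).2
      _ = c ^ (d * 5) := by
          rw [one_mul, Finset.card_erase_of_mem (Finset.mem_univ i), Finset.card_univ, Fintype.card_fin, pow_mul,
            ← pow_succ]
  refine ⟨hA, fun s => ?_⟩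
  have hone : ∀ x : L, v x ≤ 1 → v (Den F q p.x * x) ≤ c ^ (d * 5) := by
    intro x hx1
    rw [map_mul]
    calc v (Den F q p.x) * v x ≤ c ^ (d * 5) * 1 := mul_le_mul' hA hx1
      _ = c ^ (d * 5) := mul_one _
  cases s with
  | X l => exact hone _ (hn _)
  | Y l =>
    apply l6_sq_le
    rw [← map_pow]
    have h1 : (Den F q p.x * p.v P (Vr.Y l)) ^ 2 =
        ((4 * p.X l ^ 3 : ℕ) : L) * (Den F q p.x * Den F q p.x) - ((2 * p.X l : ℕ) : L) * (Den F q p.x * (Den F q p.x * p.w 0)) -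
          Den F q p.x * (Den F q p.x * p.w 2) := by
      show (Den F q p.x * p.Y l) ^ 2 = _
      rw [mul_pow, p.hY l]
      push_cast
      ring
    have hAA : ∀ y, v y ≤ c ^ (d * 5) → v (Den F q p.x * y) ≤ (c ^ (d * 5)) ^ 2 := by
      intro y hy
      rw [map_mul, sq]
      exact mul_le_mul' hA hy
    have hNN : ∀ (n : ℕ) (y : L), v y ≤ (c ^ (d * 5)) ^ 2 → v ((n : L) * y) ≤ (c ^ (d * 5)) ^ 2 := by
      intro n y hy
      rw [map_mul]
      calc v (n : L) * v y ≤ 1 * (c ^ (d * 5)) ^ 2 := mul_le_mul' (hn n) hy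
        _ = _ := one_mul _
    rw [h1]
    refine (v.map_sub _ _).trans (max_le ((v.map_sub _ _).trans (max_le ?_ ?_)) ?_)
    · exact hNN _ _ (hAA _ hA)
    · exact hNN _ _ (hAA _ (hW 0))
    · exact hAA _ (hW 2)
  | Q j =>
    show v (Den F q p.x * 0) ≤ _
    rw [mul_zero, map_zero]
    exact zero_le
  | b l =>
    obtain ⟨m, hm⟩ := hq l
    have h1 : Den F q p.x * ((P.b l : ℚ) : L) = (m : L) * ∏ i, MvPolynomial.aeval p.x (F i).leadingCoeff := by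
      have h2 : (q : L) * ((P.b l : ℚ) : L) = (m : L) := by
        have h3 := congrArg (fun t : ℚ => (t : L)) hm
        push_cast at h3
        exact h3
      rw [Den, ← h2]
      ring
    show v (Den F q p.x * ((P.b l : ℚ) : L)) ≤ _
    rw [h1, map_mul, map_prod]
    calc v (m : L) * ∏ j, v (MvPolynomial.aeval p.x (F j).leadingCoeff) ≤ 1 * (c ^ d) ^ (Finset.univ : Finset (Fin 5)).card :=
          mul_le_mul' (val_int L v m) (hprod _)
      _ = c ^ (d * 5) := by rw [one_mul, Finset.card_univ, Fintype.card_fin, pow_mul]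
  | g => exact hW 0
  | k => exact hW 1
  | z => exact hW 3
  | r => exact hW 4

/-- L6b. PROOF. The same for absolute values: `‖A‖ ≤ q ∏ lenF (F i) c^(δ i)` etc. (replace `lenF` by `max 1 (lenF ..)`). `‖A Y‖² ≤ 4 ‖A‖² B³ + 2 ‖A‖ ‖A w 0‖ B + ‖A‖ ‖A w 2‖ ≤ 7 K'² B³ c^(2δ)`, so `‖A Y‖ ≤ 3 K' B² c^δ`. -/
theorem pt_arch (P : Par 2) (F : Fin 5 → FP) (q : ℕ) : ∃ (δ : ℕ) (K : ℝ), 1 ≤ δ ∧ 1 ≤ K ∧
    ∀ p : LQ ℂ, (∀ i, (spv p.x (F i)).eval (p.w i) = 0) → ∀ B c : ℝ, 1 ≤ B → (∀ l, (p.X l : ℝ) ≤ B) → 1 ≤ c → (∀ i, ‖p.x i‖ ≤ c) →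
      ‖Den F q p.x‖ ≤ K * B ^ 2 * c ^ δ ∧ ∀ s : Vr 2, ‖Den F q p.x‖ * ‖p.v P s‖ ≤ K * B ^ 2 * c ^ δ := by
  classical
  obtain ⟨d, hd1, hd⟩ := l6_exists_deg F
  obtain ⟨M, hM1, hM⟩ : ∃ M : ℝ, 1 ≤ M ∧ ∀ i, lenF (F i) ≤ M := by
    have h0 : ∀ i, 0 ≤ lenF (F i) := fun i => Finset.sum_nonneg fun k _ => Finset.sum_nonneg fun m _ => abs_nonneg _
    refine ⟨1 + ∑ i, lenF (F i), ?_, fun i => ?_⟩
    · have := Finset.sum_nonneg fun i (_ : i ∈ (Finset.univ : Finset (Fin 5))) => h0 i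
      linarith
    · have := Finset.single_le_sum (fun i _ => h0 i) (Finset.mem_univ i)
      linarith
  have hM0 : 0 ≤ M := by linarith
  obtain ⟨K', hK'⟩ : ∃ K' : ℝ, K' = (q + 1) * M ^ 5 := ⟨_, rfl⟩
  have hK'1 : 1 ≤ K' := by
    rw [hK']
    have h1 : (1 : ℝ) ≤ q + 1 := by
      have := Nat.cast_nonneg (α := ℝ) q
      linarith
    calc (1 : ℝ) = 1 * 1 := by ring
      _ ≤ (q + 1) * M ^ 5 := mul_le_mul h1 (one_le_pow₀ hM1) (by norm_num) (by linarith)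
  obtain ⟨S, hS⟩ : ∃ S : ℝ, S = ∑ l, ‖((P.b l : ℚ) : ℂ)‖ := ⟨_, rfl⟩
  have hS0 : 0 ≤ S := by
    rw [hS]
    exact Finset.sum_nonneg fun _ _ => norm_nonneg _
  have hSl : ∀ l, ‖((P.b l : ℚ) : ℂ)‖ ≤ S := by
    intro l
    rw [hS]
    exact Finset.single_le_sum (f := fun l => ‖((P.b l : ℚ) : ℂ)‖) (fun _ _ => norm_nonneg _) (Finset.mem_univ l)
  refine ⟨d * 5, K' * (3 + S), by omega, by nlinarith, ?_⟩
  intro p hp B c hB hX hc hx
  have hc0 : 0 ≤ c := by linarith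
  have hcd : 1 ≤ c ^ d := one_le_pow₀ hc
  have hr : ∀ i, ‖MvPolynomial.aeval p.x (F i).leadingCoeff‖ ≤ M * c ^ d ∧
      ‖MvPolynomial.aeval p.x (F i).leadingCoeff‖ * ‖p.w i‖ ≤ M * c ^ d := by
    intro i
    have h1 := arch_root (F i) d (hd i) p.x c hc hx (p.w i) (hp i)
    have h2 : lenF (F i) * c ^ d ≤ M * c ^ d := mul_le_mul_of_nonneg_right (hM i) (by positivity)
    exact ⟨h1.1.trans h2, h1.2.trans h2⟩
  have hprod : ∀ s : Finset (Fin 5), ∏ j ∈ s, ‖MvPolynomial.aeval p.x (F j).leadingCoeff‖ ≤ (M * c ^ d) ^ s.card := by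
    intro s
    refine (Finset.prod_le_prod (fun j _ => norm_nonneg _) (fun j _ => (hr j).1)).trans ?_
    rw [Finset.prod_const]
  have hqq : ‖(q : ℂ)‖ ≤ q + 1 := by
    rw [Complex.norm_natCast]
    linarith
  have hq0 : (0 : ℝ) ≤ q + 1 := by positivity
  have hA : ‖Den F q p.x‖ ≤ K' * c ^ (d * 5) := by
    rw [Den, norm_mul, norm_prod]
    calc ‖(q : ℂ)‖ * ∏ j, ‖MvPolynomial.aeval p.x (F j).leadingCoeff‖ ≤ (q + 1) * (M * c ^ d) ^ (Finset.univ : Finset (Fin 5)).card :=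
          mul_le_mul hqq (hprod _) (Finset.prod_nonneg fun _ _ => norm_nonneg _) hq0
      _ = K' * c ^ (d * 5) := by rw [Finset.card_univ, Fintype.card_fin, hK', pow_mul]; ring
  have hW : ∀ i, ‖Den F q p.x‖ * ‖p.w i‖ ≤ K' * c ^ (d * 5) := by
    intro i
    have h1 : ‖Den F q p.x‖ * ‖p.w i‖ = ‖(q : ℂ)‖ * (∏ j ∈ Finset.univ.erase i, ‖MvPolynomial.aeval p.x (F j).leadingCoeff‖) *
        (‖MvPolynomial.aeval p.x (F i).leadingCoeff‖ * ‖p.w i‖) := by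
      rw [Den, norm_mul, norm_prod, l6_fin5 _ i]
      ring
    rw [h1]
    calc ‖(q : ℂ)‖ * (∏ j ∈ Finset.univ.erase i, ‖MvPolynomial.aeval p.x (F j).leadingCoeff‖) *
          (‖MvPolynomial.aeval p.x (F i).leadingCoeff‖ * ‖p.w i‖)
        ≤ (q + 1) * (M * c ^ d) ^ (Finset.univ.erase i).card * (M * c ^ d) :=
          mul_le_mul (mul_le_mul hqq (hprod _) (Finset.prod_nonneg fun _ _ => norm_nonneg _) hq0) (hr i).2
            (mul_nonneg (norm_nonneg _) (norm_nonneg _)) (by positivity)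
      _ = K' * c ^ (d * 5) := by
          rw [Finset.card_erase_of_mem (Finset.mem_univ i), Finset.card_univ, Fintype.card_fin, hK', pow_mul]
          ring
  obtain ⟨R, hR⟩ : ∃ R : ℝ, R = K' * c ^ (d * 5) := ⟨_, rfl⟩
  rw [← hR] at hA hW
  have hR0 : 0 ≤ R := by
    rw [hR]
    positivity
  have hB2 : 1 ≤ B ^ 2 := one_le_pow₀ hB
  have hB0 : 0 ≤ B := by linarith
  have hgoal : K' * (3 + S) * B ^ 2 * c ^ (d * 5) = (3 + S) * B ^ 2 * R := by
    rw [hR]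
    ring
  rw [hgoal]
  have h3S : 3 ≤ 3 + S := by linarith
  have hbig : ∀ t : ℝ, t ≤ 3 * B ^ 2 * R → t ≤ (3 + S) * B ^ 2 * R := by
    intro t ht
    have h1 : 0 ≤ B ^ 2 * R := by positivity
    nlinarith
  have hR3 : R ≤ 3 * B ^ 2 * R := by nlinarith
  refine ⟨hbig _ (hA.trans hR3), fun s => ?_⟩
  cases s with
  | X l =>
    apply hbig
    show ‖Den F q p.x‖ * ‖((p.X l : ℕ) : ℂ)‖ ≤ _
    rw [Complex.norm_natCast]
    have h1 : ‖Den F q p.x‖ * (p.X l : ℝ) ≤ R * B := mul_le_mul hA (hX l) (Nat.cast_nonneg _) hR0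
    have h2 : R * B ≤ 3 * B ^ 2 * R := by nlinarith [mul_nonneg hR0 hB0, mul_nonneg (mul_nonneg hR0 hB0) hB0]
    exact h1.trans h2
  | Y l =>
    apply hbig
    show ‖Den F q p.x‖ * ‖p.Y l‖ ≤ _
    have hx0 : (0 : ℝ) ≤ (p.X l : ℝ) := Nat.cast_nonneg _
    have h1 : (‖Den F q p.x‖ * ‖p.Y l‖) ^ 2 ≤ 4 * (‖Den F q p.x‖ * ‖Den F q p.x‖) * (p.X l : ℝ) ^ 3 +
        2 * (‖Den F q p.x‖ * (‖Den F q p.x‖ * ‖p.w 0‖)) * (p.X l : ℝ) + ‖Den F q p.x‖ * (‖Den F q p.x‖ * ‖p.w 2‖) := by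
      rw [mul_pow, ← norm_pow (p.Y l), p.hY l]
      have h2 : ‖(4 : ℂ) * ((p.X l : ℕ) : ℂ) ^ 3 - 2 * p.w 0 * ((p.X l : ℕ) : ℂ) - p.w 2‖ ≤
          4 * (p.X l : ℝ) ^ 3 + 2 * ‖p.w 0‖ * (p.X l : ℝ) + ‖p.w 2‖ := by
        refine (norm_sub_le _ _).trans (add_le_add ((norm_sub_le _ _).trans (add_le_add ?_ ?_)) le_rfl)
        · rw [norm_mul, norm_pow, Complex.norm_natCast]
          norm_num
        · rw [norm_mul, norm_mul, Complex.norm_natCast]
          norm_num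
      calc ‖Den F q p.x‖ ^ 2 * ‖(4 : ℂ) * ((p.X l : ℕ) : ℂ) ^ 3 - 2 * p.w 0 * ((p.X l : ℕ) : ℂ) - p.w 2‖
          ≤ ‖Den F q p.x‖ ^ 2 * (4 * (p.X l : ℝ) ^ 3 + 2 * ‖p.w 0‖ * (p.X l : ℝ) + ‖p.w 2‖) :=
            mul_le_mul_of_nonneg_left h2 (by positivity)
        _ = _ := by ring
    have h3 : ∀ y : ℝ, 0 ≤ y → y ≤ R → ‖Den F q p.x‖ * y ≤ R ^ 2 := by
      intro y hy0 hy
      rw [sq]
      exact mul_le_mul hA hy hy0 hR0
    have h4 := h3 _ (norm_nonneg (Den F q p.x)) hA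
    have h5 := h3 _ (mul_nonneg (norm_nonneg (Den F q p.x)) (norm_nonneg (p.w 0))) (hW 0)
    have h6 := h3 _ (mul_nonneg (norm_nonneg (Den F q p.x)) (norm_nonneg (p.w 2))) (hW 2)
    have hX3 : (p.X l : ℝ) ^ 3 ≤ B ^ 4 :=
      (pow_le_pow_left₀ hx0 (hX l) 3).trans (pow_le_pow_right₀ hB (by norm_num))
    have hX1 : (p.X l : ℝ) ≤ B ^ 4 := (hX l).trans (by
      calc B = B ^ 1 := (pow_one B).symm
        _ ≤ B ^ 4 := pow_le_pow_right₀ hB (by norm_num))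
    have hB4 : 1 ≤ B ^ 4 := one_le_pow₀ hB
    have hR2 : 0 ≤ R ^ 2 := by positivity
    have e1 : 4 * (‖Den F q p.x‖ * ‖Den F q p.x‖) * (p.X l : ℝ) ^ 3 ≤ 4 * R ^ 2 * B ^ 4 :=
      mul_le_mul (by linarith) hX3 (by positivity) (by positivity)
    have e2 : 2 * (‖Den F q p.x‖ * (‖Den F q p.x‖ * ‖p.w 0‖)) * (p.X l : ℝ) ≤ 2 * R ^ 2 * B ^ 4 :=
      mul_le_mul (by linarith) hX1 hx0 (by positivity)
    have e3 : ‖Den F q p.x‖ * (‖Den F q p.x‖ * ‖p.w 2‖) ≤ R ^ 2 * B ^ 4 := by nlinarith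
    have h7 : (‖Den F q p.x‖ * ‖p.Y l‖) ^ 2 ≤ (3 * B ^ 2 * R) ^ 2 := by
      have e4 : (3 * B ^ 2 * R) ^ 2 = 9 * (R ^ 2 * B ^ 4) := by ring
      rw [e4]
      have e5 : 0 ≤ R ^ 2 * B ^ 4 := by positivity
      linarith
    exact le_of_sq_le_sq h7 (by positivity)
  | Q j =>
    show ‖Den F q p.x‖ * ‖(0 : ℂ)‖ ≤ _
    rw [norm_zero, mul_zero]
    positivity
  | b l =>
    show ‖Den F q p.x‖ * ‖((P.b l : ℚ) : ℂ)‖ ≤ _
    calc ‖Den F q p.x‖ * ‖((P.b l : ℚ) : ℂ)‖ ≤ R * S := mul_le_mul hA (hSl l) (norm_nonneg _) hR0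
      _ ≤ (3 + S) * B ^ 2 * R := by
          have h1 : 0 ≤ R * S := by positivity
          have h2 : 0 ≤ R * B ^ 2 := by positivity
          nlinarith
  | g => exact hbig _ ((hW 0).trans hR3)
  | k => exact hbig _ ((hW 1).trans hR3)
  | z => exact hbig _ ((hW 3).trans hR3)
  | r => exact hbig _ ((hW 4).trans hR3)

/-- the image of a point under a ring homomorphism -/
def LQ.map {L K : Type} [Field L] [Field K] (f : L →+* K) (p : LQ L) : LQ K where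
  x := fun i => f (p.x i)
  w := fun i => f (p.w i)
  X := p.X
  Y := fun l => f (p.Y l)
  hY := fun l => by
    rw [← map_pow, p.hY l]
    simp only [map_sub, map_mul, map_pow, map_ofNat, map_natCast]

/-- L6c. PROOF. Cases; `map_ratCast`. -/
theorem map_v (P : Par 2) {L K : Type} [Field L] [Field K] [CharZero L] [CharZero K] (f : L →+* K) (p : LQ L) (s : Vr 2) : (p.map f).v P s = f (p.v P s) := by
  cases s with
  | X l => exact (map_natCast f _).symm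
  | Y l => rfl
  | Q j => exact (map_zero f).symm
  | b l => exact (map_ratCast f _).symm
  | g => rfl
  | k => rfl
  | z => rfl
  | r => rfl

theorem l6_aeval_map {σ R S : Type*} [CommRing R] [CommRing S] (f : R →+* S) (x : σ → R) (p : MvPolynomial σ ℤ) :
    MvPolynomial.aeval (fun i => f (x i)) p = f (MvPolynomial.aeval x p) := by
  have h1 : (MvPolynomial.aeval (fun i => f (x i)) : MvPolynomial σ ℤ →ₐ[ℤ] S) = (f.toIntAlgHom).comp (MvPolynomial.aeval x) := by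
    apply MvPolynomial.algHom_ext
    intro i
    simp
  rw [h1]
  rfl

/-- L6d. PROOF. `spv (f ∘ x) F = (spv x F).map f`. -/
theorem spv_map {R S : Type} [CommRing R] [CommRing S] (f : R →+* S) (x : Fin 2 → R) (F : FP) : spv (fun i => f (x i)) F = (spv x F).map f := by
  unfold spv
  rw [Polynomial.map_map]
  congr 1
  ext p
  · simp
  · simp

theorem Den_map {L K : Type} [Field L] [Field K] (f : L →+* K) (F : Fin 5 → FP) (q : ℕ) (x : Fin 2 → L) : Den F q (fun i => f (x i)) = f (Den F q x) := by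
  rw [Den, Den, map_mul, map_natCast, map_prod]
  congr 1
  exact Finset.prod_congr rfl fun i _ => l6_aeval_map f x _

/-- L6e. PROOF. `RingHom.map_det`, `MvPolynomial.map_aeval` for a ring homomorphism (`ℤ`-algebra homomorphism). -/
theorem DL_map {R S : Type} [CommRing R] [CommRing S] (f : R →+* S) {E : ℕ} (x : Vr 2 → R) (a : Ir 2 E → Fin 2 → ℕ) (k : Ir 2 E → ℕ) :
    (DL (fun s => f (x s)) a k).det = f (DL x a k).det := by
  rw [RingHom.map_det]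
  congr 1
  ext i κ
  exact l6_aeval_map f x _

end Pool.Agent.MSL
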