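import Pool.Agent.Lib.MP_f58a57_nt.L.L6_Point
import Pool.Agent.Lib.MP_f58a57_nt.U.C5a_Rp

/-! # L/L7_Lower: lower bound for the determinants -/

open Polynomial

noncomputable section

namespace Pool.Agent.MSL

open MSD MSP MSK MSR

/-- the bound for the lengths of the polynomials -/
def l7H (E : ℕ) : ℝ :=
  (8 * (((2 : ℕ) : ℝ) + 1) * ((8 * E : ℕ) : ℝ) * (((4 * (2 * E) : ℕ) : ℝ) + (((2 : ℕ) : ℝ) + 3) * ((8 * E : ℕ) : ℝ))) ^ (8 * E) *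
    (88 * (((2 : ℕ) : ℝ) + 1) * (((2 * E : ℕ) : ℝ) + 1)) ^ (2 * E)

theorem l7_poly (E : ℕ) (hE : 1 ≤ E) (a : Fin 2 → ℕ) (ha : ∀ j, a j ≤ 8 * E) (k : ℕ) (hk : k ≤ 8 * E) (κ : Ir 2 E) :
    ((der (fun j => (a j : ℤ)))^[k] (Rp (fun j => (κ j).val))).totalDegree ≤ 48 * E ∧
      mlen ((der (fun j => (a j : ℤ)))^[k] (Rp (fun j => (κ j).val))) ≤ l7H E := by
  obtain ⟨h1, h2⟩ := MSU.d0_Rp 2 (8 * E) E (by omega) hE a ha k hk κ
  exact ⟨h1.trans (by omega), h2⟩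

theorem l7_H_one (E : ℕ) (hE : 1 ≤ E) : 1 ≤ l7H E := MSU.d0_nn (8 * E) E 2 (by omega)

theorem l7_H_log (E : ℕ) (hE : 2 ≤ E) : Real.log (l7H E) ≤ 200 * (E * Real.log E) := by
  have hER : (2 : ℝ) ≤ E := by exact_mod_cast hE
  have hE0 : (0 : ℝ) < E := by linarith
  have hlog2 : Real.log 2 ≤ Real.log E := Real.log_le_log (by norm_num) hER
  have hl0 : 0 < Real.log E := lt_of_lt_of_le (Real.log_pos (by norm_num)) hlog2
  have e : l7H E = (9216 * (E : ℝ) ^ 2) ^ (8 * E) * (264 * (2 * (E : ℝ) + 1)) ^ (2 * E) := by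
    unfold l7H
    push_cast
    congr 1 <;> congr 1 <;> ring
  rw [e, Real.log_mul (by positivity) (by positivity), Real.log_pow, Real.log_pow]
  have h1 : Real.log (9216 * (E : ℝ) ^ 2) ≤ 16 * Real.log E := by
    rw [Real.log_mul (by norm_num) (by positivity), Real.log_pow]
    have : Real.log 9216 ≤ 14 * Real.log 2 := by
      rw [← Real.log_rpow (by norm_num)]
      exact Real.log_le_log (by norm_num) (by norm_num)
    push_cast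
    linarith
  have h2 : Real.log (264 * (2 * (E : ℝ) + 1)) ≤ 11 * Real.log E := by
    have h3 : 264 * (2 * (E : ℝ) + 1) ≤ 1024 * E := by linarith
    refine (Real.log_le_log (by positivity) h3).trans ?_
    rw [Real.log_mul (by norm_num) (by positivity)]
    have : Real.log 1024 ≤ 10 * Real.log 2 := by
      rw [← Real.log_rpow (by norm_num)]
      exact Real.log_le_log (by norm_num) (by norm_num)
    linarith
  push_cast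
  have h4 : 8 * (E : ℝ) * Real.log (9216 * (E : ℝ) ^ 2) ≤ 8 * E * (16 * Real.log E) :=
    mul_le_mul_of_nonneg_left h1 (by positivity)
  have h5 : 2 * (E : ℝ) * Real.log (264 * (2 * (E : ℝ) + 1)) ≤ 2 * E * (11 * Real.log E) :=
    mul_le_mul_of_nonneg_left h2 (by positivity)
  have h6 : 0 ≤ (E : ℝ) * Real.log E := by positivity
  linarith

theorem l7_card (E : ℕ) : Fintype.card (Ir 2 E) = E ^ 2 := by
  simp [Ir]

theorem l7_mz_ne (α : ℂ) : mz α ≠ 0 := by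
  unfold mz
  split_ifs with h
  · exact h.choose_spec.1.ne_zero
  · exact X_ne_zero

theorem l7_hgt (α : ℂ) : 0 ≤ hgt α :=
  div_nonneg (Real.log_nonneg (one_le_MM _ (l7_mz_ne α))) (Nat.cast_nonneg _)

theorem l7_val (P : Par 2) (F : Fin 5 → FP) (q : ℕ) (δ₁ δ : ℕ) (hδ : δ₁ ≤ δ) (L : IntermediateField ℚ ℂ) [FiniteDimensional ℚ L]
    [IsGalois ℚ L] (p : LQ L)
    (hpt : ∀ (v : Valuation L VG) (c : VG), 1 ≤ c → (∀ i, v (p.x i) ≤ c) →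
        v (Den F q p.x) ≤ c ^ δ₁ ∧ ∀ s : Vr 2, v (Den F q p.x * p.v P s) ≤ c ^ δ₁)
    (E : ℕ) (hE : 1 ≤ E) (a : Ir 2 E → Fin 2 → ℕ) (k : Ir 2 E → ℕ) (ha : ∀ i j, a i j ≤ 8 * E) (hk : ∀ i, k i ≤ 8 * E)
    (v : Valuation L VG) (c : VG) (hc : 1 ≤ c) (hx : ∀ i, v (p.x i) ≤ c) :
    v (Den F q p.x ^ (48 * E * E ^ 2) * (DL (p.v P) a k).det) ≤ c ^ (δ * (48 * E * E ^ 2)) := by
  obtain ⟨h1, h2⟩ := hpt v c hc hx
  have hcc : c ^ δ₁ ≤ c ^ δ := pow_le_pow_right₀ hc hδ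
  have h3 : ∀ i j, v (Den F q p.x ^ (48 * E) * (DL (p.v P) a k) i j) ≤ (c ^ δ) ^ (48 * E) := by
    intro i j
    exact val_mv L v _ (48 * E) (l7_poly E hE (a i) (ha i) (k i) (hk i) j).1 (p.v P) (Den F q p.x) (c ^ δ)
      (h1.trans hcc) fun s => (h2 s).trans hcc
  have h4 := val_det L v (DL (p.v P) a k) (Den F q p.x ^ (48 * E)) ((c ^ δ) ^ (48 * E)) h3
  rw [l7_card, ← pow_mul, ← pow_mul, ← pow_mul] at h4
  exact h4

theorem l7_arch (P : Par 2) (F : Fin 5 → FP) (q : ℕ) (δ : ℕ) (K : ℝ) (hK : 1 ≤ K) (p : LQ ℂ) (B c : ℝ) (hB : 1 ≤ B) (hc : 1 ≤ c)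
    (hpt : ‖Den F q p.x‖ ≤ K * B ^ 2 * c ^ δ ∧ ∀ s : Vr 2, ‖Den F q p.x‖ * ‖p.v P s‖ ≤ K * B ^ 2 * c ^ δ)
    (E : ℕ) (hE : 1 ≤ E) (a : Ir 2 E → Fin 2 → ℕ) (k : Ir 2 E → ℕ) (ha : ∀ i j, a i j ≤ 8 * E) (hk : ∀ i, k i ≤ 8 * E) :
    ‖Den F q p.x ^ (48 * E * E ^ 2) * (DL (p.v P) a k).det‖ ≤
      ((E : ℝ) ^ 2) ^ (E ^ 2) * (l7H E * (K * B ^ 2 * c ^ δ) ^ (48 * E)) ^ (E ^ 2) := by
  obtain ⟨h1, h2⟩ := hpt
  have hpos : 0 ≤ K * B ^ 2 * c ^ δ := by positivity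
  have h3 : ∀ i j, ‖(Den F q p.x ^ (48 * E) • DL (p.v P) a k) i j‖ ≤ l7H E * (K * B ^ 2 * c ^ δ) ^ (48 * E) := by
    intro i j
    rw [Matrix.smul_apply, smul_eq_mul, norm_mul, norm_pow]
    obtain ⟨q1, q2⟩ := l7_poly E hE (a i) (ha i) (k i) (hk i) j
    refine (arch_mv _ (48 * E) q1 (p.v P) ‖Den F q p.x‖ (K * B ^ 2 * c ^ δ) (norm_nonneg _) h1 h2).trans ?_
    exact mul_le_mul_of_nonneg_right q2 (by positivity)
  have h4 := arch_det (Den F q p.x ^ (48 * E) • DL (p.v P) a k) _ h3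
  rw [Matrix.det_smul, l7_card, ← pow_mul] at h4
  push_cast at h4
  exact h4

/-- the image of the point under an embedding -/
def l7f (L : IntermediateField ℚ ℂ) (g : L ≃ₐ[ℚ] L) : L →+* ℂ := (algebraMap L ℂ).comp (g : L →+* L)

theorem l7f_apply (L : IntermediateField ℚ ℂ) (g : L ≃ₐ[ℚ] L) (x : L) : l7f L g x = ((g x : L) : ℂ) := rfl

/-- the constant -/
theorem l7_fin (E M δ₁ δ₂ : ℕ) (hE : 2 ≤ E) (K lq h : ℝ) (hK : 1 ≤ K) (u : ℕ) (hu : u ≤ E ^ M) (hlq : lq ≤ M * Real.log E) (hh : 0 ≤ h) :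
    Real.log (((E : ℝ) ^ 2) ^ (E ^ 2) * (l7H E * (K * ((E : ℝ) ^ M) ^ 2 * (2 * (u : ℝ) + 2) ^ δ₂) ^ (48 * E)) ^ (E ^ 2)) +
      ((max δ₁ δ₂ * (48 * E * E ^ 2) : ℕ) : ℝ) * (lq + h) +
      ((48 * E * E ^ 2 : ℕ) : ℝ) * (Real.log (K * ((E : ℝ) ^ M) ^ 2 * (2 * (u : ℝ) + 2) ^ δ₂) + δ₂ * h) ≤
    (202 + 96 * (2 * Real.log K + 2 * M + δ₂ * (M + 2)) + 48 * (max δ₁ δ₂ : ℕ) * M + 96 * ((max δ₁ δ₂ : ℕ) + δ₂)) * E ^ 3 * Real.log E *
      (1 + h) := by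
  have hER : (2 : ℝ) ≤ E := by exact_mod_cast hE
  have hE0 : (0 : ℝ) < E := by linarith
  have hlog2 : Real.log 2 ≤ Real.log E := Real.log_le_log (by norm_num) hER
  have hl2 : (1 : ℝ) / 2 < Real.log 2 := by
    have := Real.log_two_gt_d9
    linarith
  have hl0 : 0 < Real.log E := by linarith
  have hl1 : 1 ≤ 2 * Real.log E := by linarith
  have hlK : 0 ≤ Real.log K := Real.log_nonneg hK
  have hH1 : 1 ≤ l7H E := l7_H_one E (by omega)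
  have hH := l7_H_log E hE
  have hu0 : (0 : ℝ) ≤ u := Nat.cast_nonneg u
  have huE : (u : ℝ) ≤ (E : ℝ) ^ M := by exact_mod_cast hu
  have hEM : 1 ≤ (E : ℝ) ^ M := one_le_pow₀ (by linarith)
  have hlu : Real.log (2 * (u : ℝ) + 2) ≤ (M + 2) * Real.log E := by
    have h1 : 2 * (u : ℝ) + 2 ≤ 2 ^ 2 * (E : ℝ) ^ M := by linarith
    refine (Real.log_le_log (by positivity) h1).trans ?_
    rw [Real.log_mul (by norm_num) (by positivity), Real.log_pow, Real.log_pow]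
    push_cast
    linarith
  have hK0 : 0 < K := by linarith
  obtain ⟨a0, ha0⟩ : ∃ a0, a0 = Real.log (K * ((E : ℝ) ^ M) ^ 2 * (2 * (u : ℝ) + 2) ^ δ₂) := ⟨_, rfl⟩
  have hab : a0 ≤ (2 * Real.log K + 2 * M + δ₂ * (M + 2)) * Real.log E := by
    rw [ha0, Real.log_mul (by positivity) (by positivity), Real.log_mul (by positivity) (by positivity), Real.log_pow,
      Real.log_pow, Real.log_pow]
    push_cast
    have h2 : (δ₂ : ℝ) * Real.log (2 * (u : ℝ) + 2) ≤ δ₂ * ((M + 2) * Real.log E) :=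
      mul_le_mul_of_nonneg_left hlu (Nat.cast_nonneg _)
    have h3 : Real.log K ≤ Real.log K * (2 * Real.log E) := le_mul_of_one_le_right hlK hl1
    nlinarith
  have hpos : 0 < K * ((E : ℝ) ^ M) ^ 2 * (2 * (u : ℝ) + 2) ^ δ₂ := by positivity
  have hH0 : 0 < l7H E := by linarith
  rw [Real.log_mul (by positivity) (by positivity), Real.log_pow, Real.log_pow, Real.log_pow,
    Real.log_mul hH0.ne' (by positivity), Real.log_pow, ← ha0]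
  push_cast
  obtain ⟨δ, hδ⟩ : ∃ δ : ℝ, δ = max (δ₁ : ℝ) δ₂ := ⟨_, rfl⟩
  have hδ0 : 0 ≤ δ := by rw [hδ]; exact le_max_of_le_left (Nat.cast_nonneg _)
  rw [← hδ]
  obtain ⟨lg, hlg⟩ : ∃ lg, lg = Real.log E := ⟨_, rfl⟩
  rw [← hlg] at hab hlq hl1 hl0 hH ⊢
  obtain ⟨R, hR⟩ : ∃ R, R = 2 * Real.log K + 2 * (M : ℝ) + δ₂ * (M + 2) := ⟨_, rfl⟩
  rw [← hR] at hab ⊢
  have hR0 : 0 ≤ R := by rw [hR]; positivity
  have hM0 : (0 : ℝ) ≤ M := Nat.cast_nonneg M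
  have hd2 : (0 : ℝ) ≤ δ₂ := Nat.cast_nonneg δ₂
  have hE3 : 0 < (E : ℝ) ^ 3 := by positivity
  have t1 : (E : ℝ) ^ 2 * (2 * lg) ≤ 2 * ((E : ℝ) ^ 3 * lg) := by
    have : (E : ℝ) ^ 2 ≤ (E : ℝ) ^ 3 := pow_le_pow_right₀ (by linarith) (by norm_num)
    nlinarith
  have t2 : (E : ℝ) ^ 2 * Real.log (l7H E) ≤ 200 * ((E : ℝ) ^ 3 * lg) := by
    calc (E : ℝ) ^ 2 * Real.log (l7H E) ≤ (E : ℝ) ^ 2 * (200 * (E * lg)) := mul_le_mul_of_nonneg_left hH (by positivity)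
      _ = 200 * ((E : ℝ) ^ 3 * lg) := by ring
  have t3 : 48 * (E : ℝ) ^ 3 * a0 ≤ 48 * R * ((E : ℝ) ^ 3 * lg) := by
    calc 48 * (E : ℝ) ^ 3 * a0 ≤ 48 * (E : ℝ) ^ 3 * (R * lg) := mul_le_mul_of_nonneg_left hab (by positivity)
      _ = 48 * R * ((E : ℝ) ^ 3 * lg) := by ring
  have t4 : 48 * δ * (E : ℝ) ^ 3 * lq ≤ 48 * δ * M * ((E : ℝ) ^ 3 * lg) := by
    calc 48 * δ * (E : ℝ) ^ 3 * lq ≤ 48 * δ * (E : ℝ) ^ 3 * (M * lg) := mul_le_mul_of_nonneg_left hlq (by positivity)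
      _ = 48 * δ * M * ((E : ℝ) ^ 3 * lg) := by ring
  have t5 : 48 * (δ + δ₂) * (E : ℝ) ^ 3 * h ≤ 96 * (δ + δ₂) * ((E : ℝ) ^ 3 * lg) * h := by
    have : 48 * (δ + δ₂) * (E : ℝ) ^ 3 * h ≤ 48 * (δ + δ₂) * (E : ℝ) ^ 3 * h * (2 * lg) :=
      le_mul_of_one_le_right (by positivity) hl1
    calc 48 * (δ + δ₂) * (E : ℝ) ^ 3 * h ≤ 48 * (δ + δ₂) * (E : ℝ) ^ 3 * h * (2 * lg) := this
      _ = 96 * (δ + δ₂) * ((E : ℝ) ^ 3 * lg) * h := by ring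
  have t6 : 0 ≤ (202 + 96 * R + 48 * δ * M) * ((E : ℝ) ^ 3 * lg) * h := by positivity
  have t7 : 0 ≤ 96 * (δ + δ₂) * ((E : ℝ) ^ 3 * lg) := by positivity
  have lhs : (E : ℝ) ^ 2 * (2 * lg) + (E : ℝ) ^ 2 * (Real.log (l7H E) + 48 * E * a0) + δ * (48 * E * (E : ℝ) ^ 2) * (lq + h) +
      48 * E * (E : ℝ) ^ 2 * (a0 + δ₂ * h) = (E : ℝ) ^ 2 * (2 * lg) + (E : ℝ) ^ 2 * Real.log (l7H E) + 2 * (48 * (E : ℝ) ^ 3 * a0) +
      48 * δ * (E : ℝ) ^ 3 * lq + 48 * (δ + δ₂) * (E : ℝ) ^ 3 * h := by ring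
  rw [lhs]
  have rhs : (202 + 96 * R + 48 * δ * M + 96 * (δ + δ₂)) * (E : ℝ) ^ 3 * lg * (1 + h) =
      2 * ((E : ℝ) ^ 3 * lg) + 200 * ((E : ℝ) ^ 3 * lg) + 2 * (48 * R * ((E : ℝ) ^ 3 * lg)) + 48 * δ * M * ((E : ℝ) ^ 3 * lg) +
      96 * (δ + δ₂) * ((E : ℝ) ^ 3 * lg) * h + (202 + 96 * R + 48 * δ * M) * ((E : ℝ) ^ 3 * lg) * h +
      96 * (δ + δ₂) * ((E : ℝ) ^ 3 * lg) := by ring
  rw [rhs]
  linarith

/-- L7. PROOF. `T = 8E`, `m₀ = 8E + 5T = 48 E` (`c5_Rp` with `d = 2`: degrees `≤ m₀`, lengths `≤ (C E)^(C E)`), `A = Den F q p.x ≠ 0`, `γ = A^(m₀ E²) det`, `D = δ m₀ E²` with `δ` the maximum of the two constants of `pt_val`, `pt_arch`. `γ ≠ 0`.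
Valuations: for `c ≥ 1` with `v (x i) ≤ c`: `v A ≤ c^δ`, `v (A s) ≤ c^δ` for all values `s`, so `v (A^m₀ entry) ≤ c^(δ m₀)` (`val_mv`), `v γ ≤ c^D` (`val_det`, `card (Ir 2 E) = E²`); `val_proj`.
Absolute values: for `g`: the point `p.map (embedding ∘ g)` (`map_v`, `spv_map`, `Den_map`, `DL_map`), `c = (2u + 2) C`, `C = max 1 ‖g α‖ max 1 ‖g β‖` (`arch_proj`), `B = E^M`: `‖g (A^m₀ entry)‖ ≤ (C₁E)^(C₁E) (K B² c^δ)^m₀`, `‖g γ‖ ≤ (E²)^(E²) (..)^(E²) = H C^D`, `log H ≤ C₂ E³ log E` (`u ≤ E^M`, `2 ≤ E`).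
`liou` with `q = u - w`, `|q| ≤ E^M`: `∑_N log ‖g γ‖ ≥ - card G (C₂ E³ log E + δ 48 E³ (M log E + hgt α + hgt β))`. And `log ‖g γ‖ = 48 E³ log ‖g A‖ + log ‖g det‖`, `log ‖g A‖ ≤ log (K B² (2u+2)^δ) + δ (log max 1 ‖g α‖ + log max 1 ‖g β‖)`, so by `sum_log_max` (terms are `≥ 0`, sum over all of `G`)
`∑_N log ‖g A‖ ≤ card G (C₃ log E + δ (hgt α + hgt β))`. (`hgt ≥ 0` as `MM ≥ 1`.) -/
theorem lower (P : Par 2) (F : Fin 5 → FP) (q : ℕ) (hq0 : 1 ≤ q) (hq : ∀ l, ∃ m : ℤ, (q : ℚ) * P.b l = m) (M : ℕ) : ∃ C : ℝ, 1 ≤ C ∧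
    ∀ (L : IntermediateField ℚ ℂ) [FiniteDimensional ℚ L] [IsGalois ℚ L] (p : LQ L), (∀ i, (spv p.x (F i)).eval (p.w i) = 0) →
      (∀ i, MvPolynomial.aeval p.x (F i).leadingCoeff ≠ 0) → ∀ E : ℕ, 2 ≤ E → (∀ l, p.X l ≤ E ^ M) → ∀ u w : ℕ, u ≠ w → u ≤ E ^ M → w ≤ E ^ M →
      ∀ (a : Ir 2 E → Fin 2 → ℕ) (k : Ir 2 E → ℕ), (∀ i j, a i j ≤ 8 * E) → (∀ i, k i ≤ 8 * E) → (DL (p.v P) a k).det ≠ 0 →
      ∀ N : Finset (L ≃ₐ[ℚ] L),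
        -((Fintype.card (L ≃ₐ[ℚ] L) : ℝ) * (C * E ^ 3 * Real.log E * (1 + hgt ((p.x 0 + u * p.x 1 : L) : ℂ) + hgt ((p.x 0 + w * p.x 1 : L) : ℂ)))) ≤
          ∑ g ∈ N, Real.log ‖((g (DL (p.v P) a k).det : L) : ℂ)‖ := by
  obtain ⟨δ₁, hδ₁, hval⟩ := pt_val P F q hq
  obtain ⟨δ₂, K, hδ₂, hK, harch⟩ := pt_arch P F q
  have hlK : 0 ≤ Real.log K := Real.log_nonneg hK
  refine ⟨202 + 96 * (2 * Real.log K + 2 * M + δ₂ * (M + 2)) + 48 * (max δ₁ δ₂ : ℕ) * M + 96 * ((max δ₁ δ₂ : ℕ) + δ₂), ?_, ?_⟩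
  · have : 0 ≤ 96 * (2 * Real.log K + 2 * M + δ₂ * ((M : ℝ) + 2)) + 48 * ((max δ₁ δ₂ : ℕ) : ℝ) * M + 96 * (((max δ₁ δ₂ : ℕ) : ℝ) + δ₂) := by
      positivity
    linarith
  intro L _ _ p hroot hlead E hE hX u w huw hu hw a k ha hk hdet N
  have hE1 : 1 ≤ E := by omega
  have hE0 : (0 : ℝ) < E := by exact_mod_cast hE1
  have hER : (2 : ℝ) ≤ E := by exact_mod_cast hE
  -- the denominator
  have hA : Den F q p.x ≠ 0 := by
    unfold Den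
    refine mul_ne_zero (by exact_mod_cast (by omega : q ≠ 0)) ?_
    exact Finset.prod_ne_zero_iff.2 fun i _ => hlead i
  have hγ : Den F q p.x ^ (48 * E * E ^ 2) * (DL (p.v P) a k).det ≠ 0 := mul_ne_zero (pow_ne_zero _ hA) hdet
  have hEM : 1 ≤ (E : ℝ) ^ M := one_le_pow₀ (by linarith)
  -- the archimedean data of an embedding
  have key : ∀ g : L ≃ₐ[ℚ] L,
      ‖((g (Den F q p.x) : L) : ℂ)‖ ≤ K * ((E : ℝ) ^ M) ^ 2 * (2 * (u : ℝ) + 2) ^ δ₂ *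
        (max 1 ‖((g (p.x 0 + u * p.x 1) : L) : ℂ)‖ * max 1 ‖((g (p.x 0 + w * p.x 1) : L) : ℂ)‖) ^ δ₂ ∧
      ‖((g (Den F q p.x ^ (48 * E * E ^ 2) * (DL (p.v P) a k).det) : L) : ℂ)‖ ≤
        (((E : ℝ) ^ 2) ^ (E ^ 2) * (l7H E * (K * ((E : ℝ) ^ M) ^ 2 * (2 * (u : ℝ) + 2) ^ δ₂) ^ (48 * E)) ^ (E ^ 2)) *
          (max 1 ‖((g (p.x 0 + u * p.x 1) : L) : ℂ)‖ * max 1 ‖((g (p.x 0 + w * p.x 1) : L) : ℂ)‖) ^ (δ₂ * (48 * E * E ^ 2)) := by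
    intro g
    have ex : ∀ n : ℕ, ((g (p.x 0 + n * p.x 1) : L) : ℂ) = (p.map (l7f L g)).x 0 + n * (p.map (l7f L g)).x 1 := by
      intro n
      rw [← l7f_apply L g, map_add, map_mul, map_natCast]
      rfl
    rw [ex u, ex w]
    have hr' : ∀ i, (spv (p.map (l7f L g)).x (F i)).eval ((p.map (l7f L g)).w i) = 0 := by
      intro i
      have e1 : spv (p.map (l7f L g)).x (F i) = (spv p.x (F i)).map (l7f L g) := spv_map (l7f L g) p.x (F i)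
      have e2 : (p.map (l7f L g)).w i = l7f L g (p.w i) := rfl
      rw [e1, e2, Polynomial.eval_map, Polynomial.eval₂_at_apply, hroot i, map_zero]
    set Cg := max 1 ‖(p.map (l7f L g)).x 0 + u * (p.map (l7f L g)).x 1‖ * max 1 ‖(p.map (l7f L g)).x 0 + w * (p.map (l7f L g)).x 1‖ with hCg
    have hCg1 : 1 ≤ Cg := one_le_mul_of_one_le_of_one_le (le_max_left _ _) (le_max_left _ _)
    have hc1 : 1 ≤ (2 * (u : ℝ) + 2) * Cg := one_le_mul_of_one_le_of_one_le (by linarith [(Nat.cast_nonneg u : (0 : ℝ) ≤ u)]) hCg1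
    have hpt := harch (p.map (l7f L g)) hr' ((E : ℝ) ^ M) ((2 * (u : ℝ) + 2) * Cg) hEM (fun l => by
      have := hX l
      exact_mod_cast this) hc1 (fun i => arch_proj _ u w huw i)
    have eD : Den F q (p.map (l7f L g)).x = l7f L g (Den F q p.x) := Den_map (l7f L g) F q p.x
    have eDL : (DL ((p.map (l7f L g)).v P) a k).det = l7f L g (DL (p.v P) a k).det := by
      rw [← DL_map]
      congr 2
      funext s
      exact map_v P (l7f L g) p s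
    refine ⟨?_, ?_⟩
    · rw [← l7f_apply L g, ← eD]
      refine hpt.1.trans (le_of_eq ?_)
      rw [mul_pow]
      ring
    · have h5 := l7_arch P F q δ₂ K hK (p.map (l7f L g)) ((E : ℝ) ^ M) ((2 * (u : ℝ) + 2) * Cg) hEM hc1 hpt E hE1 a k ha hk
      rw [eD, eDL, ← map_pow, ← map_mul, l7f_apply] at h5
      refine h5.trans (le_of_eq ?_)
      rw [mul_pow (2 * (u : ℝ) + 2) Cg δ₂, ← mul_assoc (K * ((E : ℝ) ^ M) ^ 2), mul_pow (K * ((E : ℝ) ^ M) ^ 2 * (2 * (u : ℝ) + 2) ^ δ₂),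
        ← mul_assoc (l7H E), mul_pow (l7H E * (K * ((E : ℝ) ^ M) ^ 2 * (2 * (u : ℝ) + 2) ^ δ₂) ^ (48 * E)), ← pow_mul Cg, ← pow_mul Cg]
      ring
  have hpos0 : 0 < K * ((E : ℝ) ^ M) ^ 2 * (2 * (u : ℝ) + 2) ^ δ₂ := by positivity
  have hone : 1 ≤ K * ((E : ℝ) ^ M) ^ 2 * (2 * (u : ℝ) + 2) ^ δ₂ := by
    refine one_le_mul_of_one_le_of_one_le (one_le_mul_of_one_le_of_one_le hK (one_le_pow₀ hEM)) (one_le_pow₀ ?_)
    linarith [(Nat.cast_nonneg u : (0 : ℝ) ≤ u)]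
  have hH1 := l7_H_one E hE1
  have hHone : 1 ≤ ((E : ℝ) ^ 2) ^ (E ^ 2) * (l7H E * (K * ((E : ℝ) ^ M) ^ 2 * (2 * (u : ℝ) + 2) ^ δ₂) ^ (48 * E)) ^ (E ^ 2) := by
    refine one_le_mul_of_one_le_of_one_le (one_le_pow₀ (one_le_pow₀ (by linarith))) (one_le_pow₀ ?_)
    exact one_le_mul_of_one_le_of_one_le hH1 (one_le_pow₀ hone)
  -- Liouville
  have hqq : ((u : ℤ) - w) ≠ 0 := by
    intro h0
    exact huw (by omega)
  have hl := liou L (p.x 0 + u * p.x 1) (p.x 0 + w * p.x 1) (Den F q p.x ^ (48 * E * E ^ 2) * (DL (p.v P) a k).det) ((u : ℤ) - w) hqq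
    (max δ₁ δ₂ * (48 * E * E ^ 2)) _ hHone hγ
    (fun v => val_proj L p.x u w (max δ₁ δ₂ * (48 * E * E ^ 2)) _
      (fun v c hc hx => l7_val P F q δ₁ (max δ₁ δ₂) (le_max_left _ _) L p (hval L p hroot) E hE1 a k ha hk v c hc hx) v)
    (fun g => (key g).2.trans (by
      refine mul_le_mul_of_nonneg_left ?_ (by linarith)
      refine pow_le_pow_right₀ (one_le_mul_of_one_le_of_one_le (le_max_left _ _) (le_max_left _ _)) ?_
      exact Nat.mul_le_mul_right _ (le_max_right _ _))) N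
  -- the logarithms of the denominator
  have hsplit : ∀ g : L ≃ₐ[ℚ] L, Real.log ‖((g (Den F q p.x ^ (48 * E * E ^ 2) * (DL (p.v P) a k).det) : L) : ℂ)‖ =
      ((48 * E * E ^ 2 : ℕ) : ℝ) * Real.log ‖((g (Den F q p.x) : L) : ℂ)‖ + Real.log ‖((g (DL (p.v P) a k).det : L) : ℂ)‖ := by
    intro g
    have n1 : ((g (Den F q p.x) : L) : ℂ) ≠ 0 := by
      intro h0
      apply hA
      have : g (Den F q p.x) = 0 := Subtype.ext h0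
      exact (map_eq_zero_iff g g.injective).1 this
    have n2 : ((g (DL (p.v P) a k).det : L) : ℂ) ≠ 0 := by
      intro h0
      apply hdet
      have : g (DL (p.v P) a k).det = 0 := Subtype.ext h0
      exact (map_eq_zero_iff g g.injective).1 this
    rw [map_mul, map_pow, MulMemClass.coe_mul, SubmonoidClass.coe_pow, norm_mul, norm_pow,
      Real.log_mul (pow_ne_zero _ (norm_ne_zero_iff.2 n1)) (norm_ne_zero_iff.2 n2), Real.log_pow]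
  have hlogA : ∀ g : L ≃ₐ[ℚ] L, Real.log ‖((g (Den F q p.x) : L) : ℂ)‖ ≤
      Real.log (K * ((E : ℝ) ^ M) ^ 2 * (2 * (u : ℝ) + 2) ^ δ₂) + δ₂ * (Real.log (max 1 ‖((g (p.x 0 + u * p.x 1) : L) : ℂ)‖) +
        Real.log (max 1 ‖((g (p.x 0 + w * p.x 1) : L) : ℂ)‖)) := by
    intro g
    have n1 : 0 < ‖((g (Den F q p.x) : L) : ℂ)‖ := by
      rw [norm_pos_iff]
      intro h0
      apply hA
      have : g (Den F q p.x) = 0 := Subtype.ext h0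
      exact (map_eq_zero_iff g g.injective).1 this
    have m1 : 0 < max 1 ‖((g (p.x 0 + u * p.x 1) : L) : ℂ)‖ := lt_of_lt_of_le one_pos (le_max_left _ _)
    have m2 : 0 < max 1 ‖((g (p.x 0 + w * p.x 1) : L) : ℂ)‖ := lt_of_lt_of_le one_pos (le_max_left _ _)
    refine (Real.log_le_log n1 (key g).1).trans (le_of_eq ?_)
    rw [Real.log_mul hpos0.ne' (by positivity), Real.log_pow, Real.log_mul m1.ne' m2.ne']
  have hsumA : ∑ g ∈ N, Real.log ‖((g (Den F q p.x) : L) : ℂ)‖ ≤ (Fintype.card (L ≃ₐ[ℚ] L) : ℝ) *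
      (Real.log (K * ((E : ℝ) ^ M) ^ 2 * (2 * (u : ℝ) + 2) ^ δ₂) + δ₂ * (hgt ((p.x 0 + u * p.x 1 : L) : ℂ) +
        hgt ((p.x 0 + w * p.x 1 : L) : ℂ))) := by
    have hnn : ∀ g : L ≃ₐ[ℚ] L, 0 ≤ Real.log (K * ((E : ℝ) ^ M) ^ 2 * (2 * (u : ℝ) + 2) ^ δ₂) +
        δ₂ * (Real.log (max 1 ‖((g (p.x 0 + u * p.x 1) : L) : ℂ)‖) + Real.log (max 1 ‖((g (p.x 0 + w * p.x 1) : L) : ℂ)‖)) := by
      intro g
      have a1 := Real.log_nonneg hone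
      have a2 := Real.log_nonneg (le_max_left 1 ‖((g (p.x 0 + u * p.x 1) : L) : ℂ)‖)
      have a3 := Real.log_nonneg (le_max_left 1 ‖((g (p.x 0 + w * p.x 1) : L) : ℂ)‖)
      positivity
    refine (Finset.sum_le_sum fun g _ => hlogA g).trans ?_
    refine (Finset.sum_le_sum_of_subset_of_nonneg (Finset.subset_univ N) fun g _ _ => hnn g).trans ?_
    rw [Finset.sum_add_distrib, Finset.sum_const, ← Finset.mul_sum, Finset.sum_add_distrib, Finset.card_univ, nsmul_eq_mul]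
    have s1 := sum_log_max L (p.x 0 + u * p.x 1)
    have s2 := sum_log_max L (p.x 0 + w * p.x 1)
    have hd : (0 : ℝ) ≤ δ₂ := Nat.cast_nonneg _
    nlinarith [mul_le_mul_of_nonneg_left (add_le_add s1 s2) hd]
  rw [Finset.sum_congr rfl fun g _ => hsplit g, Finset.sum_add_distrib, ← Finset.mul_sum] at hl
  have hh1 := l7_hgt ((p.x 0 + u * p.x 1 : L) : ℂ)
  have hh2 := l7_hgt ((p.x 0 + w * p.x 1 : L) : ℂ)
  have hlq : Real.log |(((u : ℤ) - w : ℤ) : ℝ)| ≤ M * Real.log E := by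
    rw [← Real.log_pow]
    refine Real.log_le_log ?_ ?_
    · rw [abs_pos]
      exact_mod_cast hqq
    · have : |((u : ℤ) - w)| ≤ ((E ^ M : ℕ) : ℤ) := by
        rw [abs_le]
        constructor <;> omega
      have h7 : ((|((u : ℤ) - w)| : ℤ) : ℝ) ≤ (((E ^ M : ℕ) : ℤ) : ℝ) := by exact_mod_cast this
      rw [Int.cast_abs] at h7
      refine h7.trans (le_of_eq ?_)
      push_cast
      rfl
  have hfin := l7_fin E M δ₁ δ₂ hE K (Real.log |(((u : ℤ) - w : ℤ) : ℝ)|) (hgt ((p.x 0 + u * p.x 1 : L) : ℂ) + hgt ((p.x 0 + w * p.x 1 : L) : ℂ)) hK u hu hlq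
    (by linarith)
  have hG : (0 : ℝ) ≤ (Fintype.card (L ≃ₐ[ℚ] L) : ℝ) := Nat.cast_nonneg _
  have hm := mul_le_mul_of_nonneg_left hfin hG
  have hmA := mul_le_mul_of_nonneg_left hsumA (Nat.cast_nonneg (48 * E * E ^ 2) : (0 : ℝ) ≤ ((48 * E * E ^ 2 : ℕ) : ℝ))
  generalize (∑ g ∈ N, Real.log ‖((g (DL (p.v P) a k).det : L) : ℂ)‖) = S1 at *
  generalize (∑ g ∈ N, Real.log ‖((g (Den F q p.x) : L) : ℂ)‖) = S2 at *
  generalize hgt ((p.x 0 + u * p.x 1 : L) : ℂ) = g1 at *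
  generalize hgt ((p.x 0 + w * p.x 1 : L) : ℂ) = g2 at *
  generalize (Fintype.card (L ≃ₐ[ℚ] L) : ℝ) = G at *
  nlinarith [hm, hmA, hl]

end Pool.Agent.MSL
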