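import Pool.Agent.Lib.MP_f58a57_nt.L.Defs2

/-! # L/M1_Upper: the upper bound for the determinants near the original curve -/

open Filter

noncomputable section

namespace Pool.Agent.MSL

open MSD MSP MSK MSR

theorem m1_prod (E M : ℕ) (hE : 2 ≤ E) (C₀ : ℕ) (hC₀ : 1 ≤ C₀) (μ : ℝ) (h0 : 0 ≤ μ) (h4 : μ ≤ (E : ℝ) ^ 4)
    (hδ : (E : ℝ) ^ M * Real.exp (-μ) ≤ 1) :
    ∏ m ∈ Finset.range (E ^ 2), (Real.exp (-((m : ℝ) ^ 2 / C₀)) + (E : ℝ) ^ M * Real.exp (-μ)) ≤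
      (2 * (E : ℝ) ^ M) ^ (E ^ 2) * Real.exp (-(μ / (4 * C₀))) ^ (E ^ 2 - (E ^ 2 + 1) / 2) := by
  have hEr : (2 : ℝ) ≤ E := by exact_mod_cast hE
  have hC : (1 : ℝ) ≤ C₀ := by exact_mod_cast hC₀
  have hEM : (1 : ℝ) ≤ (E : ℝ) ^ M := one_le_pow₀ (by linarith)
  set c : ℝ := Real.exp (-(μ / (4 * C₀))) with hc
  set n : ℕ := E ^ 2 with hn
  have hk : (n + 1) / 2 ≤ n := by
    have : 4 ≤ n := by rw [hn]; nlinarith
    omega
  have hf0 : ∀ m : ℕ, 0 ≤ Real.exp (-((m : ℝ) ^ 2 / C₀)) + (E : ℝ) ^ M * Real.exp (-μ) := fun m => by positivity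
  have hA : ∀ m : ℕ, Real.exp (-((m : ℝ) ^ 2 / C₀)) + (E : ℝ) ^ M * Real.exp (-μ) ≤ 2 * (E : ℝ) ^ M := by
    intro m
    have h1 : Real.exp (-((m : ℝ) ^ 2 / C₀)) ≤ 1 := by
      rw [Real.exp_le_one_iff]
      have : 0 ≤ (m : ℝ) ^ 2 / C₀ := by positivity
      linarith
    linarith
  have hB : ∀ m : ℕ, n ≤ 2 * m → Real.exp (-((m : ℝ) ^ 2 / C₀)) + (E : ℝ) ^ M * Real.exp (-μ) ≤ 2 * (E : ℝ) ^ M * c := by
    intro m hm
    have hm' : (E : ℝ) ^ 2 ≤ 2 * m := by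
      have : ((E ^ 2 : ℕ) : ℝ) ≤ ((2 * m : ℕ) : ℝ) := by exact_mod_cast hm
      push_cast at this
      exact this
    have hm2 : (E : ℝ) ^ 4 ≤ 4 * (m : ℝ) ^ 2 := by
      have h5 : 0 ≤ (E : ℝ) ^ 2 := by positivity
      nlinarith
    have h1 : Real.exp (-((m : ℝ) ^ 2 / C₀)) ≤ c := by
      rw [hc]
      refine Real.exp_le_exp.2 ?_
      have : μ / (4 * C₀) ≤ (m : ℝ) ^ 2 / C₀ := by
        rw [div_le_div_iff₀ (by positivity) (by positivity)]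
        nlinarith
      linarith
    have h2 : Real.exp (-μ) ≤ c := by
      rw [hc]
      refine Real.exp_le_exp.2 ?_
      have : μ / (4 * C₀) ≤ μ := div_le_self h0 (by linarith)
      linarith
    have hc0 : 0 ≤ c := Real.exp_nonneg _
    calc Real.exp (-((m : ℝ) ^ 2 / C₀)) + (E : ℝ) ^ M * Real.exp (-μ) ≤ c + (E : ℝ) ^ M * c :=
          add_le_add h1 (mul_le_mul_of_nonneg_left h2 (by positivity))
      _ ≤ (E : ℝ) ^ M * c + (E : ℝ) ^ M * c := by nlinarith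
      _ = _ := by ring
  rw [← Finset.prod_range_mul_prod_Ico _ hk]
  have h1 : ∏ m ∈ Finset.range ((n + 1) / 2), (Real.exp (-((m : ℝ) ^ 2 / C₀)) + (E : ℝ) ^ M * Real.exp (-μ)) ≤
      (2 * (E : ℝ) ^ M) ^ ((n + 1) / 2) := by
    refine (Finset.prod_le_prod (fun m _ => hf0 m) fun m _ => hA m).trans ?_
    rw [Finset.prod_const, Finset.card_range]
  have h2 : ∏ m ∈ Finset.Ico ((n + 1) / 2) n, (Real.exp (-((m : ℝ) ^ 2 / C₀)) + (E : ℝ) ^ M * Real.exp (-μ)) ≤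
      (2 * (E : ℝ) ^ M * c) ^ (n - (n + 1) / 2) := by
    refine (Finset.prod_le_prod (fun m _ => hf0 m) fun m hm => hB m ?_).trans ?_
    · have := (Finset.mem_Ico.1 hm).1
      omega
    rw [Finset.prod_const, Nat.card_Ico]
  calc _ ≤ (2 * (E : ℝ) ^ M) ^ ((n + 1) / 2) * (2 * (E : ℝ) ^ M * c) ^ (n - (n + 1) / 2) :=
        mul_le_mul h1 h2 (Finset.prod_nonneg fun m _ => hf0 m) (by positivity)
    _ = _ := by
      rw [mul_pow (2 * (E : ℝ) ^ M) c, ← mul_assoc, ← pow_add, Nat.add_sub_cancel' hk]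

/-- M1. PROOF. `DetSmall` with `T = 8E`, `B = E^M` (`≥ 2`), `δ = E^M exp (-μ)`. `C₀` its constant. For `m ≥ E²/2` (at least `E²/2` indices in `range (E²)`): `exp (-(m²/C₀)) ≤ exp (-(E⁴/(4C₀))) ≤ exp (-(μ/(4C₀)))` (`μ ≤ E⁴`) and `δ ≤ E^M exp (-(μ/(4C₀)))`, so the factor is `≤ 2 E^M exp (-(μ/(4C₀)))`; the other
factors are `≤ 2 ≤ 2 E^M`. Product `≤ (2E^M)^(E²) exp (-(μ E²/(8C₀)))`. `(B T)^(C₀ T E²) = (8 E^(M+1))^(8 C₀ E³) ≤ exp (C E³ log E)` as `log (8 E^(M+1)) ≤ (M + 4) log E` for `E ≥ 2`. -/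
theorem upper (P : Par 2) (hD : DetSmall P) (H : ℝ) (M : ℕ) (hM : 1 ≤ M) : ∃ C : ℝ, 1 ≤ C ∧ ∀ E : ℕ, 2 ≤ E → ∀ D : Dt 2, D.τ = P.z → D.om ^ 2 = Real.pi →
    D.kap = sE P.z / Real.pi → (∀ l, ‖D.h l‖ ≤ H) → (∀ v, ‖vals P D v‖ ≤ E ^ M) → ∀ (x : Vr 2 → ℂ) (μ : ℝ), 0 ≤ μ → μ ≤ E ^ 4 →
      (E : ℝ) ^ M * Real.exp (-μ) ≤ 1 → (∀ v, ‖x v - vals P D v‖ ≤ (E : ℝ) ^ M * Real.exp (-μ)) →
        ∀ (a : Ir 2 E → Fin 2 → ℕ) (k : Ir 2 E → ℕ), (∀ i j, a i j ≤ 8 * E) → (∀ i, k i ≤ 8 * E) →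
          ‖(DL x a k).det‖ ≤ Real.exp (C * E ^ 3 * Real.log E - μ * E ^ 2 / C) := by
  obtain ⟨C₀, hC₀, hdet⟩ := hD H
  have hC : (1 : ℝ) ≤ C₀ := by exact_mod_cast hC₀
  refine ⟨8 * C₀ * (M + 4) + (M + 1) + 16 * C₀, by nlinarith [(Nat.cast_nonneg M : (0:ℝ) ≤ M)], ?_⟩
  intro E hE D hτ hom hkap hh hvals x μ h0 h4 hδ hx a k ha hk
  have hEr : (2 : ℝ) ≤ E := by exact_mod_cast hE
  have hL : 0 < Real.log E := Real.log_pos (by linarith)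
  have hl2 : Real.log 2 ≤ Real.log E := Real.log_le_log (by norm_num) hEr
  have hB : (2 : ℝ) ≤ (E : ℝ) ^ M := by
    calc (2 : ℝ) ≤ (E : ℝ) ^ 1 := by rw [pow_one]; exact hEr
      _ ≤ (E : ℝ) ^ M := pow_le_pow_right₀ (by linarith) hM
  have h1 := hdet D hτ hom hkap hh ((E : ℝ) ^ M) hB hvals E (8 * E) (by omega) (by omega) x
    ((E : ℝ) ^ M * Real.exp (-μ)) (by positivity) hδ hx a k ha hk
  refine h1.trans ?_
  have h2 := m1_prod E M hE C₀ hC₀ μ h0 h4 hδ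
  have e1 : (E : ℝ) = Real.exp (Real.log E) := (Real.exp_log (by linarith)).symm
  have h3 : (E : ℝ) ^ M * ((8 * E : ℕ) : ℝ) ≤ Real.exp ((M + 4) * Real.log E) := by
    have h8 : (8 : ℝ) ≤ (E : ℝ) ^ 3 := by
      calc (8 : ℝ) = 2 ^ 3 := by norm_num
        _ ≤ (E : ℝ) ^ 3 := pow_le_pow_left₀ (by norm_num) hEr 3
    have e2 : Real.exp ((M + 4) * Real.log E) = (E : ℝ) ^ (M + 4) := by
      rw [← Real.exp_log (show (0 : ℝ) < (E : ℝ) ^ (M + 4) by positivity), Real.log_pow]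
      push_cast
      rfl
    rw [e2]
    push_cast
    calc (E : ℝ) ^ M * (8 * E) ≤ (E : ℝ) ^ M * ((E : ℝ) ^ 3 * E) := by
          refine mul_le_mul_of_nonneg_left ?_ (by positivity)
          exact mul_le_mul_of_nonneg_right h8 (by positivity)
      _ = (E : ℝ) ^ (M + 4) := by ring
  have h5 : 2 * (E : ℝ) ^ M ≤ Real.exp ((M + 1) * Real.log E) := by
    have e2 : Real.exp ((M + 1) * Real.log E) = (E : ℝ) ^ (M + 1) := by
      rw [← Real.exp_log (show (0 : ℝ) < (E : ℝ) ^ (M + 1) by positivity), Real.log_pow]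
      push_cast
      rfl
    rw [e2, pow_succ, mul_comm]
    exact mul_le_mul_of_nonneg_left hEr (by positivity)
  have h6 : ((E : ℝ) ^ M * ((8 * E : ℕ) : ℝ)) ^ (C₀ * (8 * E) * E ^ 2) ≤
      Real.exp (8 * C₀ * (M + 4) * E ^ 3 * Real.log E) := by
    refine (pow_le_pow_left₀ (by positivity) h3 _).trans (le_of_eq ?_)
    rw [← Real.exp_nat_mul]
    push_cast
    congr 1
    ring
  have h7 : (2 * (E : ℝ) ^ M) ^ (E ^ 2) ≤ Real.exp ((M + 1) * E ^ 3 * Real.log E) := by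
    refine (pow_le_pow_left₀ (by positivity) h5 _).trans ?_
    rw [← Real.exp_nat_mul]
    refine Real.exp_le_exp.2 ?_
    push_cast
    have : (E : ℝ) ^ 2 ≤ (E : ℝ) ^ 3 := pow_le_pow_right₀ (by linarith) (by norm_num)
    have h9 : 0 ≤ ((M : ℝ) + 1) * Real.log E := by positivity
    nlinarith
  have h8 : Real.exp (-(μ / (4 * C₀))) ^ (E ^ 2 - (E ^ 2 + 1) / 2) ≤ Real.exp (-(μ * E ^ 2 / (16 * C₀))) := by
    rw [← Real.exp_nat_mul]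
    refine Real.exp_le_exp.2 ?_
    have h9 : (E : ℝ) ^ 2 / 4 ≤ ((E ^ 2 - (E ^ 2 + 1) / 2 : ℕ) : ℝ) := by
      have h10 : E ^ 2 ≤ 4 * (E ^ 2 - (E ^ 2 + 1) / 2) := by
        have : 4 ≤ E ^ 2 := by nlinarith
        omega
      have h11 : ((E ^ 2 : ℕ) : ℝ) ≤ ((4 * (E ^ 2 - (E ^ 2 + 1) / 2) : ℕ) : ℝ) := by exact_mod_cast h10
      rw [Nat.cast_mul] at h11
      push_cast at h11 ⊢
      linarith
    have h12 : 0 ≤ μ / (4 * C₀) := by positivity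
    have h13 : μ * E ^ 2 / (16 * C₀) = (E : ℝ) ^ 2 / 4 * (μ / (4 * C₀)) := by
      field_simp
      ring
    rw [h13]
    nlinarith
  have hK : 0 ≤ μ * (E : ℝ) ^ 2 := by positivity
  calc _ ≤ Real.exp (8 * C₀ * (M + 4) * E ^ 3 * Real.log E) * (Real.exp ((M + 1) * E ^ 3 * Real.log E) *
        Real.exp (-(μ * E ^ 2 / (16 * C₀)))) := by
        refine mul_le_mul h6 (h2.trans (mul_le_mul h7 h8 (by positivity) (by positivity))) ?_ (by positivity)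
        exact Finset.prod_nonneg fun m _ => by positivity
    _ = Real.exp ((8 * C₀ * (M + 4) + (M + 1)) * E ^ 3 * Real.log E - μ * E ^ 2 / (16 * C₀)) := by
        rw [← Real.exp_add, ← Real.exp_add]
        congr 1
        ring
    _ ≤ _ := by
        refine Real.exp_le_exp.2 ?_
        have h9 : μ * (E : ℝ) ^ 2 / (8 * C₀ * (M + 4) + (M + 1) + 16 * C₀) ≤ μ * (E : ℝ) ^ 2 / (16 * C₀) := by
          refine div_le_div_of_nonneg_left hK (by positivity) ?_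
          have : (0 : ℝ) ≤ 8 * C₀ * (M + 4) + (M + 1) := by positivity
          linarith
        have h10 : 0 ≤ 16 * (C₀ : ℝ) * E ^ 3 * Real.log E := by positivity
        nlinarith

end Pool.Agent.MSL
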