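import Pool.Agent.Lib.MP_f58a57_nt.L.Defs2

/-! # L/M2_Rows: rows with a nonzero determinant; two combinatorial lemmas -/

open Filter

noncomputable section

namespace Pool.Agent.MSL

open MSD MSP MSK MSR

/-- M2a. PROOF. The rows `R i` (`i : ι`) span the dual space: otherwise a nonzero `c` is orthogonal to the span. So a subfamily indexed by `κ` is a basis (`exists_linearIndependent`, cardinality `= card κ`), and the determinant of a basis is nonzero (`Matrix.linearIndependent_rows_iff_isUnit`). -/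
theorem exists_rows {ι κ K : Type} [Field K] [Fintype κ] [DecidableEq κ] (R : ι → κ → K) (h : ∀ c : κ → K, c ≠ 0 → ∃ i, ∑ j, R i j * c j ≠ 0) :
    ∃ ρ : κ → ι, (Matrix.of fun i j => R (ρ i) j).det ≠ 0 := by
  have hspan : Submodule.span K (Set.range R) = ⊤ := by
    by_contra hne
    obtain ⟨f, hf0, hf⟩ := Submodule.exists_le_ker_of_lt_top _ (lt_top_iff_ne_top.2 hne)
    have hval : ∀ v : κ → K, f v = ∑ j, v j * f (Pi.single j 1) := by
      intro v
      conv_lhs => rw [pi_eq_sum_univ' v]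
      rw [map_sum]
      refine Finset.sum_congr rfl fun j _ => ?_
      rw [map_smul, smul_eq_mul]
    have hc : (fun j => f (Pi.single j 1)) ≠ 0 := by
      intro h0
      apply hf0
      ext v
      have := congrFun h0 v
      simpa using this
    obtain ⟨i, hi⟩ := h _ hc
    apply hi
    have h1 : f (R i) = 0 := hf (Submodule.subset_span ⟨i, rfl⟩)
    rw [← hval]
    exact h1
  obtain ⟨b, hb, hbs, hbi⟩ := exists_linearIndependent K (Set.range R)
  rw [hspan] at hbs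
  let B : Module.Basis b K (κ → K) := Module.Basis.mk hbi (by
    rw [Subtype.range_coe_subtype]
    change ⊤ ≤ Submodule.span K b
    rw [hbs])
  have e : κ ≃ b := (Pi.basisFun K κ).indexEquiv B
  have hch : ∀ j, ∃ i, R i = (e j : κ → K) := fun j => hb (e j).2
  choose ρ hρ using hch
  refine ⟨ρ, ?_⟩
  have hli : LinearIndependent K (Matrix.of fun i j => R (ρ i) j).row := by
    have h1 : (Matrix.of fun i j => R (ρ i) j).row = (fun x : b => (x : κ → K)) ∘ e := by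
      funext i
      change R (ρ i) = _
      rw [hρ]
      rfl
    rw [h1]
    exact hbi.comp _ e.injective
  have h2 := Matrix.linearIndependent_rows_iff_isUnit.1 hli
  exact ((Matrix.isUnit_iff_isUnit_det _).1 h2).ne_zero

/-- M2b. PROOF. `exists_rows` for `ι = {(a, k) : a j ≤ 8E, k ≤ 8E}`. -/
theorem rows_of (E : ℕ) (x : Vr 2 → ℂ) (h : ∀ c : Ir 2 E → ℂ, c ≠ 0 → ∃ (a : Fin 2 → ℕ) (k : ℕ), (∀ j, a j ≤ 8 * E) ∧ k ≤ 8 * E ∧
    ∑ κ, c κ * MvPolynomial.aeval x ((der (fun j => (a j : ℤ)))^[k] (Rp (fun j => (κ j).val))) ≠ 0) :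
    ∃ (a : Ir 2 E → Fin 2 → ℕ) (k : Ir 2 E → ℕ), (∀ i j, a i j ≤ 8 * E) ∧ (∀ i, k i ≤ 8 * E) ∧ (DL x a k).det ≠ 0 := by
  obtain ⟨ρ, hρ⟩ := exists_rows (ι := {q : (Fin 2 → ℕ) × ℕ // (∀ j, q.1 j ≤ 8 * E) ∧ q.2 ≤ 8 * E})
    (fun i (κ : Ir 2 E) => MvPolynomial.aeval x ((der (fun j => (i.1.1 j : ℤ)))^[i.1.2] (Rp (fun j => (κ j).val)))) (by
      intro c hc
      obtain ⟨a, k, ha, hk, hne⟩ := h c hc
      refine ⟨⟨(a, k), ha, hk⟩, ?_⟩
      intro h0
      apply hne
      rw [← h0]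
      refine Finset.sum_congr rfl fun κ _ => ?_
      rw [mul_comm])
  exact ⟨fun i => (ρ i).1.1, fun i => (ρ i).1.2, fun i j => (ρ i).2.1 j, fun i => (ρ i).2.2, hρ⟩

/-- M2c. PROOF. `∑_(i ∈ s) μ i = ∑_(y ∈ s.image f) ∑_(i ∈ s, f i = y) μ i` (`Finset.sum_fiberwise_of_maps_to`) is at most `card (s.image f) ≤ card t` times the largest inner sum (`Finset.exists_max_image` over the nonempty image). -/
theorem pig_sum {ι κ : Type} [DecidableEq κ] (s : Finset ι) (t : Finset κ) (f : ι → κ) (hf : ∀ i ∈ s, f i ∈ t) (μ : ι → ℝ) (hμ : ∀ i ∈ s, 0 ≤ μ i)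
    (hs : s.Nonempty) : ∃ y ∈ t, (∃ i ∈ s, f i = y) ∧ ∑ i ∈ s, μ i ≤ t.card * ∑ i ∈ s.filter (fun i => f i = y), μ i := by
  obtain ⟨y, hy, hmax⟩ := Finset.exists_max_image (s.image f) (fun y => ∑ i ∈ s.filter (fun i => f i = y), μ i) (hs.image f)
  obtain ⟨i, hi, hiy⟩ := Finset.mem_image.1 hy
  have hsub : s.image f ⊆ t := by
    intro z hz
    obtain ⟨j, hj, rfl⟩ := Finset.mem_image.1 hz
    exact hf j hj
  refine ⟨y, hsub hy, ⟨i, hi, hiy⟩, ?_⟩
  have h0 : 0 ≤ ∑ i ∈ s.filter (fun i => f i = y), μ i :=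
    Finset.sum_nonneg fun j hj => hμ j (Finset.mem_filter.1 hj).1
  calc ∑ i ∈ s, μ i = ∑ z ∈ s.image f, ∑ i ∈ s.filter (fun i => f i = z), μ i :=
        (Finset.sum_fiberwise_of_maps_to (fun j hj => Finset.mem_image_of_mem f hj) μ).symm
    _ ≤ ∑ _z ∈ s.image f, ∑ i ∈ s.filter (fun i => f i = y), μ i :=
        Finset.sum_le_sum fun z hz => hmax z hz
    _ = (s.image f).card * ∑ i ∈ s.filter (fun i => f i = y), μ i := by
        rw [Finset.sum_const, nsmul_eq_mul]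
    _ ≤ t.card * ∑ i ∈ s.filter (fun i => f i = y), μ i :=
        mul_le_mul_of_nonneg_right (by exact_mod_cast Finset.card_le_card hsub) h0

end Pool.Agent.MSL
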