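import Pool.Agent.Lib.MP_f58a57_nt.L.Defs3
import Pool.Agent.Lib.MP_f58a57_nt.L.L6_Point

/-! # L/M3_Big: existence of the field `L` -/

open Polynomial

noncomputable section

namespace Pool.Agent.MSL

open MSD MSP

theorem m3_trans {F E : Type*} [Field F] [Field E] [Algebra F E] (lam : E) (h1 : IsAlgebraic (algebraicClosure F E) lam) :
    IsAlgebraic F lam :=
  h1.restrictScalars F

theorem m3_alg_root (x : Fin 2 → ℂ) (hx : ∀ j, IsAlgebraic ℚ (x j)) (F : FP) (hF : spv x F ≠ 0) (lam : ℂ)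
    (h : (spv x F).eval lam = 0) : IsAlgebraic ℚ lam := by
  let x' : Fin 2 → algebraicClosure ℚ ℂ := fun j => ⟨x j, mem_algebraicClosure_iff.2 (hx j)⟩
  have e : spv x F = (spv x' F).map (algebraMap (algebraicClosure ℚ ℂ) ℂ) :=
    spv_map (algebraMap (algebraicClosure ℚ ℂ) ℂ) x' F
  have h1 : IsAlgebraic (algebraicClosure ℚ ℂ) lam := by
    refine ⟨spv x' F, ?_, ?_⟩
    · intro h0
      rw [h0, Polynomial.map_zero] at e
      exact hF e
    · rw [Polynomial.aeval_def, Polynomial.eval₂_eq_eval_map, ← e]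
      exact h
  exact m3_trans lam h1

theorem m3_ne (x : Fin 2 → ℂ) (F : FP) (hlc : MvPolynomial.aeval x F.leadingCoeff ≠ 0) : spv x F ≠ 0 := by
  intro h
  have h1 := congrArg (fun p => p.coeff F.natDegree) h
  simp only [Polynomial.coeff_zero] at h1
  unfold spv at h1
  rw [Polynomial.coeff_map] at h1
  exact hlc h1

/-- M3a. PROOF. Let `V` be the finite set of the `x' : Fin 2 → ℂ` with `mz (x j)` vanishing at `x' j` for both `j` and `aeval x' (F i).leadingCoeff ≠ 0` for all `i` (`Fintype.piFinset` of the root sets, filtered). For `x' ∈ V` the polynomials `spv x' (F i)` are nonzero with algebraic coefficients: finitely many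
roots, all algebraic (a root of a nonzero polynomial over the algebraic closure of `ℚ` in `ℂ` is algebraic; `IsAlgebraic.trans`-like, `algebraicClosure ℚ ℂ`). `S` = `{x 0, x 1}`, all these roots, and for all `x' ∈ V`, all roots `w₀, w₂` of `spv x' (F 0)`, `spv x' (F 2)` and all `X ≤ X₁` a square root of
`4X³ - 2w₀X - w₂` (algebraic). `exists_L S` gives `L`. For `g` the conjugate `g x` belongs to `V` (`g` fixes the integers: `mz (x j)` vanishes at `g (x j)`, and `aeval (g x) lc = g (aeval x lc) ≠ 0`, compare `spv_map`). The square root lies in `L`, and it satisfies the equation in `L` (coercion is injective). -/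
theorem exists_big (F : Fin 5 → FP) (x : Fin 2 → ℂ) (hx : ∀ j, IsAlgebraic ℚ (x j)) (hlc : ∀ i, MvPolynomial.aeval x (F i).leadingCoeff ≠ 0) (X₁ : ℕ) :
    ∃ L : IntermediateField ℚ ℂ, FiniteDimensional ℚ L ∧ IsGalois ℚ L ∧ ∃ x' : Fin 2 → L, (∀ j, (x' j : ℂ) = x j) ∧ Big L F x' X₁ := by
  classical
  have hsq : ∀ c : ℂ, ∃ y : ℂ, y ^ 2 = c := fun c => IsAlgClosed.exists_pow_nat_eq c (n := 2) (by norm_num)
  choose rt hrt using hsq
  have hne : ∀ i, spv x (F i) ≠ 0 := fun i => m3_ne x (F i) (hlc i)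
  set V : Finset (Fin 2 → ℂ) := Fintype.piFinset (fun j => ((minpoly ℚ (x j)).map (algebraMap ℚ ℂ)).roots.toFinset) with hV
  set S₁ : Finset ℂ := V.biUnion fun y => Finset.univ.biUnion fun i : Fin 5 => (spv y (F i)).roots.toFinset with hS₁
  set S₂ : Finset ℂ := (((spv x (F 0)).roots.toFinset ×ˢ (spv x (F 2)).roots.toFinset) ×ˢ Finset.range (X₁ + 1)).image
    (fun t : (ℂ × ℂ) × ℕ => rt (4 * (t.2 : ℂ) ^ 3 - 2 * t.1.1 * t.2 - t.1.2)) with hS₂
  have hminp : ∀ j, (minpoly ℚ (x j)).map (algebraMap ℚ ℂ) ≠ 0 := by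
    intro j
    exact (Polynomial.map_ne_zero_iff (algebraMap ℚ ℂ).injective).2 (minpoly.ne_zero (hx j).isIntegral)
  have hValg : ∀ y ∈ V, ∀ j, IsAlgebraic ℚ (y j) := by
    intro y hy j
    have h1 := Fintype.mem_piFinset.1 hy j
    rw [Multiset.mem_toFinset, Polynomial.mem_roots (hminp j), Polynomial.IsRoot.def, Polynomial.eval_map] at h1
    exact ⟨minpoly ℚ (x j), minpoly.ne_zero (hx j).isIntegral, h1⟩
  obtain ⟨L, hfin, hgal, hL⟩ := exists_L (Finset.univ.image x ∪ S₁ ∪ S₂) (by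
    intro s hs
    rcases Finset.mem_union.1 hs with hs | hs
    · rcases Finset.mem_union.1 hs with hs | hs
      · obtain ⟨j, _, rfl⟩ := Finset.mem_image.1 hs
        exact hx j
      · obtain ⟨y, hy, hs⟩ := Finset.mem_biUnion.1 hs
        obtain ⟨i, _, hs⟩ := Finset.mem_biUnion.1 hs
        rw [Multiset.mem_toFinset] at hs
        exact m3_alg_root y (hValg y hy) (F i) (Polynomial.ne_zero_of_mem_roots hs) s (Polynomial.isRoot_of_mem_roots hs)
    · obtain ⟨t, ht, rfl⟩ := Finset.mem_image.1 hs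
      have ht1 := (Finset.mem_product.1 (Finset.mem_product.1 ht).1).1
      have ht2 := (Finset.mem_product.1 (Finset.mem_product.1 ht).1).2
      rw [Multiset.mem_toFinset] at ht1 ht2
      have a1 : t.1.1 ∈ algebraicClosure ℚ ℂ := mem_algebraicClosure_iff.2
        (m3_alg_root x hx (F 0) (hne 0) _ (Polynomial.isRoot_of_mem_roots ht1))
      have a2 : t.1.2 ∈ algebraicClosure ℚ ℂ := mem_algebraicClosure_iff.2
        (m3_alg_root x hx (F 2) (hne 2) _ (Polynomial.isRoot_of_mem_roots ht2))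
      refine IsAlgebraic.of_pow (n := 2) (by norm_num) ?_
      rw [hrt]
      exact mem_algebraicClosure_iff.1 (sub_mem (sub_mem (mul_mem (ofNat_mem _ 4) (pow_mem (natCast_mem _ t.2) 3))
        (mul_mem (mul_mem (ofNat_mem _ 2) a1) (natCast_mem _ t.2))) a2))
  have hxL : ∀ j, x j ∈ L := fun j => hL _ (Finset.mem_union_left _ (Finset.mem_union_left _
    (Finset.mem_image_of_mem x (Finset.mem_univ j))))
  refine ⟨L, hfin, hgal, fun j => ⟨x j, hxL j⟩, fun j => rfl, ?_, ?_⟩
  · intro g i lam h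
    set φ : L →ₐ[ℚ] ℂ := L.val.comp (g : L →ₐ[ℚ] L) with hφ
    set x' : Fin 2 → L := fun j => ⟨x j, hxL j⟩ with hx'
    have e1 : spv (fun j => ((g (x' j) : L) : ℂ)) (F i) = (spv x' (F i)).map (φ : L →+* ℂ) :=
      spv_map (φ : L →+* ℂ) x' (F i)
    have e2 : spv x (F i) = (spv x' (F i)).map (L.val : L →+* ℂ) :=
      spv_map (L.val : L →+* ℂ) x' (F i)
    have n1 : spv x' (F i) ≠ 0 := by
      intro h0
      rw [h0, Polynomial.map_zero] at e2
      exact hne i e2
    have n2 : spv (fun j => ((g (x' j) : L) : ℂ)) (F i) ≠ 0 := by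
      rw [e1]
      exact (Polynomial.map_ne_zero_iff (φ : L →+* ℂ).injective).2 n1
    have hmem : (fun j => ((g (x' j) : L) : ℂ)) ∈ V := by
      rw [hV, Fintype.mem_piFinset]
      intro j
      rw [Multiset.mem_toFinset, Polynomial.mem_roots (hminp j), Polynomial.IsRoot.def, Polynomial.eval_map,
        ← Polynomial.aeval_def]
      have h3 : Polynomial.aeval (φ (x' j)) (minpoly ℚ (x j)) = φ (Polynomial.aeval (x' j) (minpoly ℚ (x j))) :=
        Polynomial.aeval_algHom_apply φ (x' j) _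
      have h4 : Polynomial.aeval (x' j) (minpoly ℚ (x j)) = 0 := by
        have h5 : Polynomial.aeval (L.val (x' j)) (minpoly ℚ (x j)) = L.val (Polynomial.aeval (x' j) (minpoly ℚ (x j))) :=
          Polynomial.aeval_algHom_apply L.val (x' j) _
        have h6 : Polynomial.aeval (L.val (x' j)) (minpoly ℚ (x j)) = 0 := minpoly.aeval ℚ (x j)
        rw [h6] at h5
        exact (map_eq_zero L.val).1 h5.symm
      rw [h4, map_zero] at h3
      exact h3
    refine hL lam (Finset.mem_union_left _ (Finset.mem_union_right _ ?_))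
    rw [hS₁, Finset.mem_biUnion]
    refine ⟨_, hmem, Finset.mem_biUnion.2 ⟨i, Finset.mem_univ i, ?_⟩⟩
    rw [Multiset.mem_toFinset, Polynomial.mem_roots n2]
    exact h
  · intro w₀ w₂ h₀ h₂ X hX
    set x' : Fin 2 → L := fun j => ⟨x j, hxL j⟩ with hx'
    have key : ∀ (i : Fin 5) (w : L), (spv x' (F i)).eval w = 0 → (w : ℂ) ∈ (spv x (F i)).roots.toFinset := by
      intro i w hw
      have e2 : spv x (F i) = (spv x' (F i)).map (L.val : L →+* ℂ) :=
        spv_map (L.val : L →+* ℂ) x' (F i)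
      rw [Multiset.mem_toFinset, Polynomial.mem_roots (hne i), Polynomial.IsRoot.def, e2]
      have : ((spv x' (F i)).map (L.val : L →+* ℂ)).eval ((L.val : L →+* ℂ) w) = (L.val : L →+* ℂ) ((spv x' (F i)).eval w) :=
        Polynomial.eval_map_apply _ _
      rw [hw, map_zero] at this
      exact this
    have hmem : rt (4 * (X : ℂ) ^ 3 - 2 * (w₀ : ℂ) * X - (w₂ : ℂ)) ∈ L := by
      refine hL _ (Finset.mem_union_right _ ?_)
      rw [hS₂, Finset.mem_image]
      refine ⟨(((w₀ : ℂ), (w₂ : ℂ)), X), ?_, rfl⟩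
      rw [Finset.mem_product, Finset.mem_product]
      exact ⟨⟨key 0 w₀ h₀, key 2 w₂ h₂⟩, Finset.mem_range.2 (by omega)⟩
    refine ⟨⟨_, hmem⟩, ?_⟩
    apply Subtype.ext
    push_cast
    exact hrt _

end Pool.Agent.MSL
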