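import Pool.Agent.Lib.MP_f58a57_nt.L.Defs2

/-! # L/S5_Root: the square roots `Y` -/

open Complex

noncomputable section

namespace Pool.Agent.MSL

/-- S5a. PROOF. `‖Y‖² ≥ 4X³ - 2‖g‖X - ‖k‖ ≥ 1` and `≤ 4X³ + 2‖g‖X + ‖k‖ ≤ 9 X⁴` for `X ≥ X₀ ≥ 1 + ‖g‖ + ‖k‖`. -/
theorem Y_size (g k : ℂ) : ∃ X₀ : ℕ, 1 ≤ X₀ ∧ ∀ (X : ℕ) (Y : ℂ), X₀ ≤ X → Y ^ 2 = 4 * (X : ℂ) ^ 3 - 2 * g * X - k → 1 ≤ ‖Y‖ ∧ ‖Y‖ ≤ 3 * X ^ 2 := by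
  refine ⟨⌈1 + ‖g‖ + ‖k‖⌉₊ + 1, by omega, ?_⟩
  intro X Y hX hY
  have h1 : 1 + ‖g‖ + ‖k‖ ≤ (X : ℝ) := by
    have h2 := Nat.le_ceil (1 + ‖g‖ + ‖k‖)
    have h3 : ((⌈1 + ‖g‖ + ‖k‖⌉₊ + 1 : ℕ) : ℝ) ≤ (X : ℝ) := by exact_mod_cast hX
    push_cast at h3
    linarith
  have hg0 := norm_nonneg g
  have hk0 := norm_nonneg k
  have hX1 : (1 : ℝ) ≤ X := by linarith
  have hX0 : (0 : ℝ) ≤ X := by linarith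
  have e4 : ‖(4 * (X : ℂ) ^ 3)‖ = 4 * (X : ℝ) ^ 3 := by
    rw [norm_mul, norm_pow, Complex.norm_natCast]
    norm_num
  have e2 : ‖(2 * g * X + k)‖ ≤ 2 * ‖g‖ * X + ‖k‖ := by
    refine (norm_add_le _ _).trans ?_
    rw [norm_mul, norm_mul, Complex.norm_natCast]
    norm_num
  have hn : ‖Y‖ ^ 2 = ‖4 * (X : ℂ) ^ 3 - (2 * g * X + k)‖ := by
    rw [← norm_pow, hY]
    congr 1
    ring
  have hlow : 4 * (X : ℝ) ^ 3 - (2 * ‖g‖ * X + ‖k‖) ≤ ‖Y‖ ^ 2 := by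
    rw [hn]
    have := norm_sub_norm_le (4 * (X : ℂ) ^ 3) (2 * g * X + k)
    rw [e4] at this
    linarith
  have hup : ‖Y‖ ^ 2 ≤ 4 * (X : ℝ) ^ 3 + (2 * ‖g‖ * X + ‖k‖) := by
    rw [hn]
    have := norm_sub_le (4 * (X : ℂ) ^ 3) (2 * g * X + k)
    rw [e4] at this
    linarith
  have hgX : ‖g‖ * X ≤ (X - 1 - ‖k‖) * X := mul_le_mul_of_nonneg_right (by linarith) hX0
  have hkX : 0 ≤ ‖k‖ * X := by positivity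
  have hkX1 : ‖k‖ ≤ ‖k‖ * X := by nlinarith
  have hX2 : (X : ℝ) ≤ (X : ℝ) ^ 2 := by nlinarith
  have hX3 : (X : ℝ) ^ 2 ≤ (X : ℝ) ^ 3 := by nlinarith [sq_nonneg (X : ℝ)]
  have hX4 : (X : ℝ) ^ 3 ≤ (X : ℝ) ^ 4 := by
    have : 0 ≤ (X : ℝ) ^ 3 := by positivity
    nlinarith
  have hY0 := norm_nonneg Y
  constructor
  · have h5 : 1 ≤ ‖Y‖ ^ 2 := by nlinarith
    nlinarith
  · have h5 : ‖Y‖ ^ 2 ≤ (3 * (X : ℝ) ^ 2) ^ 2 := by nlinarith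
    exact le_of_sq_le_sq h5 (by positivity)

/-- S5b. PROOF. `‖Y' - Y‖ ‖Y' + Y‖ = ‖Y'² - Y²‖ = ‖2 (g' - g) X + (k' - k)‖ ≤ 3 X ε`, and `max ‖Y' - Y‖ ‖Y' + Y‖ ≥ ‖Y‖ ≥ 1`. -/
theorem Y_lip (g k g' k' Y Y' : ℂ) (X : ℕ) (ε : ℝ) (hX : 1 ≤ X) (h : Y ^ 2 = 4 * (X : ℂ) ^ 3 - 2 * g * X - k)
    (h' : Y' ^ 2 = 4 * (X : ℂ) ^ 3 - 2 * g' * X - k') (hg : ‖g' - g‖ ≤ ε) (hk : ‖k' - k‖ ≤ ε) (hY : 1 ≤ ‖Y‖) :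
    ‖Y' - Y‖ ≤ 3 * X * ε ∨ ‖Y' + Y‖ ≤ 3 * X * ε := by
  have hX1 : (1 : ℝ) ≤ X := by exact_mod_cast hX
  have hε : 0 ≤ ε := (norm_nonneg _).trans hg
  have e1 : (Y' - Y) * (Y' + Y) = -(2 * (g' - g) * X + (k' - k)) := by
    linear_combination h' - h
  have e2 : ‖Y' - Y‖ * ‖Y' + Y‖ ≤ 3 * X * ε := by
    rw [← norm_mul, e1, norm_neg]
    refine (norm_add_le _ _).trans ?_
    rw [norm_mul, norm_mul, Complex.norm_natCast]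
    have h2 : ‖(2 : ℂ)‖ = 2 := by norm_num
    rw [h2]
    have h3 : ‖g' - g‖ * X ≤ ε * X := mul_le_mul_of_nonneg_right hg (by linarith)
    have h4 : ε ≤ ε * X := by nlinarith
    linarith
  have e3 : 2 * ‖Y‖ ≤ ‖Y' - Y‖ + ‖Y' + Y‖ := by
    have h5 : (2 : ℂ) * Y = (Y' + Y) - (Y' - Y) := by ring
    have h6 : ‖(2 : ℂ) * Y‖ = 2 * ‖Y‖ := by
      rw [norm_mul]
      norm_num
    rw [← h6, h5]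
    have := norm_sub_le (Y' + Y) (Y' - Y)
    linarith
  rcases le_total ‖Y' - Y‖ ‖Y' + Y‖ with hc | hc
  · left
    have h7 : 1 ≤ ‖Y' + Y‖ := by linarith
    have h8 := norm_nonneg (Y' - Y)
    nlinarith
  · right
    have h7 : 1 ≤ ‖Y' - Y‖ := by linarith
    have h8 := norm_nonneg (Y' + Y)
    nlinarith

end Pool.Agent.MSL
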