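import Pool.Agent.Lib.MP_f58a57_nt.L.Defs3
import Pool.Agent.Lib.MP_f58a57_nt.L.L6_Point
import Pool.Agent.Lib.MP_f58a57_nt.L.M2_Rows
import Pool.Agent.Lib.MP_f58a57_nt.L.S5_Root

/-! # L/M4_Lift: pigeonhole over the lifts -/

open Polynomial

noncomputable section

namespace Pool.Agent.MSL

open MSD MSP

theorem m4_aeval {R S : Type} [CommRing R] [CommRing S] (f : R →+* S) (x : Fin 2 → R) (p : MvPolynomial (Fin 2) ℤ) :
    MvPolynomial.aeval (fun i => f (x i)) p = f (MvPolynomial.aeval x p) := by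
  have h := MvPolynomial.comp_aeval_apply (φ := f.toIntAlgHom) (f := x) (R := ℤ) p
  exact h.symm

variable (L : IntermediateField ℚ ℂ) [FiniteDimensional ℚ L] [IsGalois ℚ L]

/-- the embedding -/
def m4_sig (g : L ≃ₐ[ℚ] L) : L →+* ℂ := (algebraMap L ℂ).comp (g : L →+* L)

theorem m4_sig_apply (g : L ≃ₐ[ℚ] L) (y : L) : m4_sig L g y = ((g y : L) : ℂ) := rfl

theorem m4_sig_inj (g : L ≃ₐ[ℚ] L) : Function.Injective (m4_sig L g) := (m4_sig L g).injective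

/-- M4a. PROOF. For `g ∈ N` `NearL` at `x = cj g x` gives `ω'`; `ω' i ∈ L` (`Big.root`), `w(g) i = g⁻¹ (ω' i) ∈ L` is a root of `spv x (F i)` (`spv_map` for `g` and the embedding). The leading coefficients do not vanish at `cj g x`, so not at `x`; so `spv x (F i) ≠ 0` has at most `natDegree (F i)` roots and
`w(g)` lies in the finite set `∏_i (roots of spv x (F i))` (`Fintype.piFinset`) of cardinality `≤ ∏ natDegree (F i) ≤ ∏ (natDegree (F i) + 1)`. `pig_sum` with `f g = w(g)`; `N' = {g ∈ N | w(g) = w}`. -/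
theorem lift_sum (θ : Fin 2 → ℂ) (ω : Fin 5 → ℂ) (F : Fin 5 → FP) (r₀ C : ℝ) (hn : NearL θ ω F r₀ C) (x : Fin 2 → L) (X₁ : ℕ) (hB : Big L F x X₁)
    (N : Finset (L ≃ₐ[ℚ] L)) (hN : ∀ g ∈ N, ‖cj g x - θ‖ ≤ r₀) (hne : N.Nonempty) (μ : (L ≃ₐ[ℚ] L) → ℝ) (hμ : ∀ g ∈ N, 0 ≤ μ g) :
    (∀ i, MvPolynomial.aeval x (F i).leadingCoeff ≠ 0) ∧ ∃ (w : Fin 5 → L) (N' : Finset (L ≃ₐ[ℚ] L)), N' ⊆ N ∧ N'.Nonempty ∧
      (∀ i, (spv x (F i)).eval (w i) = 0) ∧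
      (∀ g ∈ N', (∀ i, ‖((g (w i) : L) : ℂ) - ω i‖ ≤ C * ‖cj g x - θ‖) ∧ ((g (w 3) : L) : ℂ) = ω 3 ∧ ((g (w 4) : L) : ℂ) = ω 4) ∧
      ∑ g ∈ N, μ g ≤ (∏ i, ((F i).natDegree + 1 : ℝ)) * ∑ g ∈ N', μ g := by
  classical
  have hcj : ∀ g : L ≃ₐ[ℚ] L, cj g x = fun j => m4_sig L g (x j) := fun g => rfl
  have hlc : ∀ i, MvPolynomial.aeval x (F i).leadingCoeff ≠ 0 := by
    obtain ⟨g, hg⟩ := hne
    intro i h0
    have h1 := (hn (cj g x) (hN g hg)).1 i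
    apply h1
    rw [hcj, m4_aeval, h0, map_zero]
  refine ⟨hlc, ?_⟩
  have key : ∀ g : L ≃ₐ[ℚ] L, g ∈ N → ∃ w : Fin 5 → L, (∀ i, (spv x (F i)).eval (w i) = 0) ∧
      (∀ i, ‖((g (w i) : L) : ℂ) - ω i‖ ≤ C * ‖cj g x - θ‖) ∧ ((g (w 3) : L) : ℂ) = ω 3 ∧ ((g (w 4) : L) : ℂ) = ω 4 := by
    intro g hg
    obtain ⟨ω', hr, hd, h3, h4⟩ := (hn (cj g x) (hN g hg)).2
    have hmem : ∀ i, ω' i ∈ L := fun i => hB.root g i (ω' i) (hr i)
    have hgw : ∀ i, ((g (g.symm ⟨ω' i, hmem i⟩) : L) : ℂ) = ω' i := by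
      intro i
      rw [AlgEquiv.apply_symm_apply]
    refine ⟨fun i => g.symm ⟨ω' i, hmem i⟩, ?_, ?_, ?_, ?_⟩
    · intro i
      apply m4_sig_inj L g
      rw [map_zero]
      have h1 : (m4_sig L g) ((spv x (F i)).eval (g.symm ⟨ω' i, hmem i⟩)) =
          ((spv x (F i)).map (m4_sig L g)).eval ((m4_sig L g) (g.symm ⟨ω' i, hmem i⟩)) := by
        rw [Polynomial.eval_map, Polynomial.eval₂_at_apply]
      rw [h1, ← spv_map, m4_sig_apply, hgw i]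
      have h2 := hr i
      rw [hcj] at h2
      exact h2
    · intro i
      show ‖((g (g.symm ⟨ω' i, hmem i⟩) : L) : ℂ) - ω i‖ ≤ _
      rw [hgw i]
      exact hd i
    · show ((g (g.symm ⟨ω' 3, hmem 3⟩) : L) : ℂ) = ω 3
      rw [hgw 3, h3]
    · show ((g (g.symm ⟨ω' 4, hmem 4⟩) : L) : ℂ) = ω 4
      rw [hgw 4, h4]
  choose! f hf using key
  have hne0 : ∀ i, spv x (F i) ≠ 0 := by
    intro i h0
    apply hlc i
    have h1 : (spv x (F i)).coeff (F i).natDegree = MvPolynomial.aeval x (F i).leadingCoeff := by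
      simp only [spv, Polynomial.coeff_map, Polynomial.leadingCoeff]
      rfl
    rw [← h1, h0, Polynomial.coeff_zero]
  obtain ⟨w, hwt, ⟨g₀, hg₀, hg₀w⟩, hsum⟩ := pig_sum N (Fintype.piFinset fun i => (spv x (F i)).roots.toFinset) f (by
    intro g hg
    rw [Fintype.mem_piFinset]
    intro i
    rw [Multiset.mem_toFinset, Polynomial.mem_roots (hne0 i)]
    exact (hf g hg).1 i) μ hμ hne
  refine ⟨w, N.filter (fun g => f g = w), Finset.filter_subset _ _, ⟨g₀, Finset.mem_filter.mpr ⟨hg₀, hg₀w⟩⟩, ?_, ?_, ?_⟩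
  · rw [← hg₀w]
    exact (hf g₀ hg₀).1
  · intro g hg
    rw [Finset.mem_filter] at hg
    rw [← hg.2]
    exact (hf g hg.1).2
  · refine hsum.trans ?_
    apply mul_le_mul_of_nonneg_right _ (Finset.sum_nonneg fun g hg => hμ g (Finset.mem_filter.mp hg).1)
    rw [Fintype.card_piFinset, Nat.cast_prod]
    apply Finset.prod_le_prod
    · intro i _
      positivity
    · intro i _
      have h1 : (spv x (F i)).roots.toFinset.card ≤ (F i).natDegree := by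
        refine (Multiset.toFinset_card_le _).trans ((Polynomial.card_roots' _).trans ?_)
        exact Polynomial.natDegree_map_le
      have h2 : (((spv x (F i)).roots.toFinset.card : ℕ) : ℝ) ≤ ((F i).natDegree : ℝ) := by exact_mod_cast h1
      linarith

/-- M4b. PROOF. For `g ∈ N` and `l` choose a sign `s_g l` by `Y_lip` (for `g (Y l)` and `Y₀ l`, `ε = ε_g`); `pig_sum` over the 8 sign vectors `Fin 3 → Bool`. -/
theorem sign_sum (p : LQ L) (ω : Fin 5 → ℂ) (Y₀ : Fin 3 → ℂ) (hY₀ : ∀ l, Y₀ l ^ 2 = 4 * (p.X l : ℂ) ^ 3 - 2 * ω 0 * p.X l - ω 2)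
    (hX : ∀ l, 1 ≤ p.X l) (hY1 : ∀ l, 1 ≤ ‖Y₀ l‖) (N : Finset (L ≃ₐ[ℚ] L)) (hne : N.Nonempty) (ε : (L ≃ₐ[ℚ] L) → ℝ)
    (h : ∀ g ∈ N, ‖((g (p.w 0) : L) : ℂ) - ω 0‖ ≤ ε g ∧ ‖((g (p.w 2) : L) : ℂ) - ω 2‖ ≤ ε g) (μ : (L ≃ₐ[ℚ] L) → ℝ) (hμ : ∀ g ∈ N, 0 ≤ μ g) :
    ∃ (Y₁ : Fin 3 → ℂ) (N' : Finset (L ≃ₐ[ℚ] L)), N' ⊆ N ∧ N'.Nonempty ∧ (∀ l, Y₁ l = Y₀ l ∨ Y₁ l = -Y₀ l) ∧
      (∀ g ∈ N', ∀ l, ‖((g (p.Y l) : L) : ℂ) - Y₁ l‖ ≤ 3 * p.X l * ε g) ∧ ∑ g ∈ N, μ g ≤ 8 * ∑ g ∈ N', μ g := by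
  classical
  have hsq : ∀ (g : L ≃ₐ[ℚ] L) (l : Fin 3), ((g (p.Y l) : L) : ℂ) ^ 2 = 4 * (p.X l : ℂ) ^ 3 - 2 * ((g (p.w 0) : L) : ℂ) * p.X l - ((g (p.w 2) : L) : ℂ) := by
    intro g l
    have h1 := congrArg (m4_sig L g) (p.hY l)
    simp only [map_sub, map_mul, map_pow, map_ofNat, map_natCast] at h1
    exact h1
  have key : ∀ g : L ≃ₐ[ℚ] L, g ∈ N → ∃ s : Fin 3 → Bool, ∀ l, ‖((g (p.Y l) : L) : ℂ) - (if s l = true then Y₀ l else -Y₀ l)‖ ≤ 3 * p.X l * ε g := by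
    intro g hg
    have h1 : ∀ l, ∃ b : Bool, ‖((g (p.Y l) : L) : ℂ) - (if b = true then Y₀ l else -Y₀ l)‖ ≤ 3 * p.X l * ε g := by
      intro l
      rcases Y_lip (ω 0) (ω 2) ((g (p.w 0) : L) : ℂ) ((g (p.w 2) : L) : ℂ) (Y₀ l) ((g (p.Y l) : L) : ℂ) (p.X l) (ε g) (hX l) (hY₀ l) (hsq g l)
        (h g hg).1 (h g hg).2 (hY1 l) with h2 | h2
      · exact ⟨true, by simpa using h2⟩
      · exact ⟨false, by simpa using h2⟩
    choose s hs using h1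
    exact ⟨s, hs⟩
  choose! f hf using key
  obtain ⟨s, _, ⟨g₀, hg₀, hg₀s⟩, hsum⟩ := pig_sum N (Finset.univ : Finset (Fin 3 → Bool)) f (fun g _ => Finset.mem_univ _) μ hμ hne
  refine ⟨fun l => if s l = true then Y₀ l else -Y₀ l, N.filter (fun g => f g = s), Finset.filter_subset _ _,
    ⟨g₀, Finset.mem_filter.mpr ⟨hg₀, hg₀s⟩⟩, ?_, ?_, ?_⟩
  · intro l
    by_cases hs : s l = true
    · left; simp [hs]
    · right; simp [hs]
  · intro g hg l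
    rw [Finset.mem_filter] at hg
    rw [← hg.2]
    exact hf g hg.1 l
  · have hc : ((Finset.univ : Finset (Fin 3 → Bool)).card : ℝ) = 8 := by
      rw [Finset.card_univ, Fintype.card_fun, Fintype.card_bool, Fintype.card_fin]
      norm_num
    rw [hc] at hsum
    exact hsum

end Pool.Agent.MSL
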