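import Pool.Agent.Lib.MP_f58a57_nt.L.Defs2
import Pool.Agent.Lib.MP_f58a57_nt.K.T3b_Half

/-! # L/S4_Base: base points with given values of the Weierstrass function -/

open Complex

noncomputable section

namespace Pool.Agent.MSL

open MSD MSP MSK

/-- S4a. PROOF. Suppose `wp - X` has no zero off the lattice. `wp = N2/N0²` (definition), so `f = N0²/(N2 - X N0²)` is entire: if `N0 t ≠ 0` then `N2 - X N0² = N0² (wp - X) ≠ 0`; if `N0 t = 0` then `N2 t ≠ 0` (`N2 = N1² - N0 N0'' - s N0²`, `N1 = (th)' ≠ 0` at the zeros of `th`: `deriv_th_zero_ne` and the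
functional equation; alternatively: `wp → ∞` at lattice points). `f = 1/(wp - X)` off the lattice is periodic (`t7_wp_add`), so bounded (fundamental parallelogram compact; continuity), so constant (Liouville, `Differentiable.apply_eq_apply_of_bounded`), `= f 0 = 0`. Contradiction.
Alternatively use Mathlib's results on `PeriodPair.weierstrassP` with `wp_eq`. -/
theorem wp_surj (τ : ℂ) (hτ : 0 < τ.im) (X : ℂ) : ∃ h : ℂ, th τ h ≠ 0 ∧ wp τ (sE τ) h = X := by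
  by_contra hcon
  push Not at hcon
  set s := sE τ with hs
  have hth : Differentiable ℂ (th τ) := th_differentiable τ hτ
  have han : ∀ t, AnalyticAt ℂ (th τ) t := fun t => hth.analyticAt t
  have h0 : Differentiable ℂ (N0 τ) := hth
  have h2 : Differentiable ℂ (N2 τ s) := by
    intro t
    have a1 : AnalyticAt ℂ (deriv (th τ)) t := (han t).deriv
    have a2 : AnalyticAt ℂ (deriv (deriv (th τ))) t := a1.deriv
    exact (((a1.pow 2).sub ((han t).mul a2)).sub (analyticAt_const.mul ((han t).pow 2))).differentiableAt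
  let D : ℂ → ℂ := fun t => N2 τ s t - X * N0 τ t ^ 2
  have hD : Differentiable ℂ D := h2.sub ((differentiable_const X).mul (h0.pow 2))
  have hDne : ∀ t, D t ≠ 0 := by
    intro t
    by_cases ht : th τ t = 0
    · obtain ⟨m, n, rfl⟩ := (th_eq_zero_iff τ hτ t).1 ht
      have e1 : N2 τ s (m + n * τ) = au τ m n 0 ^ 2 * N2 τ s 0 := by
        have := N2_shift τ s hτ m n 0
        rwa [zero_add] at this
      have e2 : N2 τ s 0 = deriv (th τ) 0 ^ 2 := by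
        unfold N2
        rw [t8c_zero τ hτ]
        ring
      have e3 : D (m + n * τ) = au τ m n 0 ^ 2 * deriv (th τ) 0 ^ 2 := by
        show N2 τ s (m + n * τ) - X * N0 τ (m + n * τ) ^ 2 = _
        have : N0 τ (m + n * τ) = 0 := ht
        rw [this, e1, e2]
        ring
      rw [e3]
      exact mul_ne_zero (pow_ne_zero 2 (au_ne τ m n 0)) (pow_ne_zero 2 (deriv_th_zero_ne τ hτ))
    · intro h
      apply hcon t ht
      have h3 : N2 τ s t = X * N0 τ t ^ 2 := sub_eq_zero.1 h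
      have h4 : N0 τ t ≠ 0 := ht
      unfold wp
      rw [h3]
      field_simp
  let f : ℂ → ℂ := fun t => N0 τ t ^ 2 / D t
  have hf : Differentiable ℂ f := (h0.pow 2).div hD hDne
  have hper : ∀ z w : ℂ, w ∈ (pp τ hτ).lattice → f (z + w) = f z := by
    intro z w hw
    obtain ⟨m, n, h⟩ := PeriodPair.mem_lattice.1 hw
    have hw' : z + w = z + m + n * τ := by
      rw [← h]
      simp only [MSP.pp]
      ring
    rw [hw']
    show N0 τ (z + m + n * τ) ^ 2 / (N2 τ s (z + m + n * τ) - X * N0 τ (z + m + n * τ) ^ 2) =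
      N0 τ z ^ 2 / (N2 τ s z - X * N0 τ z ^ 2)
    rw [N0_shift τ hτ, N2_shift τ s hτ]
    have hau := au_ne τ m n z
    have e : au τ m n z ^ 2 * N2 τ s z - X * (au τ m n z * N0 τ z) ^ 2 =
        au τ m n z ^ 2 * (N2 τ s z - X * N0 τ z ^ 2) := by ring
    rw [e, mul_pow]
    exact mul_div_mul_left _ _ (pow_ne_zero 2 hau)
  have hconst : ∀ t, f t = f 0 := fun t =>
    hf.apply_eq_apply_of_bounded (IsZLattice.isCompact_range_of_periodic (pp τ hτ).lattice _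
      hf.continuous fun z w hw => hper z w hw).isBounded t 0
  have hf0 : f 0 = 0 := by
    show N0 τ 0 ^ 2 / D 0 = 0
    have : N0 τ 0 = 0 := t8c_zero τ hτ
    rw [this]
    simp
  have h5 : th τ (1 / 2) ≠ 0 := by
    have := t3b_ne τ hτ 1 0 (Or.inl (by decide))
    simpa using this
  have h6 : f (1 / 2) = 0 := (hconst _).trans hf0
  have h7 : N0 τ (1 / 2) ^ 2 / D (1 / 2) = 0 := h6
  rcases div_eq_zero_iff.1 h7 with h8 | h8
  · exact h5 (pow_eq_zero_iff (two_ne_zero) |>.1 h8)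
  · exact hDne _ h8

/-- S4b. PROOF. `h` from `wp_surj` for `X om²`; subtract a lattice vector `m + nτ` such that `h = a + bτ` with `0 ≤ a, b < 1` (`t7_wp_add`, `th_eq_zero_iff`), so `‖h‖ ≤ 1 + ‖τ‖`. By `wp_ode` divided by `om⁶` `(wp' h/om³)² = 4X³ - 2gX - g₃ = Y²`, so `wp' h/om³ = ± Y`; in the second case replace `h` by `-h`
(`t3b_wp_neg`, so `deriv wp (-h) = -deriv wp h`; `th τ (-h) = -th τ h`). -/
theorem base_pt (τ om : ℂ) (hτ : 0 < τ.im) (hom : om ≠ 0) (X Y : ℂ)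
    (h : Y ^ 2 = 4 * X ^ 3 - 2 * (2 / 3 * Real.pi ^ 4 * e4 τ / om ^ 4) * X - 8 / 27 * Real.pi ^ 6 * e6 τ / om ^ 6) :
    ∃ t : ℂ, ‖t‖ ≤ 1 + ‖τ‖ ∧ th τ t ≠ 0 ∧ wp τ (sE τ) t / om ^ 2 = X ∧ deriv (wp τ (sE τ)) t / om ^ 3 = Y := by
  obtain ⟨h₀, hh₀, hX₀⟩ := wp_surj τ hτ (X * om ^ 2)
  -- reduce to the fundamental parallelogram
  obtain ⟨t, hle, ht0, htX⟩ : ∃ t : ℂ, ‖t‖ ≤ 1 + ‖τ‖ ∧ th τ t ≠ 0 ∧ wp τ (sE τ) t = X * om ^ 2 := by
    let b : ℝ := h₀.im / τ.im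
    let a : ℝ := h₀.re - b * τ.re
    have hab : h₀ = (a : ℂ) + (b : ℂ) * τ := by
      apply Complex.ext
      · simp [a]
      · simp [b]
        field_simp
    refine ⟨((Int.fract a : ℝ) : ℂ) + ((Int.fract b : ℝ) : ℂ) * τ, ?_, ?_, ?_⟩
    · refine (norm_add_le _ _).trans ?_
      rw [norm_mul, Complex.norm_real, Complex.norm_real, Real.norm_eq_abs, Real.norm_eq_abs,
        abs_of_nonneg (Int.fract_nonneg a), abs_of_nonneg (Int.fract_nonneg b)]
      have h1 := (Int.fract_lt_one a).le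
      have h2 := (Int.fract_lt_one b).le
      have h3 := norm_nonneg τ
      nlinarith
    · have e : h₀ = (((Int.fract a : ℝ) : ℂ) + ((Int.fract b : ℝ) : ℂ) * τ) + (⌊a⌋ : ℤ) + (⌊b⌋ : ℤ) * τ := by
        rw [hab]
        have ha : (a : ℂ) = ((⌊a⌋ : ℤ) : ℂ) + ((Int.fract a : ℝ) : ℂ) := by
          exact_mod_cast congrArg (fun x : ℝ => (x : ℂ)) (Int.floor_add_fract a).symm
        have hb : (b : ℂ) = ((⌊b⌋ : ℤ) : ℂ) + ((Int.fract b : ℝ) : ℂ) := by
          exact_mod_cast congrArg (fun x : ℝ => (x : ℂ)) (Int.floor_add_fract b).symm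
        rw [ha, hb]
        ring
      intro h
      apply hh₀
      rw [e]
      have := N0_shift τ hτ ⌊a⌋ ⌊b⌋ (((Int.fract a : ℝ) : ℂ) + ((Int.fract b : ℝ) : ℂ) * τ)
      unfold N0 at this
      rw [this, h, mul_zero]
    · have e : h₀ = (((Int.fract a : ℝ) : ℂ) + ((Int.fract b : ℝ) : ℂ) * τ) + (⌊a⌋ : ℤ) + (⌊b⌋ : ℤ) * τ := by
        rw [hab]
        have ha : (a : ℂ) = ((⌊a⌋ : ℤ) : ℂ) + ((Int.fract a : ℝ) : ℂ) := by
          exact_mod_cast congrArg (fun x : ℝ => (x : ℂ)) (Int.floor_add_fract a).symm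
        have hb : (b : ℂ) = ((⌊b⌋ : ℤ) : ℂ) + ((Int.fract b : ℝ) : ℂ) := by
          exact_mod_cast congrArg (fun x : ℝ => (x : ℂ)) (Int.floor_add_fract b).symm
        rw [ha, hb]
        ring
      rw [← hX₀]
      conv_rhs => rw [e]
      exact (t7_wp_add τ hτ (sE τ) ⌊a⌋ ⌊b⌋ _).symm
  have hode := wp_ode τ hτ t ht0
  have hsq : (deriv (wp τ (sE τ)) t / om ^ 3) ^ 2 = Y ^ 2 := by
    rw [h, div_pow, hode, htX]
    field_simp
    ring
  rcases sq_eq_sq_iff_eq_or_eq_neg.1 hsq with h1 | h1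
  · exact ⟨t, hle, ht0, by rw [htX]; field_simp, h1⟩
  · refine ⟨-t, by rwa [norm_neg], ?_, ?_, ?_⟩
    · rw [th_neg]
      exact neg_ne_zero.2 ht0
    · rw [t3b_wp_neg, htX]
      field_simp
    · have e1 : deriv (wp τ (sE τ)) (-t) = -deriv (wp τ (sE τ)) t := by
        have e2 : (fun x => wp τ (sE τ) (-x)) = wp τ (sE τ) := funext fun x => t3b_wp_neg τ (sE τ) x
        have e3 := deriv_comp_neg (wp τ (sE τ)) t
        rw [e2] at e3
        rw [e3, neg_neg]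
      rw [e1, neg_div, h1, neg_neg]

/-- S4c. PROOF. `base_pt` for every `l`; the structure `Dt`; `D.X l 0 = wp (h l + 0)/om²`. -/
theorem exists_Dt (P : Par 2) (τ om kap : ℂ) (hτ : 0 < τ.im) (hom : om ≠ 0) (X Y : Fin 3 → ℂ)
    (h : ∀ l, Y l ^ 2 = 4 * X l ^ 3 - 2 * (2 / 3 * Real.pi ^ 4 * e4 τ / om ^ 4) * X l - 8 / 27 * Real.pi ^ 6 * e6 τ / om ^ 6) :
    ∃ D : Dt 2, D.τ = τ ∧ D.om = om ∧ D.kap = kap ∧ (∀ l, ‖D.h l‖ ≤ 1 + ‖τ‖) ∧ (∀ l, D.X l 0 = X l) ∧ (∀ l, D.Y l 0 = Y l) := by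
  choose t h1 h2 h3 h4 using fun l => base_pt τ om hτ hom (X l) (Y l) (h l)
  refine ⟨⟨τ, hτ, om, hom, kap, t, h2⟩, rfl, rfl, rfl, h1, fun l => ?_, fun l => ?_⟩
  · show wp τ (sE τ) (t l + 0) / om ^ 2 = X l
    rw [add_zero]
    exact h3 l
  · show deriv (wp τ (sE τ)) (t l + 0) / om ^ 3 = Y l
    rw [add_zero]
    exact h4 l

/-- S4d. PROOF. `exists_Dt` for `X l = p.X l`, `Y l = p.Y l` (`p.hY`); compare the values case by case (`par5`, `vals`, `LQ.v`; `rh`). -/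
theorem exists_Dt_pt (P : Par 2) (τ om kap : ℂ) (hτ : 0 < τ.im) (hom : om ≠ 0) (p : LQ ℂ) (hw : p.w = par5 P.z τ om kap) :
    ∃ D : Dt 2, D.τ = τ ∧ D.om = om ∧ D.kap = kap ∧ (∀ l, ‖D.h l‖ ≤ 1 + ‖τ‖) ∧ (∀ l, D.X l 0 = p.X l) ∧ vals P D = p.v P := by
  have w0 : p.w 0 = 2 / 3 * Real.pi ^ 4 * e4 τ / om ^ 4 := by rw [hw]; rfl
  have w1 : p.w 1 = kap := by rw [hw]; rfl
  have w2 : p.w 2 = 8 / 27 * Real.pi ^ 6 * e6 τ / om ^ 6 := by rw [hw]; rfl
  have w3 : p.w 3 = P.z := by rw [hw]; rfl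
  have w4 : p.w 4 = rh := by rw [hw]; rfl
  obtain ⟨D, e1, e2, e3, e4, e5, e6⟩ := exists_Dt P τ om kap hτ hom (fun l => (p.X l : ℂ)) p.Y (fun l => by
    rw [← w0, ← w2]
    exact p.hY l)
  refine ⟨D, e1, e2, e3, e4, e5, ?_⟩
  funext v
  cases v with
  | X l => exact e5 l
  | Y l => exact e6 l
  | Q j => rfl
  | b l => simp [MSK.vals, LQ.v]
  | g =>
    show 2 / 3 * Real.pi ^ 4 * MSD.e4 D.τ / D.om ^ 4 = p.w 0
    rw [e1, e2, w0]
  | k =>
    show D.kap = p.w 1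
    rw [e3, w1]
  | z =>
    show P.z = p.w 3
    rw [w3]
  | r =>
    show rh = p.w 4
    rw [w4]

end Pool.Agent.MSL
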