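import Pool.Agent.Lib.MP_f58a57_nt.L.Defs3
import Pool.Agent.Lib.MP_f58a57_nt.L.L6_Point
import Pool.Agent.Lib.MP_f58a57_nt.L.M2_Rows
import Pool.Agent.Lib.MP_f58a57_nt.L.S4_Base

/-! # L/M5_Exists: rows with a nonzero determinant -/

open Polynomial

noncomputable section

namespace Pool.Agent.MSL

open MSD MSP MSK MSR

variable (L : IntermediateField ℚ ℂ) [FiniteDimensional ℚ L] [IsGalois ℚ L]

/-- M5a. PROOF. `ZeroEst` for `τ, om, kap = g₀ (w 1)`, `X₀`, `E` gives `X`; `X l ≤ X₀ + C E³ ≤ X₁`; `Big.sq` gives `Y l`; `p = ⟨x, w, X, Y, _⟩`. Let `p' = p.map (embedding ∘ g₀)` (`LQ.map` for the ring homomorphism `L → ℂ`, `x ↦ g₀ x`). Its `w` is `par5 P.z τ om kap` (hypotheses; `Fin 5` cases). `exists_Dt_pt` gives `D` with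
`vals P D = p'.v P`, `D.X l 0 = X l`. So `rows_of` (with the zero estimate for `D`) gives `a, k` with `(DL (p'.v P) a k).det ≠ 0`; this is the image of `(DL (p.v P) a k).det` (`map_v`, `DL_map`), so the latter is `≠ 0`. -/
theorem exists_pt (P : Par 2) (C X₀ X₁ E : ℕ) (hE : 1 ≤ E)
    (hZ : ∀ τ om kap : ℂ, 0 < τ.im → om ≠ 0 → ∀ X₀ E : ℕ, 1 ≤ E → ∃ x : Fin 3 → ℕ, (∀ l, X₀ ≤ x l ∧ x l ≤ X₀ + C * E ^ 3) ∧
      ∀ D : Dt 2, D.τ = τ → D.om = om → D.kap = kap → (∀ l, D.X l 0 = x l) → ∀ c : Ir 2 E → ℂ, c ≠ 0 →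
        ∃ (a : Fin 2 → ℕ) (k : ℕ), (∀ j, a j ≤ 8 * E) ∧ k ≤ 8 * E ∧
          ∑ κ, c κ * MvPolynomial.aeval (vals P D) ((der (fun j => (a j : ℤ)))^[k] (Rp (fun j => (κ j).val))) ≠ 0)
    (hX : X₀ + C * E ^ 3 ≤ X₁) (F : Fin 5 → FP) (x : Fin 2 → L) (hB : Big L F x X₁) (w : Fin 5 → L) (hw : ∀ i, (spv x (F i)).eval (w i) = 0)
    (g₀ : L ≃ₐ[ℚ] L) (τ om : ℂ) (hτ : 0 < τ.im) (hom : om ≠ 0) (h0 : 2 / 3 * Real.pi ^ 4 * e4 τ / om ^ 4 = ((g₀ (w 0) : L) : ℂ))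
    (h2 : 8 / 27 * Real.pi ^ 6 * e6 τ / om ^ 6 = ((g₀ (w 2) : L) : ℂ)) (h3 : ((g₀ (w 3) : L) : ℂ) = P.z) (h4 : ((g₀ (w 4) : L) : ℂ) = rh) :
    ∃ p : LQ L, p.x = x ∧ p.w = w ∧ (∀ l, X₀ ≤ p.X l ∧ p.X l ≤ X₁) ∧ ∃ (a : Ir 2 E → Fin 2 → ℕ) (k : Ir 2 E → ℕ), (∀ i j, a i j ≤ 8 * E) ∧ (∀ i, k i ≤ 8 * E) ∧
      (DL (p.v P) a k).det ≠ 0 := by
  obtain ⟨X, hX1, hX2⟩ := hZ τ om ((g₀ (w 1) : L) : ℂ) hτ hom X₀ E hE
  have hsq : ∀ l, ∃ Y : L, Y ^ 2 = 4 * (X l : L) ^ 3 - 2 * w 0 * X l - w 2 := fun l =>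
    hB.sq (w 0) (w 2) (hw 0) (hw 2) (X l) ((hX1 l).2.trans hX)
  choose Y hY using hsq
  let p : LQ L := ⟨x, w, X, Y, hY⟩
  let f : L →+* ℂ := (algebraMap L ℂ).comp (g₀ : L →+* L)
  have hf : ∀ y : L, f y = ((g₀ y : L) : ℂ) := fun y => rfl
  have hw' : (p.map f).w = par5 P.z τ om ((g₀ (w 1) : L) : ℂ) := by
    funext i
    have e : (p.map f).w i = ((g₀ (w i) : L) : ℂ) := rfl
    rw [e]
    fin_cases i
    · exact h0.symm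
    · rfl
    · exact h2.symm
    · exact h3
    · exact h4
  obtain ⟨D, hD1, hD2, hD3, -, hD5, hD6⟩ :=
    exists_Dt_pt P τ om ((g₀ (w 1) : L) : ℂ) hτ hom (p.map f) hw'
  have hrow : ∀ c : Ir 2 E → ℂ, c ≠ 0 → ∃ (a : Fin 2 → ℕ) (k : ℕ), (∀ j, a j ≤ 8 * E) ∧ k ≤ 8 * E ∧
      ∑ κ, c κ * MvPolynomial.aeval ((p.map f).v P)
        ((der (fun j => (a j : ℤ)))^[k] (Rp (fun j => (κ j).val))) ≠ 0 := by
    intro c hc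
    have h := hX2 D hD1 hD2 hD3 hD5 c hc
    rwa [hD6] at h
  obtain ⟨a, k, ha, hk, hdet⟩ := rows_of E ((p.map f).v P) hrow
  refine ⟨p, rfl, rfl, fun l => ⟨(hX1 l).1, (hX1 l).2.trans hX⟩, a, k, ha, hk, fun h => hdet ?_⟩
  have hv : (p.map f).v P = fun s => f (p.v P s) := funext fun s => map_v P f p s
  rw [hv, DL_map, h, map_zero]

end Pool.Agent.MSL
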