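import Pool.Agent.Lib.MP_f58a57_nt.L.Defs3
import Pool.Agent.Lib.MP_f58a57_nt.L.M1_Upper
import Pool.Agent.Lib.MP_f58a57_nt.L.S4_Base

/-! # L/M6_Up: the upper bound at the conjugates near the original curve -/

open Filter

noncomputable section

namespace Pool.Agent.MSL

open MSD MSP MSK MSR

theorem m6_ev (M : ℕ) (hM : 10 ≤ M) (c : ℝ) : ∀ᶠ E : ℕ in atTop, c ≤ (E : ℝ) ^ M := by
  have h : Tendsto (fun E : ℕ => (E : ℝ) ^ M) atTop atTop :=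
    (tendsto_pow_atTop (by omega)).comp tendsto_natCast_atTop_atTop
  exact h.eventually_ge_atTop c

/-- M6. The upper bound in terms of the point. PROOF. `p₀ : LQ ℂ` with `p₀.w = par5 P.z P.z om kap`; `exists_Dt_pt` with `τ = P.z` gives `D` with base points of norm `≤ H = 1 + ‖P.z‖` and `vals P D = p₀.v P`. `upper` with this `H` and `M`. The values `p₀.v P s` are bounded by `E^M` for large `E`: `X l ≤ E⁴`, `‖Y l‖ ≤ 3 E⁸`, the others are constants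
(`M ≥ 10`). The point `p'` has the same `X`; `‖p'.v P s - p₀.v P s‖ ≤ E^M exp (-μ)` by hypothesis for `Y` and `w`, and `= 0` for `X, Q, b`. -/
theorem upper_pt (P : Par 2) (hD : DetSmall P) (om kap : ℂ) (hom : om ^ 2 = Real.pi) (hkap : kap = sE P.z / Real.pi) (M : ℕ) (hM : 10 ≤ M) :
    ∃ C : ℝ, 1 ≤ C ∧ ∀ᶠ E : ℕ in atTop, ∀ p₀ p' : LQ ℂ, p₀.w = par5 P.z P.z om kap → p'.X = p₀.X → (∀ l, p₀.X l ≤ E ^ 4) → (∀ l, ‖p₀.Y l‖ ≤ 3 * (p₀.X l : ℝ) ^ 2) →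
      ∀ μ : ℝ, 0 ≤ μ → μ ≤ E ^ 4 → (E : ℝ) ^ M * Real.exp (-μ) ≤ 1 → (∀ i, ‖p'.w i - p₀.w i‖ ≤ (E : ℝ) ^ M * Real.exp (-μ)) →
        (∀ l, ‖p'.Y l - p₀.Y l‖ ≤ (E : ℝ) ^ M * Real.exp (-μ)) →
        ∀ (a : Ir 2 E → Fin 2 → ℕ) (k : Ir 2 E → ℕ), (∀ i j, a i j ≤ 8 * E) → (∀ i, k i ≤ 8 * E) →
          ‖(DL (p'.v P) a k).det‖ ≤ Real.exp (C * E ^ 3 * Real.log E - μ * E ^ 2 / C) := by
  obtain ⟨C, hC1, hup⟩ := upper P hD (1 + ‖P.z‖) M (by omega)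
  refine ⟨C, hC1, ?_⟩
  have hom0 : om ≠ 0 := by
    intro h0
    rw [h0] at hom
    have hpi : (Real.pi : ℂ) ≠ 0 := by exact_mod_cast Real.pi_ne_zero
    apply hpi
    rw [← hom]
    ring
  have hb : ∀ᶠ E : ℕ in atTop, ∀ l : Fin 3, ‖(((P.b l : ℚ)) : ℂ)‖ ≤ (E : ℝ) ^ M := by
    rw [eventually_all]
    intro l
    exact m6_ev M hM _
  have hw : ∀ᶠ E : ℕ in atTop, ∀ i : Fin 5, ‖par5 P.z P.z om kap i‖ ≤ (E : ℝ) ^ M := by
    rw [eventually_all]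
    intro l
    exact m6_ev M hM _
  filter_upwards [eventually_ge_atTop 3, hb, hw] with E hE3 hbE hwE
  intro p₀ p' hp₀ hpX hX hY μ hμ0 hμE hμ1 hwi hYi a k ha hk
  have hEr : (3 : ℝ) ≤ (E : ℝ) := by exact_mod_cast hE3
  have hE1 : (1 : ℝ) ≤ (E : ℝ) := by linarith
  have hd0 : 0 ≤ (E : ℝ) ^ M * Real.exp (-μ) := by positivity
  obtain ⟨D, hDτ, hDom, hDkap, hDh, hDX, hDv⟩ := exists_Dt_pt P P.z om kap P.im hom0 p₀ hp₀
  have hXr : ∀ l, (p₀.X l : ℝ) ≤ (E : ℝ) ^ 4 := fun l => by exact_mod_cast hX l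
  refine hup E (by omega) D hDτ (by rw [hDom, hom]) (by rw [hDkap, hkap]) hDh ?_ (p'.v P) μ hμ0 hμE hμ1 ?_ a k ha hk
  · intro s
    rw [hDv]
    cases s with
    | X l =>
      show ‖((p₀.X l : ℕ) : ℂ)‖ ≤ _
      rw [Complex.norm_natCast]
      exact (hXr l).trans (pow_le_pow_right₀ hE1 (by omega))
    | Y l =>
      show ‖p₀.Y l‖ ≤ _
      have h1 := hY l
      have h2 : (p₀.X l : ℝ) ^ 2 ≤ ((E : ℝ) ^ 4) ^ 2 := pow_le_pow_left₀ (by positivity) (hXr l) 2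
      have h3 : (E : ℝ) ^ 10 ≤ (E : ℝ) ^ M := pow_le_pow_right₀ hE1 hM
      have h4 : 3 * (E : ℝ) ^ 8 ≤ (E : ℝ) ^ 10 := by
        have : (E : ℝ) ^ 10 = (E : ℝ) ^ 2 * (E : ℝ) ^ 8 := by ring
        rw [this]
        have h5 : (3 : ℝ) ≤ (E : ℝ) ^ 2 := by nlinarith
        exact mul_le_mul_of_nonneg_right h5 (by positivity)
      calc ‖p₀.Y l‖ ≤ 3 * (p₀.X l : ℝ) ^ 2 := h1
        _ ≤ 3 * ((E : ℝ) ^ 4) ^ 2 := by linarith
        _ = 3 * (E : ℝ) ^ 8 := by ring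
        _ ≤ (E : ℝ) ^ M := h4.trans h3
    | Q j =>
      show ‖(0 : ℂ)‖ ≤ _
      rw [norm_zero]
      positivity
    | b l => exact hbE l
    | g =>
      show ‖p₀.w 0‖ ≤ _
      rw [hp₀]
      exact hwE 0
    | k =>
      show ‖p₀.w 1‖ ≤ _
      rw [hp₀]
      exact hwE 1
    | z =>
      show ‖p₀.w 3‖ ≤ _
      rw [hp₀]
      exact hwE 3
    | r =>
      show ‖p₀.w 4‖ ≤ _
      rw [hp₀]
      exact hwE 4
  · intro s
    rw [hDv]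
    cases s with
    | X l =>
      show ‖((p'.X l : ℕ) : ℂ) - ((p₀.X l : ℕ) : ℂ)‖ ≤ _
      rw [hpX, sub_self, norm_zero]
      exact hd0
    | Y l => exact hYi l
    | Q j =>
      show ‖(0 : ℂ) - 0‖ ≤ _
      rw [sub_self, norm_zero]
      exact hd0
    | b l =>
      show ‖(((P.b l : ℚ)) : ℂ) - (((P.b l : ℚ)) : ℂ)‖ ≤ _
      rw [sub_self, norm_zero]
      exact hd0
    | g => exact hwi 0
    | k => exact hwi 1
    | z => exact hwi 3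
    | r => exact hwi 4

end Pool.Agent.MSL
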