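import Pool.Agent.Lib.MP_f58a57_nt.L.Defs2

/-! # L/S1_Near: roots near a simple root -/

open Polynomial

noncomputable section

namespace Pool.Agent.MSL

open MSD MSP

/-- S1a. PROOF. If `p(ω) = 0` take `ω`. Otherwise `p'(ω)/p(ω) = ∑_r 1/(ω - r)` over the roots `r` (with multiplicity, `n = natDegree p` of them, `n ≥ 1` as `p' ≠ 0`); if all `‖ω - r‖ > n ‖p(ω)‖/‖p'(ω)‖` then `‖p'/p‖ < n · ‖p'‖/(n ‖p‖)`, a contradiction.
(Mathlib: `Polynomial.eval_derivative_div_eval_of_ne_zero_of_splits` or the derivative of a product over the roots.) -/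
theorem root_near (p : Polynomial ℂ) (ω : ℂ) (h : (derivative p).eval ω ≠ 0) :
    ∃ r : ℂ, p.eval r = 0 ∧ ‖ω - r‖ ≤ p.natDegree * (‖p.eval ω‖ / ‖(derivative p).eval ω‖) := by
  by_cases h0 : p.eval ω = 0
  · exact ⟨ω, h0, by rw [sub_self, norm_zero]; positivity⟩
  have hp : p ≠ 0 := by
    rintro rfl
    exact h0 eval_zero
  have hsp : p.Splits := IsAlgClosed.splits p
  have hcard : p.roots.card = p.natDegree := hsp.natDegree_eq_card_roots.symm
  have hdeg : p.natDegree ≠ 0 := by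
    intro hd
    rw [eq_C_of_natDegree_eq_zero hd, derivative_C, eval_zero] at h
    exact h rfl
  have hne : p.roots.toFinset.Nonempty := by
    rw [Multiset.toFinset_nonempty]
    intro hr
    rw [hr, Multiset.card_zero] at hcard
    exact hdeg hcard.symm
  obtain ⟨r, hr, hmin⟩ := Finset.exists_min_image p.roots.toFinset (fun r => ‖ω - r‖) hne
  have hr0 : p.eval r = 0 := by
    rw [Multiset.mem_toFinset, mem_roots hp] at hr
    exact hr
  refine ⟨r, hr0, ?_⟩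
  have hωr : 0 < ‖ω - r‖ := by
    rw [norm_pos_iff, sub_ne_zero]
    rintro rfl
    exact h0 hr0
  have key := hsp.eval_derivative_div_eval_of_ne_zero h0
  have h1 : ‖(derivative p).eval ω / p.eval ω‖ ≤ p.natDegree * (1 / ‖ω - r‖) := by
    rw [key]
    refine (norm_multiset_sum_le _).trans ?_
    rw [Multiset.map_map, ← hcard]
    have h2 := Multiset.sum_le_card_nsmul (p.roots.map (norm ∘ fun z => 1 / (ω - z))) (1 / ‖ω - r‖) (by
      intro y hy
      rw [Multiset.mem_map] at hy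
      obtain ⟨z, hz, rfl⟩ := hy
      have h3 := hmin z (Multiset.mem_toFinset.2 hz)
      simp only [Function.comp]
      rw [norm_div, norm_one]
      exact one_div_le_one_div_of_le hωr h3)
    rw [Multiset.card_map, nsmul_eq_mul] at h2
    exact h2
  rw [norm_div] at h1
  have hp0 : 0 < ‖p.eval ω‖ := norm_pos_iff.2 h0
  have hd0 : 0 < ‖(derivative p).eval ω‖ := norm_pos_iff.2 h
  rw [div_le_iff₀ hp0] at h1
  rw [mul_div_assoc', le_div_iff₀ hd0]
  have h4 : ‖(derivative p).eval ω‖ * ‖ω - r‖ ≤ (p.natDegree * (1 / ‖ω - r‖) * ‖p.eval ω‖) * ‖ω - r‖ :=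
    mul_le_mul_of_nonneg_right h1 hωr.le
  have h5 : (p.natDegree * (1 / ‖ω - r‖) * ‖p.eval ω‖) * ‖ω - r‖ = p.natDegree * ‖p.eval ω‖ := by
    field_simp
  rw [h5] at h4
  linarith

/-- the values `x ↦ (spv x F)(ω)` are polynomial functions -/
theorem S1_poly (F : FP) (ω : ℂ) : ∃ G : MvPolynomial (Fin 2) ℂ, ∀ x : Fin 2 → ℂ,
    (spv x F).eval ω = MvPolynomial.eval x G := by
  refine ⟨F.eval₂ (MvPolynomial.map (Int.castRingHom ℂ)) (MvPolynomial.C ω), fun x => ?_⟩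
  rw [hom_eval₂, MvPolynomial.eval_C]
  unfold spv
  rw [eval_map]
  congr 1
  refine RingHom.ext fun q => ?_
  simp only [RingHom.comp_apply, MvPolynomial.eval_map]
  rfl

theorem S1_coef (q : MvPolynomial (Fin 2) ℤ) (x : Fin 2 → ℂ) :
    MvPolynomial.aeval x q = MvPolynomial.eval x (MvPolynomial.map (Int.castRingHom ℂ) q) := by
  rw [MvPolynomial.eval_map]
  rfl

/-- S1b. PROOF. `x ↦ (spv x F).eval ω` and `x ↦ (derivative (spv x F)).eval ω` are polynomial functions of `x` (finite sums of `aeval x (F.coeff k) * ω^k`), so continuous, and the first one is Lipschitz near `θ` (it is `C^1`, `ContDiffAt.exists_lipschitzOnWith`, or `AnalyticAt`). So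
`‖(spv x F).eval ω‖ ≤ K ‖x - θ‖` and `‖derivative‖ ≥ m/2` for `‖x - θ‖ ≤ r₀`; `root_near` with `natDegree (spv x F) ≤ natDegree F`. -/
theorem near_root (F : FP) (θ : Fin 2 → ℂ) (ω : ℂ) (h0 : (spv θ F).eval ω = 0) (h1 : (derivative (spv θ F)).eval ω ≠ 0) :
    ∃ r₀ C : ℝ, 0 < r₀ ∧ 1 ≤ C ∧ ∀ x : Fin 2 → ℂ, ‖x - θ‖ ≤ r₀ → ∃ ω' : ℂ, (spv x F).eval ω' = 0 ∧ ‖ω' - ω‖ ≤ C * ‖x - θ‖ := by
  obtain ⟨G, hG⟩ := S1_poly F ω
  obtain ⟨H, hH⟩ := S1_poly (derivative F) ω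
  have hder : ∀ x : Fin 2 → ℂ, (derivative (spv x F)).eval ω = MvPolynomial.eval x H := by
    intro x
    rw [← hH x]
    unfold spv
    rw [derivative_map]
  have hcd : ContDiffAt ℂ 1 (fun x : Fin 2 → ℂ => MvPolynomial.eval x G) θ :=
    ((AnalyticOnNhd.eval_mvPolynomial (𝕜 := ℂ) G) θ (Set.mem_univ θ)).contDiffAt
  obtain ⟨K, t, ht, hK⟩ := hcd.exists_lipschitzOnWith
  have hHc : Continuous fun x : Fin 2 → ℂ => MvPolynomial.eval x H := MvPolynomial.continuous_eval H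
  set m : ℝ := ‖MvPolynomial.eval θ H‖ with hm
  have hm0 : 0 < m := by
    rw [hm, norm_pos_iff, ← hder θ]
    exact h1
  have hev : ∀ᶠ x in nhds θ, m / 2 < ‖MvPolynomial.eval x H‖ :=
    (hHc.norm.tendsto θ).eventually (lt_mem_nhds (by rw [← hm]; linarith))
  obtain ⟨ε, hε, hball⟩ := Metric.eventually_nhds_iff_ball.1 (hev.and ht)
  refine ⟨ε / 2, max 1 (F.natDegree * (K * (2 / m))), by positivity, le_max_left _ _, fun x hx => ?_⟩
  have hxb : x ∈ Metric.ball θ ε := by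
    rw [Metric.mem_ball, dist_eq_norm]
    linarith
  obtain ⟨hx1, hx2⟩ := hball x hxb
  have hθt : θ ∈ t := mem_of_mem_nhds ht
  have hd0 : (derivative (spv x F)).eval ω ≠ 0 := by
    rw [hder x, ← norm_pos_iff]
    linarith
  obtain ⟨r, hr, hle⟩ := root_near (spv x F) ω hd0
  refine ⟨r, hr, ?_⟩
  have hg : ‖(spv x F).eval ω‖ ≤ K * ‖x - θ‖ := by
    have h3 := hK.dist_le_mul x hx2 θ hθt
    rw [← hG x, ← hG θ, h0, dist_zero_right, dist_eq_norm] at h3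
    exact h3
  have hnd : (spv x F).natDegree ≤ F.natDegree := natDegree_map_le
  have hq : ‖(spv x F).eval ω‖ / ‖(derivative (spv x F)).eval ω‖ ≤ K * ‖x - θ‖ * (2 / m) := by
    rw [hder x, div_le_iff₀ (by linarith)]
    have h4 : K * ‖x - θ‖ = K * ‖x - θ‖ * (2 / m) * (m / 2) := by
      field_simp
    calc ‖(spv x F).eval ω‖ ≤ K * ‖x - θ‖ := hg
      _ = K * ‖x - θ‖ * (2 / m) * (m / 2) := h4
      _ ≤ K * ‖x - θ‖ * (2 / m) * ‖MvPolynomial.eval x H‖ :=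
        mul_le_mul_of_nonneg_left hx1.le (by positivity)
  rw [norm_sub_rev]
  calc ‖ω - r‖ ≤ (spv x F).natDegree * (‖(spv x F).eval ω‖ / ‖(derivative (spv x F)).eval ω‖) := hle
    _ ≤ F.natDegree * (K * ‖x - θ‖ * (2 / m)) := by
      refine mul_le_mul (by exact_mod_cast hnd) hq (by positivity) (by positivity)
    _ = (F.natDegree * (K * (2 / m))) * ‖x - θ‖ := by ring
    _ ≤ max 1 (F.natDegree * (K * (2 / m))) * ‖x - θ‖ :=
      mul_le_mul_of_nonneg_right (le_max_right _ _) (norm_nonneg _)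

/-- S1c. PROOF. `near_root` for `i = 0, 1, 2`; for `i = 3, 4` take `ω' i = ω i` (`cz`, `cr`). The leading coefficients are continuous in `x`. -/
theorem near_lift (θ : Fin 2 → ℂ) (ω : Fin 5 → ℂ) (F : Fin 5 → FP) (h : FD θ ω F) : ∃ r₀ C : ℝ, 0 < r₀ ∧ 1 ≤ C ∧
    ∀ x : Fin 2 → ℂ, ‖x - θ‖ ≤ r₀ → (∀ i, MvPolynomial.aeval x (F i).leadingCoeff ≠ 0) ∧
      ∃ ω' : Fin 5 → ℂ, (∀ i, (spv x (F i)).eval (ω' i) = 0) ∧ (∀ i, ‖ω' i - ω i‖ ≤ C * ‖x - θ‖) ∧ ω' 3 = ω 3 ∧ ω' 4 = ω 4 := by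
  have hone : ∀ i : Fin 5, ∃ r C : ℝ, 0 < r ∧ 1 ≤ C ∧ ∀ x : Fin 2 → ℂ, ‖x - θ‖ ≤ r →
      ∃ w : ℂ, (spv x (F i)).eval w = 0 ∧ ‖w - ω i‖ ≤ C * ‖x - θ‖ ∧ (i = 3 ∨ i = 4 → w = ω i) := by
    intro i
    by_cases h3 : i = 3
    · subst h3
      exact ⟨1, 1, one_pos, le_rfl, fun x _ => ⟨ω 3, h.cz x, by
        rw [sub_self, norm_zero]; positivity, fun _ => rfl⟩⟩
    by_cases h4 : i = 4
    · subst h4
      exact ⟨1, 1, one_pos, le_rfl, fun x _ => ⟨ω 4, h.cr x, by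
        rw [sub_self, norm_zero]; positivity, fun _ => rfl⟩⟩
    obtain ⟨r, C, hr, hC, hx⟩ := near_root (F i) θ (ω i) (h.root i) (h.simple i)
    refine ⟨r, C, hr, hC, fun x hxr => ?_⟩
    obtain ⟨w, hw1, hw2⟩ := hx x hxr
    exact ⟨w, hw1, hw2, fun h5 => absurd h5 (by tauto)⟩
  choose r C hr hC hx using hone
  have hlc : ∀ᶠ x in nhds θ, ∀ i, MvPolynomial.aeval x (F i).leadingCoeff ≠ 0 := by
    rw [Filter.eventually_all]
    intro i
    have hc : Continuous fun x : Fin 2 → ℂ => MvPolynomial.aeval x (F i).leadingCoeff := by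
      simp only [S1_coef]
      exact MvPolynomial.continuous_eval _
    exact hc.continuousAt.eventually_ne (h.lc i)
  have hrr : ∀ᶠ x in nhds θ, ∀ i, ‖x - θ‖ ≤ r i := by
    rw [Filter.eventually_all]
    intro i
    filter_upwards [Metric.ball_mem_nhds θ (hr i)] with x hxi
    rw [Metric.mem_ball, dist_eq_norm] at hxi
    exact hxi.le
  obtain ⟨ε, hε, hball⟩ := Metric.eventually_nhds_iff_ball.1 (hlc.and hrr)
  have hCi : ∀ i, C i ≤ ∑ j, C j := fun i =>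
    Finset.single_le_sum (f := C) (fun j _ => zero_le_one.trans (hC j)) (Finset.mem_univ i)
  refine ⟨ε / 2, ∑ j, C j, by positivity, (hC 0).trans (hCi 0), fun x hxε => ?_⟩
  have hxb : x ∈ Metric.ball θ ε := by
    rw [Metric.mem_ball, dist_eq_norm]
    linarith
  obtain ⟨hx1, hx2⟩ := hball x hxb
  refine ⟨hx1, ?_⟩
  have hw : ∀ i, ∃ w : ℂ, (spv x (F i)).eval w = 0 ∧ ‖w - ω i‖ ≤ C i * ‖x - θ‖ ∧
      (i = 3 ∨ i = 4 → w = ω i) := fun i => hx i x (hx2 i)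
  choose w hw1 hw2 hw3 using hw
  refine ⟨w, hw1, fun i => (hw2 i).trans ?_, hw3 3 (Or.inl rfl), hw3 4 (Or.inr rfl)⟩
  exact mul_le_mul_of_nonneg_right (hCi i) (norm_nonneg _)

end Pool.Agent.MSL
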