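import Pool.Agent.Lib.MP_f58a57_nt.L.Defs2
import Pool.Agent.Lib.MP_f58a57_nt.G2_Link

/-! # L/S3_Curve: curves with given parameters near the original one -/

open Complex

noncomputable section

namespace Pool.Agent.MSL

open MSD MSP MSK

/-- algebra: from the relation to the scaling -/
theorem s3_scale (A B a b : ℂ) (hA : A ≠ 0) (hB : B ≠ 0) (ha : a ≠ 0) (hb : b ≠ 0)
    (h : B ^ 2 * a ^ 3 = A ^ 3 * b ^ 2) : ∃ om' : ℂ, om' ≠ 0 ∧ A / om' ^ 4 = a ∧ B / om' ^ 6 = b := by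
  obtain ⟨s, hs⟩ := IsAlgClosed.exists_pow_nat_eq ((B / b) / (A / a)) (n := 2) (by norm_num)
  have hρ : (B / b) / (A / a) ≠ 0 := div_ne_zero (div_ne_zero hB hb) (div_ne_zero hA ha)
  have hs0 : s ≠ 0 := by
    rintro rfl
    exact hρ (by rw [← hs]; ring)
  have h2 : s ^ 4 = A / a := by
    have : s ^ 4 = (s ^ 2) ^ 2 := by ring
    rw [this, hs]
    field_simp
    linear_combination h
  have h3 : s ^ 6 = B / b := by
    have : s ^ 6 = s ^ 2 * s ^ 4 := by ring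
    rw [this, hs, h2]
    field_simp
  refine ⟨s, hs0, ?_, ?_⟩
  · rw [h2]; field_simp
  · rw [h3]; field_simp

/-- the function `J` of the parameters -/
def s3J (p : ℂ × ℂ) : ℂ := 1728 * p.1 ^ 3 / (p.1 ^ 3 - 27 / 8 * p.2 ^ 2)

theorem s3_map (z : ℂ) (hz : 0 < z.im) (hj : deriv jj z ≠ 0) :
    Filter.map jj (nhds z) = nhds (jj z) := by
  have hd : DifferentiableOn ℂ jj {w : ℂ | 0 < w.im} := fun w hw =>
    (deriv_jj w hw).differentiableAt.differentiableWithinAt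
  have hs : {w : ℂ | 0 < w.im} ∈ nhds z := (isOpen_lt continuous_const continuous_im).mem_nhds hz
  have han : AnalyticAt ℂ jj z := hd.analyticAt hs
  exact han.hasStrictDerivAt.map_nhds_eq hj

/-- S3. PROOF. `e4 z, e6 z, dl z ≠ 0` (`G2_ne`), `jj = e4³/dl`, `dl = (e4³ - e6²)/1728` (definition). Let `a = w 0`, `b = w 2` near `a₀ = (2/3) π⁴ e4 z/om⁴ ≠ 0`, `b₀ = (8/27) π⁶ e6 z/om⁶ ≠ 0`. Put `u = a³/(2/3)³`, `v = b²/(8/27)²`; `u₀ = π¹² e4³/om¹²`, `v₀ = π¹² e6²/om¹²`; `u₀ ≠ v₀` as `dl z ≠ 0`.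
The value `J = 1728 u/(u - v)` tends to `jj z` for `w → w₀`. As `jj` is analytic at `z` with `jj' z ≠ 0` (`deriv_jj`), it is open at `z` (`HasStrictDerivAt.map_nhds_eq` or `AnalyticAt.eventually_constant_or_nhds_le_map_nhds`): for `w` near `w₀` there is `τ` near `z` (so `Im τ > 0`, `e4 τ, e6 τ, dl τ ≠ 0`) with
`jj τ = J`, i.e. `e4(τ)³/(e4(τ)³ - e6(τ)²) = u/(u - v)`, so `e4(τ)³ v = e6(τ)² u`. Let `ρ = ((8/27) π⁶ e6 τ/b)/((2/3) π⁴ e4 τ/a) ≠ 0`, `om' ` a square root of `ρ`. Then `om'⁴ = ρ² = (2/3) π⁴ e4 τ/a` by the relation, and `om'⁶ = ρ³ = (8/27) π⁶ e6 τ/b`. -/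
theorem curves_near (z om : ℂ) (hz : 0 < z.im) (hom : om ≠ 0) (hj : deriv jj z ≠ 0) : ∃ r₀ : ℝ, 0 < r₀ ∧ ∀ a b : ℂ,
    ‖a - 2 / 3 * Real.pi ^ 4 * e4 z / om ^ 4‖ ≤ r₀ → ‖b - 8 / 27 * Real.pi ^ 6 * e6 z / om ^ 6‖ ≤ r₀ →
      ∃ τ om' : ℂ, 0 < τ.im ∧ om' ≠ 0 ∧ 2 / 3 * Real.pi ^ 4 * e4 τ / om' ^ 4 = a ∧ 8 / 27 * Real.pi ^ 6 * e6 τ / om' ^ 6 = b := by
  obtain ⟨h4, h6, hd⟩ := G2_ne z hz hj
  have hpi : (Real.pi : ℂ) ≠ 0 := by exact_mod_cast Real.pi_ne_zero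
  set a₀ : ℂ := 2 / 3 * Real.pi ^ 4 * e4 z / om ^ 4 with ha₀
  set b₀ : ℂ := 8 / 27 * Real.pi ^ 6 * e6 z / om ^ 6 with hb₀
  have ha0 : a₀ ≠ 0 := by
    rw [ha₀]
    exact div_ne_zero (mul_ne_zero (mul_ne_zero (by norm_num) (pow_ne_zero 4 hpi)) h4) (pow_ne_zero 4 hom)
  have hb0 : b₀ ≠ 0 := by
    rw [hb₀]
    exact div_ne_zero (mul_ne_zero (mul_ne_zero (by norm_num) (pow_ne_zero 6 hpi)) h6) (pow_ne_zero 6 hom)
  have hden : a₀ ^ 3 - 27 / 8 * b₀ ^ 2 = 8 / 27 * Real.pi ^ 12 / om ^ 12 * (1728 * dl z) := by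
    rw [ha₀, hb₀]
    unfold dl
    field_simp
    ring
  have hden0 : a₀ ^ 3 - 27 / 8 * b₀ ^ 2 ≠ 0 := by
    rw [hden]
    exact mul_ne_zero (div_ne_zero (mul_ne_zero (by norm_num) (pow_ne_zero 12 hpi)) (pow_ne_zero 12 hom))
      (mul_ne_zero (by norm_num) hd)
  have hJ0 : s3J (a₀, b₀) = jj z := by
    unfold s3J
    rw [div_eq_iff hden0]
    show 1728 * a₀ ^ 3 = jj z * (a₀ ^ 3 - 27 / 8 * b₀ ^ 2)
    rw [hden]
    unfold jj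
    rw [ha₀]
    field_simp
    ring
  -- the open set
  set U : Set ℂ := {τ | 0 < τ.im ∧ e4 τ ≠ 0 ∧ e6 τ ≠ 0 ∧ dl τ ≠ 0} with hU
  have c4 : ContinuousAt e4 z := (deriv_e4 z hz).continuousAt
  have c6 : ContinuousAt e6 z := (deriv_e6 z hz).continuousAt
  have cd : ContinuousAt dl z := (deriv_dl z hz).continuousAt
  have hUz : U ∈ nhds z := by
    have e1 : ∀ᶠ τ in nhds z, 0 < τ.im :=
      (isOpen_lt continuous_const continuous_im).mem_nhds hz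
    filter_upwards [e1, c4.eventually_ne h4, c6.eventually_ne h6, cd.eventually_ne hd] with τ t1 t2 t3 t4
    exact ⟨t1, t2, t3, t4⟩
  have hJU : jj '' U ∈ nhds (jj z) := by
    rw [← s3_map z hz hj]
    exact Filter.image_mem_map hUz
  have cJ : ContinuousAt s3J (a₀, b₀) := by
    unfold s3J
    apply ContinuousAt.div
    · fun_prop
    · fun_prop
    · exact hden0
  have hS : ∀ᶠ p : ℂ × ℂ in nhds (a₀, b₀), p.1 ≠ 0 ∧ p.2 ≠ 0 ∧ p.1 ^ 3 - 27 / 8 * p.2 ^ 2 ≠ 0 ∧ s3J p ∈ jj '' U := by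
    have e1 : ∀ᶠ p : ℂ × ℂ in nhds (a₀, b₀), p.1 ≠ 0 :=
      (continuous_fst.continuousAt (x := (a₀, b₀))).eventually_ne ha0
    have e2 : ∀ᶠ p : ℂ × ℂ in nhds (a₀, b₀), p.2 ≠ 0 :=
      (continuous_snd.continuousAt (x := (a₀, b₀))).eventually_ne hb0
    have c3 : ContinuousAt (fun p : ℂ × ℂ => p.1 ^ 3 - 27 / 8 * p.2 ^ 2) (a₀, b₀) := by fun_prop
    have e3 : ∀ᶠ p : ℂ × ℂ in nhds (a₀, b₀), p.1 ^ 3 - 27 / 8 * p.2 ^ 2 ≠ 0 := c3.eventually_ne hden0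
    have e4' : ∀ᶠ p : ℂ × ℂ in nhds (a₀, b₀), s3J p ∈ jj '' U := cJ (by rw [hJ0]; exact hJU)
    filter_upwards [e1, e2, e3, e4'] with p t1 t2 t3 t4
    exact ⟨t1, t2, t3, t4⟩
  obtain ⟨r, hr, hball⟩ := Metric.eventually_nhds_iff.1 hS
  refine ⟨r / 2, by positivity, fun a b ha hb => ?_⟩
  have hab : dist ((a, b) : ℂ × ℂ) (a₀, b₀) < r := by
    rw [Prod.dist_eq, max_lt_iff]
    constructor
    · show dist a a₀ < r
      rw [dist_eq_norm]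
      linarith
    · show dist b b₀ < r
      rw [dist_eq_norm]
      linarith
  obtain ⟨q1, q2, q3, τ, ⟨t1, t2, t3, t4⟩, hτ⟩ := hball hab
  simp only at q1 q2 q3
  have hrel : e4 τ ^ 3 * (27 / 8 * b ^ 2) = a ^ 3 * e6 τ ^ 2 := by
    unfold s3J at hτ
    simp only at hτ
    rw [jj, div_eq_div_iff t4 q3] at hτ
    unfold dl at hτ
    linear_combination -hτ
  have hA : (2 / 3 * Real.pi ^ 4 * e4 τ : ℂ) ≠ 0 :=
    mul_ne_zero (mul_ne_zero (by norm_num) (pow_ne_zero 4 hpi)) t2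
  have hB : (8 / 27 * Real.pi ^ 6 * e6 τ : ℂ) ≠ 0 :=
    mul_ne_zero (mul_ne_zero (by norm_num) (pow_ne_zero 6 hpi)) t3
  obtain ⟨s, hs0, hs1, hs2⟩ := s3_scale _ _ a b hA hB q1 q2 (by
    linear_combination (-(64 / 729 : ℂ) * (Real.pi : ℂ) ^ 12) * hrel)
  exact ⟨τ, s, t1, hs0, hs1, hs2⟩

end Pool.Agent.MSL
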