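import Pool.Agent.Lib.MP_f58a57_nt.L.L7_Lower
import Pool.Agent.Lib.MP_f58a57_nt.L.S1_Near
import Pool.Agent.Lib.MP_f58a57_nt.L.S3_Curve
import Pool.Agent.Lib.MP_f58a57_nt.L.M4_Lift
import Pool.Agent.Lib.MP_f58a57_nt.L.M5_Exists
import Pool.Agent.Lib.MP_f58a57_nt.L.M6_Up

/-! # L/M7_Core: the inequality for the conjugates of an algebraic point -/

open Filter

noncomputable section

namespace Pool.Agent.MSL

open MSD MSP MSK MSR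

theorem m7_hgt_nonneg (α : ℂ) : 0 ≤ hgt α := by
  have hne : mz α ≠ 0 := by
    unfold mz
    split_ifs with h
    · exact h.choose_spec.1.ne_zero
    · exact Polynomial.X_ne_zero
  unfold hgt
  exact div_nonneg (Real.log_nonneg (one_le_MM _ hne)) (Nat.cast_nonneg _)

theorem m7_den (P : Par 2) : ∃ q : ℕ, 1 ≤ q ∧ ∀ l, ∃ m : ℤ, (q : ℚ) * P.b l = m := by
  refine ⟨∏ l, (P.b l).den, Nat.one_le_iff_ne_zero.2 (Finset.prod_ne_zero_iff.2 fun l _ => (P.b l).den_nz), fun l => ?_⟩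
  refine ⟨(∏ j ∈ Finset.univ.erase l, ((P.b j).den : ℤ)) * (P.b l).num, ?_⟩
  rw [← Finset.mul_prod_erase Finset.univ _ (Finset.mem_univ l)]
  push_cast
  have h := Rat.mul_den_eq_num (P.b l)
  calc ((P.b l).den : ℚ) * (∏ x ∈ Finset.univ.erase l, ((P.b x).den : ℚ)) * P.b l
      = (∏ x ∈ Finset.univ.erase l, ((P.b x).den : ℚ)) * (P.b l * ((P.b l).den : ℚ)) := by ring
    _ = _ := by rw [h]

/-- the numerical conditions on `E` -/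
theorem m7_event (X₀ C_Z : ℕ) (C₁ r₁ r₂ : ℝ) (hr1 : 0 < r₁) (hr2 : 0 < r₂) (hC1 : 1 ≤ C₁) : ∀ᶠ E : ℕ in atTop,
    2 ≤ E ∧ X₀ + C_Z * E ^ 3 ≤ E ^ 4 ∧ 3 * C₁ ≤ E ∧ (1 : ℝ) / E ≤ r₁ ∧ C₁ * (1 / E) ≤ r₂ := by
  have h1 : ∀ᶠ E : ℕ in atTop, 2 ≤ E := eventually_ge_atTop 2
  have h2 : ∀ᶠ E : ℕ in atTop, X₀ + C_Z ≤ E := eventually_ge_atTop _
  have h3 : ∀ᶠ E : ℕ in atTop, 3 * C₁ ≤ (E : ℝ) := tendsto_natCast_atTop_atTop.eventually_ge_atTop _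
  have h4 : ∀ᶠ E : ℕ in atTop, 1 / r₁ ≤ (E : ℝ) := tendsto_natCast_atTop_atTop.eventually_ge_atTop _
  have h5 : ∀ᶠ E : ℕ in atTop, C₁ / r₂ ≤ (E : ℝ) := tendsto_natCast_atTop_atTop.eventually_ge_atTop _
  filter_upwards [h1, h2, h3, h4, h5] with E e1 e2 e3 e4 e5
  have hE : (0 : ℝ) < E := by
    have : 0 < E := by omega
    exact_mod_cast this
  refine ⟨e1, ?_, e3, ?_, ?_⟩
  · have h6 : 1 ≤ E ^ 3 := Nat.one_le_pow _ _ (by omega)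
    calc X₀ + C_Z * E ^ 3 ≤ X₀ * E ^ 3 + C_Z * E ^ 3 := by
          have := Nat.mul_le_mul_left X₀ h6
          omega
      _ = (X₀ + C_Z) * E ^ 3 := by ring
      _ ≤ E * E ^ 3 := Nat.mul_le_mul_right _ e2
      _ = E ^ 4 := by ring
  · rw [div_le_iff₀ hE]
    rw [div_le_iff₀ hr1] at e4
    linarith
  · rw [mul_one_div, div_le_iff₀ hE]
    rw [div_le_iff₀ hr2] at e5
    linarith

/-- the last step: arithmetic -/
theorem m7_arith (n k : ℝ) (E : ℕ) (hE : 2 ≤ E) (Cu Cl H S : ℝ) (hCu : 1 ≤ Cu) (hCl : 1 ≤ Cl) (hH : 0 ≤ H) (hk : k ≤ n) (hk0 : 0 ≤ k)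
    (h : -(n * (Cl * (E : ℝ) ^ 3 * Real.log E * (1 + H))) ≤ k * (Cu * (E : ℝ) ^ 3 * Real.log E) - S * (E : ℝ) ^ 2 / Cu) :
    S ≤ Cu * (Cu + Cl) * n * E * Real.log E * (1 + H) := by
  have hE0 : (0 : ℝ) < E := by
    have : 0 < E := by omega
    exact_mod_cast this
  have hlog : 0 ≤ Real.log (E : ℝ) := Real.log_natCast_nonneg E
  have h1 : S * (E : ℝ) ^ 2 / Cu ≤ (Cu + Cl) * n * (E : ℝ) ^ 3 * Real.log E * (1 + H) := by
    have h2 : k * (Cu * (E : ℝ) ^ 3 * Real.log E) ≤ n * (Cu * (E : ℝ) ^ 3 * Real.log E) :=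
      mul_le_mul_of_nonneg_right hk (by positivity)
    have h3 : n * (Cu * (E : ℝ) ^ 3 * Real.log E) ≤ n * (Cu * (E : ℝ) ^ 3 * Real.log E) * (1 + H) := by
      have : 0 ≤ n * (Cu * (E : ℝ) ^ 3 * Real.log E) := by
        have : 0 ≤ n := hk0.trans hk
        positivity
      nlinarith
    have h4 : (Cu + Cl) * n * (E : ℝ) ^ 3 * Real.log E * (1 + H) =
        n * (Cu * (E : ℝ) ^ 3 * Real.log E) * (1 + H) + n * (Cl * (E : ℝ) ^ 3 * Real.log E * (1 + H)) := by ring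
    rw [h4]
    linarith
  have hCu0 : 0 < Cu := by linarith
  rw [div_le_iff₀ hCu0] at h1
  have h5 : S * (E : ℝ) ^ 2 ≤ (Cu * (Cu + Cl) * n * E * Real.log E * (1 + H)) * (E : ℝ) ^ 2 := by
    refine h1.trans (le_of_eq ?_)
    ring
  exact le_of_mul_le_mul_right h5 (by positivity)

/-- M7a. The part for the near conjugates. PROOF. Constants: `r₁, C₁` from `near_lift`; `r₂` from `curves_near` for `z = P.z`, `om`; `X₀` from `Y_size (ω 0) (ω 2)`; `C_Z` from `hZ`; `M = M₀ + 12`; `C_u` from `upper_pt`, `C_l` from `lower` (with this `M`; `q` a common denominator of the `P.b l`). `E` large: `X₀ + C_Z E³ ≤ E⁴`, `3 C₁ ≤ E`,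
`E^(M₀) E^(-M) ≤ min r₁ (r₂/C₁)`. For `g ∈ N`: `‖cj g x - θ‖ ≤ E^(M₀) exp (-μ g) =: η g ≤ E^(M₀ - M) ≤ r₁` as `μ g ≥ M log E`. `lift_sum` gives `w`, `N'`. Take `g₀ ∈ N'`: `‖g₀ (w 0) - ω 0‖ ≤ C₁ η ≤ r₂` and the same for `w 2`: `curves_near` gives `τ', om'`. `exists_pt` with `X₁ = E⁴` gives `p` (`p.x = x`, `p.w = w`) and rows `a, k` with
`(DL (p.v P) a k).det ≠ 0`. Let `Y₀ l` be a square root of `4X³ - 2 ω 0 X - ω 2` (`Complex` : `IsSquare`/`cpow`), `1 ≤ ‖Y₀ l‖ ≤ 3X²` (`Y_size`). `sign_sum` with `ε g = C₁ η g` gives `Y₁, N''`. `p₀ = ⟨θ, ω, p.X, Y₁, _⟩`, and for `g ∈ N''` `p' = p.map (embedding ∘ g)`: `‖p'.w i - ω i‖ ≤ C₁ η g ≤ E^M exp (-μ g)`,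
`‖p'.Y l - Y₁ l‖ ≤ 3 E⁴ C₁ η g ≤ E^M exp (-μ g)`. `upper_pt`: `‖g det‖ ≤ exp (C_u E³ log E - μ g E²/C_u)` (`map_v`, `DL_map`), so `log ‖g det‖ ≤ ..` (`det ≠ 0`). `lower` with `N''`: `-card G C_l E³ log E (1 + ..) ≤ ∑_(N'') (C_u E³ log E - μ g E²/C_u)`, so `∑_(N'') μ g ≤ C_u (C_u + C_l) card G E log E (1 + ..)`
(`card N'' ≤ card G`, `hgt ≥ 0`). Multiply by `8 ∏ (natDegree (F i) + 1)`. -/
theorem core_near (P : Par 2) (hD : DetSmall P) (hZ : ZeroEst P) (hj : deriv jj P.z ≠ 0) (om kap : ℂ) (hom : om ^ 2 = Real.pi) (hkap : kap = sE P.z / Real.pi)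
    (θ : Fin 2 → ℂ) (F : Fin 5 → FP) (hF : FD θ (par5 P.z P.z om kap) F) (M₀ : ℕ) : ∃ (C : ℝ) (M : ℕ), 1 ≤ C ∧ 1 ≤ M ∧ ∀ᶠ E : ℕ in atTop,
      ∀ (L : IntermediateField ℚ ℂ) [FiniteDimensional ℚ L] [IsGalois ℚ L] (x : Fin 2 → L), Big L F x (E ^ 4) → ∀ u v : ℕ, u ≠ v → u ≤ E ^ M₀ → v ≤ E ^ M₀ →
        ∀ (N : Finset (L ≃ₐ[ℚ] L)) (μ : (L ≃ₐ[ℚ] L) → ℝ), (∀ g ∈ N, M * Real.log E ≤ μ g ∧ μ g ≤ E ^ 4 ∧ ‖cj g x - θ‖ ≤ E ^ M₀ * Real.exp (-μ g)) →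
          ∑ g ∈ N, μ g ≤ C * Fintype.card (L ≃ₐ[ℚ] L) * E * Real.log E *
            (1 + hgt ((x 0 + u * x 1 : L) : ℂ) + hgt ((x 0 + v * x 1 : L) : ℂ)) := by
  classical
  have hom0 : om ≠ 0 := by
    intro h
    rw [h] at hom
    have : (Real.pi : ℂ) = 0 := by rw [← hom]; ring
    exact Real.pi_ne_zero (by exact_mod_cast this)
  obtain ⟨ω, hω⟩ : ∃ ω, ω = par5 P.z P.z om kap := ⟨_, rfl⟩
  have hω0 : ω 0 = 2 / 3 * Real.pi ^ 4 * e4 P.z / om ^ 4 := by rw [hω]; rfl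
  have hω2 : ω 2 = 8 / 27 * Real.pi ^ 6 * e6 P.z / om ^ 6 := by rw [hω]; rfl
  have hω3 : ω 3 = P.z := by rw [hω]; rfl
  have hω4 : ω 4 = rh := by rw [hω]; rfl
  rw [← hω] at hF
  obtain ⟨r₁, C₁, hr1, hC1, hn⟩ := near_lift θ ω F hF
  obtain ⟨r₂, hr2, hcn⟩ := curves_near P.z om P.im hom0 hj
  obtain ⟨X₀, hX0, hYs⟩ := Y_size (ω 0) (ω 2)
  obtain ⟨C_Z, hZs⟩ := hZ
  obtain ⟨M, hM⟩ : ∃ M, M = M₀ + 12 := ⟨_, rfl⟩
  obtain ⟨Cu, hCu, hup⟩ := upper_pt P hD om kap hom hkap M (by omega)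
  obtain ⟨q, hq0, hq⟩ := m7_den P
  obtain ⟨Cl, hCl, hlo⟩ := lower P F q hq0 hq M
  have hPi : (1 : ℝ) ≤ ∏ i, ((F i).natDegree + 1 : ℝ) := by
    have h0 : ∀ i ∈ (Finset.univ : Finset (Fin 5)), (1 : ℝ) ≤ ((F i).natDegree + 1 : ℝ) := fun i _ => by
      have : (0 : ℝ) ≤ (F i).natDegree := Nat.cast_nonneg _
      linarith
    calc (1 : ℝ) = ∏ _i : Fin 5, (1 : ℝ) := by simp
      _ ≤ _ := Finset.prod_le_prod (fun _ _ => zero_le_one) h0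
  obtain ⟨Pi, hPid⟩ : ∃ Pi : ℝ, Pi = ∏ i, ((F i).natDegree + 1 : ℝ) := ⟨_, rfl⟩
  rw [← hPid] at hPi
  refine ⟨Pi * 8 * (Cu * (Cu + Cl)), M, ?_, by omega, ?_⟩
  · have h1 : (1 : ℝ) ≤ Cu * (Cu + Cl) := by nlinarith
    nlinarith
  filter_upwards [hup, m7_event X₀ C_Z C₁ r₁ r₂ hr1 hr2 hC1] with E hupE hev
  obtain ⟨hE2, hEX, hE3, hEr1, hEr2⟩ := hev
  intro L _ _ x hB u v huv hu hv N μ hN
  have hE0 : (0 : ℝ) < E := by
    have : 0 < E := by omega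
    exact_mod_cast this
  have hE1 : (1 : ℝ) ≤ E := by
    have : 1 ≤ E := by omega
    exact_mod_cast this
  have hlog : 0 ≤ Real.log (E : ℝ) := Real.log_natCast_nonneg E
  have hH1 := m7_hgt_nonneg ((x 0 + u * x 1 : L) : ℂ)
  have hH2 := m7_hgt_nonneg ((x 0 + v * x 1 : L) : ℂ)
  obtain ⟨H, hH⟩ : ∃ H : ℝ, H = hgt ((x 0 + u * x 1 : L) : ℂ) + hgt ((x 0 + v * x 1 : L) : ℂ) := ⟨_, rfl⟩
  have hH0 : 0 ≤ H := by rw [hH]; linarith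
  have hHr : 1 + hgt ((x 0 + u * x 1 : L) : ℂ) + hgt ((x 0 + v * x 1 : L) : ℂ) = 1 + H := by rw [hH]; ring
  rw [hHr]
  obtain ⟨n, hncard⟩ : ∃ n : ℕ, n = Fintype.card (L ≃ₐ[ℚ] L) := ⟨_, rfl⟩
  rw [← hncard]
  by_cases hne : N.Nonempty
  swap
  · rw [Finset.not_nonempty_iff_eq_empty] at hne
    rw [hne, Finset.sum_empty]
    have : 0 ≤ Pi * 8 * (Cu * (Cu + Cl)) := by
      have h1 : (0 : ℝ) ≤ Cu * (Cu + Cl) := by nlinarith
      nlinarith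
    positivity
  have hμ0 : ∀ g ∈ N, 0 ≤ μ g := fun g hg => le_trans (by positivity) (hN g hg).1
  have hEM : ∀ g ∈ N, (E : ℝ) ^ M * Real.exp (-μ g) ≤ 1 := by
    intro g hg
    have h1 := (hN g hg).1
    have h2 : (E : ℝ) ^ M = Real.exp (M * Real.log E) := by
      rw [mul_comm, Real.exp_mul, Real.exp_log hE0, Real.rpow_natCast]
    rw [h2, ← Real.exp_add]
    exact Real.exp_le_one_iff.2 (by linarith)
  have hMs : (E : ℝ) ^ M = (E : ℝ) ^ M₀ * (E : ℝ) ^ 12 := by rw [hM, pow_add]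
  -- the size of eta
  have hE12 : ∀ k : ℕ, k ≤ 12 → (E : ℝ) ^ k ≤ (E : ℝ) ^ 12 := fun k hk => pow_le_pow_right₀ hE1 hk
  have heta : ∀ g ∈ N, (E : ℝ) ^ M₀ * Real.exp (-μ g) ≤ 1 / E := by
    intro g hg
    rw [le_div_iff₀ hE0]
    have h1 := hEM g hg
    rw [hMs] at h1
    have h2 : (E : ℝ) ^ M₀ * Real.exp (-μ g) * E ≤ (E : ℝ) ^ M₀ * Real.exp (-μ g) * (E : ℝ) ^ 12 := by
      apply mul_le_mul_of_nonneg_left _ (by positivity)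
      have := hE12 1 (by norm_num)
      rwa [pow_one] at this
    refine h2.trans (le_trans (le_of_eq ?_) h1)
    ring
  have hnear : ∀ g ∈ N, ‖cj g x - θ‖ ≤ r₁ := fun g hg => ((hN g hg).2.2.trans (heta g hg)).trans hEr1
  obtain ⟨hlc, w, N', hN'N, hN'ne, hw, hwn, hs1⟩ := lift_sum L θ ω F r₁ C₁ hn x (E ^ 4) hB N hnear hne μ hμ0
  obtain ⟨g₀, hg₀⟩ := hN'ne
  have hC10 : 0 ≤ C₁ := by linarith
  have hdist : ∀ g ∈ N', ∀ i, ‖((g (w i) : L) : ℂ) - ω i‖ ≤ C₁ * ((E : ℝ) ^ M₀ * Real.exp (-μ g)) := by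
    intro g hg i
    exact ((hwn g hg).1 i).trans (mul_le_mul_of_nonneg_left (hN g (hN'N hg)).2.2 hC10)
  have hdist2 : ∀ i, ‖((g₀ (w i) : L) : ℂ) - ω i‖ ≤ r₂ := fun i =>
    ((hdist g₀ hg₀ i).trans (mul_le_mul_of_nonneg_left (heta g₀ (hN'N hg₀)) hC10)).trans hEr2
  obtain ⟨τ', om', hτ', hom', h0', h2'⟩ := hcn ((g₀ (w 0) : L) : ℂ) ((g₀ (w 2) : L) : ℂ)
    (by rw [← hω0]; exact hdist2 0) (by rw [← hω2]; exact hdist2 2)
  obtain ⟨p, hpx, hpw, hpX, a, k, ha, hk, hdet⟩ := exists_pt L P C_Z X₀ (E ^ 4) E (by omega) hZs hEX F x hB w hw g₀ τ' om' hτ' hom' h0' h2'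
    (by rw [(hwn g₀ hg₀).2.1, hω3]) (by rw [(hwn g₀ hg₀).2.2, hω4])
  have hsq : ∀ l, ∃ y : ℂ, y ^ 2 = 4 * (p.X l : ℂ) ^ 3 - 2 * ω 0 * p.X l - ω 2 := fun l =>
    IsAlgClosed.exists_pow_nat_eq _ (by norm_num)
  choose Y₀ hY₀ using hsq
  have hYb : ∀ l, 1 ≤ ‖Y₀ l‖ ∧ ‖Y₀ l‖ ≤ 3 * (p.X l : ℝ) ^ 2 := fun l => hYs (p.X l) (Y₀ l) (hpX l).1 (hY₀ l)
  obtain ⟨Y₁, N'', hN''N', hN''ne, hY1, hYn, hs2⟩ := sign_sum L p ω Y₀ hY₀ (fun l => hX0.trans (hpX l).1) (fun l => (hYb l).1) N' ⟨g₀, hg₀⟩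
    (fun g => C₁ * ((E : ℝ) ^ M₀ * Real.exp (-μ g))) (fun g hg => by rw [hpw]; exact ⟨hdist g hg 0, hdist g hg 2⟩) μ
    (fun g hg => hμ0 g (hN'N hg))
  have hY1s : ∀ l, Y₁ l ^ 2 = 4 * (p.X l : ℂ) ^ 3 - 2 * ω 0 * p.X l - ω 2 := by
    intro l
    rcases hY1 l with h | h
    · rw [h]; exact hY₀ l
    · rw [h, neg_sq]; exact hY₀ l
  have hY1n : ∀ l, ‖Y₁ l‖ ≤ 3 * (p.X l : ℝ) ^ 2 := by
    intro l
    rcases hY1 l with h | h
    · rw [h]; exact (hYb l).2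
    · rw [h, norm_neg]; exact (hYb l).2
  -- the upper bound
  have hupper : ∀ g ∈ N'', Real.log ‖((g (DL (p.v P) a k).det : L) : ℂ)‖ ≤ Cu * (E : ℝ) ^ 3 * Real.log E - μ g * (E : ℝ) ^ 2 / Cu := by
    intro g hg
    have hg' := hN''N' hg
    have hgN := hN'N hg'
    obtain ⟨f, hf⟩ : ∃ f : L →+* ℂ, ∀ y : L, f y = ((g y : L) : ℂ) := ⟨(algebraMap L ℂ).comp (g : L →+* L), fun y => rfl⟩
    have hsmall : C₁ * ((E : ℝ) ^ M₀ * Real.exp (-μ g)) ≤ (E : ℝ) ^ M * Real.exp (-μ g) := by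
      rw [hMs]
      have h1 : C₁ ≤ (E : ℝ) ^ 12 := by
        have := hE12 1 (by norm_num)
        rw [pow_one] at this
        linarith
      calc C₁ * ((E : ℝ) ^ M₀ * Real.exp (-μ g)) ≤ (E : ℝ) ^ 12 * ((E : ℝ) ^ M₀ * Real.exp (-μ g)) :=
            mul_le_mul_of_nonneg_right h1 (by positivity)
        _ = _ := by ring
    have hb := hupE ⟨θ, ω, p.X, Y₁, hY1s⟩ (p.map f) hω rfl (fun l => (hpX l).2) hY1n (μ g) (hμ0 g hgN) (hN g hgN).2.1 (hEM g hgN)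
      (fun i => by
        have h1 : (p.map f).w i = ((g (w i) : L) : ℂ) := by
          rw [← hpw, ← hf]
          rfl
        rw [h1]
        exact (hdist g hg' i).trans hsmall)
      (fun l => by
        have h1 : (p.map f).Y l = ((g (p.Y l) : L) : ℂ) := by
          rw [← hf]
          rfl
        rw [h1]
        refine (hYn g hg l).trans ?_
        have h2 : (p.X l : ℝ) ≤ (E : ℝ) ^ 4 := by exact_mod_cast (hpX l).2
        rw [hMs]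
        have h3 : 3 * (p.X l : ℝ) * C₁ ≤ (E : ℝ) ^ 12 := by
          have h4 : 3 * (p.X l : ℝ) * C₁ ≤ (E : ℝ) ^ 4 * E := by
            have h5 : 3 * (p.X l : ℝ) * C₁ = (p.X l : ℝ) * (3 * C₁) := by ring
            rw [h5]
            exact mul_le_mul h2 hE3 (by positivity) (by positivity)
          have h6 : (E : ℝ) ^ 4 * E = (E : ℝ) ^ 5 := by ring
          rw [h6] at h4
          exact h4.trans (hE12 5 (by norm_num))
        calc 3 * (p.X l : ℝ) * (C₁ * ((E : ℝ) ^ M₀ * Real.exp (-μ g))) = (3 * (p.X l : ℝ) * C₁) * ((E : ℝ) ^ M₀ * Real.exp (-μ g)) := by ring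
          _ ≤ (E : ℝ) ^ 12 * ((E : ℝ) ^ M₀ * Real.exp (-μ g)) := mul_le_mul_of_nonneg_right h3 (by positivity)
          _ = _ := by ring)
      a k ha hk
    have hv : (p.map f).v P = fun s => f (p.v P s) := funext fun s => map_v P f p s
    rw [hv, DL_map, hf] at hb
    have hpos : 0 < ‖((g (DL (p.v P) a k).det : L) : ℂ)‖ := by
      rw [norm_pos_iff]
      intro h
      apply hdet
      have h1 : (g (DL (p.v P) a k).det : L) = 0 := by exact_mod_cast h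
      exact (map_eq_zero_iff g g.injective).1 h1
    have hl := Real.log_le_log hpos hb
    rwa [Real.log_exp] at hl
  have hXM : ∀ l, p.X l ≤ E ^ M := fun l => (hpX l).2.trans (Nat.pow_le_pow_right (by omega) (by omega))
  have hM0M : E ^ M₀ ≤ E ^ M := Nat.pow_le_pow_right (by omega) (by omega)
  have hlower := hlo L p (by rw [hpx, hpw]; exact hw) (by rw [hpx]; exact hlc) E hE2 hXM u v huv (hu.trans hM0M) (hv.trans hM0M) a k ha hk hdet N''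
  rw [hpx, hHr, ← hncard] at hlower
  have hsum : ∑ g ∈ N'', Real.log ‖((g (DL (p.v P) a k).det : L) : ℂ)‖ ≤
      (N''.card : ℝ) * (Cu * (E : ℝ) ^ 3 * Real.log E) - (∑ g ∈ N'', μ g) * (E : ℝ) ^ 2 / Cu := by
    refine (Finset.sum_le_sum hupper).trans (le_of_eq ?_)
    rw [Finset.sum_sub_distrib, Finset.sum_const, nsmul_eq_mul, Finset.sum_mul, Finset.sum_div]
  have hcard : (N''.card : ℝ) ≤ n := by
    rw [hncard]
    exact_mod_cast Finset.card_le_univ N''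
  have hfin := m7_arith n N''.card E hE2 Cu Cl H (∑ g ∈ N'', μ g) hCu hCl hH0 hcard (Nat.cast_nonneg _) (hlower.trans hsum)
  have hPi0 : 0 ≤ Pi := by linarith
  rw [← hPid] at hs1
  calc ∑ g ∈ N, μ g ≤ Pi * ∑ g ∈ N', μ g := hs1
    _ ≤ Pi * (8 * ∑ g ∈ N'', μ g) := mul_le_mul_of_nonneg_left hs2 hPi0
    _ ≤ Pi * (8 * (Cu * (Cu + Cl) * n * E * Real.log E * (1 + H))) :=
        mul_le_mul_of_nonneg_left (mul_le_mul_of_nonneg_left hfin (by norm_num)) hPi0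
    _ = _ := by ring

/-- M7b. PROOF. `C, M` from `core_near`, `μ g = min (E⁴) (lp ‖g α - y‖)` where `α = x 0 + u x 1`, `y = θ 0 + u θ 1`. `N = {g : M log E ≤ μ g}`. For `g ∉ N` the term is `≤ M log E`, together `≤ card G M log E ≤ card G M E log E (1 + ..)` (`hgt ≥ 0`). For `g ∈ N`: `μ g > 0`, so `lp r = - log r ≥ μ g` for `r = ‖g α - y‖ > 0`,
`r ≤ exp (-μ g)`, and `‖cj g x - θ‖ ≤ E^M₀ r` (sup norm on `Fin 2 → ℂ`). -/
theorem core_ineq (P : Par 2) (hD : DetSmall P) (hZ : ZeroEst P) (hj : deriv jj P.z ≠ 0) (om kap : ℂ) (hom : om ^ 2 = Real.pi) (hkap : kap = sE P.z / Real.pi)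
    (θ : Fin 2 → ℂ) (F : Fin 5 → FP) (hF : FD θ (par5 P.z P.z om kap) F) (M₀ : ℕ) : ∃ C : ℝ, 1 ≤ C ∧ ∀ᶠ E : ℕ in atTop,
      ∀ (L : IntermediateField ℚ ℂ) [FiniteDimensional ℚ L] [IsGalois ℚ L] (x : Fin 2 → L), Big L F x (E ^ 4) → ∀ u v : ℕ, u ≠ v → u ≤ E ^ M₀ → v ≤ E ^ M₀ →
        (∀ (g : L ≃ₐ[ℚ] L) (j : Fin 2), ‖cj g x j - θ j‖ ≤ E ^ M₀ * ‖((g (x 0 + u * x 1) : L) : ℂ) - (θ 0 + u * θ 1)‖) →
          ∑ g : L ≃ₐ[ℚ] L, min ((E : ℝ) ^ 4) (lp ‖((g (x 0 + u * x 1) : L) : ℂ) - (θ 0 + u * θ 1)‖) ≤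
            C * Fintype.card (L ≃ₐ[ℚ] L) * E * Real.log E * (1 + hgt ((x 0 + u * x 1 : L) : ℂ) + hgt ((x 0 + v * x 1 : L) : ℂ)) := by
  classical
  obtain ⟨C, M, hC, hM, hc⟩ := core_near P hD hZ hj om kap hom hkap θ F hF M₀
  refine ⟨C + M, by have : (0 : ℝ) ≤ M := Nat.cast_nonneg M; linarith, ?_⟩
  filter_upwards [hc, eventually_ge_atTop 2] with E hcE hE2
  intro L _ _ x hB u v huv hu hv hx
  have hE0 : (0 : ℝ) < E := by
    have : 0 < E := by omega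
    exact_mod_cast this
  have hE1 : (1 : ℝ) ≤ E := by
    have : 1 ≤ E := by omega
    exact_mod_cast this
  have hlog : 0 < Real.log (E : ℝ) := Real.log_pos (by exact_mod_cast (by omega : 1 < E))
  have hM1 : (1 : ℝ) ≤ M := by exact_mod_cast hM
  obtain ⟨μ, hμ⟩ : ∃ μ : (L ≃ₐ[ℚ] L) → ℝ, ∀ g, μ g = min ((E : ℝ) ^ 4) (lp ‖((g (x 0 + u * x 1) : L) : ℂ) - (θ 0 + u * θ 1)‖) :=
    ⟨_, fun _ => rfl⟩
  have hconv : ∑ g : L ≃ₐ[ℚ] L, min ((E : ℝ) ^ 4) (lp ‖((g (x 0 + u * x 1) : L) : ℂ) - (θ 0 + u * θ 1)‖) = ∑ g : L ≃ₐ[ℚ] L, μ g :=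
    Finset.sum_congr rfl fun g _ => (hμ g).symm
  rw [hconv]
  have hH1 := m7_hgt_nonneg ((x 0 + u * x 1 : L) : ℂ)
  have hH2 := m7_hgt_nonneg ((x 0 + v * x 1 : L) : ℂ)
  obtain ⟨N, hNd⟩ : ∃ N : Finset (L ≃ₐ[ℚ] L), N = Finset.univ.filter fun g => M * Real.log E ≤ μ g := ⟨_, rfl⟩
  have hNs : ∀ g ∈ N, M * Real.log E ≤ μ g ∧ μ g ≤ E ^ 4 ∧ ‖cj g x - θ‖ ≤ E ^ M₀ * Real.exp (-μ g) := by
    intro g hg
    rw [hNd, Finset.mem_filter] at hg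
    refine ⟨hg.2, by rw [hμ]; exact min_le_left _ _, ?_⟩
    have hpos : 0 < μ g := lt_of_lt_of_le (by positivity) hg.2
    have h1 : μ g ≤ lp ‖((g (x 0 + u * x 1) : L) : ℂ) - (θ 0 + u * θ 1)‖ := by rw [hμ]; exact min_le_right _ _
    obtain ⟨r, hr⟩ : ∃ r, r = ‖((g (x 0 + u * x 1) : L) : ℂ) - (θ 0 + u * θ 1)‖ := ⟨_, rfl⟩
    have hr0 : 0 ≤ r := by rw [hr]; exact norm_nonneg _
    have hxg := hx g
    rw [← hr] at h1 hxg
    have h2 : μ g ≤ -Real.log r := by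
      unfold lp at h1
      rcases le_max_iff.1 h1 with h | h
      · linarith
      · exact h
    have hrpos : 0 < r := by
      rcases hr0.lt_or_eq with h | h
      · exact h
      · exfalso
        rw [← h, Real.log_zero] at h2
        linarith
    have h3 : r ≤ Real.exp (-μ g) := by
      rw [← Real.exp_log hrpos]
      exact Real.exp_le_exp.2 (by linarith)
    rw [pi_norm_le_iff_of_nonneg (by positivity)]
    intro j
    rw [Pi.sub_apply]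
    exact (hxg j).trans (mul_le_mul_of_nonneg_left h3 (by positivity))
  have h1 := hcE L x hB u v huv hu hv N μ hNs
  have h2 : ∑ g ∈ Finset.univ.filter (fun g => ¬ M * Real.log E ≤ μ g), μ g ≤
      (Fintype.card (L ≃ₐ[ℚ] L) : ℝ) * (M * Real.log E) := by
    refine (Finset.sum_le_card_nsmul _ _ (M * Real.log E) fun g hg => ?_).trans ?_
    · rw [Finset.mem_filter] at hg
      exact (not_le.1 hg.2).le
    · rw [nsmul_eq_mul]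
      apply mul_le_mul_of_nonneg_right _ (by positivity)
      exact_mod_cast Finset.card_le_univ _
  rw [← Finset.sum_filter_add_sum_filter_not Finset.univ (fun g => M * Real.log E ≤ μ g), ← hNd]
  have h3 : (Fintype.card (L ≃ₐ[ℚ] L) : ℝ) * (M * Real.log E) ≤
      M * Fintype.card (L ≃ₐ[ℚ] L) * E * Real.log E * (1 + hgt ((x 0 + u * x 1 : L) : ℂ) + hgt ((x 0 + v * x 1 : L) : ℂ)) := by
    have h4 : (1 : ℝ) ≤ E * (1 + hgt ((x 0 + u * x 1 : L) : ℂ) + hgt ((x 0 + v * x 1 : L) : ℂ)) := by nlinarith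
    have h5 : (0 : ℝ) ≤ (Fintype.card (L ≃ₐ[ℚ] L) : ℝ) * (M * Real.log E) := by positivity
    calc (Fintype.card (L ≃ₐ[ℚ] L) : ℝ) * (M * Real.log E) ≤
        (Fintype.card (L ≃ₐ[ℚ] L) : ℝ) * (M * Real.log E) * (E * (1 + hgt ((x 0 + u * x 1 : L) : ℂ) + hgt ((x 0 + v * x 1 : L) : ℂ))) :=
          le_mul_of_one_le_right h5 h4
      _ = _ := by ring
  calc _ ≤ _ := add_le_add h1 (h2.trans h3)
    _ = _ := by ring

end Pool.Agent.MSL
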