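import Pool.Agent.Lib.MP_f58a57_nt.L.A1c_Swap
import Pool.Agent.Lib.MP_f58a57_nt.L.M3_Big
import Pool.Agent.Lib.MP_f58a57_nt.L.M7_Core

/-! # L/M8_Contra: no algebraic point is extremely close -/

open Filter Polynomial

noncomputable section

namespace Pool.Agent.MSL

open MSD MSP MSK MSR

theorem m8_sum (L : IntermediateField ℚ ℂ) [FiniteDimensional ℚ L] [IsGalois ℚ L] (α : L) (y : ℂ) (hy : aeval y (mz (α : ℂ)) ≠ 0) :
    ∃ (R : Finset L) (s : ℕ), 1 ≤ s ∧ R.card = (mz (α : ℂ)).natDegree ∧ s * R.card = Fintype.card (L ≃ₐ[ℚ] L) ∧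
      (-Real.log ‖aeval y (mz (α : ℂ))‖ ≤ ∑ r ∈ R, lp ‖(r : ℂ) - y‖) ∧
      (∀ φ : L → ℝ, ∑ g : L ≃ₐ[ℚ] L, φ (g α) = s * ∑ r ∈ R, φ r) ∧ (∀ r ∈ R, ∃ g : L ≃ₐ[ℚ] L, g α = r) := by
  classical
  obtain ⟨R, s, hs, hR, hsR, hfac, hmem, hprod⟩ := prod_gal L α
  refine ⟨R, s, hs, hR, hsR, ?_, ?_, ?_⟩
  · have h1 : (mz (α : ℂ)).map (algebraMap ℤ ℂ) = C ((mz (α : ℂ)).leadingCoeff : ℂ) * ∏ r ∈ R, (X - C (r : ℂ)) := by
      have := congrArg (Polynomial.map (algebraMap L ℂ)) hfac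
      rw [Polynomial.map_map] at this
      rw [show (algebraMap ℤ ℂ) = (algebraMap L ℂ).comp (algebraMap ℤ L) from Subsingleton.elim _ _, this]
      simp only [Polynomial.map_mul, Polynomial.map_C, Polynomial.map_prod, Polynomial.map_sub, Polynomial.map_X, map_intCast, Polynomial.map_intCast]
      rfl
    have h2 : aeval y (mz (α : ℂ)) = ((mz (α : ℂ)).leadingCoeff : ℂ) * ∏ r ∈ R, (y - (r : ℂ)) := by
      rw [← Polynomial.eval_map_algebraMap, h1]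
      simp [Polynomial.eval_prod]
    rw [h2] at hy ⊢
    have hlc : ((mz (α : ℂ)).leadingCoeff : ℂ) ≠ 0 := left_ne_zero_of_mul hy
    have hpr : ∏ r ∈ R, (y - (r : ℂ)) ≠ 0 := right_ne_zero_of_mul hy
    have hlc1 : (1 : ℝ) ≤ ‖((mz (α : ℂ)).leadingCoeff : ℂ)‖ := by
      have h3 : (mz (α : ℂ)).leadingCoeff ≠ 0 := by
        intro h
        apply hlc
        rw [h]
        simp
      rw [Complex.norm_intCast]
      exact_mod_cast Int.one_le_abs h3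
    rw [norm_mul, norm_prod, Real.log_mul (by positivity) (by rw [← norm_prod]; exact norm_ne_zero_iff.mpr hpr),
      Real.log_prod (fun r hr => norm_ne_zero_iff.mpr (Finset.prod_ne_zero_iff.mp hpr r hr))]
    have h4 : ∑ r ∈ R, (-Real.log ‖y - (r : ℂ)‖) ≤ ∑ r ∈ R, lp ‖(r : ℂ) - y‖ := by
      refine Finset.sum_le_sum fun r _ => ?_
      rw [norm_sub_rev]
      exact le_max_right _ _
    rw [Finset.sum_neg_distrib] at h4
    have h5 := Real.log_nonneg hlc1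
    linarith
  · intro φ
    have h := hprod (Multiplicative ℝ) (fun x => Multiplicative.ofAdd (φ x))
    have h' := congrArg Multiplicative.toAdd h
    rw [toAdd_prod, toAdd_pow, toAdd_prod] at h'
    simpa using h'
  · intro r hr
    by_contra hcon
    push Not at hcon
    have h := hprod ℕ (fun t => if t = r then 0 else 1)
    rw [Finset.prod_eq_one (fun g _ => by rw [if_neg (hcon g)]), Finset.prod_eq_zero hr (by simp), zero_pow (by omega)] at h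
    exact one_ne_zero h

/-- M8a. PROOF. `prod_gal` for `α` gives `R`, `s`, `s card R = card G`, `card R = n = natDegree (mz α)`. With `M = Multiplicative ℝ`: `∑_g φ (g α) = s ∑_(r ∈ R) φ r`, `φ r = min B (lp ‖r - y‖) ≥ 0`. If some `r ∈ R` has `lp ‖r - y‖ ≥ B` then `n ∑_g ≥ n s B = card G B`. Otherwise `φ r = lp ‖r - y‖`, and
`‖aeval y (mz α)‖ = |lc| ∏_(r ∈ R) ‖y - r‖` (map the factorization of `prod_gal` to `ℂ`), `|lc| ≥ 1`: `-log ‖aeval y (mz α)‖ ≤ ∑_R (-log ‖r - y‖) ≤ ∑_R lp ‖r - y‖`, so `n ∑_g = n s ∑_R ≥ card G (-log ‖..‖)`. -/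
theorem conj_sum (L : IntermediateField ℚ ℂ) [FiniteDimensional ℚ L] [IsGalois ℚ L] (α : L) (y : ℂ) (hy : aeval y (mz (α : ℂ)) ≠ 0) (B : ℝ) (hB : 0 ≤ B) :
    (Fintype.card (L ≃ₐ[ℚ] L) : ℝ) * (-Real.log ‖aeval y (mz (α : ℂ))‖) ≤
        (mz (α : ℂ)).natDegree * ∑ g : L ≃ₐ[ℚ] L, min B (lp ‖((g α : L) : ℂ) - y‖) ∨
      (Fintype.card (L ≃ₐ[ℚ] L) : ℝ) * B ≤ (mz (α : ℂ)).natDegree * ∑ g : L ≃ₐ[ℚ] L, min B (lp ‖((g α : L) : ℂ) - y‖) := by
  obtain ⟨R, s, hs, hR, hsR, hlog, hsum, -⟩ := m8_sum L α y hy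
  have hlp : ∀ t : ℝ, 0 ≤ lp t := fun t => le_max_left _ _
  have key : ((mz (α : ℂ)).natDegree : ℝ) * ∑ g : L ≃ₐ[ℚ] L, min B (lp ‖((g α : L) : ℂ) - y‖) =
      (Fintype.card (L ≃ₐ[ℚ] L) : ℝ) * ∑ r ∈ R, min B (lp ‖(r : ℂ) - y‖) := by
    rw [hsum (fun r => min B (lp ‖(r : ℂ) - y‖)), ← hsR, hR]
    push_cast
    ring
  rw [key]
  by_cases h : ∃ r ∈ R, B ≤ lp ‖(r : ℂ) - y‖
  · right
    obtain ⟨r, hr, hB'⟩ := h
    refine mul_le_mul_of_nonneg_left ?_ (Nat.cast_nonneg _)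
    have h1 : min B (lp ‖(r : ℂ) - y‖) = B := min_eq_left hB'
    calc B = min B (lp ‖(r : ℂ) - y‖) := h1.symm
      _ ≤ _ := Finset.single_le_sum (f := fun r : L => min B (lp ‖(r : ℂ) - y‖)) (fun i _ => le_min hB (hlp _)) hr
  · left
    push Not at h
    refine mul_le_mul_of_nonneg_left ?_ (Nat.cast_nonneg _)
    refine hlog.trans (le_of_eq (Finset.sum_congr rfl fun r hr => ?_))
    rw [min_eq_right (h r hr).le]

theorem m8_ev2 (L : IntermediateField ℚ ℂ) (P : BP) (f : L →+* ℂ) (x y : L) :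
    ev2 P (f x) (f y) = f ((P.map (Polynomial.aeval x : Polynomial ℤ →ₐ[ℤ] L).toRingHom).eval y) := by
  unfold ev2 sp
  rw [← Polynomial.eval_map_apply, Polynomial.map_map]
  congr 2
  refine Polynomial.ringHom_ext (fun a => ?_) ?_
  · simp
  · simp

theorem m8_conj (L : IntermediateField ℚ ℂ) (P : BP) (g : L ≃ₐ[ℚ] L) (x y : L) (h : ev2 P (x : ℂ) (y : ℂ) = 0) :
    ev2 P ((g x : L) : ℂ) ((g y : L) : ℂ) = 0 := by
  have h1 := m8_ev2 L P (algebraMap L ℂ) x y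
  have h2 := m8_ev2 L P ((algebraMap L ℂ).comp (g : L →+* L)) x y
  have h3 : (P.map (Polynomial.aeval x : Polynomial ℤ →ₐ[ℤ] L).toRingHom).eval y = 0 := by
    apply (algebraMap L ℂ).injective
    rw [← h1, map_zero]
    exact h
  rw [h3, map_zero] at h2
  exact h2

theorem m8_aeval (L : IntermediateField ℚ ℂ) (p : MvPolynomial (Fin 2) ℤ) (g : L ≃ₐ[ℚ] L) (x : Fin 2 → L)
    (h : MvPolynomial.aeval (fun j => ((g (x j) : L) : ℂ)) p ≠ 0) : MvPolynomial.aeval (fun j => ((x j : L) : ℂ)) p ≠ 0 := by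
  have h1 : MvPolynomial.aeval (fun j => ((g (x j) : L) : ℂ)) p = algebraMap L ℂ (g (MvPolynomial.aeval x p)) := by
    have : (algebraMap L ℂ) (g (MvPolynomial.aeval x p)) = ((algebraMap L ℂ).comp (g : L →+* L)) (MvPolynomial.aeval x p) := rfl
    rw [this, MvPolynomial.map_aeval, MvPolynomial.aeval_def, MvPolynomial.coe_eval₂Hom]
    congr 1
    exact Subsingleton.elim _ _
  have h2 : MvPolynomial.aeval (fun j => ((x j : L) : ℂ)) p = algebraMap L ℂ (MvPolynomial.aeval x p) := by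
    rw [MvPolynomial.map_aeval, MvPolynomial.aeval_def, MvPolynomial.coe_eval₂Hom]
    congr 1
  rw [h1] at h
  rw [h2]
  intro h0
  apply h
  have h3 : MvPolynomial.aeval x p = 0 := (algebraMap L ℂ).injective (by rw [h0, map_zero])
  rw [h3, map_zero, map_zero]

/-- M8b. The leading coefficients do not vanish. PROOF. `L` from `exists_L {x, y}`, `α = x + u y` in `L`, `y₀ = θ 0 + u θ 1`, `κ = K l⁴ log l`, `n = natDegree (mz α) ≥ 1`. `aeval y₀ (mz α) ≠ 0` (`lin_ne`). `prod_gal` gives `R`, `card R = n`, and as in M8a `κ n ≤ -log ‖aeval y₀ (mz α)‖ ≤ ∑_(r ∈ R) lp ‖r - y₀‖`,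
so some `r ∈ R` has `lp ‖r - y₀‖ ≥ κ > 0`, and `r = g α` for some `g` (otherwise the product formula of `prod_gal` with `F t = if t = r then 0 else 1` (in `ℕ`) gives `1 = 0`), so `‖g α - y₀‖ ≤ exp (-κ)`.
The pair `(g x, g y)` is a common zero of `P, Q` (integer coefficients), so `‖g x - θ 0‖, ‖g y - θ 1‖ ≤ l^28 exp (-κ) ≤ r₀` for large `l` (`κ ≥ 100 log l`), and `NearL` shows that the leading coefficients do not vanish at `(g x, g y)`, so not at `(x, y)` (`aeval (g x, g y) p = g (aeval (x, y) p)`). -/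
theorem lc_ne (θ : Fin 2 → ℂ) (hθ : AlgebraicIndependent ℚ θ) (ω : Fin 5 → ℂ) (F : Fin 5 → FP) (r₀ C : ℝ) (hr : 0 < r₀) (hn : NearL θ ω F r₀ C) (K : ℝ) (hK : 1 ≤ K) :
    ∀ᶠ l : ℕ in atTop, ∀ (P Q : BP) (u : ℕ) (x y : ℂ), ev2 P x y = 0 → ev2 Q x y = 0 →
    (∀ x' y' : ℂ, ev2 P x' y' = 0 → ev2 Q x' y' = 0 → IsAlgebraic ℚ x' ∧ IsAlgebraic ℚ y' ∧
      ‖x' - θ 0‖ ≤ l ^ 28 * ‖x' + u * y' - (θ 0 + u * θ 1)‖ ∧ ‖y' - θ 1‖ ≤ l ^ 28 * ‖x' + u * y' - (θ 0 + u * θ 1)‖) →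
    ‖Polynomial.aeval (θ 0 + u * θ 1) (mz (x + u * y))‖ ≤
      Real.exp (-(K * l ^ 4 * Real.log l * ((mz (x + u * y)).natDegree + Real.log (MM (mz (x + u * y)))))) →
    ∀ i, MvPolynomial.aeval ![x, y] (F i).leadingCoeff ≠ 0 := by
  filter_upwards [eventually_ge_atTop 3, eventually_ge_atTop ⌈1 / r₀⌉₊] with l hl3 hlr
  intro P Q u x y hP hQ hcz hval
  have hl3' : (3 : ℝ) ≤ l := by exact_mod_cast hl3
  have hl0 : (0 : ℝ) < l := by linarith
  have hlog : 0 < Real.log l := Real.log_pos (by linarith)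
  obtain ⟨hx, hy, -, -⟩ := hcz x y hP hQ
  classical
  obtain ⟨L, hfd, hgal, hL⟩ := exists_L {x, y} (by
    intro t ht
    rcases Finset.mem_insert.mp ht with rfl | h
    · exact hx
    · rw [Finset.mem_singleton.mp h]; exact hy)
  obtain ⟨x', rfl⟩ : ∃ x' : L, (x' : ℂ) = x := ⟨⟨x, hL x (by simp)⟩, rfl⟩
  obtain ⟨y', rfl⟩ : ∃ y' : L, (y' : ℂ) = y := ⟨⟨y, hL y (by simp)⟩, rfl⟩
  have hα : (((x' + u * y' : L)) : ℂ) = (x' : ℂ) + u * (y' : ℂ) := by push_cast; ring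
  rw [← hα] at hval
  have halg : IsAlgebraic ℚ (((x' + u * y' : L)) : ℂ) := by
    have := IsAlgebraic.of_finite ℚ (x' + u * y' : L)
    exact (isAlgebraic_algebraMap_iff (algebraMap L ℂ).injective).mpr this
  obtain ⟨hirr, hdeg, -⟩ := mz_spec _ halg
  have hne : aeval (θ 0 + u * θ 1) (mz (((x' + u * y' : L)) : ℂ)) ≠ 0 := lin_ne θ hθ u _ hirr.ne_zero
  obtain ⟨R, s, hs, hR, hsR, hlg, -, hgr⟩ := m8_sum L (x' + u * y') (θ 0 + u * θ 1) hne
  set n : ℕ := (mz (((x' + u * y' : L)) : ℂ)).natDegree with hn_def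
  set κ : ℝ := K * l ^ 4 * Real.log l with hκ_def
  have hκ0 : 0 < κ := by positivity
  have hMM : 0 ≤ Real.log (MM (mz (((x' + u * y' : L)) : ℂ))) := Real.log_nonneg (one_le_MM _ hirr.ne_zero)
  have h1 : κ * n ≤ ∑ r ∈ R, lp ‖(r : ℂ) - (θ 0 + u * θ 1)‖ := by
    refine le_trans ?_ hlg
    have h2 := Real.log_le_log (norm_pos_iff.mpr hne) hval
    rw [Real.log_exp] at h2
    have h3 : 0 ≤ κ * Real.log (MM (mz (((x' + u * y' : L)) : ℂ))) := by positivity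
    linarith [mul_add κ (n : ℝ) (Real.log (MM (mz (((x' + u * y' : L)) : ℂ))))]
  obtain ⟨r, hrR, hr1⟩ : ∃ r ∈ R, κ ≤ lp ‖(r : ℂ) - (θ 0 + u * θ 1)‖ := by
    by_contra hcon
    push Not at hcon
    have hRne : R.Nonempty := by
      rw [← Finset.card_pos, hR]
      omega
    have h2 := Finset.sum_lt_sum_of_nonempty hRne hcon
    rw [Finset.sum_const, nsmul_eq_mul, hR] at h2
    linarith [mul_comm κ (n : ℝ)]
  obtain ⟨g, hg⟩ := hgr r hrR
  have hr2 : ‖(r : ℂ) - (θ 0 + u * θ 1)‖ ≤ Real.exp (-κ) := by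
    rcases (norm_nonneg ((r : ℂ) - (θ 0 + u * θ 1))).eq_or_lt with h | h
    · rw [← h]; positivity
    · rw [← Real.log_le_iff_le_exp h]
      unfold lp at hr1
      rcases le_max_iff.mp hr1 with h5 | h5
      · linarith
      · linarith
  have hsmall : (l : ℝ) ^ 28 * Real.exp (-κ) ≤ r₀ := by
    have h81 : (29 : ℝ) ≤ l ^ 4 := by
      calc (29 : ℝ) ≤ 3 ^ 4 := by norm_num
        _ ≤ l ^ 4 := by gcongr
    have h2 : 29 * Real.log l ≤ κ := by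
      rw [hκ_def]
      have : (29 : ℝ) ≤ K * l ^ 4 := by nlinarith
      exact mul_le_mul_of_nonneg_right this hlog.le
    have h3 : Real.exp (-κ) ≤ ((l : ℝ) ^ 29)⁻¹ := by
      rw [← Real.exp_log (show (0 : ℝ) < ((l : ℝ) ^ 29)⁻¹ by positivity), Real.log_inv, Real.log_pow]
      apply Real.exp_le_exp.mpr
      push_cast
      linarith
    have h4 : 1 / r₀ ≤ l := (Nat.le_ceil _).trans (by exact_mod_cast hlr)
    calc (l : ℝ) ^ 28 * Real.exp (-κ) ≤ (l : ℝ) ^ 28 * ((l : ℝ) ^ 29)⁻¹ := by gcongr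
      _ = 1 / (l : ℝ) := by field_simp
      _ ≤ r₀ := by
        rw [div_le_iff₀ hl0]
        rw [div_le_iff₀ hr] at h4
        linarith
  have hcg := hcz ((g x' : L) : ℂ) ((g y' : L) : ℂ) (m8_conj L P g x' y' hP) (m8_conj L Q g x' y' hQ)
  have hgα : ((g x' : L) : ℂ) + u * ((g y' : L) : ℂ) = (r : ℂ) := by
    rw [← hg]
    simp
  rw [hgα] at hcg
  obtain ⟨-, -, hc0, hc1⟩ := hcg
  have hbound : (l : ℝ) ^ 28 * ‖(r : ℂ) - (θ 0 + u * θ 1)‖ ≤ r₀ :=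
    (mul_le_mul_of_nonneg_left hr2 (by positivity)).trans hsmall
  have hnear := hn (fun j => ((g (![x', y'] j) : L) : ℂ)) (by
    rw [pi_norm_le_iff_of_nonneg hr.le]
    intro j
    fin_cases j
    · exact hc0.trans hbound
    · exact hc1.trans hbound)
  intro i
  have h6 := m8_aeval L (F i).leadingCoeff g ![x', y'] (hnear.1 i)
  have h7 : (fun j => ((![x', y'] j : L) : ℂ)) = ![(x' : ℂ), (y' : ℂ)] := by
    funext j
    fin_cases j <;> rfl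
  rw [h7] at h6
  exact h6

/-- M8c. PROOF. `E = l⁴` (`l → ∞`), `M₀ = 7`, `C` from `core_ineq`, `K = 8 C + 1`. Given the data of `Appr`, `lc_ne` (`near_lift` gives `r₀`, `C₁`) and `exists_big` with `X₁ = E⁴` give `L` and `x' : Fin 2 → L`. The hypothesis of `core_ineq` holds: `(g x, g y)` is a common zero of `P, Q`. With `t = n + log MM (mz α)`, `n = natDegree`, `hgt β ≤ hgt α`:
`n (1 + hgt α + hgt β) ≤ 2 t`. `conj_sum` with `B = E⁴`: (i) `K l⁴ log l t ≤ -log ‖..‖ ≤ 2 C E log E t = 8 C l⁴ log l t`, a contradiction as `t > 0`, `log l > 0`. (ii) `E⁴ ≤ 2 C E log E t ≤ 8 C l⁴ log l l¹¹`, i.e. `l ≤ 8 C log l`: false for large `l`. -/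
theorem not_appr (P : Par 2) (hD : DetSmall P) (hZ : ZeroEst P) (hj : deriv jj P.z ≠ 0) (om kap : ℂ) (hom : om ^ 2 = Real.pi) (hkap : kap = sE P.z / Real.pi)
    (θ : Fin 2 → ℂ) (hθ : AlgebraicIndependent ℚ θ) (F : Fin 5 → FP) (hF : FD θ (par5 P.z P.z om kap) F) :
    ∃ K : ℝ, 1 ≤ K ∧ ∀ᶠ l : ℕ in atTop, ¬ Appr θ l K := by
  obtain ⟨C, hC1, hcore⟩ := core_ineq P hD hZ hj om kap hom hkap θ F hF 7
  obtain ⟨r₀, C₁, hr₀, -, hnear⟩ := near_lift θ _ F hF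
  refine ⟨8 * C + 1, by linarith, ?_⟩
  have hcore' : ∀ᶠ l : ℕ in atTop, ∀ (L : IntermediateField ℚ ℂ) [FiniteDimensional ℚ L] [IsGalois ℚ L] (x : Fin 2 → L), Big L F x ((l ^ 4) ^ 4) → ∀ u v : ℕ, u ≠ v → u ≤ (l ^ 4) ^ 7 → v ≤ (l ^ 4) ^ 7 →
        (∀ (g : L ≃ₐ[ℚ] L) (j : Fin 2), ‖cj g x j - θ j‖ ≤ ((l ^ 4 : ℕ) : ℝ) ^ 7 * ‖((g (x 0 + u * x 1) : L) : ℂ) - (θ 0 + u * θ 1)‖) →
          ∑ g : L ≃ₐ[ℚ] L, min (((l ^ 4 : ℕ) : ℝ) ^ 4) (lp ‖((g (x 0 + u * x 1) : L) : ℂ) - (θ 0 + u * θ 1)‖) ≤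
            C * Fintype.card (L ≃ₐ[ℚ] L) * ((l ^ 4 : ℕ) : ℝ) * Real.log ((l ^ 4 : ℕ) : ℝ) * (1 + hgt ((x 0 + u * x 1 : L) : ℂ) + hgt ((x 0 + v * x 1 : L) : ℂ)) :=
    (tendsto_pow_atTop (α := ℕ) (n := 4) (by norm_num)).eventually hcore
  have hbig : ∀ᶠ l : ℕ in atTop, 8 * C * Real.log l < l := by
    have h1 : Tendsto (fun l : ℕ => Real.log (l : ℝ) / (l : ℝ)) atTop (nhds 0) := by
      have h2 := (Real.isLittleO_log_id_atTop).tendsto_div_nhds_zero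
      exact h2.comp tendsto_natCast_atTop_atTop
    have h3 : ∀ᶠ l : ℕ in atTop, Real.log (l : ℝ) / (l : ℝ) < 1 / (8 * C) := h1.eventually_lt_const (by positivity)
    filter_upwards [h3, eventually_gt_atTop 0] with l hl hl0
    have hl0' : (0 : ℝ) < l := by exact_mod_cast hl0
    rw [div_lt_div_iff₀ hl0' (by positivity)] at hl
    linarith
  filter_upwards [hcore', hbig, lc_ne θ hθ _ F r₀ C₁ hr₀ hnear (8 * C + 1) (by linarith), eventually_ge_atTop 3] with l hco hbg hlc hl3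
  rintro ⟨P', Q, u, v, x, y, huv, hu, hv, hP, hQ, hcz, ht, hval, hh⟩
  have hlc' := hlc P' Q u x y hP hQ hcz hval
  obtain ⟨hx, hy, -, -⟩ := hcz x y hP hQ
  obtain ⟨L, hfd, hgal, x', hx', hBig⟩ := exists_big F ![x, y] (by
    intro j
    fin_cases j
    · exact hx
    · exact hy) hlc' ((l ^ 4) ^ 4)
  have hx0 : ((x' 0 : L) : ℂ) = x := hx' 0
  have hx1 : ((x' 1 : L) : ℂ) = y := hx' 1
  subst hx0 hx1
  have hα : ∀ w : ℕ, (((x' 0 + w * x' 1 : L)) : ℂ) = (x' 0 : ℂ) + w * (x' 1 : ℂ) := by intro w; push_cast; ring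
  have hl3' : (3 : ℝ) ≤ l := by exact_mod_cast hl3
  have hl0 : (0 : ℝ) < l := by linarith
  have hlog : 0 < Real.log l := Real.log_pos (by linarith)
  have hgc : ∀ (g : L ≃ₐ[ℚ] L) (w : ℕ), ((g (x' 0 + w * x' 1) : L) : ℂ) = ((g (x' 0) : L) : ℂ) + w * ((g (x' 1) : L) : ℂ) := by
    intro g w
    simp
  have hc := hco L x' hBig u v huv (by rw [← pow_mul]; exact hu) (by rw [← pow_mul]; exact hv) (by
    intro g j
    have h1 := hcz ((g (x' 0) : L) : ℂ) ((g (x' 1) : L) : ℂ) (m8_conj L P' g _ _ hP) (m8_conj L Q g _ _ hQ)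
    rw [hgc g u]
    push_cast
    rw [← pow_mul]
    unfold cj
    fin_cases j
    · exact h1.2.2.1
    · exact h1.2.2.2)
  rw [← hα u] at ht hval hh
  rw [← hα v] at hh
  have halg : IsAlgebraic ℚ (((x' 0 + u * x' 1 : L)) : ℂ) := by
    have := IsAlgebraic.of_finite ℚ (x' 0 + u * x' 1 : L)
    exact (isAlgebraic_algebraMap_iff (algebraMap L ℂ).injective).mpr this
  obtain ⟨hirr, hdeg, -⟩ := mz_spec _ halg
  have hne : aeval (θ 0 + u * θ 1) (mz (((x' 0 + u * x' 1 : L)) : ℂ)) ≠ 0 := lin_ne θ hθ u _ hirr.ne_zero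
  have hcs := conj_sum L (x' 0 + u * x' 1) (θ 0 + u * θ 1) hne (((l ^ 4 : ℕ) : ℝ) ^ 4) (by positivity)
  set m := mz (((x' 0 + u * x' 1 : L)) : ℂ) with hm_def
  have hMM : 0 ≤ Real.log (MM m) := Real.log_nonneg (one_le_MM _ hirr.ne_zero)
  have hdeg' : (1 : ℝ) ≤ m.natDegree := by exact_mod_cast hdeg
  set t : ℝ := m.natDegree + Real.log (MM m) with ht_def
  have ht0 : 0 < t := by linarith
  have hG0 : (0 : ℝ) < Fintype.card (L ≃ₐ[ℚ] L) := by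
    have : 0 < Fintype.card (L ≃ₐ[ℚ] L) := Fintype.card_pos
    exact_mod_cast this
  set S : ℝ := ∑ g : L ≃ₐ[ℚ] L, min (((l ^ 4 : ℕ) : ℝ) ^ 4) (lp ‖((g (x' 0 + u * x' 1) : L) : ℂ) - (θ 0 + u * θ 1)‖) with hS_def
  have hh2 : m.natDegree * (1 + hgt ((x' 0 + u * x' 1 : L) : ℂ) + hgt ((x' 0 + v * x' 1 : L) : ℂ)) ≤ 2 * t := by
    have h1 : (m.natDegree : ℝ) * hgt ((x' 0 + u * x' 1 : L) : ℂ) = Real.log (MM m) := by
      unfold hgt
      rw [← hm_def]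
      field_simp
    have h2 : (m.natDegree : ℝ) * hgt ((x' 0 + v * x' 1 : L) : ℂ) ≤ m.natDegree * hgt ((x' 0 + u * x' 1 : L) : ℂ) :=
      mul_le_mul_of_nonneg_left hh (by positivity)
    rw [h1] at h2
    rw [ht_def]
    linarith [mul_add (m.natDegree : ℝ) (1 + hgt ((x' 0 + u * x' 1 : L) : ℂ)) (hgt ((x' 0 + v * x' 1 : L) : ℂ)),
      mul_add (m.natDegree : ℝ) 1 (hgt ((x' 0 + u * x' 1 : L) : ℂ))]
  have hS : (m.natDegree : ℝ) * S ≤ Fintype.card (L ≃ₐ[ℚ] L) * (8 * C * l ^ 4 * Real.log l * t) := by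
    have hlogE : Real.log ((l ^ 4 : ℕ) : ℝ) = 4 * Real.log l := by
      push_cast
      rw [Real.log_pow]
      push_cast
      ring
    rw [hlogE] at hc
    push_cast at hc
    have hnn : 0 ≤ C * Fintype.card (L ≃ₐ[ℚ] L) * (l : ℝ) ^ 4 * (4 * Real.log l) := by positivity
    calc (m.natDegree : ℝ) * S ≤ m.natDegree * (C * Fintype.card (L ≃ₐ[ℚ] L) * (l : ℝ) ^ 4 * (4 * Real.log l) *
          (1 + hgt ((x' 0 + u * x' 1 : L) : ℂ) + hgt ((x' 0 + v * x' 1 : L) : ℂ))) := by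
          refine mul_le_mul_of_nonneg_left ?_ (by positivity)
          push_cast
          exact hc
      _ = C * Fintype.card (L ≃ₐ[ℚ] L) * (l : ℝ) ^ 4 * (4 * Real.log l) *
          (m.natDegree * (1 + hgt ((x' 0 + u * x' 1 : L) : ℂ) + hgt ((x' 0 + v * x' 1 : L) : ℂ))) := by ring
      _ ≤ C * Fintype.card (L ≃ₐ[ℚ] L) * (l : ℝ) ^ 4 * (4 * Real.log l) * (2 * t) := mul_le_mul_of_nonneg_left hh2 hnn
      _ = _ := by ring
  rcases hcs with h | h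
  · have h1 := le_of_mul_le_mul_left (h.trans hS) hG0
    have h2 := Real.log_le_log (norm_pos_iff.mpr hne) hval
    rw [Real.log_exp] at h2
    have h3 : 0 < l ^ 4 * Real.log l * t := by positivity
    nlinarith
  · have h1 := le_of_mul_le_mul_left (h.trans hS) hG0
    have h2 : 8 * C * l ^ 4 * Real.log l * t ≤ 8 * C * l ^ 4 * Real.log l * l ^ 11 :=
      mul_le_mul_of_nonneg_left ht (by positivity)
    have h3 : (8 * C * Real.log l) * l ^ 15 < l * l ^ 15 := mul_lt_mul_of_pos_right hbg (by positivity)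
    push_cast at h1
    have h4 : (l : ℝ) * l ^ 15 = (l ^ 4) ^ 4 := by ring
    have h5 : 8 * C * (l : ℝ) ^ 4 * Real.log l * l ^ 11 = (8 * C * Real.log l) * l ^ 15 := by ring
    linarith

end Pool.Agent.MSL
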