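import Pool.Agent.Lib.MP_f58a57_nt.L.Defs2

/-! # L/S2_Eq: the equations of the parameters -/

open Polynomial IntermediateField

noncomputable section

namespace Pool.Agent.MSL

open MSD MSP

theorem s2_min {A : Type} [CommRing A] [IsDomain A] [CharZero A] (φ : A →+* ℂ) (hφ : Function.Injective φ) (ω : ℂ)
    (h : ∃ p : A[X], p ≠ 0 ∧ (p.map φ).eval ω = 0) :
    ∃ F : A[X], φ F.leadingCoeff ≠ 0 ∧ (F.map φ).eval ω = 0 ∧ (derivative (F.map φ)).eval ω ≠ 0 := by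
  obtain ⟨F, ⟨hF0, hFω⟩, hmin⟩ := WellFounded.has_min (measure (Polynomial.natDegree : A[X] → ℕ)).wf
    {p : A[X] | p ≠ 0 ∧ (p.map φ).eval ω = 0} h
  have hlc : φ F.leadingCoeff ≠ 0 := by
    intro h0
    apply hF0
    rw [← Polynomial.leadingCoeff_eq_zero]
    apply hφ
    rw [h0, map_zero]
  refine ⟨F, hlc, hFω, ?_⟩
  intro hd
  have hdeg : F.natDegree ≠ 0 := by
    intro h0
    obtain ⟨c, hc⟩ := Polynomial.natDegree_eq_zero.1 h0
    rw [← hc, Polynomial.map_C, Polynomial.eval_C] at hFω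
    rw [← hc, Polynomial.leadingCoeff_C] at hlc
    exact hlc hFω
  have hd0 : derivative F ≠ 0 := by
    intro h0
    exact hdeg (Polynomial.derivative_eq_zero.1 h0)
  have hdω : ((derivative F).map φ).eval ω = 0 := by
    rw [← Polynomial.derivative_map]
    exact hd
  exact hmin (derivative F) ⟨hd0, hdω⟩ (Polynomial.natDegree_derivative_lt hdeg)

theorem s2_inj (θ : Fin 2 → ℂ) (hθ : AlgebraicIndependent ℚ θ) :
    Function.Injective (MvPolynomial.aeval θ : MvPolynomial (Fin 2) ℤ →ₐ[ℤ] ℂ) :=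
  (hθ.restrictScalars (R := ℤ) (RingHom.injective_int (algebraMap ℤ ℚ)) : AlgebraicIndependent ℤ θ)

theorem s2_alg (θ : Fin 2 → ℂ) (hθ : AlgebraicIndependent ℚ θ) (ω : ℂ) (hω : IsAlgebraic (adjoin ℚ (Set.range θ)) ω) :
    ∃ p : FP, p ≠ 0 ∧ (p.map (MvPolynomial.aeval θ : MvPolynomial (Fin 2) ℤ →ₐ[ℤ] ℂ).toRingHom).eval ω = 0 := by
  let φ : MvPolynomial (Fin 2) ℤ →+* ℂ := (MvPolynomial.aeval θ : MvPolynomial (Fin 2) ℤ →ₐ[ℤ] ℂ).toRingHom
  have hmem : ∀ j, θ j ∈ adjoin ℚ (Set.range θ) := fun j => IntermediateField.subset_adjoin ℚ _ ⟨j, rfl⟩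
  let ψ : MvPolynomial (Fin 2) ℤ →+* adjoin ℚ (Set.range θ) :=
    (MvPolynomial.aeval (fun j => (⟨θ j, hmem j⟩ : adjoin ℚ (Set.range θ))) :
      MvPolynomial (Fin 2) ℤ →ₐ[ℤ] adjoin ℚ (Set.range θ)).toRingHom
  let _ : Algebra (MvPolynomial (Fin 2) ℤ) ℂ := φ.toAlgebra
  let _ : Algebra (MvPolynomial (Fin 2) ℤ) (adjoin ℚ (Set.range θ)) := ψ.toAlgebra
  have hφψ : ∀ r, φ r = algebraMap (adjoin ℚ (Set.range θ)) ℂ (ψ r) := by
    intro r
    have h1 : (MvPolynomial.aeval θ : MvPolynomial (Fin 2) ℤ →ₐ[ℤ] ℂ) =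
        ((IntermediateField.val (adjoin ℚ (Set.range θ))).restrictScalars ℤ).comp
          (MvPolynomial.aeval (fun j => (⟨θ j, hmem j⟩ : adjoin ℚ (Set.range θ)))) := by
      apply MvPolynomial.algHom_ext
      intro i
      rw [MvPolynomial.aeval_X, AlgHom.comp_apply, MvPolynomial.aeval_X]
      rfl
    exact congrArg (fun f : MvPolynomial (Fin 2) ℤ →ₐ[ℤ] ℂ => f r) h1
  have : IsScalarTower (MvPolynomial (Fin 2) ℤ) (adjoin ℚ (Set.range θ)) ℂ :=
    IsScalarTower.of_algebraMap_eq hφψ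
  have hinj : Function.Injective (algebraMap (MvPolynomial (Fin 2) ℤ) ℂ) := s2_inj θ hθ
  have : FaithfulSMul (MvPolynomial (Fin 2) ℤ) ℂ := (faithfulSMul_iff_algebraMap_injective _ _).2 hinj
  have hall : ∀ x ∈ adjoin ℚ (Set.range θ), IsAlgebraic (MvPolynomial (Fin 2) ℤ) x := by
    intro x hx
    induction hx using IntermediateField.adjoin_induction with
    | mem x hx =>
      obtain ⟨j, rfl⟩ := hx
      have h1 : θ j = algebraMap (MvPolynomial (Fin 2) ℤ) ℂ (MvPolynomial.X j) :=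
        (MvPolynomial.aeval_X θ j).symm
      rw [h1]
      exact isAlgebraic_algebraMap _
    | algebraMap q =>
      have h1 : (algebraMap ℚ ℂ) q = algebraMap (MvPolynomial (Fin 2) ℤ) ℂ (MvPolynomial.C q.num) *
          (algebraMap (MvPolynomial (Fin 2) ℤ) ℂ (MvPolynomial.C (q.den : ℤ)))⁻¹ := by
        have h2 : ∀ z : ℤ, algebraMap (MvPolynomial (Fin 2) ℤ) ℂ (MvPolynomial.C z) = (z : ℂ) := by
          intro z
          have h3 : (MvPolynomial.aeval θ : MvPolynomial (Fin 2) ℤ →ₐ[ℤ] ℂ) (MvPolynomial.C z) = algebraMap ℤ ℂ z :=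
            MvPolynomial.aeval_C θ z
          exact h3
        rw [h2, h2, ← div_eq_mul_inv]
        have h4 : (algebraMap ℚ ℂ) q = (q : ℂ) := rfl
        rw [h4, Rat.cast_def]
        norm_cast
      rw [h1]
      exact (isAlgebraic_algebraMap _).mul (isAlgebraic_algebraMap _).inv
    | add x y _ _ hx hy => exact hx.add hy
    | inv x _ hx => exact hx.inv
    | mul x y _ _ hx hy => exact hx.mul hy
  have : Algebra.IsAlgebraic (MvPolynomial (Fin 2) ℤ) (adjoin ℚ (Set.range θ)) := by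
    constructor
    intro x
    have h1 := hall (x : ℂ) x.2
    exact (isAlgebraic_algebraMap_iff (algebraMap (adjoin ℚ (Set.range θ)) ℂ).injective).1 h1
  have hω' : IsAlgebraic (MvPolynomial (Fin 2) ℤ) ω := hω.restrictScalars _
  obtain ⟨p, hp0, hp⟩ := hω'
  refine ⟨p, hp0, ?_⟩
  rw [Polynomial.aeval_def, Polynomial.eval₂_eq_eval_map] at hp
  exact hp

/-- S2a. PROOF. `ω` is algebraic over `ℚ(θ 0, θ 1)`, the fraction field of `ℤ[θ 0, θ 1] ≅ MvPolynomial (Fin 2) ℤ` (injective by algebraic independence; `MvPolynomial.map (Int.castRingHom ℚ)` injective): clear denominators to get `F : FP` with `spv θ F ≠ 0`, `(spv θ F).eval ω = 0`; choose such an `F`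
of minimal `natDegree` (`Nat.find`). `aeval θ F.leadingCoeff ≠ 0` because `F ≠ 0` and `θ` is algebraically independent. The derivative `F' = derivative F` satisfies `spv θ F' = derivative (spv θ F)`, it is `≠ 0` (`natDegree F ≥ 1` as a nonzero constant has no root; characteristic `0`) and has smaller
degree, so it does not vanish at `ω`. -/
theorem exists_eq (θ : Fin 2 → ℂ) (hθ : AlgebraicIndependent ℚ θ) (ω : ℂ) (hω : IsAlgebraic (adjoin ℚ (Set.range θ)) ω) :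
    ∃ F : FP, MvPolynomial.aeval θ F.leadingCoeff ≠ 0 ∧ (spv θ F).eval ω = 0 ∧ (derivative (spv θ F)).eval ω ≠ 0 :=
  s2_min (MvPolynomial.aeval θ : MvPolynomial (Fin 2) ℤ →ₐ[ℤ] ℂ).toRingHom (s2_inj θ hθ) ω (s2_alg θ hθ ω hω)

/-- S2b. PROOF. A nonzero integer polynomial `f` of minimal degree with root `ω`; `F = f.map C` (`spv x F = f.map (Int.castRingHom ℂ)` for all `x`). -/
theorem exists_eq_const (ω : ℂ) (hω : IsAlgebraic ℚ ω) :
    ∃ F : FP, (∀ x : Fin 2 → ℂ, MvPolynomial.aeval x F.leadingCoeff ≠ 0 ∧ (spv x F).eval ω = 0 ∧ (derivative (spv x F)).eval ω ≠ 0) := by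
  have h1 : IsAlgebraic ℤ ω := (IsFractionRing.isAlgebraic_iff ℤ ℚ ℂ).2 hω
  obtain ⟨p, hp0, hp⟩ := h1
  rw [Polynomial.aeval_def, Polynomial.eval₂_eq_eval_map] at hp
  obtain ⟨f, hf1, hf2, hf3⟩ := s2_min (algebraMap ℤ ℂ) (RingHom.injective_int (algebraMap ℤ ℂ)) ω ⟨p, hp0, hp⟩
  refine ⟨f.map MvPolynomial.C, ?_⟩
  intro x
  have h2 : spv x (f.map (MvPolynomial.C : ℤ →+* MvPolynomial (Fin 2) ℤ)) = f.map (algebraMap ℤ ℂ) := by
    unfold spv
    rw [Polynomial.map_map]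
    congr 1
    exact RingHom.ext_int _ _
  rw [h2]
  refine ⟨?_, hf2, hf3⟩
  rw [Polynomial.leadingCoeff_map_of_injective (MvPolynomial.C_injective (Fin 2) ℤ), MvPolynomial.aeval_C]
  exact hf1

/-- S2c. PROOF. S2a for `i = 0, 1, 2`, S2b for `i = 3, 4`. -/
theorem exists_FD (θ : Fin 2 → ℂ) (hθ : AlgebraicIndependent ℚ θ) (ω : Fin 5 → ℂ) (h0 : ∀ i : Fin 5, i.val < 3 → IsAlgebraic (adjoin ℚ (Set.range θ)) (ω i))
    (h1 : ∀ i : Fin 5, 3 ≤ i.val → IsAlgebraic ℚ (ω i)) : ∃ F : Fin 5 → FP, FD θ ω F := by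
  have h2 : ∀ i : Fin 5, ∃ F : FP, MvPolynomial.aeval θ F.leadingCoeff ≠ 0 ∧ (spv θ F).eval (ω i) = 0 ∧
      (derivative (spv θ F)).eval (ω i) ≠ 0 ∧ (3 ≤ i.val → ∀ x : Fin 2 → ℂ, (spv x F).eval (ω i) = 0) := by
    intro i
    by_cases hi : i.val < 3
    · obtain ⟨F, hF1, hF2, hF3⟩ := exists_eq θ hθ (ω i) (h0 i hi)
      exact ⟨F, hF1, hF2, hF3, fun h => absurd hi (by omega)⟩
    · obtain ⟨F, hF⟩ := exists_eq_const (ω i) (h1 i (by omega))
      exact ⟨F, (hF θ).1, (hF θ).2.1, (hF θ).2.2, fun _ x => (hF x).2.1⟩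
  choose F hF1 hF2 hF3 hF4 using h2
  exact ⟨F, ⟨hF1, hF2, hF3, hF4 3 (by decide), hF4 4 (by decide)⟩⟩

end Pool.Agent.MSL
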