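import Pool.Agent.Lib.MP_f58a57_nt.L.A12_Main
import Pool.Agent.Lib.MP_f58a57_nt.L.S2_Eq
import Pool.Agent.Lib.MP_f58a57_nt.L.M8_Contra
import Pool.Agent.Lib.MP_f58a57_nt.K.G6_Par
import Pool.Agent.Lib.MP_f58a57_nt.K.G6b_Orig
import Pool.Agent.Lib.MP_f58a57_nt.K.G6c_Alg

/-! # L/M9_Final: the theorem -/

open Filter IntermediateField Complex

noncomputable section

namespace Pool.Agent.MSL

open MSD MSP MSK MSR

theorem m9_mz_ne (α : ℂ) : mz α ≠ 0 := by
  unfold mz
  split_ifs with h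
  · exact h.choose_spec.1.ne_zero
  · exact Polynomial.X_ne_zero

theorem m9_mono (θ : Fin 2 → ℂ) (l : ℕ) (K K' : ℝ) (hK : K' ≤ K) (h : Appr θ l K) : Appr θ l K' := by
  obtain ⟨P, Q, u, v, x, y, h1, h2, h3, h4, h5, h6, h7, h8, h9⟩ := h
  refine ⟨P, Q, u, v, x, y, h1, h2, h3, h4, h5, h6, h7, h8.trans ?_, h9⟩
  apply Real.exp_le_exp.2
  apply neg_le_neg
  have hM : 0 ≤ Real.log (MM (mz (x + u * y))) := Real.log_nonneg (one_le_MM _ (m9_mz_ne _))
  have hl : 0 ≤ Real.log (l : ℝ) := Real.log_natCast_nonneg l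
  have hn : (0 : ℝ) ≤ (mz (x + u * y)).natDegree := Nat.cast_nonneg _
  gcongr

/-- M9a. PROOF. `K ≥` both constants of `not_appr` for `θ` and for `![θ 1, θ 0]` (`Appr` is monotone in `K`: the exponent is `≤`, as `l^4 log l (..) ≥ 0`; so `Appr θ l K → Appr θ l K'` for `K' ≤ K`); `appr_main`. `F` and `F'` from `exists_FD` for both (`Set.range ![θ 1, θ 0] = Set.range θ`, algebraically independent by `AlgebraicIndependent.comp`
with the swap). -/
theorem no_theta (P : Par 2) (hD : DetSmall P) (hZ : ZeroEst P) (hj : deriv jj P.z ≠ 0) (om kap : ℂ) (hom : om ^ 2 = Real.pi) (hkap : kap = sE P.z / Real.pi)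
    (θ : Fin 2 → ℂ) (hθ : AlgebraicIndependent ℚ θ)
    (hal : ∀ i : Fin 5, i.val < 3 → IsAlgebraic (adjoin ℚ (Set.range θ)) (par5 P.z P.z om kap i)) : False := by
  have h1 : ∀ i : Fin 5, 3 ≤ i.val → IsAlgebraic ℚ (par5 P.z P.z om kap i) := by
    intro i hi
    have h2 : i = 3 ∨ i = 4 := by
      have := i.2
      have h3 : i.val = 3 ∨ i.val = 4 := by omega
      rcases h3 with h3 | h3
      · left; exact Fin.ext h3
      · right; exact Fin.ext h3
    rcases h2 with h2 | h2
    · rw [h2]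
      exact g6c_z P
    · rw [h2]
      change IsAlgebraic ℚ (-I / 2)
      refine ⟨Polynomial.C 4 * Polynomial.X ^ 2 + Polynomial.C 1, ?_, ?_⟩
      · intro h0
        have h3 := congrArg (fun q => Polynomial.coeff q 2) h0
        simp [Polynomial.coeff_one] at h3
      · simp only [map_add, map_mul, map_pow, Polynomial.aeval_X, map_ofNat, map_one]
        ring_nf
        rw [Complex.I_sq]
        ring
  obtain ⟨F, hF⟩ := exists_FD θ hθ (par5 P.z P.z om kap) hal h1
  have hrange : Set.range ![θ 1, θ 0] = Set.range θ := by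
    ext t
    constructor
    · rintro ⟨i, rfl⟩
      fin_cases i
      · exact ⟨1, rfl⟩
      · exact ⟨0, rfl⟩
    · rintro ⟨i, rfl⟩
      fin_cases i
      · exact ⟨1, rfl⟩
      · exact ⟨0, rfl⟩
  have hθ' : AlgebraicIndependent ℚ ![θ 1, θ 0] := by
    have h2 := hθ.comp (Equiv.swap (0 : Fin 2) 1) (Equiv.injective _)
    have h3 : θ ∘ (Equiv.swap (0 : Fin 2) 1) = ![θ 1, θ 0] := by
      funext i
      fin_cases i
      · simp
      · simp
    rwa [h3] at h2
  have hal' : ∀ i : Fin 5, i.val < 3 → IsAlgebraic (adjoin ℚ (Set.range ![θ 1, θ 0])) (par5 P.z P.z om kap i) := by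
    rw [hrange]
    exact hal
  obtain ⟨F', hF'⟩ := exists_FD ![θ 1, θ 0] hθ' (par5 P.z P.z om kap) hal' h1
  obtain ⟨K, hK, hKe⟩ := not_appr P hD hZ hj om kap hom hkap θ hθ F hF
  obtain ⟨K', hK', hKe'⟩ := not_appr P hD hZ hj om kap hom hkap ![θ 1, θ 0] hθ' F' hF'
  have h3 := appr_main θ hθ (max K K')
  obtain ⟨l, hl1, hl2, hl3⟩ := (hKe.and (hKe'.and h3)).exists
  rcases hl3 with h4 | h4
  · exact hl1 (m9_mono θ l _ K (le_max_left _ _) h4)
  · exact hl2 (m9_mono ![θ 1, θ 0] l _ K' (le_max_right _ _) h4)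

/-- M9b. PROOF. As in `vals_alg` (K/G6c_Alg) with an arbitrary field `K` instead of `ℚ⟮θ⟯`: `a4`, `a6`, `a2` there; `par5 .. 0 = (2/3) π⁴ e4/om⁴ = (2/3) π² e4`, `par5 .. 1 = kap = (π/3) e2`, `par5 .. 2 = (8/27) π⁶ e6/om⁶ = (8/27) π³ e6`. (`MSN.gm_algI`, `MSN.gm_algZ`, `MSN.gm_alg` are stated for any intermediate field; check.) -/
theorem par_alg (K : IntermediateField ℚ ℂ) (z om kap : ℂ) (hz : 0 < z.im) (hj : deriv jj z ≠ 0) (hom : om ^ 2 = Real.pi) (hkap : kap = sE z / Real.pi)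
    (h0 : IsAlgebraic K (jj z)) (h1 : IsAlgebraic K (deriv jj z)) (h2 : IsAlgebraic K (deriv (deriv jj) z)) (i : Fin 5) (hi : i.val < 3) :
    IsAlgebraic K (par5 z z om kap i) := by
  have hpi : (Real.pi : ℂ) ≠ 0 := by exact_mod_cast Real.pi_ne_zero
  have hom0 : om ≠ 0 := by
    intro h
    rw [h] at hom
    exact hpi (by rw [← hom]; ring)
  have hΩ : om⁻¹ ≠ 0 := inv_ne_zero hom0
  have hπ : (Real.pi : ℂ) * om⁻¹ ^ 2 = 1 := by
    rw [inv_pow, hom]
    exact mul_inv_cancel₀ hpi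
  have tI := MSN.gm_algI K
  have tZ := MSN.gm_algZ K
  have t2 : IsAlgebraic K (2 : ℂ) := by simpa using tZ 2
  have t3 : IsAlgebraic K (3 : ℂ) := by simpa using tZ 3
  have t4 : IsAlgebraic K (4 : ℂ) := by simpa using tZ 4
  have t6 : IsAlgebraic K (6 : ℂ) := by simpa using tZ 6
  have t8 : IsAlgebraic K (8 : ℂ) := by simpa using tZ 8
  have t27 : IsAlgebraic K (27 : ℂ) := by simpa using tZ 27
  have t1728 : IsAlgebraic K (1728 : ℂ) := by simpa using tZ 1728
  have e4' : om ^ 4 = Real.pi ^ 2 := by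
    rw [← hom]; ring
  have e6' : om ^ 6 = Real.pi ^ 3 := by
    rw [← hom]; ring
  have a4 : IsAlgebraic K (Real.pi ^ 2 * e4 z) := by
    have h := link4 z om⁻¹ hz hΩ hj
    rw [hπ, inv_pow, div_inv_eq_mul, e4', mul_comm] at h
    rw [h, one_pow, mul_one]
    exact MSN.gm_alg _ (h1.pow 2).neg ((t4.mul h0).mul (h0.sub t1728))
  have a6 : IsAlgebraic K (Real.pi ^ 3 * e6 z) := by
    have h := link6 z om⁻¹ hz hΩ hj
    rw [hπ, inv_pow, div_inv_eq_mul, inv_pow, div_inv_eq_mul, e4', e6', mul_comm, mul_comm (e4 z)] at h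
    rw [h, mul_one]
    exact a4.mul (MSN.gm_alg _ h1.neg ((t2.mul tI).mul h0))
  have a2 : IsAlgebraic K (Real.pi * e2 z) := by
    have h := MSN.link2' z om⁻¹ hz hΩ hj
    rw [hπ, inv_pow, div_inv_eq_mul, inv_pow, div_inv_eq_mul, inv_pow, div_inv_eq_mul, hom, e4', e6', mul_comm,
      mul_comm (e4 z), mul_comm (e6 z)] at h
    rw [h, mul_one]
    refine t6.mul (((MSN.gm_alg _ (MSN.gm_alg _ h2 h1) (t2.mul tI)).add ((MSN.gm_alg _ t2 t3).mul (MSN.gm_alg _ a6 a4))).add
      (MSN.gm_alg _ (a4.pow 2) (t2.mul a6)))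
  have hi3 : i = 0 ∨ i = 1 ∨ i = 2 := by
    have h3 : i.val = 0 ∨ i.val = 1 ∨ i.val = 2 := by omega
    rcases h3 with h3 | h3 | h3
    · left; exact Fin.ext h3
    · right; left; exact Fin.ext h3
    · right; right; exact Fin.ext h3
  rcases hi3 with h3 | h3 | h3
  · rw [h3]
    change IsAlgebraic K (2 / 3 * Real.pi ^ 4 * e4 z / om ^ 4)
    have h : 2 / 3 * (Real.pi : ℂ) ^ 4 * e4 z / om ^ 4 = 2 / 3 * (Real.pi ^ 2 * e4 z) := by
      rw [e4']
      field_simp
    rw [h]
    exact (MSN.gm_alg _ t2 t3).mul a4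
  · rw [h3]
    change IsAlgebraic K kap
    have h : kap = Real.pi * e2 z / 3 := by
      rw [hkap]
      unfold sE
      field_simp
    rw [h]
    exact MSN.gm_alg _ a2 t3
  · rw [h3]
    change IsAlgebraic K (8 / 27 * Real.pi ^ 6 * e6 z / om ^ 6)
    have h : 8 / 27 * (Real.pi : ℂ) ^ 6 * e6 z / om ^ 6 = 8 / 27 * (Real.pi ^ 3 * e6 z) := by
      rw [e6']
      field_simp
    rw [h]
    exact (MSN.gm_alg _ t8 t27).mul a6

/-- from a subalgebra to an intermediate field -/
theorem m9_up (s : Set ℂ) (K : IntermediateField ℚ ℂ) (hs : s ⊆ K) (x : ℂ) (hx : IsAlgebraic (Algebra.adjoin ℚ s) x) :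
    IsAlgebraic K x := by
  have hle : Algebra.adjoin ℚ s ≤ K.toSubalgebra := Algebra.adjoin_le hs
  obtain ⟨p, hp0, hp⟩ := hx
  let φ : Algebra.adjoin ℚ s →+* K := (Subalgebra.inclusion hle).toRingHom
  have hφ : Function.Injective φ := fun a b h => by
    have h1 := congrArg Subtype.val h
    exact Subtype.ext h1
  refine ⟨p.map φ, (Polynomial.map_ne_zero_iff hφ).2 hp0, ?_⟩
  rw [Polynomial.aeval_def, Polynomial.eval₂_map]
  rw [Polynomial.aeval_def] at hp
  exact hp

/-- M9c. PROOF. Let `B` be a transcendence basis of `ℂ/ℚ` which contains a maximal algebraically independent subset `s` of `{a, b, c}` (`exists_isTranscendenceBasis..`); `s` has at most two elements, `B` is infinite (`ℂ` is uncountable, an algebraic extension of `ℚ(B)` with `B` finite or countable would be countable: `Algebra.trdeg`, or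
`Cardinal` lemmas; alternatively: a Liouville-type argument is not needed). So there is `θ : Fin 2 → ℂ` injective into `B` with `s ⊆ range θ`: algebraically independent, and `a, b, c` are algebraic over `ℚ(s) ⊆ ℚ(range θ)` (maximality of `s`). -/
theorem two_theta (a b c : ℂ) (h : ¬ AlgebraicIndependent ℚ ![a, b, c]) : ∃ θ : Fin 2 → ℂ, AlgebraicIndependent ℚ θ ∧
    IsAlgebraic (adjoin ℚ (Set.range θ)) a ∧ IsAlgebraic (adjoin ℚ (Set.range θ)) b ∧ IsAlgebraic (adjoin ℚ (Set.range θ)) c := by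
  obtain ⟨s, -, hs⟩ := exists_maximal_algebraicIndependent (R := ℚ) (A := ℂ) ∅ {a, b, c} (Set.empty_subset _)
    ((algebraicIndependent_empty_iff ℚ ℂ).mpr (FaithfulSMul.algebraMap_injective ℚ ℂ))
  have hsind : AlgebraicIndepOn ℚ id s := hs.1.1
  have hsub : s ⊆ {a, b, c} := hs.1.2
  have halg : ∀ x ∈ ({a, b, c} : Set ℂ), IsAlgebraic (Algebra.adjoin ℚ s) x := by
    intro x hx
    by_contra hcon
    have h1 : AlgebraicIndepOn ℚ id (insert x s) := by
      refine AlgebraicIndepOn.insert hsind ?_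
      rw [Set.image_id]
      exact hcon
    have h2 : insert x s ⊆ s := hs.2 ⟨h1, Set.insert_subset hx hsub⟩ (Set.subset_insert x s)
    have h3 : x ∈ s := h2 (Set.mem_insert x s)
    exact hcon (isAlgebraic_algebraMap (⟨x, Algebra.subset_adjoin h3⟩ : Algebra.adjoin ℚ s))
  have hfin : ({a, b, c} : Set ℂ).Finite := Set.toFinite _
  have hsfin : s.Finite := hfin.subset hsub
  have hcard : s.ncard ≤ 2 := by
    by_contra hcon
    push Not at hcon
    have hpair : ∀ p q : ℂ, ({p, q} : Set ℂ).ncard ≤ 2 := by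
      intro p q
      have h1 := Set.ncard_insert_le p {q}
      rw [Set.ncard_singleton] at h1
      exact h1
    have h3 : ({a, b, c} : Set ℂ).ncard ≤ 3 := by
      have h1 := Set.ncard_insert_le a {b, c}
      have h2 := hpair b c
      omega
    have hle : ∀ T : Set ℂ, T.ncard ≤ 2 → s ⊆ T → T.Finite → False := by
      intro T hT hsT hTf
      have h1 := Set.ncard_le_ncard hsT hTf
      omega
    have hab : a ≠ b := by
      intro he
      refine hle {b, c} (hpair b c) ?_ (Set.toFinite _)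
      rw [he] at hsub
      simpa using hsub
    have hac : a ≠ c := by
      intro he
      refine hle {b, c} (hpair b c) ?_ (Set.toFinite _)
      intro t ht
      rcases hsub ht with h4 | h4 | h4
      · rw [h4, he]; simp
      · rw [h4]; simp
      · rw [h4]; simp
    have hbc : b ≠ c := by
      intro he
      refine hle {a, c} (hpair a c) ?_ (Set.toFinite _)
      intro t ht
      rcases hsub ht with h4 | h4 | h4
      · rw [h4]; simp
      · rw [h4, he]; simp
      · rw [h4]; simp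
    have hseq : s = {a, b, c} := Set.eq_of_subset_of_ncard_le hsub (by omega) hfin
    apply h
    have ha : a ∈ s := by rw [hseq]; simp
    have hb : b ∈ s := by rw [hseq]; simp
    have hc : c ∈ s := by rw [hseq]; simp
    have h1 := AlgebraicIndependent.comp hsind (![⟨a, ha⟩, ⟨b, hb⟩, ⟨c, hc⟩] : Fin 3 → s) (by
      intro i j hij
      have hij' := congrArg Subtype.val hij
      fin_cases i <;> fin_cases j
      · rfl
      · exact absurd hij' hab
      · exact absurd hij' hac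
      · exact absurd hij' hab.symm
      · rfl
      · exact absurd hij' hbc
      · exact absurd hij' hac.symm
      · exact absurd hij' hbc.symm
      · rfl)
    have h2 : ((fun i : s => id (i : ℂ)) ∘ (![⟨a, ha⟩, ⟨b, hb⟩, ⟨c, hc⟩] : Fin 3 → s)) = ![a, b, c] := by
      funext i
      fin_cases i <;> rfl
    rwa [h2] at h1
  have hB := exists_isTranscendenceBasis_superset hsind
  obtain ⟨B, hsB, hB⟩ := hB
  have hBinf : B.Infinite := by
    intro hBf
    have h1 := IsAlgClosed.cardinal_eq_cardinal_transcendence_basis_of_aleph0_lt' (Subtype.val : B → ℂ) hB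
      (Cardinal.mk_le_aleph0) (by rw [Cardinal.mk_complex]; exact Cardinal.aleph0_lt_continuum)
    have h2 : Cardinal.mk B < Cardinal.aleph0 := Cardinal.lt_aleph0_iff_set_finite.2 hBf
    rw [← h1, Cardinal.mk_complex] at h2
    exact absurd h2 (not_lt.2 Cardinal.aleph0_lt_continuum.le)
  obtain ⟨u, hsu, huB, hu2⟩ := hBinf.exists_superset_ncard_eq hsB hsfin hcard
  obtain ⟨x, y, hxy, huxy⟩ := Set.ncard_eq_two.1 hu2
  have hxB : x ∈ B := huB (by rw [huxy]; simp)
  have hyB : y ∈ B := huB (by rw [huxy]; simp)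
  refine ⟨![x, y], ?_, ?_⟩
  · have h1 := hB.1.comp (![⟨x, hxB⟩, ⟨y, hyB⟩] : Fin 2 → B) (by
      intro i j hij
      fin_cases i <;> fin_cases j
      · rfl
      · exact absurd (congrArg Subtype.val hij) hxy
      · exact absurd (congrArg Subtype.val hij) hxy.symm
      · rfl)
    have h2 : (Subtype.val ∘ (![⟨x, hxB⟩, ⟨y, hyB⟩] : Fin 2 → B)) = ![x, y] := by
      funext i
      fin_cases i <;> rfl
    rwa [h2] at h1
  · have hsr : s ⊆ adjoin ℚ (Set.range ![x, y]) := by
      intro t ht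
      apply IntermediateField.subset_adjoin
      have h1 := hsu ht
      rw [huxy] at h1
      rcases h1 with h1 | h1
      · exact ⟨0, h1.symm⟩
      · exact ⟨1, h1.symm⟩
    exact ⟨m9_up s _ hsr a (halg a (by simp)), m9_up s _ hsr b (halg b (by simp)),
      m9_up s _ hsr c (halg c (by simp))⟩

/-- M9d. PROOF. `exists_par` (K/G6_Par) with `d = 2`, `exists_orig` (only `om`, `kap` are needed: `om = √π`). If not independent: `two_theta`, `par_alg`, `no_theta`. -/
theorem cubic_indep (hD : ∀ P : Par 2, DetSmall P) (hZ : ∀ P : Par 2, ZeroEst P) (z : ℂ) (hz : 0 < z.im) (hj : deriv jj z ≠ 0)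
    (hd : (minpoly ℚ z).natDegree = 3) : AlgebraicIndependent ℚ ![jj z, deriv jj z, deriv (deriv jj) z] := by
  by_contra h
  obtain ⟨P, hP⟩ := exists_par (d := 2) z hz hd
  obtain ⟨D, hDo⟩ := exists_orig P (by norm_num)
  obtain ⟨θ, hθ, ha, hb, hc⟩ := two_theta _ _ _ h
  subst hP
  refine no_theta P (hD P) (hZ P) hj D.om D.kap hDo.om hDo.kap θ hθ fun i hi => ?_
  exact par_alg _ P.z D.om D.kap hz hj hDo.om hDo.kap ha hb hc i hi

end Pool.Agent.MSL
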