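import Pool.Agent.Lib.MP_f58a57_nt.L.M9_Final
import Pool.Agent.Lib.MP_f58a57_nt.U.V7_Final

/-!
# MP_f58a57_nt, cubic points: the theorem
-/

open Complex

noncomputable section

namespace Pool.Agent.MSL

open MSD MSP MSK MSR

theorem detSmall (P : Par 2) : DetSmall P := fun H => MSU.det_small P H

theorem zeroEst (P : Par 2) : ZeroEst P := MSU.zprime P

/-- `j(z), j'(z), j''(z)` are algebraically independent for cubic `z` -/
theorem cubic_points (z : ℂ) (hz : 0 < z.im) (hj : deriv jj z ≠ 0) (hd : (minpoly ℚ z).natDegree = 3) :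
    AlgebraicIndependent ℚ ![jj z, deriv jj z, deriv (deriv jj) z] :=
  cubic_indep detSmall zeroEst z hz hj hd

theorem cubic_trdeg (z : ℂ) (hz : 0 < z.im) (hj : deriv jj z ≠ 0) (hd : (minpoly ℚ z).natDegree = 3) (S : Set ℂ)
    (m0 : jj z ∈ S) (m1 : deriv jj z ∈ S) (m2 : deriv (deriv jj) z ∈ S) :
    (3 : Cardinal) ≤ Algebra.trdeg ℚ (IntermediateField.adjoin ℚ S) := by
  have key := cubic_points z hz hj hd
  have s0 : jj z ∈ IntermediateField.adjoin ℚ S := IntermediateField.subset_adjoin _ _ m0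
  have s1 : deriv jj z ∈ IntermediateField.adjoin ℚ S := IntermediateField.subset_adjoin _ _ m1
  have s2 : deriv (deriv jj) z ∈ IntermediateField.adjoin ℚ S := IntermediateField.subset_adjoin _ _ m2
  have hx : AlgebraicIndependent ℚ ![(⟨jj z, s0⟩ : IntermediateField.adjoin ℚ S), ⟨deriv jj z, s1⟩, ⟨deriv (deriv jj) z, s2⟩] := by
    apply AlgebraicIndependent.of_comp (IntermediateField.val _)
    have e : ((IntermediateField.val (IntermediateField.adjoin ℚ S)) ∘
        ![(⟨jj z, s0⟩ : IntermediateField.adjoin ℚ S), ⟨deriv jj z, s1⟩, ⟨deriv (deriv jj) z, s2⟩]) =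
        ![jj z, deriv jj z, deriv (deriv jj) z] := by
      funext i
      fin_cases i <;> rfl
    rw [e]
    exact key
  have h2 := hx.cardinalMk_le_trdeg
  simpa using h2

end Pool.Agent.MSL
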